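import Pool.Agent.PDT.StC

/-!
# PDT: proof of `St_B1K` (a homomorphism onto the integers)
-/

set_option autoImplicit false
set_option linter.unusedVariables false

namespace Pool.Agent.PDT

open Pool.Agent.PDA Pool.Agent.PDB Pool.Agent.PDE Subgroup Matrix

/-! ### the property `Ext2` -/

section ext

variable {K : Type} [Group K] {d : ℕ} {x : Fin d → K}

theorem b1k_aug_el (g : K) : aug ℤ K (el ℤ g) = 1 := by
  unfold aug el
  rw [MonoidAlgebra.lift_of]
  rfl

theorem b1k_ext_add {f g : Rel ℤ x → ZG K} (hf : Ext2 x f) (hg : Ext2 x g) :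
    Ext2 x (fun y => f y + g y) := by
  obtain ⟨v, hv⟩ := hf
  obtain ⟨w, hw⟩ := hg
  refine ⟨fun i => v i + w i, fun y => ?_⟩
  simp only
  rw [hv, hw, ← Finset.sum_add_distrib]
  exact Finset.sum_congr rfl fun i _ => (mul_add _ _ _).symm

theorem b1k_ext_neg {f : Rel ℤ x → ZG K} (hf : Ext2 x f) : Ext2 x (fun y => - f y) := by
  obtain ⟨v, hv⟩ := hf
  refine ⟨fun i => - v i, fun y => ?_⟩
  simp only
  rw [hv, ← Finset.sum_neg_distrib]
  exact Finset.sum_congr rfl fun i _ => (mul_neg _ _).symm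

theorem b1k_ext_zsmul {f : Rel ℤ x → ZG K} (hf : Ext2 x f) (n : ℤ) :
    Ext2 x (fun y => n • f y) := by
  obtain ⟨v, hv⟩ := hf
  refine ⟨fun i => n • v i, fun y => ?_⟩
  simp only
  rw [hv, Finset.smul_sum]
  exact Finset.sum_congr rfl fun i _ => (mul_smul_comm _ _ _).symm

/-- right multiplication changes the class by the augmentation -/
theorem b1k_ext_mul {φ : Rel ℤ x →ₗ[ZG K] ZG K} (h : TwoD x φ) (a : ZG K) :
    Ext2 x (fun y => φ y * a - aug ℤ K a • φ y) := by
  induction a using MonoidAlgebra.induction_on with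
  | of g =>
    have h1 := h.tri g
    have h2 : (fun y : Rel ℤ x => φ y * el ℤ g - aug ℤ K (el ℤ g) • φ y) =
        fun y => φ y * el ℤ g - φ y := by
      funext y
      rw [b1k_aug_el, one_smul]
    exact h2 ▸ h1
  | add a b ha hb =>
    have h1 := b1k_ext_add ha hb
    refine (congrArg (Ext2 x) (funext fun y => ?_)).mpr h1
    rw [map_add, mul_add, add_smul]
    abel
  | smul r a ha =>
    have h1 := b1k_ext_zsmul ha r
    refine (congrArg (Ext2 x) (funext fun y => ?_)).mpr h1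
    rw [map_smul, smul_sub, mul_smul_comm, smul_eq_mul, mul_smul]

end ext

/-! ### a homomorphism from a functional -/

/-- a nonzero additive map to `ℤ` gives a homomorphism onto `ℤ` -/
theorem b1k_onto {S : Type} [Group S] (χ : S → ℤ) (hadd : ∀ s t, χ (s * t) = χ s + χ t)
    (s0 : S) (hs0 : χ s0 ≠ 0) : ∃ π : S →* Multiplicative ℤ, Function.Surjective π := by
  have hone : χ 1 = 0 := by
    have := hadd 1 1
    rw [mul_one] at this
    omega
  have hinv : ∀ s, χ s⁻¹ = - χ s := by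
    intro s
    have := hadd s s⁻¹
    rw [mul_inv_cancel, hone] at this
    omega
  let H : AddSubgroup ℤ :=
    { carrier := Set.range χ
      add_mem' := by
        rintro _ _ ⟨s, rfl⟩ ⟨t, rfl⟩
        exact ⟨s * t, hadd s t⟩
      zero_mem' := ⟨1, hone⟩
      neg_mem' := by
        rintro _ ⟨s, rfl⟩
        exact ⟨s⁻¹, hinv s⟩ }
  obtain ⟨n, hn⟩ := Int.subgroup_cyclic H
  have hdvd : ∀ s, n ∣ χ s := by
    intro s
    have h1 : χ s ∈ H := ⟨s, rfl⟩
    rw [hn, AddSubgroup.mem_closure_singleton] at h1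
    obtain ⟨k, hk⟩ := h1
    exact ⟨k, by rw [← hk, smul_eq_mul, mul_comm]⟩
  have hn0 : n ≠ 0 := by
    rintro rfl
    exact hs0 (zero_dvd_iff.1 (hdvd s0))
  have hnH : n ∈ H := by
    rw [hn]
    exact AddSubgroup.subset_closure rfl
  obtain ⟨s1, hs1⟩ := hnH
  refine ⟨
    { toFun := fun s => Multiplicative.ofAdd (χ s / n)
      map_one' := by
        rw [hone, Int.zero_ediv]
        rfl
      map_mul' := by
        intro s t
        rw [hadd, Int.add_ediv_of_dvd_left (hdvd s)]
        rfl }, ?_⟩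
  have hpow : ∀ k : ℤ, χ (s1 ^ k) = k * n := by
    have hnat : ∀ k : ℕ, χ (s1 ^ k) = k * n := by
      intro k
      induction k with
      | zero => rw [pow_zero, hone, Nat.cast_zero, zero_mul]
      | succ k ih =>
        rw [pow_succ, hadd, ih, hs1]
        push_cast
        ring
    intro k
    obtain ⟨j, rfl | rfl⟩ := k.eq_nat_or_neg
    · rw [zpow_natCast, hnat]
    · rw [_root_.zpow_neg, _root_.zpow_natCast, hinv, hnat]
      ring
  intro k
  refine ⟨s1 ^ (Multiplicative.toAdd k), ?_⟩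
  show Multiplicative.ofAdd (χ (s1 ^ (Multiplicative.toAdd k)) / n) = k
  rw [hpow, Int.mul_ediv_cancel _ hn0]
  rfl

/-- the functional `z ↦ ∑ n_i aug(z_i)` -/
noncomputable def b1k_F {K : Type} [Group K] {d : ℕ} (n : Fin d → ℤ) : (Fin d → ZG K) →+ ℤ where
  toFun z := ∑ i, n i * aug ℤ K (z i)
  map_zero' := by simp
  map_add' z w := by
    rw [← Finset.sum_add_distrib]
    refine Finset.sum_congr rfl fun i _ => ?_
    rw [Pi.add_apply, map_add, mul_add]

theorem b1k_F_apply {K : Type} [Group K] {d : ℕ} (n : Fin d → ℤ) (z : Fin d → ZG K) :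
    b1k_F n z = ∑ i, n i * aug ℤ K (z i) := rfl

/-- a functional which is zero on the relation module is zero or gives a homomorphism onto `ℤ` -/
theorem b1k_hom (hB : St_BDR) {K : Type} [Group K] {d : ℕ} (x : Fin d → K)
    (hx : closure (Set.range x) = ⊤) (n : Fin d → ℤ)
    (hn : ∀ y : Rel ℤ x, ∑ i, n i * aug ℤ K ((y : Fin d → ZG K) i) = 0) (i0 : Fin d)
    (hi0 : n i0 ≠ 0) : ∃ π : K →* Multiplicative ℤ, Function.Surjective π := by
  classical
  have hZ : ∀ s : K, ∃ z, bd ℤ x z = el ℤ s - 1 := by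
    intro s
    apply (hB ℤ K d x hx _).1
    rw [map_sub, b1k_aug_el, map_one, sub_self]
  choose Z hZ using hZ
  have key : ∀ (s : K) (z : Fin d → ZG K), bd ℤ x z = el ℤ s - 1 → b1k_F n z = b1k_F n (Z s) := by
    intro s z hz
    have h1 : bd ℤ x (z - Z s) = 0 := by rw [map_sub, hz, hZ, sub_self]
    have h2 : b1k_F n (z - Z s) = 0 := hn ⟨z - Z s, h1⟩
    rw [map_sub, sub_eq_zero] at h2
    exact h2
  refine b1k_onto (fun s => b1k_F n (Z s)) ?_ (x i0) ?_
  · intro s t
    have h1 : bd ℤ x (Z s + el ℤ s • Z t) = el ℤ (s * t) - 1 := by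
      rw [map_add, map_smul, hZ, hZ, smul_eq_mul, el, el, el, map_mul]
      noncomm_ring
    have h2 := key (s * t) _ h1
    rw [← h2, map_add]
    congr 1
    rw [b1k_F_apply, b1k_F_apply]
    refine Finset.sum_congr rfl fun i _ => ?_
    rw [Pi.smul_apply, smul_eq_mul, map_mul, b1k_aug_el, one_mul]
  · have h1 : bd ℤ x (Pi.single i0 1) = el ℤ (x i0) - 1 := by
      show ∑ j, (Pi.single i0 1 : Fin d → ZG K) j * (el ℤ (x j) - 1) = el ℤ (x i0) - 1
      rw [Finset.sum_eq_single i0]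
      · rw [Pi.single_eq_same, one_mul]
      · intro j _ hj
        rw [Pi.single_eq_of_ne hj, zero_mul]
      · intro h
        exact absurd (Finset.mem_univ i0) h
    rw [← key (x i0) _ h1, b1k_F_apply, Finset.sum_eq_single i0]
    · rw [Pi.single_eq_same, map_one, mul_one]
      exact hi0
    · intro j _ hj
      rw [Pi.single_eq_of_ne hj, map_zero, mul_zero]
    · intro h
      exact absurd (Finset.mem_univ i0) h

/-! ### the main argument -/

/-- the linear maps `ε_0 = φ`, `ε_(i+1) = y_i` -/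
noncomputable def b1k_eps {K : Type} [Group K] {d : ℕ} (x : Fin d → K)
    (φ : Rel ℤ x →ₗ[ZG K] ZG K) : Fin (d + 1) → (Rel ℤ x →ₗ[ZG K] ZG K) :=
  Fin.cons φ (fun i => (LinearMap.proj i : (Fin d → ZG K) →ₗ[ZG K] ZG K) ∘ₗ (Rel ℤ x).subtype)

theorem b1k_eps_zero {K : Type} [Group K] {d : ℕ} (x : Fin d → K)
    (φ : Rel ℤ x →ₗ[ZG K] ZG K) : b1k_eps x φ 0 = φ := rfl

theorem b1k_eps_succ {K : Type} [Group K] {d : ℕ} (x : Fin d → K)
    (φ : Rel ℤ x →ₗ[ZG K] ZG K) (i : Fin d) (y : Rel ℤ x) :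
    b1k_eps x φ i.succ y = (y : Fin d → ZG K) i := rfl

theorem b1k_sum {K : Type} [Group K] {d : ℕ} (x : Fin d → K)
    (φ : Rel ℤ x →ₗ[ZG K] ZG K) (z : Fin (d + 1) → ZG K) (y : Rel ℤ x) :
    ∑ b, b1k_eps x φ b y * z b = φ y * z 0 + ∑ i : Fin d, (y : Fin d → ZG K) i * z i.succ := by
  rw [Fin.sum_univ_succ]
  rfl

theorem thm_B1K (hBDR : St_BDR) : St_B1K := by
  classical
  intro K _ d x hx hproj hfg hq φ hφ hnt
  by_contra hno
  have : Module.Finite (ZG K) (Rel ℤ x) := ⟨hfg⟩
  have := hproj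
  obtain ⟨m, p, σ, -, -, hpσ⟩ := Module.Finite.exists_comp_eq_id_of_projective (ZG K) (Rel ℤ x)
  let r : Fin m → Rel ℤ x := fun j => p (Pi.single j 1)
  have hdual : ∀ y : Rel ℤ x, y = ∑ j, σ y j • r j := by
    intro y
    have h1 : p (σ y) = y := LinearMap.congr_fun hpσ y
    have h2 : σ y = ∑ j, σ y j • (Pi.single j 1 : Fin m → ZG K) := by
      funext i
      rw [Finset.sum_apply, Finset.sum_eq_single i]
      · rw [Pi.smul_apply, Pi.single_eq_same, smul_eq_mul, mul_one]
      · intro j _ hj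
        rw [Pi.smul_apply, Pi.single_eq_of_ne (Ne.symm hj), smul_zero]
      · intro h
        exact absurd (Finset.mem_univ i) h
    conv_lhs => rw [← h1, h2, map_sum]
    refine Finset.sum_congr rfl fun j _ => ?_
    rw [map_smul]
  -- the coefficients
  have hgen : ∀ j : Fin m, ∃ z : Fin (d + 1) → ZG K, ∀ y : Rel ℤ x,
      σ y j = ∑ b, b1k_eps x φ b y * z b := by
    intro j
    obtain ⟨c, v, hv⟩ := hφ.gen ((LinearMap.proj j : (Fin m → ZG K) →ₗ[ZG K] ZG K) ∘ₗ σ)
    refine ⟨Fin.cons (c : ZG K) v, fun y => ?_⟩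
    rw [b1k_sum, Fin.cons_zero]
    have h1 := hv y
    simp only [LinearMap.comp_apply, LinearMap.proj_apply] at h1
    rw [sub_eq_iff_eq_add] at h1
    rw [h1, add_comm]
    congr 1
    rw [zsmul_eq_mul, Int.cast_comm]
  choose v hv using hgen
  let V : Matrix (Fin (d + 1)) (Fin m) (ZG K) := Matrix.of fun b j => v j b
  let W : Matrix (Fin m) (Fin (d + 1)) (ZG K) := Matrix.of fun j a => b1k_eps x φ a (r j)
  let ev : Rel ℤ x → (Fin (d + 1) → ZG K) := fun y b => b1k_eps x φ b y
  have hev : ∀ y, ev y ᵥ* (V * W) = ev y := by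
    intro y
    rw [← Matrix.vecMul_vecMul]
    funext a
    have h1 : ∀ j, (ev y ᵥ* V) j = σ y j := by
      intro j
      rw [hv j y]
      rfl
    change ∑ j, (ev y ᵥ* V) j * W j a = ev y a
    have h2 : b1k_eps x φ a y = ∑ j, σ y j * b1k_eps x φ a (r j) := by
      conv_lhs => rw [hdual y, map_sum]
      refine Finset.sum_congr rfl fun j _ => ?_
      rw [map_smul, smul_eq_mul]
    change _ = b1k_eps x φ a y
    rw [h2]
    refine Finset.sum_congr rfl fun j _ => ?_
    rw [h1]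
    rfl
  let E : Matrix (Fin (d + 1)) (Fin (d + 1)) (ZG K) := 1 - V * W
  have hevE : ∀ y, ev y ᵥ* E = 0 := by
    intro y
    change ev y ᵥ* (1 - V * W) = 0
    rw [Matrix.vecMul_sub, Matrix.vecMul_one, hev, sub_self]
  have hWE : W * E = 0 := by
    refine Matrix.ext fun j a => ?_
    have h1 := congrFun (hevE (r j)) a
    exact h1
  have hEE : E * E = E := by
    change (1 - V * W) * E = E
    rw [Matrix.sub_mul, Matrix.one_mul, Matrix.mul_assoc, hWE, Matrix.mul_zero, sub_zero]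
  -- the claim
  have claim : ∀ z : Fin (d + 1) → ZG K, (∀ y : Rel ℤ x, ∑ b, b1k_eps x φ b y * z b = 0) →
      ∀ b, aug ℤ K (z b) = 0 := by
    intro z hz
    have h0 : aug ℤ K (z 0) = 0 := by
      apply hφ.inf
      have h1 := b1k_ext_neg (b1k_ext_mul hφ (z 0))
      have h2 : Ext2 x (fun y => - ∑ i : Fin d, (y : Fin d → ZG K) i * z i.succ) :=
        b1k_ext_neg ⟨fun i => z i.succ, fun y => rfl⟩
      have h3 := b1k_ext_add h1 h2
      refine (congrArg (Ext2 x) (funext fun y => ?_)).mpr h3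
      have h4 := hz y
      rw [b1k_sum] at h4
      have h5 : φ y * z 0 = - ∑ i : Fin d, (y : Fin d → ZG K) i * z i.succ :=
        eq_neg_of_add_eq_zero_left h4
      rw [h5]
      abel
    intro b
    refine Fin.cases h0 (fun i => ?_) b
    by_contra hi
    apply hno
    refine b1k_hom hBDR x hx (fun i => aug ℤ K (z i.succ)) (fun y => ?_) i hi
    have h4 := congrArg (aug ℤ K) (hz y)
    rw [b1k_sum, map_add, map_mul, h0, mul_zero, zero_add, map_sum, map_zero] at h4
    rw [← h4]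
    refine Finset.sum_congr rfl fun i _ => ?_
    rw [map_mul, mul_comm]
  have hE0 : E = 0 := by
    obtain ⟨h1, h2⟩ := hq E hEE
    apply h2
    rw [← h1]
    refine Finset.sum_eq_zero fun i _ => ?_
    refine claim (fun b => E b i) (fun y => ?_) i
    exact congrFun (hevE y) i
  have hVW : V * W = 1 := (sub_eq_zero.1 (show (1 : Matrix (Fin (d + 1)) (Fin (d + 1)) (ZG K)) -
    V * W = 0 from hE0)).symm
  have hz0 : ∀ z : Fin (d + 1) → ZG K, (∀ y : Rel ℤ x, ∑ b, b1k_eps x φ b y * z b = 0) → z = 0 := by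
    intro z hz
    have h1 : W *ᵥ z = 0 := by
      funext j
      exact hz (r j)
    have h2 : (V * W) *ᵥ z = 0 := by
      rw [← Matrix.mulVec_mulVec, h1, Matrix.mulVec_zero]
    rwa [hVW, Matrix.one_mulVec] at h2
  have hx1 : ∀ i, x i = 1 := by
    intro i
    have h1 := hz0 (Fin.cons 0 (fun i => el ℤ (x i) - 1)) (fun y => by
      rw [b1k_sum, Fin.cons_zero, mul_zero, zero_add]
      exact y.2)
    have h2 := congrFun h1 i.succ
    rw [Fin.cons_succ, Pi.zero_apply, sub_eq_zero] at h2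
    have h3 : el ℤ (x i) = el ℤ (1 : K) := by rw [h2, el, map_one]
    exact MonoidAlgebra.of_injective h3
  have hall : ∀ g : K, g = 1 := by
    intro g
    have hg : g ∈ closure (Set.range x) := by
      rw [hx]
      exact Subgroup.mem_top g
    have h1 : closure (Set.range x) ≤ ⊥ := by
      rw [closure_le]
      rintro _ ⟨i, rfl⟩
      exact hx1 i
    exact Subgroup.mem_bot.1 (h1 hg)
  obtain ⟨a, b, hab⟩ := hnt
  exact hab ((hall a).trans (hall b).symm)

end Pool.Agent.PDT
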