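import Pool.Agent.PDT.StC

/-!
# PDT: traces of idempotents (Bass)
-/

set_option autoImplicit false

namespace Pool.Agent.PDT

open Pool.Agent.PDA Pool.Agent.PDB Pool.Agent.PDE Subgroup

/-- the power function on the conjugacy classes -/
private def BTI_pw (K : Type) [Group K] (p : ℕ) : ConjClasses K → ConjClasses K :=
  Quotient.map (fun g : K => g ^ p) (fun _ _ h => IsConj.pow p h)

private lemma BTI_pw_mk (K : Type) [Group K] (p : ℕ) (g : K) :
    BTI_pw K p (ConjClasses.mk g) = ConjClasses.mk (g ^ p) := rfl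

private lemma BTI_it (K : Type) [Group K] (p : ℕ) (g : K) (m : ℕ) :
    (BTI_pw K p)^[m] (ConjClasses.mk g) = ConjClasses.mk (g ^ p ^ m) := by
  induction m with
  | zero => simp
  | succ m ih => rw [Function.iterate_succ_apply', ih, BTI_pw_mk, ← pow_mul, pow_succ]

/-- the sum of the diagonal -/
private noncomputable def BTI_D {K : Type} [Group K] {n : ℕ}
    (E : Matrix (Fin n) (Fin n) (ZG K)) : K →₀ ℤ := ∑ i, (E i i).coeff

/-- the sums over the conjugacy classes -/
private noncomputable def BTI_t {K : Type} [Group K] {n : ℕ}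
    (E : Matrix (Fin n) (Fin n) (ZG K)) : ConjClasses K →₀ ℤ :=
  (BTI_D E).mapDomain ConjClasses.mk

private lemma BTI_trf {K : Type} [Group K] {n : ℕ} (p : ℕ) (E : Matrix (Fin n) (Fin n) (ZG K))
    (F : ConjClasses K → ZMod p) :
    trf (fun g => F (ConjClasses.mk g))
      (E.map (MonoidAlgebra.mapRingHom K (Int.castRingHom (ZMod p)))) =
      (BTI_t E).sum fun C a => (a : ZMod p) * F C := by
  unfold trf BTI_t BTI_D
  rw [Finsupp.sum_mapDomain_index (by simp) (by intros; push_cast; ring)]
  rw [← Finsupp.sum_finsetSum_index (by simp) (by intros; push_cast; ring)]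
  refine Finset.sum_congr rfl fun i _ => ?_
  rw [Matrix.map_apply]
  have h1 : (MonoidAlgebra.mapRingHom K (Int.castRingHom (ZMod p)) (E i i)).coeff =
      (E i i).coeff.mapRange (Int.castRingHom (ZMod p)) (map_zero _) := by
    ext g
    rw [MonoidAlgebra.coeff_mapRingHom, Finsupp.mapRange_apply]
  rw [h1, Finsupp.sum_mapRange_index (by simp)]
  rfl

private lemma BTI_step (hBTR : St_BTR) {K : Type} [Group K] {n : ℕ}
    (E : Matrix (Fin n) (Fin n) (ZG K)) (hE : E * E = E) (p : ℕ) (hp : p.Prime)
    (C : ConjClasses K) (hC : (BTI_t E) C ≠ 0) (hlt : ((BTI_t E) C).natAbs < p) :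
    ∃ D ∈ (BTI_t E).support, BTI_pw K p D = C := by
  classical
  have : Fact p.Prime := ⟨hp⟩
  by_contra hno
  push Not at hno
  have hid : IsIdempotentElem (E.map (MonoidAlgebra.mapRingHom K (Int.castRingHom (ZMod p)))) := by
    unfold IsIdempotentElem
    rw [← Matrix.map_mul, hE]
  have hpow := hid.pow_eq hp.ne_zero
  have h1 := hBTR p K n (E.map (MonoidAlgebra.mapRingHom K (Int.castRingHom (ZMod p))))
    (fun g => if ConjClasses.mk g = C then (1 : ZMod p) else 0) (by
      intro g h
      have h2 : ConjClasses.mk (g * h) = ConjClasses.mk (h * g) := by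
        rw [ConjClasses.mk_eq_mk_iff_isConj, isConj_iff]
        exact ⟨h, by group⟩
      simp only [h2])
  rw [hpow] at h1
  have h2 := BTI_trf p E (fun D => if D = C then (1 : ZMod p) else 0)
  have h3 := BTI_trf p E (fun D => if BTI_pw K p D = C then (1 : ZMod p) else 0)
  have h4 : ((BTI_t E) C : ZMod p) = 0 := by
    have h5 : ((BTI_t E).sum fun D a => (a : ZMod p) * (if D = C then (1 : ZMod p) else 0)) =
        ((BTI_t E) C : ZMod p) := by
      rw [Finsupp.sum, Finset.sum_eq_single C]
      · simp
      · intro D _ hD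
        rw [if_neg hD, mul_zero]
      · intro h
        rw [Finsupp.notMem_support_iff.1 h]
        simp
    have h6 : ((BTI_t E).sum fun D a =>
        (a : ZMod p) * (if BTI_pw K p D = C then (1 : ZMod p) else 0)) = 0 := by
      rw [Finsupp.sum]
      refine Finset.sum_eq_zero fun D hD => ?_
      rw [if_neg (hno D hD), mul_zero]
    exact h5.symm.trans (h2.symm.trans (h1.trans (h3.trans h6)))
  rw [ZMod.intCast_zmod_eq_zero_iff_dvd] at h4
  have h5 : p ∣ ((BTI_t E) C).natAbs := Int.natCast_dvd.1 h4
  exact hC (Int.natAbs_eq_zero.1 (Nat.eq_zero_of_dvd_of_lt h5 hlt))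

theorem thm_BTI (hBTR : St_BTR) : St_BTI := by
  classical
  intro K _ hK n E hE
  set t := BTI_t E with ht
  -- a large prime
  obtain ⟨p, hple, hp⟩ := Nat.exists_infinite_primes ((∑ C ∈ t.support, (t C).natAbs) + 1)
  have hstep : ∀ C ∈ t.support, ∃ D ∈ t.support, BTI_pw K p D = C := by
    intro C hC
    refine BTI_step hBTR E hE p hp C (Finsupp.mem_support_iff.1 hC) ?_
    have h1 : (t C).natAbs ≤ ∑ C ∈ t.support, (t C).natAbs :=
      Finset.single_le_sum (f := fun C => (t C).natAbs) (fun _ _ => Nat.zero_le _) hC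
    show (t C).natAbs < p
    omega
  have himg : t.support = t.support.image (BTI_pw K p) := by
    refine Finset.eq_of_subset_of_card_le ?_ Finset.card_image_le
    intro C hC
    obtain ⟨D, hD, h⟩ := hstep C hC
    exact Finset.mem_image.2 ⟨D, hD, h⟩
  have hmap : ∀ C ∈ t.support, BTI_pw K p C ∈ t.support := by
    intro C hC
    rw [himg]
    exact Finset.mem_image_of_mem _ hC
  -- the power function is a bijection of the support
  let ρ : t.support → t.support := fun C => ⟨BTI_pw K p C, hmap C C.2⟩
  have hsur : Function.Surjective ρ := by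
    rintro ⟨C, hC⟩
    obtain ⟨D, hD, h⟩ := hstep C hC
    exact ⟨⟨D, hD⟩, Subtype.ext h⟩
  have hbij : Function.Bijective ρ := Finite.surjective_iff_bijective.1 hsur
  let σ : Equiv.Perm t.support := Equiv.ofBijective ρ hbij
  have hσ : ∀ (m : ℕ) (C : t.support), (((σ ^ m) C : t.support) : ConjClasses K) =
      (BTI_pw K p)^[m] (C : ConjClasses K) := by
    intro m
    induction m with
    | zero => intro C; rfl
    | succ m ih =>
      intro C
      rw [pow_succ, Equiv.Perm.mul_apply, ih, Function.iterate_succ_apply]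
      rfl
  have hone : ∀ C ∈ t.support, C = ConjClasses.mk (1 : K) := by
    intro C hC
    obtain ⟨u, rfl⟩ := ConjClasses.exists_rep C
    have h1 := hσ (orderOf σ) ⟨ConjClasses.mk u, hC⟩
    rw [pow_orderOf_eq_one, Equiv.Perm.one_apply, BTI_it] at h1
    have h2 := ConjClasses.mk_eq_mk_iff_isConj.1 h1
    obtain ⟨g, hg⟩ := isConj_iff.1 h2
    have h3 : 2 ≤ p ^ orderOf σ :=
      le_trans hp.two_le (Nat.le_self_pow (orderOf_pos σ).ne' p)
    rw [hK g u _ h3 hg]
  -- the two sums
  have hsum : ∑ i, aug ℤ K (E i i) = t.sum fun _ a => a := by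
    rw [ht]
    unfold BTI_t BTI_D
    rw [Finsupp.sum_mapDomain_index (by simp) (by intros; rfl)]
    rw [← Finsupp.sum_finsetSum_index (by simp) (by intros; rfl)]
    refine Finset.sum_congr rfl fun i _ => ?_
    unfold aug
    rw [MonoidAlgebra.lift_apply]
    simp
  have hval : ∑ i, (E i i).coeff 1 = t (ConjClasses.mk 1) := by
    rw [ht]
    unfold BTI_t
    have h1 : (BTI_D E) 1 = ∑ i, (E i i).coeff 1 := by
      unfold BTI_D
      rw [Finsupp.finsetSum_apply]
    rw [← h1, Finsupp.mapDomain, Finsupp.sum_apply, Finsupp.sum]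
    rw [Finset.sum_eq_single 1]
    · rw [Finsupp.single_eq_same]
    · intro g _ hg
      rw [Finsupp.single_eq_of_ne]
      intro h
      apply hg
      have h2 := ConjClasses.mk_eq_mk_iff_isConj.1 h
      first
        | exact isConj_one_right.1 h2.symm
        | exact isConj_one_left.1 h2.symm
    · intro h
      rw [Finsupp.notMem_support_iff.1 h]
      simp
  rw [hsum, hval, Finsupp.sum]
  rw [Finset.sum_eq_single (ConjClasses.mk (1 : K))]
  · intro C hC h
    exact absurd (hone C hC) h
  · intro h
    exact Finsupp.notMem_support_iff.1 h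

end Pool.Agent.PDT
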