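import Pool.Agent.PDT.StC

/-!
# PDT: [BTR] the trace of the `p`-th power of a matrix over `𝔽_p[K]`
-/

set_option autoImplicit false
set_option linter.unusedVariables false

namespace Pool.Agent.PDT

open Pool.Agent.PDA Pool.Agent.PDB Pool.Agent.PDE Subgroup

section BTR

open Polynomial in
/-- A trace with values in `𝔽_p` is additive on `p`-th powers. -/
private theorem BTR_frob {Λ : Type} [Ring Λ] (p : ℕ) [hpp : Fact p.Prime] (T : Λ →+ ZMod p)
    (hT : ∀ x y, T (x * y) = T (y * x)) (x y : Λ) : T ((x + y) ^ p) = T (x ^ p) + T (y ^ p) := by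
  classical
  obtain ⟨P, hP⟩ : ∃ P : Λ[X], P = C x + C y * X := ⟨_, rfl⟩
  have hc : ∀ (j : ℕ) (Q R : Λ[X]), T ((Q * R).coeff j) = T ((R * Q).coeff j) := by
    intro j Q R
    rw [coeff_mul, coeff_mul, map_sum, map_sum, ← Finset.Nat.sum_antidiagonal_swap]
    refine Finset.sum_congr rfl fun a _ => ?_
    rw [Prod.fst_swap, Prod.snd_swap]
    exact hT _ _
  have hd : ∀ (m k j : ℕ), T ((derivative (P ^ (m + 1)) * P ^ k).coeff j) =
      (m + 1) • T ((derivative P * P ^ (m + k)).coeff j) := by
    intro m
    induction m with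
    | zero =>
      intro k j
      rw [zero_add, pow_one, zero_add, one_smul]
    | succ m ih =>
      intro k j
      have e : derivative (P ^ (m + 1 + 1)) * P ^ k =
          derivative (P ^ (m + 1)) * P ^ (k + 1) + P ^ (m + 1) * (derivative P * P ^ k) := by
        rw [pow_succ P (m + 1), derivative_mul, add_mul, mul_assoc, ← pow_succ', mul_assoc]
      rw [e, coeff_add, map_add, ih, hc j (P ^ (m + 1))]
      have e1 : derivative P * P ^ k * P ^ (m + 1) = derivative P * P ^ (m + 1 + k) := by
        rw [mul_assoc, ← pow_add, add_comm k]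
      have e2 : m + (k + 1) = m + 1 + k := by omega
      rw [e1, e2, add_smul (m + 1) 1, one_smul]
  have hp1 : p - 1 + 1 = p := Nat.succ_pred_eq_of_pos hpp.out.pos
  have h0 : ∀ j, T ((derivative (P ^ p)).coeff j) = 0 := by
    intro j
    have h1 := hd (p - 1) 0 j
    rw [hp1, pow_zero, mul_one, nsmul_eq_mul, CharP.cast_eq_zero, zero_mul] at h1
    exact h1
  have hmid : ∀ j, 0 < j → j < p → T ((P ^ p).coeff j) = 0 := by
    intro j hj hjp
    obtain ⟨i, rfl⟩ : ∃ i, j = i + 1 := ⟨j - 1, by omega⟩
    have h1 := h0 i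
    rw [coeff_derivative] at h1
    have e : (P ^ p).coeff (i + 1) * ((i : Λ) + 1) = (i + 1) • (P ^ p).coeff (i + 1) := by
      rw [nsmul_eq_mul', Nat.cast_add, Nat.cast_one]
    rw [e, map_nsmul, nsmul_eq_mul] at h1
    rcases mul_eq_zero.1 h1 with h2 | h2
    · exfalso
      rw [ZMod.natCast_eq_zero_iff] at h2
      exact absurd (Nat.le_of_dvd (by omega) h2) (by omega)
    · exact h2
  have hdeg : P.natDegree ≤ 1 := by
    rw [hP]
    refine natDegree_add_le_of_degree_le ?_ ?_
    · rw [natDegree_C]; exact Nat.zero_le _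
    · exact (natDegree_C_mul_le _ _).trans natDegree_X_le
  have hdp : (P ^ p).natDegree ≤ p := by
    have h1 := natDegree_pow_le_of_le p hdeg
    rwa [mul_one] at h1
  have hc0 : (P ^ p).coeff 0 = x ^ p := by
    rw [← constantCoeff_apply, map_pow, constantCoeff_apply, hP]
    simp
  have hcp : (P ^ p).coeff p = y ^ p := by
    have h1 := coeff_pow_of_natDegree_le (m := p) hdeg
    rw [mul_one] at h1
    rw [h1, hP]
    simp
  let E : Λ[X] →+* Λ := eval₂RingHom' (RingHom.id Λ) 1 (fun a => Commute.one_right _)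
  have hE : ∀ Q : Λ[X], Q.natDegree ≤ p → E Q = ∑ i ∈ Finset.range (p + 1), Q.coeff i := by
    intro Q hQ
    have h1 : E Q = Q.eval₂ (RingHom.id Λ) 1 := rfl
    rw [h1, eval₂_eq_sum_range' (RingHom.id Λ) (Nat.lt_succ_of_le hQ)]
    refine Finset.sum_congr rfl fun i _ => ?_
    rw [one_pow, mul_one, RingHom.id_apply]
  have hEP : E P = x + y := by
    have h1 : E P = P.eval₂ (RingHom.id Λ) 1 := rfl
    rw [h1, hP, eval₂_add, eval₂_C]
    congr 1
    rw [← pow_one (X : Λ[X]), C_mul_X_pow_eq_monomial, eval₂_monomial]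
    simp
  have hfin : (x + y) ^ p = ∑ i ∈ Finset.range (p + 1), (P ^ p).coeff i := by
    rw [← hE _ hdp, map_pow, hEP]
  rw [hfin, map_sum, Finset.sum_range_succ, hcp]
  congr 1
  rw [Finset.sum_eq_single 0, hc0]
  · intro j hj hj0
    exact hmid j (Nat.pos_of_ne_zero hj0) (Finset.mem_range.1 hj)
  · intro h
    exact absurd (Finset.mem_range.2 hpp.out.pos) h

variable {k K : Type} [CommRing k] [Group K]

/-- the sum `∑ x_g f(g)` -/
private noncomputable def BTR_t (f : K → k) : MonoidAlgebra k K →+ k where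
  toFun x := x.coeff.sum fun g a => a * f g
  map_zero' := by simp
  map_add' x y := by
    rw [MonoidAlgebra.coeff_add]
    exact Finsupp.sum_add_index' (fun g => zero_mul _) (fun g a b => add_mul _ _ _)

omit [Group K] in
private theorem BTR_t_single (f : K → k) (g : K) (a : k) :
    BTR_t f (MonoidAlgebra.single g a) = a * f g := by
  change ((MonoidAlgebra.single g a).coeff.sum fun g a => a * f g) = _
  rw [MonoidAlgebra.coeff_single]
  exact Finsupp.sum_single_index (zero_mul _)

private theorem BTR_t_comm (f : K → k) (hf : ∀ g h, f (g * h) = f (h * g))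
    (x y : MonoidAlgebra k K) : BTR_t f (x * y) = BTR_t f (y * x) := by
  induction x using MonoidAlgebra.induction_linear with
  | zero => rw [zero_mul, mul_zero]
  | add x x' hx hx' => rw [add_mul, mul_add, map_add, map_add, hx, hx']
  | single g a =>
    induction y using MonoidAlgebra.induction_linear with
    | zero => rw [zero_mul, mul_zero]
    | add y y' hy hy' => rw [add_mul, mul_add, map_add, map_add, hy, hy']
    | single h b =>
      rw [MonoidAlgebra.single_mul_single, MonoidAlgebra.single_mul_single, BTR_t_single,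
        BTR_t_single, hf g h, mul_comm a b]

private noncomputable def BTR_T {n : ℕ} (f : K → k) :
    Matrix (Fin n) (Fin n) (MonoidAlgebra k K) →+ k where
  toFun A := trf f A
  map_zero' := by
    change ∑ i, BTR_t f ((0 : Matrix (Fin n) (Fin n) (MonoidAlgebra k K)) i i) = 0
    refine Finset.sum_eq_zero fun i _ => ?_
    rw [Matrix.zero_apply, map_zero]
  map_add' A B := by
    change ∑ i, BTR_t f ((A + B) i i) = ∑ i, BTR_t f (A i i) + ∑ i, BTR_t f (B i i)
    rw [← Finset.sum_add_distrib]
    refine Finset.sum_congr rfl fun i _ => ?_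
    rw [Matrix.add_apply, map_add]

private theorem BTR_T_apply {n : ℕ} (f : K → k)
    (A : Matrix (Fin n) (Fin n) (MonoidAlgebra k K)) : BTR_T f A = ∑ i, BTR_t f (A i i) := rfl

private theorem BTR_T_comm {n : ℕ} (f : K → k) (hf : ∀ g h, f (g * h) = f (h * g))
    (A B : Matrix (Fin n) (Fin n) (MonoidAlgebra k K)) : BTR_T f (A * B) = BTR_T f (B * A) := by
  rw [BTR_T_apply, BTR_T_apply]
  have h1 : ∀ (A B : Matrix (Fin n) (Fin n) (MonoidAlgebra k K)),
      ∑ i, BTR_t f ((A * B) i i) = ∑ i, ∑ j, BTR_t f (A i j * B j i) := by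
    intro A B
    refine Finset.sum_congr rfl fun i _ => ?_
    rw [Matrix.mul_apply, map_sum]
  rw [h1, h1, Finset.sum_comm]
  refine Finset.sum_congr rfl fun i _ => Finset.sum_congr rfl fun j _ => ?_
  exact BTR_t_comm f hf _ _

private theorem BTR_T_single {n : ℕ} (f : K → k) (i : Fin n) (x : MonoidAlgebra k K) :
    BTR_T f (Matrix.single i i x) = BTR_t f x := by
  rw [BTR_T_apply, Finset.sum_eq_single i]
  · rw [Matrix.single_apply_same]
  · intro j _ hj
    rw [Matrix.single_apply, if_neg (fun h => hj h.1.symm), map_zero]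
  · intro h
    exact absurd (Finset.mem_univ i) h

private theorem BTR_T_single_ne {n : ℕ} (f : K → k) (i j : Fin n) (hij : i ≠ j)
    (x : MonoidAlgebra k K) : BTR_T f (Matrix.single i j x) = 0 := by
  rw [BTR_T_apply]
  refine Finset.sum_eq_zero fun l _ => ?_
  rw [Matrix.single_apply, if_neg (fun h => hij (h.1.trans h.2.symm)), map_zero]

end BTR

theorem thm_BTR : St_BTR := by
  classical
  intro p hp K _ n A f hf
  change BTR_T f (A ^ p) = BTR_T (fun g => f (g ^ p)) A
  have hp0 : p ≠ 0 := hp.out.ne_zero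
  have hp2 : 2 ≤ p := hp.out.two_le
  have hadd : ∀ A B : Matrix (Fin n) (Fin n) (MonoidAlgebra (ZMod p) K),
      BTR_T f (A ^ p) = BTR_T (fun g => f (g ^ p)) A →
      BTR_T f (B ^ p) = BTR_T (fun g => f (g ^ p)) B →
      BTR_T f ((A + B) ^ p) = BTR_T (fun g => f (g ^ p)) (A + B) := by
    intro A B hA hB
    rw [BTR_frob p (BTR_T f) (BTR_T_comm f hf) A B, hA, hB, map_add]
  have hzero : BTR_T f ((0 : Matrix (Fin n) (Fin n) (MonoidAlgebra (ZMod p) K)) ^ p) =
      BTR_T (fun g => f (g ^ p)) (0 : Matrix (Fin n) (Fin n) (MonoidAlgebra (ZMod p) K)) := by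
    rw [zero_pow hp0, map_zero, map_zero]
  induction A using Matrix.induction_on' with
  | h_zero => exact hzero
  | h_add A B hA hB => exact hadd A B hA hB
  | h_std_basis i j x =>
    induction x using MonoidAlgebra.induction_linear with
    | zero =>
      rw [Matrix.single_zero]
      exact hzero
    | add x y hx hy =>
      rw [Matrix.single_add]
      exact hadd _ _ hx hy
    | single g a =>
      by_cases hij : i = j
      · subst hij
        have h1 : ∀ (m : ℕ), (Matrix.single i i (MonoidAlgebra.single g a) :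
            Matrix (Fin n) (Fin n) (MonoidAlgebra (ZMod p) K)) ^ (m + 1) =
            Matrix.single i i (MonoidAlgebra.single (g ^ (m + 1)) (a ^ (m + 1))) := by
          intro m
          induction m with
          | zero => rw [zero_add, pow_one, pow_one, pow_one]
          | succ m ih =>
            rw [pow_succ, ih, Matrix.single_mul_single_same, MonoidAlgebra.single_mul_single,
              ← pow_succ, ← pow_succ]
        have hp1 : p - 1 + 1 = p := Nat.succ_pred_eq_of_pos hp.out.pos
        have h2 := h1 (p - 1)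
        rw [hp1] at h2
        rw [h2, BTR_T_single, BTR_T_single, BTR_t_single, BTR_t_single, ZMod.pow_card]
      · have h1 : (Matrix.single i j (MonoidAlgebra.single g a) :
            Matrix (Fin n) (Fin n) (MonoidAlgebra (ZMod p) K)) ^ p = 0 := by
          obtain ⟨q, rfl⟩ : ∃ q, p = q + 2 := ⟨p - 2, by omega⟩
          rw [pow_add, pow_two, Matrix.single_mul_single_of_ne _ _ _ _ (Ne.symm hij), mul_zero]
        rw [h1, map_zero, BTR_T_single_ne _ i j hij]

end Pool.Agent.PDT
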