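import Pool.Agent.PDT.StC

/-!
# PDT, module CAZ: ascending over a cyclic group
-/

set_option autoImplicit false
set_option linter.unusedVariables false

namespace Pool.Agent.PDT

open Pool.Agent.PDA Pool.Agent.PDB Pool.Agent.PDE Subgroup

private theorem CAZ_norm {H : Type} [Group H] (s x : H) (m : ℤ) (hm : m = 1 ∨ m = -1)
    (hx : s * x * s⁻¹ = x ^ m) (g : H) (n : ℕ) (h : s ^ n * g * (s ^ n)⁻¹ ∈ zpowers x) :
    g ∈ zpowers x := by
  have h1 : s⁻¹ * x * s ∈ zpowers x := by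
    rcases hm with rfl | rfl
    · rw [zpow_one] at hx
      have h2 : s⁻¹ * x * s = x := by
        conv_lhs => rw [← hx]
        group
      rw [h2]
      exact mem_zpowers x
    · have h2 : s⁻¹ * x * s = x⁻¹ := by
        have h3 : x⁻¹ = s * x * s⁻¹ := by rw [hx, zpow_neg_one]
        have h4 : x = (s * x * s⁻¹)⁻¹ := by rw [← h3, inv_inv]
        conv_lhs => rw [h4]
        group
      rw [h2]
      exact inv_mem (mem_zpowers x)
  have h2 : ∀ h : H, s * h * s⁻¹ ∈ zpowers x → h ∈ zpowers x := by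
    intro h hh
    obtain ⟨j, hj⟩ := mem_zpowers_iff.1 hh
    have h3 : h = (s⁻¹ * x * s) ^ j := by
      have h4 : s⁻¹ * x * s = s⁻¹ * x * (s⁻¹)⁻¹ := by rw [inv_inv]
      rw [h4, conj_zpow, hj]
      group
    rw [h3]
    exact zpow_mem h1 j
  induction n with
  | zero => simpa using h
  | succ n ih =>
    refine ih (h2 _ ?_)
    have h3 : s * (s ^ n * g * (s ^ n)⁻¹) * s⁻¹ = s ^ (n + 1) * g * (s ^ (n + 1))⁻¹ := by
      rw [pow_succ']
      group
    rw [h3]
    exact h

theorem thm_CAZ (hBSX : St_BSX) : St_CAZ := by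
  intro G _ hG K _ j hj htor π s y hs1 hyk hsy hasc
  have hpy : π y = 1 := MonoidHom.mem_ker.1 (hyk (mem_zpowers y))
  by_cases hy : y = 1
  · subst hy
    rw [zpowers_one_eq_bot] at hasc ⊢
    rw [eq_bot_iff]
    intro g hg
    obtain ⟨m, hm⟩ := hasc g hg
    rw [Subgroup.mem_bot, mul_inv_eq_one, mul_eq_left] at hm
    exact hm
  obtain ⟨m, hm⟩ := mem_zpowers_iff.1 hsy
  have hd : BSData K π y s m := by
    refine ⟨hs1, hpy, ?_, ?_, hm.symm⟩
    · intro g hg
      obtain ⟨q, hq⟩ := hasc g (MonoidHom.mem_ker.2 hg)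
      obtain ⟨i, hi⟩ := mem_zpowers_iff.1 hq
      exact ⟨q, i, hi.symm⟩
    · intro q hq h
      exact hy (htor y q hq h)
  have hm1 := hBSX G hG K j hj π y s m hd
  have hm0 : m ≠ 0 := by
    rintro rfl
    rw [zpow_zero] at hm
    have h := hm.symm
    rw [mul_inv_eq_one, mul_eq_left] at h
    exact hy h
  have hm2 : m = 1 ∨ m = -1 := by
    rw [abs_le] at hm1
    omega
  refine le_antisymm ?_ hyk
  intro g hg
  obtain ⟨q, hq⟩ := hasc g hg
  exact CAZ_norm s y m hm2 hm.symm g q hq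

end Pool.Agent.PDT
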