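import Pool.Agent.PDT.StA

/-!
# PDT, module CFI (MP_add920_al): the cyclic subgroup has finite index
-/

set_option autoImplicit false
set_option linter.unusedVariables false

namespace Pool.Agent.PDT

open Pool.Agent.PDA Pool.Agent.PDB Pool.Agent.PDE Subgroup

private theorem cfi_pow {C : Type} [Group C] {A : Set C} {z : C} (h : ∀ x ∈ A, z * x ∈ A) (n : ℕ)
    (x : C) (hx : x ∈ A) : z ^ n * x ∈ A := by
  induction n with
  | zero => rw [pow_zero, one_mul]; exact hx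
  | succ n ih =>
    rw [pow_succ', mul_assoc]
    exact h _ ih

private theorem cfi_fin (hS : St_SPF) {C : Type} [Group C] {A W : Set C} (hA : AI A)
    (hW : Nst A W) {z : C} (hz : Hyp z A) :
    {x : C | x * z = z * x ∧ x ∈ A ∧ z⁻¹ * x ∉ A}.Finite := by
  obtain ⟨-, hsep, hg⟩ := hS C A hA
  obtain ⟨-, -, -, hcap⟩ := hg z hz
  obtain ⟨hzA, x0, hx0, hx0'⟩ := hz
  have hfin : (W ∪ (fun w => z * w) '' W ∪
      {v : C | ¬ (v⁻¹ * (z * x0) ∈ A ↔ v⁻¹ * (z⁻¹ * x0) ∈ A)}).Finite :=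
    (hW.fin.union (hW.fin.image _)).union (hsep _ _)
  refine hfin.subset ?_
  rintro x ⟨hxz, hxA, hxA'⟩
  by_cases h1 : x ∈ W
  · exact Or.inl (Or.inl h1)
  by_cases h2 : z⁻¹ * x ∈ W
  · exact Or.inl (Or.inr ⟨z⁻¹ * x, h2, mul_inv_cancel_left z x⟩)
  right
  have hcomm : ∀ n : ℕ, ∀ y : C, x * ((z ^ n)⁻¹ * y) = (z ^ n)⁻¹ * (x * y) := by
    intro n y
    have h3 : Commute x z := hxz
    have h4 : Commute x (z ^ n)⁻¹ := (h3.pow_right n).inv_right
    rw [← mul_assoc, h4.eq, mul_assoc]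
  -- step 1
  have hx1 : x⁻¹ ∉ A := by
    intro h3
    have h4 : ∀ y, y ∉ A → x * y ∈ A := by
      intro y hy
      by_contra h5
      have h6 := hW.nest x h1 Aᶜ Aᶜ (Or.inr rfl) (Or.inr rfl) (fun h => h hxA) (fun h => h h3)
        (x * y) h5
      rw [inv_mul_cancel_left] at h6
      exact h6 hy
    obtain ⟨n, hn⟩ := hcap (x * (z⁻¹ * x0))
    apply hn
    rw [← hcomm]
    apply h4
    intro h5
    apply hx0'
    have h6 := cfi_pow hzA n _ h5
    rwa [mul_inv_cancel_left] at h6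
  -- step 2
  have hx2 : ∀ y, y ∉ A → x⁻¹ * y ∉ A := fun y hy =>
    hW.nest x h1 Aᶜ A (Or.inr rfl) (Or.inl rfl) (fun h => h hxA) hx1 y hy
  have hx3 : ∀ y ∈ A, x * y ∈ A := by
    intro y hy
    by_contra h5
    have h6 := hx2 _ h5
    rw [inv_mul_cancel_left] at h6
    exact h6 hy
  -- step 3
  have hw : (z⁻¹ * x)⁻¹ ∈ A := by
    by_contra h3
    have h4 := hW.nest (z⁻¹ * x) h2 A A (Or.inl rfl) (Or.inl rfl) hxA' h3 (x * x0) (hx3 _ hx0)
    apply h4
    have h5 : (z⁻¹ * x)⁻¹ * (x * x0) = z * x0 := by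
      rw [mul_inv_rev, inv_inv, mul_assoc, ← mul_assoc z x x0, ← hxz, mul_assoc, inv_mul_cancel_left]
    rw [h5]
    exact hzA _ hx0
  -- step 4
  have h5 : x⁻¹ * (z * x0) ∈ A := by
    have h4 := hW.nest (z⁻¹ * x) h2 A Aᶜ (Or.inl rfl) (Or.inr rfl) hxA' (fun h => h hw) x0 hx0
    rw [mul_inv_rev, inv_inv, mul_assoc] at h4
    by_contra h6
    exact h4 h6
  intro h6
  exact hx2 _ hx0' (h6.1 h5)

theorem thm_CFI (hSPF : St_SPF) : St_CFI := by
  classical
  intro C _ A W hA hW z hz hconj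
  have hT := cfi_fin hSPF hA hW hz
  obtain ⟨hAc, -, hg⟩ := hSPF C A hA
  obtain ⟨hz', -, -, hcap⟩ := hg z hz
  obtain ⟨-, -, hg'⟩ := hSPF C Aᶜ hAc
  obtain ⟨-, -, -, hcap'⟩ := hg' z⁻¹ hz'
  have hzA := hz.1
  -- the normal form
  have hform : ∀ x : C, x * z = z * x → ∃ y : C, (y * z = z * y ∧ y ∈ A ∧ z⁻¹ * y ∉ A) ∧
      ∃ k : ℤ, x = y * z ^ k := by
    intro x hx
    obtain ⟨N, hN⟩ := hcap x
    obtain ⟨N', hN'⟩ := hcap' x
    have hN2 : z ^ N' * x ∈ A := by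
      by_contra h
      apply hN'
      rw [inv_pow, inv_inv]
      exact h
    have hex : ∃ n : ℕ, z ^ ((n : ℤ) - N) * x ∈ A := by
      refine ⟨N + N', ?_⟩
      rw [Nat.cast_add, add_sub_cancel_left, zpow_natCast]
      exact hN2
    have hpos : Nat.find hex ≠ 0 := by
      intro h0
      have h1 := Nat.find_spec hex
      rw [h0, Nat.cast_zero, zero_sub, zpow_neg, zpow_natCast] at h1
      exact hN h1
    obtain ⟨m, hm⟩ := Nat.exists_eq_succ_of_ne_zero hpos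
    have h2 : z ^ (((m : ℕ) : ℤ) - N) * x ∉ A := Nat.find_min hex (by omega)
    have h3 : z ^ (((m + 1 : ℕ) : ℤ) - N) * x ∈ A := by
      have h1 := Nat.find_spec hex
      rw [hm] at h1
      exact h1
    have hcx : Commute x z := hx
    refine ⟨z ^ (((m + 1 : ℕ) : ℤ) - N) * x, ⟨?_, h3, ?_⟩, -(((m + 1 : ℕ) : ℤ) - N), ?_⟩
    · rw [mul_assoc, hx, ← mul_assoc, ← mul_assoc]
      congr 1
      exact ((Commute.refl z).zpow_left _).eq
    · rw [← mul_assoc, ← zpow_neg_one, ← zpow_add]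
      have h4 : (-1 : ℤ) + (((m + 1 : ℕ) : ℤ) - N) = ((m : ℕ) : ℤ) - N := by
        push_cast
        ring
      rw [h4]
      exact h2
    · have h5 : Commute x (z ^ (-(((m + 1 : ℕ) : ℤ) - N))) := hcx.zpow_right _
      rw [mul_assoc, h5.eq, ← mul_assoc, ← zpow_add, add_neg_cancel, zpow_zero, one_mul]
  -- the centralizer has index at most two
  obtain ⟨h0, hh0⟩ : ∃ h0 : C, ∀ g : C, g * z = z * g ∨ (h0⁻¹ * g) * z = z * (h0⁻¹ * g) := by
    by_cases hall : ∀ g : C, g * z = z * g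
    · exact ⟨1, fun g => Or.inl (hall g)⟩
    · push Not at hall
      obtain ⟨h0, hh⟩ := hall
      have hno : ∀ g : C, ¬ g * z = z * g → g * z = z⁻¹ * g := by
        intro g hg'
        rcases hconj g with h | h
        · exact absurd (mul_inv_eq_iff_eq_mul.1 h) hg'
        · exact mul_inv_eq_iff_eq_mul.1 h
      refine ⟨h0, fun g => ?_⟩
      by_cases hgz : g * z = z * g
      · exact Or.inl hgz
      · right
        have h1 := hno g hgz
        have h2 := hno h0 hh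
        -- h0 z = z⁻¹ h0, so z h0 z = h0 and h0⁻¹ z⁻¹ = z h0⁻¹
        have h3 : h0⁻¹ * z⁻¹ = z * h0⁻¹ := by
          rw [inv_mul_eq_iff_eq_mul, ← mul_assoc, h2, mul_assoc, mul_inv_cancel, mul_one]
        rw [mul_assoc, h1, ← mul_assoc, h3, mul_assoc]
  -- the quotient is finite
  set T : Set C := {x : C | x * z = z * x ∧ x ∈ A ∧ z⁻¹ * x ∉ A} with hTdef
  have hT2 : (T ∪ (fun y => h0 * y) '' T).Finite := hT.union (hT.image _)
  have hfq : Finite (C ⧸ zpowers z) := by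
    haveI : Finite (T ∪ (fun y => h0 * y) '' T : Set C) := hT2
    refine Finite.of_surjective
      (fun y : (T ∪ (fun y => h0 * y) '' T : Set C) => (QuotientGroup.mk (y : C) : C ⧸ zpowers z)) ?_
    intro q
    obtain ⟨g, rfl⟩ := QuotientGroup.mk_surjective q
    rcases hh0 g with h | h
    · obtain ⟨y, hy, k, hk⟩ := hform g h
      refine ⟨⟨y, Or.inl hy⟩, ?_⟩
      show (QuotientGroup.mk y : C ⧸ zpowers z) = QuotientGroup.mk g
      rw [QuotientGroup.eq, hk, inv_mul_cancel_left]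
      exact ⟨k, rfl⟩
    · obtain ⟨y, hy, k, hk⟩ := hform (h0⁻¹ * g) h
      refine ⟨⟨h0 * y, Or.inr ⟨y, hy, rfl⟩⟩, ?_⟩
      show (QuotientGroup.mk (h0 * y) : C ⧸ zpowers z) = QuotientGroup.mk g
      rw [QuotientGroup.eq]
      have h1 : g = h0 * (y * z ^ k) := by rw [← hk, mul_inv_cancel_left]
      rw [h1, mul_inv_rev, mul_assoc, inv_mul_cancel_left, inv_mul_cancel_left]
      exact ⟨k, rfl⟩
  exact Subgroup.index_ne_zero_of_finite

end Pool.Agent.PDT
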