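import Pool.Agent.PDT.Defs

/-!
# PDT: statements A, ends of groups

Every `def St_X : Prop` is a module; its docstring is the proof. Prove it in a file
`Pool/Agent/PDT/X.lean` as `theorem thm_X : St_X` (namespace `Pool.Agent.PDT`); modules it uses are
hypotheses `(h : St_Y)`.

THEOREM [END]: a finitely generated torsion-free group without nonabelian free subgroups has at most
one end or is cyclic. (Freudenthal, Hopf, Stallings, Dunwoody; the proof here is elementary.)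
For a set `A` and `u ∈ C` the translate is `u A = {x | u⁻¹ x ∈ A}`.
-/

set_option autoImplicit false
set_option linter.unusedVariables false

namespace Pool.Agent.PDT

open Pool.Agent.PDA Pool.Agent.PDB Pool.Agent.PDE Subgroup

/-- [SPF] Basic facts. (1) The complement is almost invariant. (2) Only finitely many translates of `A`
separate two points. (3) `Hyp g A` implies `Hyp g⁻¹ Aᶜ`. (4) The powers of `g` are different.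
(5) Powers. (6) `⋂ g^n A = ∅`.
PROOF. (1) The condition is symmetric. (2) With `h = v⁻¹ p`, `s = p⁻¹ q`: `v⁻¹ q = h s`, so
`h ∈ {h | ¬ (h ∈ A ↔ h s ∈ A)}`, a finite set, and `v = p h⁻¹`. (3) If `x ∉ A` then `g⁻¹ x ∉ A` (otherwise
`x = g (g⁻¹ x) ∈ A`). If `x ∈ A`, `g⁻¹ x ∉ A`, then `y = g⁻¹ x ∈ Aᶜ` and `(g⁻¹)⁻¹ y = x ∉ Aᶜ`.
(4) If `g^a = g^b`, `a ≠ b`, then `g^n = 1` with `n > 0`, so `g⁻¹ = g^(n-1)` maps `A` into `A` (induction),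
contradiction with `Hyp g A`. (5) `g^a x ∈ A` for `x ∈ A` (induction). Let `x ∈ A`, `g⁻¹ x ∉ A`; for `a ≥ 1`
`(g^a)⁻¹ x = (g^(a-1))⁻¹ g⁻¹ x ∉ A` (otherwise multiply with `g^(a-1)`). (6) Suppose `(g^n)⁻¹ x ∈ A` for all
`n`. Take `y ∉ A` (`y = g⁻¹ x'` exists); `(g^n)⁻¹ y ∉ A` for all `n` (otherwise multiply with `g^n`). With
`s = x⁻¹ y` all `h = (g^n)⁻¹ x` satisfy `h ∈ A`, `h s ∉ A`; they are infinitely many by (4),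
contradiction with `AI A`. -/
def St_SPF : Prop := ∀ (C : Type) [Group C] (A : Set C), AI A →
  AI Aᶜ ∧ (∀ p q : C, {v : C | ¬ (v⁻¹ * p ∈ A ↔ v⁻¹ * q ∈ A)}.Finite) ∧
  ∀ g : C, Hyp g A → Hyp g⁻¹ Aᶜ ∧ (∀ a b : ℤ, g ^ a = g ^ b → a = b) ∧
    (∀ a : ℕ, 0 < a → Hyp (g ^ a) A) ∧ ∀ x : C, ∃ n : ℕ, (g ^ n)⁻¹ * x ∉ A

/-- [NST] Nesting.
PROOF. `E` a finite symmetric generating set, `D = {g | ∃ s ∈ E, ¬ (g ∈ A ↔ g s ∈ A)}`, finite. Let `F` be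
the set of the products of at most `n` elements of `E`, `n` so large that `D ⊆ F` and `F` meets `A` and
`Aᶜ`. `F` is finite, `1 ∈ F`, and connected: if `X` is a set with `x ∈ X ↔ x s ∈ X` for all `x ∈ F`,
`s ∈ E`, then `F ⊆ X` or `F ∩ X = ∅` (by induction over the length `x ∈ X ↔ 1 ∈ X` for `x ∈ F`). Let
`W = F F⁻¹` and `u ∉ W`, i.e. `f' ≠ u f` for `f, f' ∈ F`. (a) `F` is contained in or disjoint from
`u A = {x | u⁻¹ x ∈ A}`: for `x ∈ F` `u⁻¹ x ∉ F`, so `u⁻¹ x ∉ D`, and `u⁻¹ x ∈ A ↔ u⁻¹ x s ∈ A`. (b) `F` is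
contained in or disjoint from `{x | u x ∈ A}`: for `x ∈ F` `u x ∉ F`. The same holds with `Aᶜ`. (c) Let
`u ∉ A₁`, `u⁻¹ ∉ A₂`; since `1 ∈ F`, (a) and (b) give `u⁻¹ x ∉ A₂` and `u x ∉ A₁` for all `x ∈ F`. Let
`Y = {x | x ∈ A₁ ∧ u⁻¹ x ∈ A₂}`, `x ∈ Y`, `s ∈ E`. `x ∉ F`, so `x ∉ D` and `x s ∈ A₁`. `u⁻¹ x ∉ F` (otherwise
`x = u (u⁻¹ x) ∉ A₁`), so `u⁻¹ x ∉ D` and `u⁻¹ x s ∈ A₂`. So `Y` is stable under `E` and empty or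
everything, but `1 ∉ Y`. So `Y = ∅`. (d) If `x ∈ A ↔ u x ∉ A` for all `x`, then `{x | u⁻¹ x ∈ A} = Aᶜ`
contains `F` or is disjoint from `F`, contradiction. -/
def St_NST : Prop := ∀ (C : Type) [Group C] (A : Set C), Group.FG C → AI A → A.Nonempty →
  Aᶜ.Nonempty → ∃ W : Set C, Nst A W

/-- [HYP] There is `g` with `g A ⊊ A`.
PROOF. Nestings for `u ∉ W`: if `u ∈ A`, `u⁻¹ ∉ A`, then `u A ⊆ A` (`A₁ = Aᶜ`, `A₂ = A`); if `u ∉ A`,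
`u⁻¹ ∈ A`, then `u Aᶜ ⊆ Aᶜ` (`A₁ = A`, `A₂ = Aᶜ`), so `u⁻¹ A ⊆ A`; if `u, u⁻¹ ∈ A`, then `u Aᶜ ⊆ A` (`Aᶜ`,
`Aᶜ`); if `u, u⁻¹ ∉ A`, then `u A ⊆ Aᶜ`. Take `g₁ ∈ A`, `g₂ ∉ A`, both not in `W`. Case `g₁⁻¹ ∉ A`: `g = g₁`;
`g₁ A ⊆ A`; if `g₁ A = A` then `g₁ ∈ A = g₁ A` gives `1 ∈ A`, and `1 ∈ g₁ A` gives `g₁⁻¹ ∈ A`,
contradiction. Case `g₂⁻¹ ∈ A`: `g = g₂⁻¹`, `g₂⁻¹ A ⊆ A`, proper in the same way (`g₂⁻¹ ∈ A`, `g₂ ∉ A`).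
Otherwise `g₁ Aᶜ ⊆ A` and `g₂ A ⊆ Aᶜ`; `g = g₁ g₂`, `g A ⊆ g₁ Aᶜ ⊆ A`. If `g A = A` then `g₁ Aᶜ = A`, i.e.
`x ∈ A ↔ g₁ x ∉ A` for all `x`, against `Nst.ne` (`x ∉ A → g₁ x ∈ A` is the inclusion; if `x ∈ A` then
`g₁ x ∉ g₁ Aᶜ = A`). -/
def St_HYP : Prop := ∀ (C : Type) [Group C] (A W : Set C), AI A → A.Infinite → Aᶜ.Infinite →
  Nst A W → ∃ g : C, Hyp g A

/-- [CNJ] Two translates of the halves meet at infinity: commensurable axes.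
PROOF (from `St_SPF`). `AI A₁`, `AI A₂`. The sets `g_i^N A_i = {x | (g_i^N)⁻¹ x ∈ A_i}` decrease with `N`
and have empty intersection. For `w ∉ W` (`St_NST`): (1) `w ∉ A₁`, `w⁻¹ ∉ A₂`: `A₁ ∩ w A₂ = ∅`;
(2) `w ∈ A₁`, `w⁻¹ ∉ A₂`: `w A₂ ⊆ A₁`; (3) `w ∉ A₁`, `w⁻¹ ∈ A₂`: `A₁ ⊆ w A₂`; (4) `w ∈ A₁`, `w⁻¹ ∈ A₂`:
`A₁ ∪ w A₂` is everything. The hypothesis says: `h g₂^N A₂` meets `g₁^M A₁` for all `N`, `M` (take the
maximum and use that the sets decrease). (a) For every `κ` `h g₂^N A₂ ⊆ g₁^κ A₁` for all large `N`: let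
`w = g₁^(-κ) h g₂^N`; for large `N` `w ∉ W` (the `w` are different for different `N`) and `w⁻¹ ∉ A₂`, since
`1 ∉ w A₂ ⟺ h⁻¹ g₁^κ ∉ g₂^N A₂`. So (1) or (2) holds, (1) is impossible by the hypothesis. (b) Let
`h g₂^(N₀) A₂ ⊆ A₁`. For `N ≥ N₀` let `κ(N)` be the largest `κ` with `h g₂^N A₂ ⊆ g₁^κ A₁` (`⋂ g₁^κ A₁ = ∅`
and `A₂ ≠ ∅`, so it exists), `v_N = g₁^(-κ(N)) h g₂^N`: `v_N A₂ ⊆ A₁`, not `v_N A₂ ⊆ g₁ A₁`. (c) Let `J` be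
larger than the number of elements of `W`. Claim `g₁^J A₁ ⊆ v_N A₂`. The elements `g₁^(-j) v_N`,
`1 ≤ j ≤ J`, are different, so one of them is `w ∉ W`. (1) is impossible by the hypothesis; (2) says
`v_N A₂ ⊆ g₁^j A₁ ⊆ g₁ A₁`, impossible; (4) says `g₁^j A₁ ∪ v_N A₂` is everything, but both are contained
in `A₁`, impossible. So (3) holds, `g₁^J A₁ ⊆ g₁^j A₁ ⊆ v_N A₂`. (d) Choose `p ∈ g₁^J A₁`, `q ∉ A₁`. All
`v_N`, `N ≥ N₀`, lie in the finite set of the `v` with `p ∈ v A₂`, `q ∉ v A₂` (`St_SPF` 2). So `v_N = v_M`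
for some `N₀ ≤ N < M`, and `h g₂^(M-N) h⁻¹ = g₁^(κ(M) - κ(N))`. -/
def St_CNJ : Prop := ∀ (C : Type) [Group C] (A W : Set C), AI A → Nst A W → ∀ A₁ A₂ : Set C,
  Side A A₁ → Side A A₂ → ∀ g₁ g₂ h : C, Hyp g₁ A₁ → Hyp g₂ A₂ →
  (∀ N : ℕ, ∃ x : C, (g₁ ^ N)⁻¹ * x ∈ A₁ ∧ (h * g₂ ^ N)⁻¹ * x ∈ A₂) →
  ∃ (a : ℕ) (b : ℤ), 0 < a ∧ h * g₂ ^ a * h⁻¹ = g₁ ^ b

/-- [PNG] Ping-pong.
PROOF (from `St_SPF`, `St_CNJ`). If for one of the four choices of `(g₁, A₁)`, `(g₂, A₂)` in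
`{(g, A), (g⁻¹, Aᶜ)}` the hypothesis of `St_CNJ` holds, then `h g^(± a) h⁻¹ = g^(± b)` and we are done.
Otherwise there is one `N` (the sets decrease) such that the sets `X₀ = g^N A`, `Y₀ = g^(-N) Aᶜ`,
`X₁ = h g^N A`, `Y₁ = h g^(-N) Aᶜ` satisfy: each of `X₀`, `Y₀` is disjoint from each of `X₁`, `Y₁`. Also
`X₀ ⊆ A`, `Y₀ ⊆ Aᶜ`, so `X₀ ∩ Y₀ = ∅`, and `X₁ ∩ Y₁ = ∅`. All are nonempty. Let `a₀ = g^(2N)`,
`a₁ = h g^(2N) h⁻¹`: `a₀ (Y₀ᶜ) = g^(2N) g^(-N) A = X₀`, `a₀⁻¹ (X₀ᶜ) = g^(-N) Aᶜ = Y₀`, and the same for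
`a₁`. `FreeGroup.injective_lift_of_ping_pong` (`C` acts on itself by left multiplication) gives an
injective homomorphism `FreeGroup (Fin 2) → C`, contradiction. -/
def St_PNG : Prop := ∀ (C : Type) [Group C] (A W : Set C), NoF2 C → AI A → Nst A W → ∀ g : C,
  Hyp g A → ∀ h : C, ∃ (a : ℕ) (b : ℤ), 0 < a ∧ h * g ^ a * h⁻¹ = g ^ b

/-- [EQL] `|b| = a`.
PROOF (from `St_SPF`). For `x, y ∈ C` let `c(x,y)` be the number of the `u ∈ C` with exactly one of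
`u⁻¹ x`, `u⁻¹ y` in `A`; finite by `St_SPF` 2. `c` is symmetric, `c(w x, w y) = c(x, y)`,
`c(x,z) ≤ c(x,y) + c(y,z)`. `c(1, g^n) ≥ n`: since `⋂ g^i A = ∅` and, for `(g⁻¹, Aᶜ)`, every `x` is in
`g^(-i) A` for large `i`, there is an integer `m` with `1 ∈ g^m A`, `1 ∉ g^(m+1) A`; then
`g^n ∈ g^(m+n) A`, so for `m < i ≤ m + n` exactly one of `1`, `g^n` is in `g^i A`; the `g^i` are different.
Let `h g^a h⁻¹ = g^b`, `a > 0`. `b ≠ 0` (the powers of `g` are different). Suppose `|b| ≠ a`. Replacing `h` by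
`h⁻¹` if `|b| < a` (`h⁻¹ g^b h = g^a`, so `h⁻¹ g^(|b|) h = g^(± a)`) we may assume `|b| > a`. By induction
`h^k g^(a^k) h^(-k) = g^(b^k)`. So `(a + 1)^k ≤ |b|^k ≤ c(1, g^(|b|^k)) = c(1, g^(b^k)) ≤
c(1, h^k) + c(1, g^(a^k)) + c(1, h^(-k)) ≤ 2 k c(1, h) + a^k c(1, g)` for all `k` (`c(1, x^(-1)) = c(x, 1)`,
`c(1, x y) ≤ c(1, x) + c(1, y)`), which is false for large `k` (divide by `a^k`; `(1 + 1/a)^k` grows
faster than linearly). -/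
def St_EQL : Prop := ∀ (C : Type) [Group C] (A : Set C), AI A → ∀ g : C, Hyp g A → ∀ h : C,
  (∃ (a : ℕ) (b : ℤ), 0 < a ∧ h * g ^ a * h⁻¹ = g ^ b) →
  ∃ a : ℕ, 0 < a ∧ (h * g ^ a * h⁻¹ = g ^ a ∨ h * g ^ a * h⁻¹ = (g ^ a)⁻¹)

/-- [NRM] A normal infinite cyclic subgroup.
PROOF. `C` is generated by `h₁, …, h_r`, `a_i` for `h_i`; `a = ∏ a_i`, `z = g^a = (g^(a_i))^(a / a_i)`:
`h_i z h_i⁻¹ = z` or `z⁻¹`. The `h` with this property form a subgroup. -/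
def St_NRM : Prop := ∀ (C : Type) [Group C] (g : C), Group.FG C →
  (∀ h : C, ∃ a : ℕ, 0 < a ∧ (h * g ^ a * h⁻¹ = g ^ a ∨ h * g ^ a * h⁻¹ = (g ^ a)⁻¹)) →
  ∃ a : ℕ, 0 < a ∧ ∀ h : C, h * g ^ a * h⁻¹ = g ^ a ∨ h * g ^ a * h⁻¹ = (g ^ a)⁻¹

/-- [CFI] Finite index.
PROOF (from `St_SPF`). `C₀` = the centralizer of `z`, of index at most 2 (if `h`, `h'` are not in `C₀` then
`h z h⁻¹ = h' z h'⁻¹ = z⁻¹` and `h⁻¹ h' ∈ C₀`). CLAIM: `C₀ ∩ (A ∖ z A)` is contained in the finite set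
`W ∪ z W ∪ {v | z A ⊆ v A ⊆ A}`; the last set is finite by `St_SPF` 2 (choose `p ∈ z A`, `q ∉ A`). Let
`x ∈ C₀`, `x ∈ A`, `z⁻¹ x ∉ A`, `x ∉ W`, `z⁻¹ x ∉ W`. `x` commutes with `z`. If `x⁻¹ ∈ A` then (`Nst` with
`Aᶜ`, `Aᶜ`) `x Aᶜ ⊆ A`; with `y ∈ Aᶜ`: `y ∈ z^n Aᶜ` for all `n ≥ 0` (`z A ⊆ A`), so
`x y ∈ x z^n Aᶜ = z^n x Aᶜ ⊆ z^n A` for all `n`, contradiction with `⋂ z^n A = ∅`. So `x⁻¹ ∉ A` and
`x A ⊆ A` (`Aᶜ`, `A`). Let `w = z⁻¹ x`, `w ∉ A`. If `w⁻¹ ∉ A` then `A ∩ w A = ∅`, `z A ∩ x A = ∅`; but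
`z x A = x z A ⊆ x A` and `z x A ⊆ z A`, and `A ≠ ∅`, contradiction. So `w⁻¹ ∈ A`, `A ⊆ w A` (`A`, `Aᶜ`),
`z A ⊆ x A`, and `x` is in the third set. For every `x ∈ C₀` there is an integer `k` with
`z^(-k) x ∈ A ∖ z A` (`⋂ z^n A = ∅`, and every point is in `z^(-n) A` for large `n`, by `St_SPF` for
`(z⁻¹, Aᶜ)`). So `C₀` is the union of finitely many cosets of `⟨z⟩`. -/
def St_CFI : Prop := ∀ (C : Type) [Group C] (A W : Set C), AI A → Nst A W → ∀ z : C, Hyp z A →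
  (∀ h : C, h * z * h⁻¹ = z ∨ h * z * h⁻¹ = z⁻¹) → (zpowers z).index ≠ 0

/-- [CYC] Torsion-free and virtually infinite cyclic.
PROOF. If `z = 1` then `C` is finite, so trivial (`y = 1`). Let `z ≠ 1`. `z` is central: if `t z t⁻¹ = z⁻¹`,
then `t^n = z^k` for some `n > 0` (`zpowers z` is normal and of finite index, or
`Subgroup.exists_pow_mem_of_index_ne_zero`), `z^k = t z^k t⁻¹ = z^(-k)`, so `z^(2k) = 1`, `k = 0` (torsion-free),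
`t^n = 1`, `t = 1`, `z = z⁻¹`, `z^2 = 1`, `z = 1`, contradiction. So the center has finite index `n`, and
`MonoidHom.transferCenterPow` says that `x ↦ x^n` is a homomorphism to the center; it is injective
(torsion-free), so `C` is commutative. With `N = (zpowers z).index`, `x ↦ x^N` is an injective homomorphism
`C → zpowers z`, and subgroups of cyclic groups are cyclic. -/
def St_CYC : Prop := ∀ (C : Type) [Group C] (z : C), TorFree C →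
  (∀ h : C, h * z * h⁻¹ = z ∨ h * z * h⁻¹ = z⁻¹) → (zpowers z).index ≠ 0 → ∃ y : C, zpowers y = ⊤

/-- [END] PROOF (from `St_SPF`, `St_NST`, `St_HYP`, `St_CNJ`, `St_PNG`, `St_EQL`, `St_NRM`, `St_CFI`,
`St_CYC`). If `OneEnd C` fails there is `A` with `AI A`, `A` and `Aᶜ` infinite. `W` from `St_NST`, `g` from
`St_HYP`; `St_PNG` and `St_EQL` for all `h`; `St_NRM` gives `z = g^a`, `Hyp z A` (`St_SPF`); `St_CFI`,
`St_CYC`. -/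
def St_END : Prop := ∀ (C : Type) [Group C], Group.FG C → TorFree C → NoF2 C →
  OneEnd C ∨ ∃ y : C, zpowers y = ⊤

end Pool.Agent.PDT
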