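import Mathlib
import Pool.Agent.PDT.StA

/-!
# PDT, module CNJ: two axes meeting at infinity are commensurable
-/

set_option autoImplicit false
set_option linter.unusedVariables false

namespace Pool.Agent.PDT

open Pool.Agent.PDA Pool.Agent.PDB Pool.Agent.PDE Subgroup

private lemma CNJ_up {C : Type} [Group C] {g : C} {A : Set C} (h : ∀ x ∈ A, g * x ∈ A) (n : ℕ) :
    ∀ x ∈ A, g ^ n * x ∈ A := by
  induction n with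
  | zero => intro x hx; simpa using hx
  | succ n ih =>
    intro x hx
    rw [pow_succ', mul_assoc]
    exact h _ (ih x hx)

private lemma CNJ_dec {C : Type} [Group C] {g : C} {A : Set C} (h : ∀ x ∈ A, g * x ∈ A) {m n : ℕ}
    (hmn : m ≤ n) (x : C) (hx : (g ^ n)⁻¹ * x ∈ A) : (g ^ m)⁻¹ * x ∈ A := by
  have e : (g ^ m)⁻¹ * x = g ^ (n - m) * ((g ^ n)⁻¹ * x) := by
    have e1 : g ^ n = g ^ m * g ^ (n - m) := by rw [← pow_add]; congr 1; omega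
    rw [e1]
    have e2 : g ^ m * g ^ (n - m) = g ^ (n - m) * g ^ m := by rw [← pow_add, ← pow_add, add_comm]
    rw [e2]
    group
  rw [e]
  exact CNJ_up h _ _ hx

private lemma CNJ_side {C : Type} {A A₁ : Set C} (h : Side A A₁) : Side A A₁ᶜ := by
  rcases h with rfl | rfl
  · exact Or.inr rfl
  · exact Or.inl (compl_compl A)

private lemma CNJ_AI {C : Type} [Group C] (hSPF : St_SPF) {A A₁ : Set C} (hA : AI A) (h : Side A A₁) :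
    AI A₁ := by
  rcases h with rfl | rfl
  · exact hA
  · exact (hSPF C A hA).1

theorem thm_CNJ (hSPF : St_SPF) : St_CNJ := by
  intro C _ A W hA hN A₁ A₂ hs1 hs2 g₁ g₂ h H1 H2 hyp
  have hA1 : AI A₁ := CNJ_AI hSPF hA hs1
  have hA2 : AI A₂ := CNJ_AI hSPF hA hs2
  obtain ⟨-, hfin1, hh1⟩ := hSPF C A₁ hA1
  obtain ⟨-, hfin2, hh2⟩ := hSPF C A₂ hA2
  obtain ⟨-, hpow1, -, hex1⟩ := hh1 g₁ H1
  obtain ⟨-, hpow2, -, hex2⟩ := hh2 g₂ H2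
  have hup1 := H1.1
  have hup2 := H2.1
  -- the four nestings
  have N1 : ∀ w ∉ W, w ∉ A₁ → w⁻¹ ∉ A₂ → ∀ x ∈ A₁, w⁻¹ * x ∉ A₂ := fun w hw h1 h2 =>
    hN.nest w hw A₁ A₂ hs1 hs2 h1 h2
  have N2 : ∀ w ∉ W, w ∈ A₁ → w⁻¹ ∉ A₂ → ∀ x, w⁻¹ * x ∈ A₂ → x ∈ A₁ := by
    intro w hw h1 h2 x hx
    by_contra hc
    exact hN.nest w hw A₁ᶜ A₂ (CNJ_side hs1) hs2 (fun h => h h1) h2 x hc hx
  have N3 : ∀ w ∉ W, w ∉ A₁ → w⁻¹ ∈ A₂ → ∀ x ∈ A₁, w⁻¹ * x ∈ A₂ := by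
    intro w hw h1 h2 x hx
    by_contra hc
    exact hN.nest w hw A₁ A₂ᶜ hs1 (CNJ_side hs2) h1 (fun h => h h2) x hx hc
  have N4 : ∀ w ∉ W, w ∈ A₁ → w⁻¹ ∈ A₂ → ∀ x, x ∉ A₁ → w⁻¹ * x ∈ A₂ := by
    intro w hw h1 h2 x hx
    by_contra hc
    exact hN.nest w hw A₁ᶜ A₂ᶜ (CNJ_side hs1) (CNJ_side hs2) (fun h => h h1) (fun h => h h2) x hx hc
  -- the halves meet
  have hmeet : ∀ M N : ℕ, ∃ x : C, (g₁ ^ M)⁻¹ * x ∈ A₁ ∧ (h * g₂ ^ N)⁻¹ * x ∈ A₂ := by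
    intro M N
    obtain ⟨x, hx1, hx2⟩ := hyp (max M N)
    refine ⟨x, CNJ_dec hup1 (le_max_left M N) x hx1, ?_⟩
    rw [mul_inv_rev, mul_assoc] at hx2 ⊢
    exact CNJ_dec hup2 (le_max_right M N) _ hx2
  -- (a)
  have ha : ∃ N₀ : ℕ, ∀ N, N₀ ≤ N → ∀ x, (h * g₂ ^ N)⁻¹ * x ∈ A₂ → x ∈ A₁ := by
    have hinj : Function.Injective (fun N : ℕ => h * g₂ ^ N) := by
      intro a b hab
      have h1 : g₂ ^ a = g₂ ^ b := mul_left_cancel hab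
      have h2 := hpow2 (a : ℤ) (b : ℤ) (by rw [zpow_natCast, zpow_natCast]; exact h1)
      exact_mod_cast h2
    have hfW : {N : ℕ | h * g₂ ^ N ∈ W}.Finite := hN.fin.preimage hinj.injOn
    obtain ⟨N1', hN1'⟩ := hfW.bddAbove
    obtain ⟨n, hn⟩ := hex2 h⁻¹
    refine ⟨max (N1' + 1) n, ?_⟩
    intro N hNge
    have hwW : h * g₂ ^ N ∉ W := by
      intro hw
      have h1 : N ≤ N1' := hN1' hw
      have h2 := le_max_left (N1' + 1) n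
      omega
    have hwinv : (h * g₂ ^ N)⁻¹ ∉ A₂ := by
      intro hw
      rw [mul_inv_rev] at hw
      exact hn (CNJ_dec hup2 ((le_max_right (N1' + 1) n).trans hNge) _ hw)
    have hwA : h * g₂ ^ N ∈ A₁ := by
      by_contra hc
      obtain ⟨x, hx1, hx2⟩ := hmeet 0 N
      have hx1' : x ∈ A₁ := by simpa using hx1
      exact N1 _ hwW hc hwinv x hx1' hx2
    exact N2 _ hwW hwA hwinv
  obtain ⟨N₀, hN₀⟩ := ha
  -- (b)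
  obtain ⟨a₂, ha₂, -⟩ := H2.2
  have hb : ∀ N, N₀ ≤ N → ∃ κ : ℕ, (∀ x, ((g₁ ^ κ)⁻¹ * (h * g₂ ^ N))⁻¹ * x ∈ A₂ → x ∈ A₁) ∧
      ∃ x, ((g₁ ^ κ)⁻¹ * (h * g₂ ^ N))⁻¹ * x ∈ A₂ ∧ g₁⁻¹ * x ∉ A₁ := by
    intro N hNge
    classical
    have h1 : ∃ κ : ℕ, ¬ ∀ x, (h * g₂ ^ N)⁻¹ * x ∈ A₂ → (g₁ ^ κ)⁻¹ * x ∈ A₁ := by
      obtain ⟨n, hn⟩ := hex1 (h * g₂ ^ N * a₂)
      refine ⟨n, fun hc => hn (hc _ ?_)⟩
      rw [inv_mul_cancel_left]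
      exact ha₂
    have h2 := Nat.find_spec h1
    have h3 : Nat.find h1 ≠ 0 := by
      intro h0
      apply h2
      rw [h0]
      intro x hx
      simpa using hN₀ N hNge x hx
    obtain ⟨κ, hκ⟩ : ∃ κ, Nat.find h1 = κ + 1 := ⟨Nat.find h1 - 1, by omega⟩
    have h4 : ∀ x, (h * g₂ ^ N)⁻¹ * x ∈ A₂ → (g₁ ^ κ)⁻¹ * x ∈ A₁ := by
      have := Nat.find_min h1 (m := κ) (by omega)
      exact not_not.1 this
    rw [hκ] at h2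
    push Not at h2
    obtain ⟨x, hx1, hx2⟩ := h2
    refine ⟨κ, ?_, ⟨(g₁ ^ κ)⁻¹ * x, ?_, ?_⟩⟩
    · intro x hx
      have h5 := h4 (g₁ ^ κ * x) (by
        have e : ((g₁ ^ κ)⁻¹ * (h * g₂ ^ N))⁻¹ * x = (h * g₂ ^ N)⁻¹ * (g₁ ^ κ * x) := by group
        rw [← e]
        exact hx)
      rwa [inv_mul_cancel_left] at h5
    · have e : ((g₁ ^ κ)⁻¹ * (h * g₂ ^ N))⁻¹ * ((g₁ ^ κ)⁻¹ * x) = (h * g₂ ^ N)⁻¹ * x := by group
      rw [e]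
      exact hx1
    · have e : g₁⁻¹ * ((g₁ ^ κ)⁻¹ * x) = (g₁ ^ (κ + 1))⁻¹ * x := by
        rw [pow_succ, mul_inv_rev, mul_assoc]
      rw [e]
      exact hx2
  -- (c)
  obtain ⟨a₁, ha₁, hb₁⟩ := H1.2
  set q : C := g₁⁻¹ * a₁ with hq
  obtain ⟨J, hJ⟩ : ∃ J : ℕ, ∀ v : C, ∃ j, 1 ≤ j ∧ j ≤ J ∧ (g₁ ^ j)⁻¹ * v ∉ W := by
    refine ⟨hN.fin.toFinset.card + 1, ?_⟩
    intro v
    by_contra hc
    push Not at hc
    have h1 : (Finset.Icc 1 (hN.fin.toFinset.card + 1)).card ≤ hN.fin.toFinset.card := by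
      apply Finset.card_le_card_of_injOn (fun j => (g₁ ^ j)⁻¹ * v)
      · intro j hj
        rw [Finset.mem_coe, Finset.mem_Icc] at hj
        rw [Finset.mem_coe, Set.Finite.mem_toFinset]
        exact hc j hj.1 hj.2
      · intro a _ b _ hab
        have h2 : (g₁ ^ a)⁻¹ = (g₁ ^ b)⁻¹ := mul_right_cancel hab
        have h3 : g₁ ^ a = g₁ ^ b := inv_injective h2
        have h4 := hpow1 (a : ℤ) (b : ℤ) (by rw [zpow_natCast, zpow_natCast]; exact h3)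
        exact_mod_cast h4
    rw [Nat.card_Icc] at h1
    omega
  have hc : ∀ N, N₀ ≤ N → ∀ κ : ℕ, (∀ x, ((g₁ ^ κ)⁻¹ * (h * g₂ ^ N))⁻¹ * x ∈ A₂ → x ∈ A₁) →
      (∃ x, ((g₁ ^ κ)⁻¹ * (h * g₂ ^ N))⁻¹ * x ∈ A₂ ∧ g₁⁻¹ * x ∉ A₁) →
      ∀ x, (g₁ ^ J)⁻¹ * x ∈ A₁ → ((g₁ ^ κ)⁻¹ * (h * g₂ ^ N))⁻¹ * x ∈ A₂ := by
    intro N hNge κ hi hii x hx
    obtain ⟨j, hj1, hjJ, hjW⟩ := hJ ((g₁ ^ κ)⁻¹ * (h * g₂ ^ N))
    set v : C := (g₁ ^ κ)⁻¹ * (h * g₂ ^ N) with hv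
    have ewv : ∀ y : C, ((g₁ ^ j)⁻¹ * v)⁻¹ * ((g₁ ^ j)⁻¹ * y) = v⁻¹ * y := by
      intro y
      group
    by_cases hwA : (g₁ ^ j)⁻¹ * v ∈ A₁
    · exfalso
      by_cases hwB : ((g₁ ^ j)⁻¹ * v)⁻¹ ∈ A₂
      · -- (4)
        have h1 : (g₁ ^ j)⁻¹ * q ∉ A₁ := by
          intro h2
          have h3 := CNJ_up hup1 j _ h2
          rw [mul_inv_cancel_left] at h3
          exact hb₁ h3
        have h2 := N4 _ hjW hwA hwB _ h1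
        rw [ewv] at h2
        exact hb₁ (hi q h2)
      · -- (2)
        obtain ⟨y, hy1, hy2⟩ := hii
        have h1 : (g₁ ^ j)⁻¹ * y ∈ A₁ := by
          apply N2 _ hjW hwA hwB
          rw [ewv]
          exact hy1
        have h2 := CNJ_dec hup1 hj1 y h1
        rw [pow_one] at h2
        exact hy2 h2
    · by_cases hwB : ((g₁ ^ j)⁻¹ * v)⁻¹ ∈ A₂
      · -- (3)
        have h1 := N3 _ hjW hwA hwB ((g₁ ^ j)⁻¹ * x) (CNJ_dec hup1 hjJ x hx)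
        rw [ewv] at h1
        exact h1
      · -- (1)
        exfalso
        obtain ⟨y, hy1, hy2⟩ := hmeet (κ + j) N
        have h1 := N1 _ hjW hwA hwB _ hy1
        apply h1
        have e : ((g₁ ^ j)⁻¹ * v)⁻¹ * ((g₁ ^ (κ + j))⁻¹ * y) = (h * g₂ ^ N)⁻¹ * y := by
          have e1 : (g₁ ^ (κ + j))⁻¹ * y = (g₁ ^ j)⁻¹ * ((g₁ ^ κ)⁻¹ * y) := by
            rw [pow_add, mul_inv_rev, mul_assoc]
          rw [e1, ewv, hv]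
          group
        rw [e]
        exact hy2
  -- (d)
  choose! κ hκ1 hκ2 using hb
  have hfin := hfin2 (g₁ ^ J * a₁) q
  have hmaps : ∀ N, (g₁ ^ κ (N₀ + N))⁻¹ * (h * g₂ ^ (N₀ + N)) ∈
      {v : C | ¬ (v⁻¹ * (g₁ ^ J * a₁) ∈ A₂ ↔ v⁻¹ * q ∈ A₂)} := by
    intro N hiff
    have hN' : N₀ ≤ N₀ + N := Nat.le_add_right _ _
    have h1 := hc (N₀ + N) hN' (κ (N₀ + N)) (hκ1 _ hN') (hκ2 _ hN') (g₁ ^ J * a₁) (by
      rw [inv_mul_cancel_left]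
      exact ha₁)
    exact hb₁ (hκ1 _ hN' q (hiff.1 h1))
  obtain ⟨a, b, hab, heq⟩ : ∃ a b : ℕ, a < b ∧ (g₁ ^ κ (N₀ + a))⁻¹ * (h * g₂ ^ (N₀ + a)) =
      (g₁ ^ κ (N₀ + b))⁻¹ * (h * g₂ ^ (N₀ + b)) := by
    by_contra hcon
    push Not at hcon
    have hinj : Function.Injective (fun N : ℕ => (g₁ ^ κ (N₀ + N))⁻¹ * (h * g₂ ^ (N₀ + N))) := by
      intro a b hab
      rcases lt_trichotomy a b with hlt | heq | hgt
      · exact absurd hab (hcon a b hlt)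
      · exact heq
      · exact absurd hab.symm (hcon b a hgt)
    have h1 : (Set.range (fun N : ℕ => (g₁ ^ κ (N₀ + N))⁻¹ * (h * g₂ ^ (N₀ + N)))).Finite :=
      hfin.subset (by rintro _ ⟨N, rfl⟩; exact hmaps N)
    exact Set.infinite_range_of_injective hinj h1
  refine ⟨b - a, (κ (N₀ + b) : ℤ) - κ (N₀ + a), by omega, ?_⟩
  have e1 : g₂ ^ (N₀ + b) = g₂ ^ (b - a) * g₂ ^ (N₀ + a) := by
    rw [← pow_add]
    congr 1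
    omega
  rw [e1] at heq
  have h1 : h * g₂ ^ (N₀ + a) = g₁ ^ κ (N₀ + a) * ((g₁ ^ κ (N₀ + b))⁻¹ * (h * (g₂ ^ (b - a) * g₂ ^ (N₀ + a)))) := by
    rw [← heq, mul_inv_cancel_left]
  have h2 : h = g₁ ^ κ (N₀ + a) * ((g₁ ^ κ (N₀ + b))⁻¹ * (h * g₂ ^ (b - a))) := by
    have h3 : h * g₂ ^ (N₀ + a) = (g₁ ^ κ (N₀ + a) * ((g₁ ^ κ (N₀ + b))⁻¹ * (h * g₂ ^ (b - a)))) * g₂ ^ (N₀ + a) := by
      rw [h1]
      simp only [mul_assoc]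
    exact mul_right_cancel h3
  have h4 : g₁ ^ κ (N₀ + b) * ((g₁ ^ κ (N₀ + a))⁻¹ * h) = h * g₂ ^ (b - a) := by
    have h5 : (g₁ ^ κ (N₀ + a))⁻¹ * h = (g₁ ^ κ (N₀ + b))⁻¹ * (h * g₂ ^ (b - a)) := by
      rw [inv_mul_eq_iff_eq_mul]
      exact h2
    rw [h5, mul_inv_cancel_left]
  rw [← h4, zpow_sub, zpow_natCast, zpow_natCast]
  group

end Pool.Agent.PDT
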