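import Pool.Agent.PDT.StC

/-!
# PDT [CNT]: a projective module with countable dual is finitely generated
-/

set_option autoImplicit false
set_option linter.unusedVariables false

namespace Pool.Agent.PDT

open Pool.Agent.PDA Pool.Agent.PDB Pool.Agent.PDE Subgroup

theorem thm_CNT : St_CNT := by
  classical
  intro Λ P _ _ _ hP hc
  obtain ⟨σ, hσ⟩ := hP.out
  by_cases hX : {ξ : P | ∃ y, σ y ξ ≠ 0}.Finite
  · refine ⟨⟨hX.toFinset, ?_⟩⟩
    rw [eq_top_iff]
    intro y _
    have e := hσ y
    rw [← e, Finsupp.linearCombination_apply]
    refine Submodule.sum_mem _ ?_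
    intro ξ hξ
    refine Submodule.smul_mem _ _ (Submodule.subset_span ?_)
    simp only [Finsupp.mem_support_iff] at hξ
    simp only [id, Set.Finite.coe_toFinset, Set.mem_ofPred_eq]
    exact ⟨y, hξ⟩
  · exfalso
    obtain ⟨w, hw1, hw2⟩ := exists_seq_of_forall_finset_exists
      (fun a : P × P => σ a.2 a.1 ≠ 0) (fun a b : P × P => σ a.2 b.1 = 0) (by
        intro s hs
        have hinf : {ξ : P | ∃ y, σ y ξ ≠ 0}.Infinite := hX
        obtain ⟨ξ, ⟨y, hy⟩, hn⟩ := hinf.exists_notMem_finset (s.biUnion fun a => (σ a.2).support)
        refine ⟨(ξ, y), hy, ?_⟩
        intro a ha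
        by_contra hc'
        apply hn
        rw [Finset.mem_biUnion]
        exact ⟨a, ha, by simpa using hc'⟩)
    have hinj : ∀ m n, (w m).1 = (w n).1 → m = n := by
      intro m n e
      by_contra hmn
      rcases lt_or_gt_of_ne hmn with h | h
      · have := hw2 m n h
        rw [← e] at this
        exact hw1 m this
      · have := hw2 n m h
        rw [e] at this
        exact hw1 n this
    let ind : Set ℕ → P → Λ := fun A ξ => if ∃ n ∈ A, (w n).1 = ξ then 1 else 0
    let hh : Set ℕ → (P →ₗ[Λ] Λ) := fun A => (Finsupp.linearCombination Λ (ind A)).comp σ
    have hin : Function.Injective hh := by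
      intro A A' e
      ext n
      induction n using Nat.strong_induction_on with
      | _ n ih =>
        have e1 : hh A (w n).2 = hh A' (w n).2 := by rw [e]
        have e2 : ∑ ξ ∈ (σ (w n).2).support, σ (w n).2 ξ * (ind A ξ - ind A' ξ) = 0 := by
          have e3 : ∀ B : Set ℕ, hh B (w n).2 =
              ∑ ξ ∈ (σ (w n).2).support, σ (w n).2 ξ * ind B ξ := by
            intro B
            simp only [hh, LinearMap.comp_apply, Finsupp.linearCombination_apply, Finsupp.sum,
              smul_eq_mul]
          rw [e3, e3] at e1
          simp only [mul_sub, Finset.sum_sub_distrib]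
          rw [e1, sub_self]
        rw [Finset.sum_eq_single (w n).1] at e2
        · have key : ∀ B : Set ℕ, ind B (w n).1 = if n ∈ B then 1 else 0 := by
            intro B
            by_cases hB : n ∈ B
            · simp only [ind, if_pos hB]
              rw [if_pos ⟨n, hB, rfl⟩]
            · simp only [ind, if_neg hB]
              rw [if_neg]
              rintro ⟨m, hm, hmn⟩
              exact hB (hinj m n hmn ▸ hm)
          rw [key, key] at e2
          by_cases hA : n ∈ A <;> by_cases hA' : n ∈ A'
          · simp [hA, hA']
          · exfalso
            rw [if_pos hA, if_neg hA', sub_zero, mul_one] at e2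
            exact hw1 n e2
          · exfalso
            rw [if_neg hA, if_pos hA', zero_sub, mul_neg, mul_one, neg_eq_zero] at e2
            exact hw1 n e2
          · simp [hA, hA']
        · intro ξ hξ hne
          by_cases hm : ∃ m, (w m).1 = ξ
          · obtain ⟨m, rfl⟩ := hm
            have hmn : m ≠ n := fun h => hne (by rw [h])
            rcases lt_or_gt_of_ne hmn with h | h
            · have key : ∀ B : Set ℕ, ind B (w m).1 = if m ∈ B then 1 else 0 := by
                intro B
                by_cases hB : m ∈ B
                · simp only [ind, if_pos hB]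
                  rw [if_pos ⟨m, hB, rfl⟩]
                · simp only [ind, if_neg hB]
                  rw [if_neg]
                  rintro ⟨k, hk, hkm⟩
                  exact hB (hinj k m hkm ▸ hk)
              rw [key, key]
              have := ih m h
              simp only [this, sub_self, mul_zero]
            · rw [hw2 n m h, zero_mul]
          · have key : ∀ B : Set ℕ, ind B ξ = 0 := by
              intro B
              simp only [ind]
              rw [if_neg]
              rintro ⟨k, hk, hkm⟩
              exact hm ⟨k, hkm⟩
            rw [key, key, sub_self, mul_zero]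
        · intro h
          simp only [Finsupp.mem_support_iff, not_not] at h
          exact absurd h (hw1 n)
    obtain ⟨f, hf⟩ := hc
    exact Function.cantor_injective (fun A => f (hh A)) (hf.comp hin)

end Pool.Agent.PDT
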