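import Pool.Agent.PDT.StA

/-!
# PDT: [CYC] a torsion-free group with a normal infinite cyclic subgroup of finite index is cyclic
-/

set_option autoImplicit false
set_option linter.unusedVariables false

namespace Pool.Agent.PDT

open Pool.Agent.PDA Pool.Agent.PDB Pool.Agent.PDE Subgroup

/-- an element of finite index generates a group whose center has finite index -/
private lemma cyc_central (C : Type) [Group C] (z : C) (htf : TorFree C)
    (hz : ∀ h : C, h * z * h⁻¹ = z ∨ h * z * h⁻¹ = z⁻¹) (hi : (zpowers z).index ≠ 0)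
    (hz1 : z ≠ 1) (t : C) : t * z * t⁻¹ = z := by
  rcases hz t with h | h
  · exact h
  exfalso
  obtain ⟨n, hn, _, hmem⟩ := Subgroup.exists_pow_mem_of_index_ne_zero hi t
  obtain ⟨k, hk⟩ := Subgroup.mem_zpowers_iff.1 hmem
  have h1 : t * z ^ k * t⁻¹ = z ^ k := by
    rw [hk]
    group
  have h2 : t * z ^ k * t⁻¹ = (z ^ k)⁻¹ := by
    have h3 : (MulAut.conj t) (z ^ k) = ((MulAut.conj t) z) ^ k := map_zpow _ _ _
    rw [MulAut.conj_apply, MulAut.conj_apply, h, inv_zpow] at h3
    exact h3
  have h4 : (z ^ k) ^ 2 = 1 := by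
    rw [pow_two]
    nth_rewrite 1 [← h1]
    rw [h2, inv_mul_cancel]
  have h5 : z ^ k = 1 := htf _ 2 (by norm_num) h4
  have h6 : t = 1 := htf t n hn (by rw [← hk, h5])
  rw [h6, one_mul, inv_one, mul_one] at h
  apply hz1
  apply htf z 2 (by norm_num)
  rw [pow_two]
  nth_rewrite 1 [h]
  rw [inv_mul_cancel]

theorem thm_CYC : St_CYC := by
  intro C _ z htf hz hi
  by_cases hz1 : z = 1
  · subst hz1
    refine ⟨1, ?_⟩
    rw [eq_top_iff]
    intro c _
    obtain ⟨n, hn, _, hmem⟩ := Subgroup.exists_pow_mem_of_index_ne_zero hi c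
    rw [Subgroup.zpowers_one_eq_bot, Subgroup.mem_bot] at hmem
    rw [htf c n hn hmem]
    exact Subgroup.one_mem _
  -- the element is central
  have hcen : ∀ t : C, t * z * t⁻¹ = z := cyc_central C z htf hz hi hz1
  have hle : zpowers z ≤ center C := by
    rw [Subgroup.zpowers_le, Subgroup.mem_center_iff]
    intro g
    exact mul_inv_eq_iff_eq_mul.1 (hcen g)
  have hci : (center C).index ≠ 0 := by
    intro h0
    exact hi (Nat.eq_zero_of_zero_dvd (h0 ▸ Subgroup.index_dvd_of_le hle))
  have : (center C).FiniteIndex := ⟨hci⟩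
  -- injectivity of powers
  have hinj : Function.Injective (MonoidHom.transferCenterPow C) := by
    rw [injective_iff_map_eq_one]
    intro g hg
    have h1 : g ^ (center C).index = 1 := by
      rw [← MonoidHom.transferCenterPow_apply, hg]
      rfl
    exact htf g _ (Nat.pos_of_ne_zero hci) h1
  have hcomm : ∀ a b : C, a * b = b * a := by
    intro a b
    apply hinj
    rw [map_mul, map_mul]
    apply Subtype.ext
    exact (Subgroup.mem_center_iff.1 (MonoidHom.transferCenterPow C b).2 _)
  -- the power map into the cyclic group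
  let f : C →* zpowers z :=
    { toFun := fun a => ⟨a ^ (zpowers z).index.factorial,
        Subgroup.pow_mem_of_index_ne_zero_of_dvd hi a fun m h0 h1 => Nat.dvd_factorial h0 h1⟩
      map_one' := by
        apply Subtype.ext
        exact one_pow _
      map_mul' := fun a b => by
        apply Subtype.ext
        exact Commute.mul_pow (hcomm a b) _ }
  have hf : Function.Injective f := by
    rw [injective_iff_map_eq_one]
    intro g hg
    have h1 : g ^ (zpowers z).index.factorial = 1 := congrArg Subtype.val hg
    exact htf g _ (Nat.factorial_pos _) h1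
  have : IsCyclic C := isCyclic_of_injective f hf
  obtain ⟨y, hy⟩ := IsCyclic.exists_generator (α := C)
  exact ⟨y, by rw [eq_top_iff]; exact fun c _ => hy c⟩

end Pool.Agent.PDT
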