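import Pool.Agent.PDT.StB

/-!
# PDT: module DFI (MP_add920_al)

Derivations with fibrewise finite values are inner.
-/

set_option autoImplicit false
set_option linter.unusedVariables false

namespace Pool.Agent.PDT

open Pool.Agent.PDA Pool.Agent.PDB Pool.Agent.PDE Subgroup

private lemma DFI_mul {S : Type} [Group S] (π : S →* Multiplicative ℤ) (g y : S) :
    hgt π (g * y) = hgt π g + hgt π y := by
  unfold hgt
  rw [map_mul, toAdd_mul]

private lemma DFI_inv {S : Type} [Group S] (π : S →* Multiplicative ℤ) (g : S) :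
    hgt π g⁻¹ = - hgt π g := by
  unfold hgt
  rw [map_inv, toAdd_inv]

private lemma DFI_ker {S : Type} [Group S] (π : S →* Multiplicative ℤ) (g : S) (hg : g ∈ π.ker) :
    hgt π g = 0 := by
  unfold hgt
  rw [MonoidHom.mem_ker.1 hg, toAdd_one]

/-- a fibrewise finite function invariant under an infinite group vanishes -/
private lemma DFI_zero {S : Type} [Group S] (π : S →* Multiplicative ℤ) (B : Subgroup S)
    (hB : B ≤ π.ker) (hi : Infinite B) (d : S → ℤ) (y : S)
    (hd : ∀ b ∈ B, d (b⁻¹ * y) = d y)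
    (hf : {z : S | hgt π z = hgt π y ∧ d z ≠ 0}.Finite) : d y = 0 := by
  by_contra hne
  have hinj : Function.Injective (fun b : B => ((b : S)⁻¹ * y)) := by
    intro b c hbc
    have : (b : S)⁻¹ = (c : S)⁻¹ := mul_right_cancel hbc
    exact Subtype.ext (inv_injective this)
  have hinf : (Set.range (fun b : B => ((b : S)⁻¹ * y))).Infinite :=
    Set.infinite_range_of_injective hinj
  refine hinf (hf.subset ?_)
  rintro z ⟨b, rfl⟩
  refine ⟨?_, ?_⟩
  · show hgt π ((b : S)⁻¹ * y) = _
    rw [DFI_mul, DFI_inv, DFI_ker π b (hB b.2)]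
    ring
  · show d ((b : S)⁻¹ * y) ≠ 0
    rw [hd b b.2]
    exact hne

theorem thm_DFI (hODI : St_ODI) : St_DFI := by
  classical
  intro S _ π s B hA D hD hfin
  have hBk : ∀ b ∈ B, hgt π b = 0 := fun b hb => DFI_ker π b (hA.le hb)
  have hBy : ∀ b ∈ B, ∀ y, hgt π (b⁻¹ * y) = hgt π y := by
    intro b hb y
    rw [DFI_mul, DFI_inv, hBk b hb]
    ring
  have hlev : ∀ n : ℤ, ∃ m : S → ℤ, {y : S | m y ≠ 0}.Finite ∧ ∀ b ∈ B, ∀ y : S, hgt π y = n →
      D b y = m (b⁻¹ * y) - m y := by
    intro n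
    obtain ⟨m, ⟨h1, h2⟩, -⟩ := hODI S B hA.fg hA.inf hA.one
      (fun b y => if hgt π y = n then D b y else 0) (by
        intro b c y
        show (if hgt π y = n then D ((b * c : B) : S) y else 0) =
          (if hgt π y = n then D b y else 0) +
          (if hgt π ((b : S)⁻¹ * y) = n then D c ((b : S)⁻¹ * y) else 0)
        rw [hBy b b.2 y]
        split_ifs with h
        · exact hD b c y
        · rfl) (by
        intro b
        refine (hfin b n).subset ?_
        intro y hy
        have hy' : (if hgt π y = n then D b y else 0) ≠ 0 := hy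
        by_cases h : hgt π y = n
        · rw [if_pos h] at hy'
          exact ⟨h, hy'⟩
        · rw [if_neg h] at hy'
          exact absurd rfl hy')
    refine ⟨m, h1, fun b hb y hy => ?_⟩
    have := h2 ⟨b, hb⟩ y
    rw [← this]
    exact (if_pos hy).symm
  choose mm hm1 hm2 using hlev
  let m : S → ℤ := fun y => mm (hgt π y) y
  have hmf : ∀ c : ℤ, {y : S | hgt π y = c ∧ m y ≠ 0}.Finite := by
    intro c
    refine (hm1 c).subset ?_
    rintro y ⟨h1, h2⟩
    show mm c y ≠ 0
    rw [← h1]
    exact h2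
  have hmB : ∀ b ∈ B, ∀ y, D b y = m (b⁻¹ * y) - m y := by
    intro b hb y
    show D b y = mm (hgt π (b⁻¹ * y)) (b⁻¹ * y) - mm (hgt π y) y
    rw [hBy b hb y]
    exact hm2 (hgt π y) b hb y rfl
  -- the stable letter
  have hs1 : hgt π s = 1 := by
    unfold hgt
    rw [hA.pis, toAdd_ofAdd]
  have hsy : ∀ z, hgt π (s * z) = hgt π z + 1 := by
    intro z
    rw [DFI_mul, hs1]
    ring
  have hkey : ∀ k ∈ B, ∀ z, D k z = (m (s * (k⁻¹ * z)) + D s (s * (k⁻¹ * z))) -
      (m (s * z) + D s (s * z)) := by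
    intro k hk z
    have hb : s * k * s⁻¹ ∈ B := hA.conj k hk
    have e1 := hD s k (s * z)
    have e2 := hD (s * k * s⁻¹) s (s * z)
    have e3 : s * k * s⁻¹ * s = s * k := by group
    have e4 : s⁻¹ * (s * z) = z := by group
    have e5 : (s * k * s⁻¹)⁻¹ * (s * z) = s * (k⁻¹ * z) := by group
    rw [e3, e5] at e2
    rw [e4] at e1
    have e6 := hmB _ hb (s * z)
    rw [e5] at e6
    linarith
  have hsm : ∀ z, m (s * z) + D s (s * z) = m z := by
    intro z
    have hz := DFI_zero π B hA.le hA.inf (fun y => m (s * y) + D s (s * y) - m y) z (by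
      intro b hb
      have h1 := hkey b hb z
      have h2 := hmB b hb z
      show m (s * (b⁻¹ * z)) + D s (s * (b⁻¹ * z)) - m (b⁻¹ * z) =
        m (s * z) + D s (s * z) - m z
      linarith) (by
      have hi1 : {y : S | hgt π (s * y) = hgt π z + 1 ∧ m (s * y) ≠ 0}.Finite :=
        (hmf (hgt π z + 1)).preimage (f := fun y => s * y) (mul_right_injective s).injOn
      have hi2 : {y : S | hgt π (s * y) = hgt π z + 1 ∧ D s (s * y) ≠ 0}.Finite :=
        (hfin s (hgt π z + 1)).preimage (f := fun y => s * y) (mul_right_injective s).injOn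
      refine ((hi1.union hi2).union (hmf (hgt π z))).subset ?_
      rintro y ⟨hy1, hy2⟩
      have hy2' : m (s * y) + D s (s * y) - m y ≠ 0 := hy2
      have hy3 : hgt π (s * y) = hgt π z + 1 := by rw [hsy, hy1]
      by_cases c1 : m (s * y) = 0
      · by_cases c2 : D s (s * y) = 0
        · right
          refine ⟨hy1, fun c3 => hy2' ?_⟩
          rw [c1, c2, c3]
          norm_num
        · left; right
          exact ⟨hy3, c2⟩
      · left; left
        exact ⟨hy3, c1⟩)
    have hz' : m (s * z) + D s (s * z) - m z = 0 := hz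
    linarith
  -- the subgroup where the derivation is inner
  have hone : ∀ y, D 1 y = 0 := by
    intro y
    have := hD 1 1 y
    rw [mul_one, inv_one, one_mul] at this
    linarith
  let G0 : Subgroup S :=
    { carrier := {g | ∀ y, D g y = m (g⁻¹ * y) - m y}
      one_mem' := by
        intro y
        rw [hone, inv_one, one_mul, sub_self]
      mul_mem' := by
        intro g h hg hh y
        have e1 := hD g h y
        have e2 := hg y
        have e3 := hh (g⁻¹ * y)
        have e4 : (g * h)⁻¹ * y = h⁻¹ * (g⁻¹ * y) := by group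
        rw [e4]
        linarith
      inv_mem' := by
        intro g hg y
        have e1 := hD g⁻¹ g y
        rw [inv_mul_cancel, hone, inv_inv] at e1
        have e2 := hg (g * y)
        rw [inv_mul_cancel_left] at e2
        rw [inv_inv]
        linarith }
  have hBG : B ≤ G0 := fun b hb => hmB b hb
  have hsG : s ∈ G0 := by
    intro y
    have := hsm (s⁻¹ * y)
    rw [mul_inv_cancel_left] at this
    linarith
  have hall : ∀ g : S, g ∈ G0 := by
    intro g
    have hk : g * (s ^ (hgt π g))⁻¹ ∈ π.ker := by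
      rw [MonoidHom.mem_ker, map_mul, map_inv, map_zpow, hA.pis]
      apply Multiplicative.toAdd.injective
      rw [toAdd_mul, toAdd_inv, toAdd_zpow, toAdd_ofAdd, toAdd_one]
      show hgt π g + -(hgt π g • (1 : ℤ)) = 0
      rw [smul_eq_mul]
      ring
    obtain ⟨n, hn⟩ := hA.asc _ hk
    have h1 : g * (s ^ (hgt π g))⁻¹ ∈ G0 := by
      have h2 : (s ^ n)⁻¹ * (s ^ n * (g * (s ^ (hgt π g))⁻¹) * (s ^ n)⁻¹) * s ^ n =
          g * (s ^ (hgt π g))⁻¹ := by group
      rw [← h2]
      exact G0.mul_mem (G0.mul_mem (G0.inv_mem (G0.pow_mem hsG n)) (hBG hn)) (G0.pow_mem hsG n)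
    have h3 : g = g * (s ^ (hgt π g))⁻¹ * s ^ (hgt π g) := by group
    rw [h3]
    exact G0.mul_mem h1 (G0.zpow_mem hsG _)
  refine ⟨m, hmf, fun g y => hall g y, ?_⟩
  intro hlow c
  obtain ⟨X, hX, hXf⟩ := Group.fg_iff.1 hA.fg
  -- a level below which all generators act trivially
  have hc0 : ∃ c0 : ℤ, ∀ b ∈ X, ∀ y : S, hgt π y ≤ c0 → D (b : S) y = 0 := by
    have hU : (⋃ b ∈ X, {y : S | hgt π y ≤ 0 ∧ D (b : S) y ≠ 0}).Finite :=
      hXf.biUnion fun b _ => hlow b 0
    obtain ⟨r, hr⟩ := (hU.image (hgt π)).bddBelow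
    refine ⟨min 0 (r - 1), fun b hb y hy => ?_⟩
    by_contra hne
    have h0 : hgt π y ≤ 0 := hy.trans (min_le_left _ _)
    have h1 : hgt π y ≤ r - 1 := hy.trans (min_le_right _ _)
    have h2 : hgt π y ∈ hgt π '' (⋃ b ∈ X, {y : S | hgt π y ≤ 0 ∧ D (b : S) y ≠ 0}) := by
      refine ⟨y, ?_, rfl⟩
      simp only [Set.mem_iUnion]
      exact ⟨b, hb, h0, hne⟩
    have h3 := hr h2
    omega
  obtain ⟨c0, hc0⟩ := hc0
  let B0 : Subgroup B :=
    { carrier := {b | ∀ y, hgt π y ≤ c0 → m ((b : S)⁻¹ * y) = m y}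
      one_mem' := by
        intro y _
        show m (((1 : B) : S)⁻¹ * y) = m y
        rw [Subgroup.coe_one, inv_one, one_mul]
      mul_mem' := by
        intro a b ha hb y hy
        have e4 : ((a * b : B) : S)⁻¹ * y = (b : S)⁻¹ * ((a : S)⁻¹ * y) := by
          rw [Subgroup.coe_mul]
          group
        show m (((a * b : B) : S)⁻¹ * y) = m y
        rw [e4, hb _ (by rw [hBy a a.2]; exact hy), ha y hy]
      inv_mem' := by
        intro a ha y hy
        show m (((a⁻¹ : B) : S)⁻¹ * y) = m y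
        have h1 : hgt π ((a : S) * y) = hgt π y := by
          rw [DFI_mul, hBk a a.2, zero_add]
        have h2 := ha ((a : S) * y) (by rw [h1]; exact hy)
        rw [inv_mul_cancel_left] at h2
        rw [Subgroup.coe_inv, inv_inv]
        exact h2.symm }
  have hB0 : B0 = ⊤ := by
    rw [eq_top_iff, ← hX, Subgroup.closure_le]
    intro b hb y hy
    have h1 := hc0 b hb y hy
    have h2 := hmB b b.2 y
    show m ((b : S)⁻¹ * y) = m y
    linarith
  have hz : ∀ y, hgt π y ≤ c0 → m y = 0 := by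
    intro y hy
    refine DFI_zero π B hA.le hA.inf m y (fun b hb => ?_) (hmf _)
    have : (⟨b, hb⟩ : B) ∈ B0 := by rw [hB0]; trivial
    exact this y hy
  refine ((Set.finite_Ioc c0 c).biUnion fun n _ => hmf n).subset ?_
  rintro y ⟨hy1, hy2⟩
  simp only [Set.mem_iUnion]
  refine ⟨hgt π y, ⟨?_, hy1⟩, rfl, hy2⟩
  by_contra hcon
  exact hy2 (hz y (not_lt.1 hcon))

end Pool.Agent.PDT
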