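import Pool.Agent.PDT.StB

/-!
# PDT, module DUH: homotopies which raise the height
-/

set_option autoImplicit false
set_option linter.unusedVariables false

namespace Pool.Agent.PDT

open Pool.Agent.PDA Pool.Agent.PDB Pool.Agent.PDE Subgroup

section DUH

variable {S : Type} [Group S]

/-- the elements of the support of `r` have height at least `m` (as in SER.lean) -/
private def DUH_sup (π : S →* Multiplicative ℤ) (m : ℤ) (r : ZG S) : Prop :=
  ∀ g, r.coeff g ≠ 0 → m ≤ hgt π g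

private lemma DUH_hgt_mul (π : S →* Multiplicative ℤ) (g h : S) :
    hgt π (g * h) = hgt π g + hgt π h := by
  unfold hgt
  rw [map_mul, toAdd_mul]

private lemma DUH_sup_mono {π : S →* Multiplicative ℤ} {m m' : ℤ} {r : ZG S}
    (h : DUH_sup π m r) (hm : m' ≤ m) : DUH_sup π m' r :=
  fun g hg => hm.trans (h g hg)

private lemma DUH_sup_mul {π : S →* Multiplicative ℤ} {m m' : ℤ} {r r' : ZG S}
    (h : DUH_sup π m r) (h' : DUH_sup π m' r') : DUH_sup π (m + m') (r * r') := by
  classical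
  intro g hg
  have h1 : g ∈ (r * r').coeff.support := Finsupp.mem_support_iff.2 hg
  obtain ⟨a, ha, b, hb, hab⟩ := Finset.mem_mul.1 (MonoidAlgebra.support_coeff_mul_subset r r' h1)
  rw [← hab, DUH_hgt_mul]
  exact add_le_add (h a (Finsupp.mem_support_iff.1 ha)) (h' b (Finsupp.mem_support_iff.1 hb))

private lemma DUH_sup_zero (π : S →* Multiplicative ℤ) (m : ℤ) : DUH_sup π m (0 : ZG S) :=
  fun g hg => absurd (by rw [MonoidAlgebra.coeff_zero, Finsupp.zero_apply]) hg

private lemma DUH_sup_add {π : S →* Multiplicative ℤ} {m : ℤ} {r r' : ZG S}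
    (h : DUH_sup π m r) (h' : DUH_sup π m r') : DUH_sup π m (r + r') := by
  intro g hg
  rw [MonoidAlgebra.coeff_add, Finsupp.add_apply] at hg
  by_cases h0 : r.coeff g = 0
  · refine h' g fun h1 => hg ?_
    rw [h0, h1, add_zero]
  · exact h g h0

private lemma DUH_sup_neg {π : S →* Multiplicative ℤ} {m : ℤ} {r : ZG S}
    (h : DUH_sup π m r) : DUH_sup π m (-r) := by
  intro g hg
  rw [MonoidAlgebra.coeff_neg, Finsupp.neg_apply] at hg
  exact h g fun h1 => hg (by rw [h1, neg_zero])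

private lemma DUH_sup_sum {π : S →* Multiplicative ℤ} {m : ℤ} {ι : Type} (s : Finset ι)
    (f : ι → ZG S) (h : ∀ i ∈ s, DUH_sup π m (f i)) : DUH_sup π m (∑ i ∈ s, f i) := by
  intro g hg
  rw [MonoidAlgebra.coeff_sum, Finsupp.finsetSum_apply] at hg
  obtain ⟨i, hi, h1⟩ := Finset.exists_ne_zero_of_sum_ne_zero hg
  exact h i hi g h1

private lemma DUH_sup_el (π : S →* Multiplicative ℤ) (g : S) :
    DUH_sup π (hgt π g) (el ℤ g) := by
  classical
  intro h hh
  by_cases he : g = h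
  · rw [he]
  · exfalso
    apply hh
    rw [el, MonoidAlgebra.of_apply, MonoidAlgebra.coeff_single, Finsupp.single_apply, if_neg he]

private lemma DUH_sup_ex (π : S →* Multiplicative ℤ) (r : ZG S) : ∃ m, DUH_sup π m r := by
  classical
  obtain ⟨M, hM⟩ := Finset.exists_le (r.coeff.support.image fun g => - hgt π g)
  refine ⟨- M, fun g hg => ?_⟩
  have := hM _ (Finset.mem_image_of_mem _ (Finsupp.mem_support_iff.2 hg))
  omega

/-- a common bound for a finite family -/
private lemma DUH_sup_fam (π : S →* Multiplicative ℤ) {ι : Type} [Finite ι] (r : ι → ZG S) :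
    ∃ m : ℤ, ∀ i, DUH_sup π (-m) (r i) := by
  classical
  have := Fintype.ofFinite ι
  choose m hm using fun i => DUH_sup_ex π (r i)
  obtain ⟨M, hM⟩ := Finset.exists_le (Finset.univ.image fun i => - m i)
  refine ⟨M, fun i => DUH_sup_mono (hm i) ?_⟩
  have := hM _ (Finset.mem_image_of_mem _ (Finset.mem_univ i))
  omega

/-- right multiplication with an element of the group ring -/
private noncomputable def DUH_rm {M : Type} [AddCommGroup M] [Module (ZG S) M]
    (f : M →ₗ[ZG S] ZG S) (a : ZG S) : M →ₗ[ZG S] ZG S where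
  toFun x := f x * a
  map_add' x y := by rw [map_add, add_mul]
  map_smul' c x := by rw [map_smul, smul_eq_mul, mul_assoc, RingHom.id_apply, smul_eq_mul]

private theorem DUH_theta (R : Short S) (hO : Ori R)
    (f : R.P3 →ₗ[ZG S] ZG S) (a : ZG S) : R.θ (DUH_rm f a) = aug ℤ S a * R.θ f := by
  induction a using MonoidAlgebra.induction_linear with
  | zero =>
    have h : DUH_rm f 0 = 0 := by
      apply LinearMap.ext
      intro x
      show (f x * 0 : ZG S) = 0
      rw [mul_zero]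
    rw [h, map_zero, map_zero, zero_mul]
  | add x y hx hy =>
    have h : DUH_rm f (x + y) = DUH_rm f x + DUH_rm f y := by
      apply LinearMap.ext
      intro z
      show (f z * (x + y) : ZG S) = f z * x + f z * y
      rw [mul_add]
    rw [h, map_add, map_add, hx, hy, add_mul]
  | single g n =>
    have h : DUH_rm f (MonoidAlgebra.single g n) = n • rm f g := by
      apply LinearMap.ext
      intro z
      show (f z * MonoidAlgebra.single g n : ZG S) = n • (f z * el ℤ g)
      have h1 : (MonoidAlgebra.single g n : ZG S) = n • el ℤ g := by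
        rw [el, MonoidAlgebra.of_apply, MonoidAlgebra.smul_single, smul_eq_mul, mul_one]
      rw [h1, mul_smul_comm]
    rw [h, map_zsmul, hO, smul_eq_mul]
    congr 1
    rw [aug, MonoidAlgebra.lift_single]
    simp

private lemma DUH_el_mul (g h : S) : (el ℤ (g * h) : ZG S) = el ℤ g * el ℤ h :=
  map_mul (MonoidAlgebra.of ℤ S) g h

private lemma DUH_el_one : (el ℤ (1 : S) : ZG S) = 1 := map_one (MonoidAlgebra.of ℤ S)

private lemma DUH_aug_el (g : S) : aug ℤ S (el ℤ g) = 1 := by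
  rw [aug, el, MonoidAlgebra.of_apply, MonoidAlgebra.lift_single]
  simp

/-- the finite sums of elements `(x - 1) m`, `x ∈ X` -/
private def DUH_A (M : Type) [AddCommGroup M] [Module (ZG S) M] (X : Set S) : AddSubgroup M :=
  AddSubgroup.closure {z | ∃ x ∈ X, ∃ m : M, z = (el ℤ x - 1) • m}

private lemma DUH_A_mem {M : Type} [AddCommGroup M] [Module (ZG S) M] {X : Set S} {g : S}
    (hg : g ∈ closure X) (m : M) : (el ℤ g - 1 : ZG S) • m ∈ DUH_A M X := by
  induction hg using Subgroup.closure_induction generalizing m with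
  | mem x hx => exact AddSubgroup.subset_closure ⟨x, hx, m, rfl⟩
  | one =>
    rw [DUH_el_one, sub_self, zero_smul]
    exact AddSubgroup.zero_mem _
  | mul x y _ _ hx hy =>
    have h1 : (el ℤ (x * y) - 1 : ZG S) • m =
        (el ℤ x - 1 : ZG S) • ((el ℤ y : ZG S) • m) + (el ℤ y - 1 : ZG S) • m := by
      rw [← mul_smul, ← add_smul, DUH_el_mul]
      congr 1
      noncomm_ring
    rw [h1]
    exact AddSubgroup.add_mem _ (hx _) (hy _)
  | inv x _ hx =>
    have h1 : (el ℤ x⁻¹ - 1 : ZG S) • m = - ((el ℤ x - 1 : ZG S) • ((el ℤ x⁻¹ : ZG S) • m)) := by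
      rw [← mul_smul, ← neg_smul, sub_mul, one_mul, ← DUH_el_mul, mul_inv_cancel, DUH_el_one,
        neg_sub]
    rw [h1]
    exact AddSubgroup.neg_mem _ (hx _)

private lemma DUH_A_aug {M : Type} [AddCommGroup M] [Module (ZG S) M] {X : Set S}
    (hX : closure X = ⊤) (a : ZG S) (ha : aug ℤ S a = 0) (m : M) : a • m ∈ DUH_A M X := by
  have key : ∀ b : ZG S, b • m - (aug ℤ S b) • m ∈ DUH_A M X := by
    intro b
    induction b using MonoidAlgebra.induction_linear with
    | zero =>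
      rw [map_zero, zero_smul, zero_smul, sub_zero]
      exact AddSubgroup.zero_mem _
    | add x y hx hy =>
      have h1 : (x + y) • m - (aug ℤ S (x + y)) • m =
          (x • m - (aug ℤ S x) • m) + (y • m - (aug ℤ S y) • m) := by
        rw [map_add, add_smul, add_smul]
        abel
      rw [h1]
      exact AddSubgroup.add_mem _ hx hy
    | single g n =>
      have h1 : (MonoidAlgebra.single g n : ZG S) = n • el ℤ g := by
        rw [el, MonoidAlgebra.of_apply, MonoidAlgebra.smul_single, smul_eq_mul, mul_one]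
      have h2 : (MonoidAlgebra.single g n : ZG S) • m -
          (aug ℤ S (MonoidAlgebra.single g n)) • m = n • ((el ℤ g - 1 : ZG S) • m) := by
        rw [h1, map_zsmul, DUH_aug_el, sub_smul, one_smul, smul_assoc, smul_sub]
        simp
      rw [h2]
      refine AddSubgroup.zsmul_mem _ (DUH_A_mem ?_ m) n
      rw [hX]
      exact Subgroup.mem_top g
  have h := key a
  rw [ha, zero_smul, sub_zero] at h
  exact h

private lemma DUH_A_fin {M : Type} [AddCommGroup M] [Module (ZG S) M] {X : Set S} {z : M}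
    (hz : z ∈ DUH_A M X) : ∃ (n : ℕ) (x : Fin n → S) (w : Fin n → M), (∀ i, x i ∈ X) ∧
      z = ∑ i, (el ℤ (x i) - 1 : ZG S) • w i := by
  induction hz using AddSubgroup.closure_induction with
  | mem z hz =>
    obtain ⟨x, hx, m, rfl⟩ := hz
    exact ⟨1, fun _ => x, fun _ => m, fun _ => hx, by simp⟩
  | zero => exact ⟨0, Fin.elim0, Fin.elim0, fun i => i.elim0, by simp⟩
  | add y z _ _ hy hz =>
    obtain ⟨n, x, w, h1, h2⟩ := hy
    obtain ⟨n', x', w', h1', h2'⟩ := hz
    refine ⟨n + n', Fin.append x x', Fin.append w w', fun i => ?_, ?_⟩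
    · refine Fin.addCases (fun i => ?_) (fun i => ?_) i
      · rw [Fin.append_left]; exact h1 i
      · rw [Fin.append_right]; exact h1' i
    · rw [Fin.sum_univ_add]
      simp only [Fin.append_left, Fin.append_right]
      rw [← h2, ← h2']
  | neg y _ hy =>
    obtain ⟨n, x, w, h1, h2⟩ := hy
    refine ⟨n, x, fun i => - w i, h1, ?_⟩
    rw [h2, ← Finset.sum_neg_distrib]
    exact Finset.sum_congr rfl fun i _ => by rw [smul_neg]

/-- primitives with bounded height for all elements of `B` and for `s` -/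
private lemma DUH_prim (R : Short S) (hO : Ori R) (π : S →* Multiplicative ℤ) (s : S)
    (B : Subgroup S) (hB : B ≤ π.ker) (hfg : Group.FG B) (f₀ : R.P3 →ₗ[ZG S] ZG S)
    {m : ℕ} (v : Fin m → R.P2) :
    ∃ C : ℤ, ∀ x ∈ insert s (B : Set S), ∃ y : R.P2 →ₗ[ZG S] ZG S,
      (∀ z, f₀ z * (el ℤ x - 1) = y (R.d3 z)) ∧ ∀ k, DUH_sup π (-C) (y (v k)) := by
  classical
  have hex : ∀ x : S, ∃ y : R.P2 →ₗ[ZG S] ZG S, ∀ z, f₀ z * (el ℤ x - 1) = y (R.d3 z) := by
    intro x
    have h1 : R.θ (rm f₀ x - f₀) = 0 := by rw [map_sub, hO, sub_self]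
    obtain ⟨y, hy⟩ := (R.θ_ker _).1 h1
    refine ⟨y, fun z => ?_⟩
    have h2 := LinearMap.congr_fun hy z
    rw [LinearMap.sub_apply, LinearMap.comp_apply] at h2
    rw [← h2, mul_sub, mul_one]
    rfl
  choose Y hY using hex
  obtain ⟨E, hE⟩ := (Group.fg_iff_subgroup_fg B).1 hfg
  obtain ⟨C, hC⟩ := DUH_sup_fam π (ι := {x : S // x ∈ (insert s E : Finset S)} × Fin m)
    fun p => Y (p.1 : S) (v p.2)
  refine ⟨C, ?_⟩
  have hBx : ∀ x ∈ B, π x = 1 ∧ ∃ y : R.P2 →ₗ[ZG S] ZG S,
      (∀ z, f₀ z * (el ℤ x - 1) = y (R.d3 z)) ∧ ∀ k, DUH_sup π (-C) (y (v k)) := by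
    intro x hx
    refine ⟨MonoidHom.mem_ker.1 (hB hx), ?_⟩
    have hx' : x ∈ closure (E : Set S) := by rw [hE]; exact hx
    clear hx
    induction hx' using Subgroup.closure_induction with
    | mem x hx => exact ⟨Y x, hY x, fun k => hC (⟨x, Finset.mem_insert_of_mem hx⟩, k)⟩
    | one =>
      refine ⟨0, fun z => ?_, fun k => ?_⟩
      · rw [DUH_el_one, sub_self, mul_zero, LinearMap.zero_apply]
      · rw [LinearMap.zero_apply]
        exact DUH_sup_zero _ _
    | mul x y hx hy ihx ihy =>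
      obtain ⟨a, ha, ha'⟩ := ihx
      obtain ⟨b, hb, hb'⟩ := ihy
      refine ⟨DUH_rm a (el ℤ y) + b, fun z => ?_, fun k => ?_⟩
      · have h1 : f₀ z * (el ℤ (x * y) - 1) =
            f₀ z * (el ℤ x - 1) * el ℤ y + f₀ z * (el ℤ y - 1) := by
          rw [DUH_el_mul]
          noncomm_ring
        rw [h1, ha, hb]
        rfl
      · have h1 : (DUH_rm a (el ℤ y) + b) (v k) = a (v k) * el ℤ y + b (v k) := rfl
        rw [h1]
        refine DUH_sup_add ?_ (hb' k)
        have hy0 : hgt π y = 0 := by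
          have h2 : y ∈ B := by rw [← hE]; exact hy
          unfold hgt
          rw [MonoidHom.mem_ker.1 (hB h2), toAdd_one]
        exact DUH_sup_mono (DUH_sup_mul (ha' k) (DUH_sup_el π y)) (by rw [hy0, add_zero])
    | inv x hx ihx =>
      obtain ⟨a, ha, ha'⟩ := ihx
      refine ⟨- DUH_rm a (el ℤ x⁻¹), fun z => ?_, fun k => ?_⟩
      · have h1 : f₀ z * (el ℤ x⁻¹ - 1) = -(f₀ z * (el ℤ x - 1) * el ℤ x⁻¹) := by
          rw [mul_assoc, sub_mul, one_mul, ← DUH_el_mul, mul_inv_cancel, DUH_el_one, ← mul_neg,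
            neg_sub]
        rw [h1, ha]
        rfl
      · have h1 : (- DUH_rm a (el ℤ x⁻¹)) (v k) = -(a (v k) * el ℤ x⁻¹) := rfl
        rw [h1]
        refine DUH_sup_neg ?_
        have hx0 : hgt π x⁻¹ = 0 := by
          have h2 : x ∈ B := by rw [← hE]; exact hx
          unfold hgt
          rw [map_inv, MonoidHom.mem_ker.1 (hB h2), inv_one, toAdd_one]
        exact DUH_sup_mono (DUH_sup_mul (ha' k) (DUH_sup_el π x⁻¹)) (by rw [hx0, add_zero])
  intro x hx
  rcases hx with rfl | hx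
  · exact ⟨Y x, hY x, fun k => hC (⟨x, Finset.mem_insert_self _ _⟩, k)⟩
  · exact (hBx x hx).2

theorem thm_DUH (hFDB : St_FDB) : St_DUH := by
  classical
  intro S _ R hO π s B hs hB hconj hfg hgen
  obtain ⟨hbas, hq⟩ := hFDB
  obtain ⟨n, u, f, huf⟩ := hbas S R.P3 inferInstance inferInstance
  obtain ⟨m, v, F, hvF⟩ := hbas S R.P2 inferInstance inferInstance
  obtain ⟨q, hq⟩ := hq S R hO
  obtain ⟨f₀, hf₀⟩ := R.θ_surj 1
  obtain ⟨C, hC⟩ := DUH_prim R hO π s B hB hfg f₀ v
  -- the element `d3 q`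
  have hd3q : R.d3 q ∈ DUH_A R.P2 (insert s (B : Set S)) := by
    rw [hvF (R.d3 q)]
    refine AddSubgroup.sum_mem _ fun k _ => DUH_A_aug hgen _ ?_ _
    have h1 := hq (F k ∘ₗ R.d3)
    rw [LinearMap.comp_apply] at h1
    rw [← h1]
    exact (R.θ_ker _).2 ⟨F k, rfl⟩
  obtain ⟨M, x, w, hx, hw⟩ := DUH_A_fin hd3q
  obtain ⟨C1, hC1⟩ := DUH_sup_fam π (ι := Fin M × Fin m) fun p => F p.2 (w p.1)
  obtain ⟨C2, hC2⟩ := DUH_sup_fam π (ι := Fin n) fun k => f₀ (u k)
  obtain ⟨C3, hC3⟩ := DUH_sup_fam π (ι := Fin n) fun l => f l q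
  obtain ⟨c, hc1, hc2⟩ : ∃ c : ℕ, 1 ≤ -C + (c + -C1) ∧ 1 ≤ -C2 + (c + -C3) := by
    refine ⟨(C + C1 + 1).toNat + (C2 + C3 + 1).toNat, ?_, ?_⟩
    · have h1 := Int.self_le_toNat (C + C1 + 1)
      push_cast
      omega
    · have h1 := Int.self_le_toNat (C2 + C3 + 1)
      push_cast
      omega
  have hsc : hgt π (s ^ c) = c := by
    unfold hgt
    rw [map_pow, hs, toAdd_pow, toAdd_ofAdd, nsmul_eq_mul, mul_one]
  -- the conjugated elements
  set x' : Fin M → S := fun i => s ^ c * x i * (s ^ c)⁻¹ with hx'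
  have hx'mem : ∀ i, x' i ∈ insert s (B : Set S) := by
    intro i
    have hpow : ∀ (k : ℕ) (b : S), b ∈ B → s ^ k * b * (s ^ k)⁻¹ ∈ B := by
      intro k
      induction k with
      | zero => intro b hb; simpa using hb
      | succ k ih =>
        intro b hb
        have h1 := hconj _ (ih b hb)
        have h2 : s ^ (k + 1) * b * (s ^ (k + 1))⁻¹ = s * (s ^ k * b * (s ^ k)⁻¹) * s⁻¹ := by
          rw [pow_succ']
          group
        rw [h2]
        exact h1
    rcases hx i with h | h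
    · left
      show s ^ c * x i * (s ^ c)⁻¹ = s
      rw [h, ← pow_succ, pow_succ', mul_inv_cancel_right]
    · right
      exact hpow c _ h
  choose y hy hyC using fun i => hC (x' i) (hx'mem i)
  have hcomm : ∀ i, (el ℤ (s ^ c) : ZG S) * (el ℤ (x i) - 1) =
      (el ℤ (x' i) - 1) * el ℤ (s ^ c) := by
    intro i
    rw [mul_sub, sub_mul, ← DUH_el_mul, ← DUH_el_mul, mul_one, one_mul]
    congr 2
    show s ^ c * x i = s ^ c * x i * (s ^ c)⁻¹ * s ^ c
    rw [inv_mul_cancel_right]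
  -- the maps
  set A3 : R.P3 →ₗ[ZG S] R.P3 := LinearMap.toSpanSingleton (ZG S) R.P3 ((el ℤ (s ^ c) : ZG S) • q)
    ∘ₗ f₀ with hA3
  have hA3a : ∀ z, A3 z = f₀ z • ((el ℤ (s ^ c) : ZG S) • q) := fun z => rfl
  set A2 : R.P2 →ₗ[ZG S] R.P2 := ∑ i, LinearMap.toSpanSingleton (ZG S) R.P2
    ((el ℤ (s ^ c) : ZG S) • w i) ∘ₗ y i with hA2
  have hA2a : ∀ z, A2 z = ∑ i, y i z • ((el ℤ (s ^ c) : ZG S) • w i) := by
    intro z
    rw [hA2, LinearMap.sum_apply]
    rfl
  have hA23 : ∀ z, A2 (R.d3 z) = R.d3 (A3 z) := by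
    intro z
    rw [hA2a, hA3a, map_smul, map_smul, hw, Finset.smul_sum, Finset.smul_sum]
    refine Finset.sum_congr rfl fun i _ => ?_
    rw [← hy i, ← mul_smul, ← mul_smul, ← mul_smul, mul_assoc, mul_assoc, hcomm]
  -- the heights
  have hRai3 : Rai π A3 := by
    refine ⟨n, u, fun k l => f l (A3 (u k)), fun z => ⟨fun l => f l z, huf z⟩,
      fun k => huf _, fun k l g hg => ?_⟩
    have h1 : f l (A3 (u k)) = f₀ (u k) * (el ℤ (s ^ c) * f l q) := by
      rw [hA3a, map_smul, map_smul, smul_eq_mul, smul_eq_mul]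
    beta_reduce at hg
    rw [h1] at hg
    have h2 := DUH_sup_mul (hC2 k) (DUH_sup_mul (DUH_sup_el π (s ^ c)) (hC3 l)) g hg
    rw [hsc] at h2
    omega
  have hRai2 : Rai π A2 := by
    refine ⟨m, v, fun k l => F l (A2 (v k)), fun z => ⟨fun l => F l z, hvF z⟩,
      fun k => hvF _, fun k l g hg => ?_⟩
    have h1 : F l (A2 (v k)) = ∑ i, y i (v k) * (el ℤ (s ^ c) * F l (w i)) := by
      rw [hA2a, map_sum]
      exact Finset.sum_congr rfl fun i _ => by
        rw [map_smul, map_smul, smul_eq_mul, smul_eq_mul]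
    have h2 : DUH_sup π (-C + (c + -C1)) (F l (A2 (v k))) := by
      rw [h1]
      refine DUH_sup_sum _ _ fun i _ => ?_
      have h3 := DUH_sup_mul (hyC i k) (DUH_sup_mul (DUH_sup_el π (s ^ c)) (hC1 (i, l)))
      rw [hsc] at h3
      exact h3
    have h4 := h2 g hg
    omega
  -- the homotopy `H2`
  have hg3 : ∀ j, ∃ g : R.P2 →ₗ[ZG S] ZG S, f j ∘ₗ (LinearMap.id - A3) = g ∘ₗ R.d3 := by
    intro j
    refine (R.θ_ker _).1 ?_
    have h1 : f j ∘ₗ (LinearMap.id - A3) = f j - DUH_rm f₀ (el ℤ (s ^ c) * f j q) := by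
      apply LinearMap.ext
      intro z
      rw [LinearMap.comp_apply, LinearMap.sub_apply, LinearMap.id_apply, map_sub, hA3a, map_smul,
        map_smul, smul_eq_mul, smul_eq_mul]
      rfl
    rw [h1, map_sub, DUH_theta R hO, map_mul, DUH_aug_el, one_mul, hf₀, mul_one, ← hq, sub_self]
  choose G3 hG3 using hg3
  set H2 : R.P2 →ₗ[ZG S] R.P3 := ∑ j, LinearMap.toSpanSingleton (ZG S) R.P3 (u j) ∘ₗ G3 j with hH2
  have hH2a : ∀ z, H2 z = ∑ j, G3 j z • u j := by
    intro z
    rw [hH2, LinearMap.sum_apply]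
    rfl
  have hH2d : ∀ z, H2 (R.d3 z) = z - A3 z := by
    intro z
    rw [hH2a, huf (z - A3 z)]
    refine Finset.sum_congr rfl fun j _ => ?_
    have h1 := LinearMap.congr_fun (hG3 j) z
    rw [LinearMap.comp_apply, LinearMap.comp_apply, LinearMap.sub_apply, LinearMap.id_apply] at h1
    rw [← h1]
  -- the homotopy `H1`
  set D2 : R.P2 →ₗ[ZG S] R.P2 := LinearMap.id - R.d3 ∘ₗ H2 - A2 with hD2
  have hD2a : ∀ z, D2 z = z - R.d3 (H2 z) - A2 z := fun z => rfl
  have hg2 : ∀ k, ∃ g : R.P1 →ₗ[ZG S] ZG S, F k ∘ₗ D2 = g ∘ₗ R.d2 := by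
    intro k
    refine R.h2 _ ?_
    apply LinearMap.ext
    intro z
    rw [LinearMap.comp_apply, LinearMap.comp_apply, LinearMap.zero_apply, hD2a, hH2d, hA23,
      map_sub R.d3]
    rw [sub_sub_cancel, sub_self, map_zero]
  choose G2 hG2 using hg2
  set H1 : R.P1 →ₗ[ZG S] R.P2 := ∑ k, LinearMap.toSpanSingleton (ZG S) R.P2 (v k) ∘ₗ G2 k with hH1
  have hH1a : ∀ z, H1 z = ∑ k, G2 k z • v k := by
    intro z
    rw [hH1, LinearMap.sum_apply]
    rfl
  have hH1d : ∀ z, H1 (R.d2 z) = D2 z := by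
    intro z
    rw [hH1a, hvF (D2 z)]
    refine Finset.sum_congr rfl fun k _ => ?_
    have h1 := LinearMap.congr_fun (hG2 k) z
    rw [LinearMap.comp_apply, LinearMap.comp_apply] at h1
    rw [← h1]
  refine ⟨H2, H1, ?_, ?_⟩
  · have h1 : LinearMap.id - H2 ∘ₗ R.d3 = A3 := by
      apply LinearMap.ext
      intro z
      rw [LinearMap.sub_apply, LinearMap.id_apply, LinearMap.comp_apply, hH2d, sub_sub_cancel]
    rw [h1]
    exact hRai3
  · have h1 : LinearMap.id - R.d3 ∘ₗ H2 - H1 ∘ₗ R.d2 = A2 := by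
      apply LinearMap.ext
      intro z
      rw [LinearMap.sub_apply, LinearMap.sub_apply, LinearMap.id_apply, LinearMap.comp_apply,
        LinearMap.comp_apply, hH1d, hD2a, sub_sub_cancel]
    rw [h1]
    exact hRai2

end DUH

end Pool.Agent.PDT
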