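import Pool.Agent.PDT.StA

/-!
# PDT: [END] assembly of part A (helper47)
-/

set_option autoImplicit false

namespace Pool.Agent.PDT

open Pool.Agent.PDA Pool.Agent.PDB Pool.Agent.PDE Subgroup

theorem thm_END (hSPF : St_SPF) (hNST : St_NST) (hHYP : St_HYP) (hPNG : St_PNG) (hEQL : St_EQL)
    (hNRM : St_NRM) (hCFI : St_CFI) (hCYC : St_CYC) : St_END := by
  intro C _ hfg htf hnf
  by_cases h : OneEnd C
  · exact Or.inl h
  · right
    unfold OneEnd at h
    push Not at h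
    obtain ⟨A, hA, hinf, hcinf⟩ := h
    have hAi : A.Infinite := hinf
    have hAc : Aᶜ.Infinite := hcinf
    obtain ⟨W, hW⟩ := hNST C A hfg hA hAi.nonempty hAc.nonempty
    obtain ⟨g, hg⟩ := hHYP C A W hA hAi hAc hW
    obtain ⟨a, ha, hz⟩ := hNRM C g hfg
      (fun h => hEQL C A hA g hg h (hPNG C A W hnf hA hW g hg h))
    have hHyp : Hyp (g ^ a) A := ((hSPF C A hA).2.2 g hg).2.2.1 a ha
    exact hCYC C (g ^ a) htf hz (hCFI C A W hA hW (g ^ a) hHyp hz)

end Pool.Agent.PDT
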