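import Pool.Agent.PDT.StA

/-!
# PDT, module EQL: counting separating translates
-/

set_option autoImplicit false
set_option linter.unusedVariables false

namespace Pool.Agent.PDT

open Pool.Agent.PDA Pool.Agent.PDB Pool.Agent.PDE Subgroup

private theorem EQL_num (a H G : ℕ) (ha : 0 < a)
    (h : ∀ k : ℕ, (a + 1) ^ k ≤ 2 * k * H + a ^ k * G) : False := by
  have haR : (0 : ℝ) < a := by exact_mod_cast ha
  set r : ℝ := 1 + 1 / (a : ℝ) with hr
  have hr1 : 1 < r := by
    rw [hr]
    have : (0 : ℝ) < 1 / a := by positivity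
    linarith
  have hr0 : 0 < r := lt_trans one_pos hr1
  have t1 := tendsto_pow_const_div_const_pow_of_one_lt 1 hr1
  have t0 := tendsto_pow_const_div_const_pow_of_one_lt 0 hr1
  have t := (t1.const_mul (2 * (H : ℝ))).add (t0.const_mul (G : ℝ))
  rw [mul_zero, mul_zero, add_zero] at t
  obtain ⟨k, hk⟩ := (t.eventually (gt_mem_nhds one_pos)).exists
  rw [pow_one, pow_zero] at hk
  have hrk : 0 < r ^ k := pow_pos hr0 k
  have h1 : 2 * (H : ℝ) * k + G < r ^ k := by
    have e : 2 * (H : ℝ) * ((k : ℝ) / r ^ k) + (G : ℝ) * (1 / r ^ k) = (2 * (H : ℝ) * k + G) / r ^ k := by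
      ring
    rw [e, div_lt_one hrk] at hk
    exact hk
  have h2 : ((a : ℝ) + 1) ^ k = (a : ℝ) ^ k * r ^ k := by
    rw [← mul_pow]
    congr 1
    rw [hr]
    field_simp
  have h3 : ((a : ℝ) + 1) ^ k ≤ 2 * k * H + (a : ℝ) ^ k * G := by exact_mod_cast h k
  have h4 : (1 : ℝ) ≤ (a : ℝ) ^ k := one_le_pow₀ (by exact_mod_cast ha)
  have h5 : (0 : ℝ) ≤ 2 * k * H := by positivity
  rw [h2] at h3
  have h6 : (a : ℝ) ^ k * (2 * (H : ℝ) * k + G) < (a : ℝ) ^ k * r ^ k :=
    mul_lt_mul_of_pos_left h1 (lt_of_lt_of_le one_pos h4)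
  nlinarith

section

variable {C : Type} [Group C] (A : Set C)

/-- the translates which separate `x` and `y` -/
private def EQL_D (x y : C) : Set C := {v : C | ¬ (v⁻¹ * x ∈ A ↔ v⁻¹ * y ∈ A)}

private noncomputable def EQL_l (x : C) : ℕ := (EQL_D A 1 x).ncard

private theorem EQL_symm (x y : C) : EQL_D A x y = EQL_D A y x := by
  ext v
  simp only [EQL_D, Set.mem_setOf_eq]
  tauto

private theorem EQL_left (w x y : C) : (EQL_D A (w * x) (w * y)).ncard = (EQL_D A x y).ncard := by
  have h : EQL_D A (w * x) (w * y) = (fun v => w * v) '' EQL_D A x y := by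
    ext v
    constructor
    · intro hv
      refine ⟨w⁻¹ * v, ?_, by simp⟩
      simp only [EQL_D, Set.mem_setOf_eq, mul_inv_rev, inv_inv] at hv ⊢
      simpa [mul_assoc] using hv
    · rintro ⟨u, hu, rfl⟩
      simp only [EQL_D, Set.mem_setOf_eq, mul_inv_rev] at hu ⊢
      simpa [mul_assoc] using hu
  rw [h]
  exact Set.ncard_image_of_injective _ (mul_right_injective w)

variable (hfin : ∀ p q : C, (EQL_D A p q).Finite)

include hfin

private theorem EQL_tri (x y z : C) :
    (EQL_D A x z).ncard ≤ (EQL_D A x y).ncard + (EQL_D A y z).ncard := by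
  have h : EQL_D A x z ⊆ EQL_D A x y ∪ EQL_D A y z := by
    intro v hv
    simp only [EQL_D, Set.mem_setOf_eq, Set.mem_union] at hv ⊢
    tauto
  exact (Set.ncard_le_ncard h ((hfin x y).union (hfin y z))).trans (Set.ncard_union_le _ _)

private theorem EQL_mul (x y : C) : EQL_l A (x * y) ≤ EQL_l A x + EQL_l A y := by
  have h := EQL_tri A hfin 1 x (x * y)
  have h1 := EQL_left A x 1 y
  rw [mul_one] at h1
  rw [h1] at h
  exact h

omit hfin in
private theorem EQL_inv (x : C) : EQL_l A x⁻¹ = EQL_l A x := by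
  unfold EQL_l
  have h1 := EQL_left A x 1 x⁻¹
  rw [mul_one, mul_inv_cancel] at h1
  rw [← h1, EQL_symm]

private theorem EQL_pow (x : C) (n : ℕ) : EQL_l A (x ^ n) ≤ n * EQL_l A x := by
  induction n with
  | zero =>
    rw [pow_zero, Nat.zero_mul]
    have : EQL_D A (1 : C) 1 = ∅ := by
      ext v
      simp [EQL_D]
    unfold EQL_l
    rw [this, Set.ncard_empty]
  | succ n ih =>
    rw [pow_succ, Nat.succ_mul]
    exact (EQL_mul A hfin _ _).trans (Nat.add_le_add_right ih _)

end

theorem thm_EQL (hSPF : St_SPF) : St_EQL := by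
  classical
  intro C _ A hA g hg h₀ hex
  obtain ⟨hAc, hfin, hgs⟩ := hSPF C A hA
  have hfin' : ∀ p q : C, (EQL_D A p q).Finite := hfin
  obtain ⟨hgc, hpow, -, hint⟩ := hgs g hg
  obtain ⟨-, -, hgs'⟩ := hSPF C Aᶜ hAc
  obtain ⟨-, -, -, hint'⟩ := hgs' g⁻¹ hgc
  -- the length of the powers of `g`
  set P : ℤ → Prop := fun i => g ^ (-i) ∈ A with hP
  have hdown : ∀ i, P (i + 1) → P i := by
    intro i hi
    have h1 := hg.1 _ hi
    have h2 : g * g ^ (-(i + 1)) = g ^ (-i) := by
      rw [← zpow_one_add]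
      congr 1
      ring
    rw [h2] at h1
    exact h1
  have hdown' : ∀ (i : ℤ) (n : ℕ), P (i + n) → P i := by
    intro i n
    induction n with
    | zero => intro h; simpa using h
    | succ n ih =>
      intro h
      apply ih
      apply hdown
      push_cast at h
      rwa [← add_assoc] at h
  have hdn : ∀ i j : ℤ, i ≤ j → P j → P i := by
    intro i j hij hj
    obtain ⟨n, hn⟩ := Int.eq_ofNat_of_zero_le (sub_nonneg.2 hij)
    apply hdown' i n
    have : i + (n : ℤ) = j := by omega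
    rw [this]
    exact hj
  obtain ⟨m, hm1, hm2⟩ : ∃ m : ℤ, P m ∧ ¬ P (m + 1) := by
    obtain ⟨n, hn⟩ := hint 1
    obtain ⟨n', hn'⟩ := hint' 1
    have hPn : ¬ P n := by
      intro h
      apply hn
      rw [mul_one]
      have : g ^ (-(n : ℤ)) = (g ^ n)⁻¹ := by simp
      rw [← this]
      exact h
    have hPn' : P (-(n' : ℤ)) := by
      have h1 : ((g⁻¹) ^ n')⁻¹ * 1 ∈ A := by
        by_contra h2
        exact hn' h2
      show g ^ (-(-(n' : ℤ))) ∈ A
      have : g ^ (-(-(n' : ℤ))) = ((g⁻¹) ^ n')⁻¹ * 1 := by simp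
      rw [this]
      exact h1
    by_contra hcon
    push Not at hcon
    have hall : ∀ k : ℕ, P (-(n' : ℤ) + k) := by
      intro k
      induction k with
      | zero => simpa using hPn'
      | succ k ih =>
        have := hcon _ ih
        push_cast
        rwa [← add_assoc]
    have h1 := hall (n + n')
    apply hPn
    have : -(n' : ℤ) + ((n + n' : ℕ) : ℤ) = n := by push_cast; ring
    rwa [this] at h1
  have hlow : ∀ n : ℕ, n ≤ EQL_l A (g ^ n) := by
    intro n
    have h1 : (fun i : ℤ => g ^ i) '' (Finset.Ioc m (m + n) : Finset ℤ) ⊆ EQL_D A 1 (g ^ n) := by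
      rintro _ ⟨i, hi, rfl⟩
      rw [Finset.coe_Ioc, Set.mem_Ioc] at hi
      have h2 : ¬ P i := fun h => hm2 (hdn _ _ (by omega) h)
      have h3 : P (i - n) := hdn _ _ (by omega) hm1
      have e1 : (g ^ i)⁻¹ * 1 = g ^ (-i) := by simp
      have e2 : (g ^ i)⁻¹ * g ^ n = g ^ (-(i - n)) := by
        rw [← zpow_natCast, ← zpow_neg, ← zpow_add]
        congr 1
        ring
      show ¬ ((g ^ i)⁻¹ * 1 ∈ A ↔ (g ^ i)⁻¹ * g ^ n ∈ A)
      rw [e1, e2]
      exact fun h => h2 (h.2 h3)
    have h2 := Set.ncard_le_ncard h1 (hfin' _ _)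
    rw [Set.ncard_image_of_injective _ (fun a b hab => hpow a b hab), Set.ncard_coe_finset,
      Int.card_Ioc] at h2
    have : (m + (n : ℤ) - m).toNat = n := by omega
    rw [this] at h2
    exact h2
  have hlowz : ∀ z : ℤ, z.natAbs ≤ EQL_l A (g ^ z) := by
    intro z
    rcases Int.natAbs_eq z with h | h
    · have h1 := hlow z.natAbs
      rw [← zpow_natCast, ← h] at h1
      exact h1
    · have h1 := hlow z.natAbs
      have h2 : g ^ z = (g ^ z.natAbs)⁻¹ := by
        conv_lhs => rw [h]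
        rw [zpow_neg, zpow_natCast]
      rw [h2, EQL_inv]
      exact h1
  -- the key lemma
  have key : ∀ (h : C) (a : ℕ) (b : ℤ), 0 < a → h * g ^ a * h⁻¹ = g ^ b → a < b.natAbs → False := by
    intro h a b ha hab hlt
    have hk : ∀ k : ℕ, h ^ k * g ^ (a ^ k) * (h ^ k)⁻¹ = g ^ (b ^ k) := by
      intro k
      induction k with
      | zero => simp
      | succ k ih =>
        have e1 : h ^ (k + 1) * g ^ (a ^ (k + 1)) * (h ^ (k + 1))⁻¹ =
            h * (h ^ k * g ^ (a ^ k) * (h ^ k)⁻¹) ^ a * h⁻¹ := by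
          rw [conj_pow, ← pow_mul, ← pow_succ, pow_succ' h k, mul_inv_rev]
          group
        have e2 : h * (g ^ (b ^ k)) ^ a * h⁻¹ = (h * g ^ a * h⁻¹) ^ (b ^ k) := by
          rw [conj_zpow, ← zpow_natCast, ← zpow_mul, ← zpow_natCast g a, ← zpow_mul, mul_comm (b ^ k)]
        rw [e1, ih, e2, hab, ← zpow_mul, pow_succ']
    refine EQL_num a (EQL_l A h) (EQL_l A g) ha fun k => ?_
    have h1 := hlowz (b ^ k)
    rw [← hk k, Int.natAbs_pow] at h1
    have h2 := EQL_mul A hfin' (h ^ k * g ^ (a ^ k)) (h ^ k)⁻¹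
    have h3 := EQL_mul A hfin' (h ^ k) (g ^ (a ^ k))
    have h4 := EQL_pow A hfin' h k
    have h5 := EQL_pow A hfin' g (a ^ k)
    rw [EQL_inv] at h2
    have h6 : (a + 1) ^ k ≤ b.natAbs ^ k := Nat.pow_le_pow_left hlt k
    have e : 2 * k * EQL_l A h = k * EQL_l A h + k * EQL_l A h := by ring
    omega
  obtain ⟨a, b, ha, hab⟩ := hex
  have hb0 : b ≠ 0 := by
    rintro rfl
    rw [zpow_zero] at hab
    have h1 : g ^ a = 1 := by
      have := conj_eq_one_iff.1 hab
      exact this
    have h2 := hpow a 0 (by rw [zpow_natCast, h1, zpow_zero])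
    omega
  rcases lt_trichotomy a b.natAbs with h | h | h
  · exact absurd (key h₀ a b ha hab h) (fun h => h)
  · refine ⟨a, ha, ?_⟩
    rcases Int.natAbs_eq b with h1 | h1
    · left
      rw [hab, h1, ← h, zpow_natCast]
    · right
      rw [hab, h1, ← h, zpow_neg, zpow_natCast]
  · exfalso
    have hinv : h₀⁻¹ * g ^ b * h₀⁻¹⁻¹ = g ^ a := by
      rw [← hab]
      group
    rcases Int.natAbs_eq b with h1 | h1
    · refine key h₀⁻¹ b.natAbs a (by omega) ?_ (by simpa using h)
      rw [← zpow_natCast, ← h1, hinv, zpow_natCast]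
    · refine key h₀⁻¹ b.natAbs (-a) (by omega) ?_ (by simpa using h)
      have h2 : g ^ b.natAbs = (g ^ b)⁻¹ := by
        conv_rhs => rw [h1]
        rw [zpow_neg, inv_inv, zpow_natCast]
      rw [h2, zpow_neg, zpow_natCast, ← hinv]
      group

end Pool.Agent.PDT
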