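import Pool.Agent.PDT.StC

/-!
# PDT, module FIB: subgroups of finite index with trivial orientation character
-/

set_option autoImplicit false
set_option linter.unusedVariables false

namespace Pool.Agent.PDT

open Pool.Agent.PDA Pool.Agent.PDB Pool.Agent.PDE Subgroup

private theorem FIB_surj {H : Type} [Group H] (π : H →* Multiplicative ℤ) (s : H)
    (h : π s = Multiplicative.ofAdd 1) : Function.Surjective π := by
  intro q
  refine ⟨s ^ (Multiplicative.toAdd q), ?_⟩
  rw [map_zpow, h, ← ofAdd_zsmul, smul_eq_mul, mul_one]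
  rfl

private theorem FIB_index {H : Type} [Group H] (π : H →* Multiplicative ℤ)
    (h : Function.Surjective π) : π.ker.index = 0 := by
  rw [Subgroup.index_ker, MonoidHom.range_eq_top.2 h]
  have : Infinite (⊤ : Subgroup (Multiplicative ℤ)) := by
    have e : (⊤ : Subgroup (Multiplicative ℤ)) ≃* Multiplicative ℤ := Subgroup.topEquiv
    exact Infinite.of_injective e.symm e.symm.injective
  exact Nat.card_eq_zero_of_infinite

/-- a finite torsion-free group is trivial -/
private theorem FIB_fin {B : Type} [Group B] (ht : TorFree B) [Finite B] : Subsingleton B :=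
  subsingleton_of_forall_eq 1 (fun u => ht u (Nat.card B) Nat.card_pos (pow_card_eq_one'))

/-- an infinite cyclic group is cyclic-by-infinite cyclic -/
private theorem FIB_cyc {B : Type} [Group B] (ht : TorFree B) (y : B) (hy : zpowers y = ⊤) :
    CbC B := by
  by_cases h1 : y = 1
  · left
    subst h1
    rw [zpowers_one_eq_bot] at hy
    refine subsingleton_of_forall_eq 1 (fun u => ?_)
    have : u ∈ (⊤ : Subgroup B) := Subgroup.mem_top u
    rw [← hy] at this
    exact Subgroup.mem_bot.1 this
  · right
    have hinj : Function.Injective (zpowersHom B y) := by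
      rw [injective_iff_map_eq_one]
      intro a ha
      by_contra hne
      rw [zpowersHom_apply] at ha
      have ha0 : Multiplicative.toAdd a ≠ 0 := fun h => hne (by rw [← ofAdd_toAdd a, h]; rfl)
      apply h1
      have h2 : y ^ (Multiplicative.toAdd a).natAbs = 1 := by
        rcases Int.natAbs_eq (Multiplicative.toAdd a) with h3 | h3
        · rw [h3, zpow_natCast] at ha
          exact ha
        · rw [h3, zpow_neg, zpow_natCast, inv_eq_one] at ha
          exact ha
      exact ht y _ (Int.natAbs_pos.2 ha0) h2
    have hsur : Function.Surjective (zpowersHom B y) := by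
      intro u
      have hu : u ∈ zpowers y := by rw [hy]; exact Subgroup.mem_top u
      obtain ⟨i, hi⟩ := mem_zpowers_iff.1 hu
      exact ⟨Multiplicative.ofAdd i, by rw [zpowersHom_apply, toAdd_ofAdd, hi]⟩
    let e : Multiplicative ℤ ≃* B := MulEquiv.ofBijective (zpowersHom B y) ⟨hinj, hsur⟩
    refine ⟨e.symm.toMonoidHom, 1, e.symm.surjective, ?_⟩
    rw [zpowers_one_eq_bot]
    rw [MonoidHom.ker_eq_bot_iff]
    exact e.symm.injective

theorem thm_FIB (hTOP : St_TOP) (hGFG : St_GFG) (hFG2 : St_FG2) (hFG3 : St_FG3) (hSCF : St_SCF)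
    (hTFA : St_TFA) (hEND : St_END) (hNB : St_NB) (hHKK : St_HKK) (hKEY : St_KEY)
    (hFNT : St_FNT) : St_FIB := by
  intro G _ hG S _ j hj hidx R hR hnf π₀ hπ₀
  obtain ⟨R₀⟩ := hTOP G hG
  have hfg : Group.FG S := hGFG S R
  obtain ⟨π, s, B, n, b, hker, hs1, hBk, hb, hcz, hsB, hasc⟩ :=
    hSCF ℚ S π₀ hπ₀ hfg hnf
      (fun d x hx => hFG3 ℚ S d x hx (hFG2 G R₀ S j hj hidx d x hx))
  have hπ := FIB_surj π s hs1
  have htor : TorFree S := hTFA G hG S j hj
  have htorB : TorFree B := hTFA G hG B (j.comp B.subtype) (hj.comp B.subtype_injective)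
  have hBfg : Group.FG B := by
    rw [Group.fg_iff]
    exact ⟨Set.range b, hb, Set.finite_range b⟩
  have hnfB : NoF2 B := by
    intro f hf
    exact hnf (B.subtype.comp f) (B.subtype_injective.comp hf)
  refine hFNT G hG S j hj htor π s B n b hs1 hBk hb hcz hsB hasc ?_
  rcases hEND B hBfg htorB hnfB with h1 | ⟨y, hy⟩
  · by_cases hBi : Infinite B
    · have hA : Asc π s B := ⟨hs1, hBk, hsB, hasc, hBfg, hBi, h1⟩
      have hn := hNB S R hR π s B hA
      have hBK : B = π.ker := by
        refine le_antisymm hBk ?_
        intro g hg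
        obtain ⟨m, hm⟩ := hasc g hg
        have key : ∀ (m : ℕ) (h : S), s ^ m * h * (s ^ m)⁻¹ ∈ B → h ∈ B := by
          intro m
          induction m with
          | zero => intro h hh; simpa using hh
          | succ m ih =>
            intro h hh
            apply ih
            have h2 := hn _ hh
            have h3 : s⁻¹ * (s ^ (m + 1) * h * (s ^ (m + 1))⁻¹) * s = s ^ m * h * (s ^ m)⁻¹ := by
              rw [pow_succ']
              group
            rwa [h3] at h2
        exact key m g hm
      subst hBK
      right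
      refine hKEY G hG π.ker (j.comp π.ker.subtype) (hj.comp π.ker.subtype_injective) ?_ hBfg hBi
        hnfB (fun d x hx => hHKK S R hR π s hs1 hBfg d x hx)
      rw [MonoidHom.range_comp, Subgroup.range_subtype, Subgroup.index_map_of_injective _ hj,
        FIB_index π hπ, zero_mul]
    · have hBf : Finite B := not_infinite_iff_finite.1 hBi
      exact Or.inl (FIB_fin htorB)
  · exact FIB_cyc htorB y hy

end Pool.Agent.PDT
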