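import Pool.Agent.PDT.StC

/-!
# PDT: [FIS], subgroups of finite index

A linear map `f : P → ℤ[G]` is determined by the additive map `x ↦ f(x)_1`, and an additive map
`l : P → ℤ` comes from a linear map iff for all `x` only finitely many `g` have `l(g x) ≠ 0`. This
condition is the same for `G` and for subgroups of finite index.
-/

set_option autoImplicit false
set_option linter.unusedVariables false

namespace Pool.Agent.PDT

open Pool.Agent.PDA Pool.Agent.PDB Pool.Agent.PDE Subgroup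

section one

variable {G P : Type} [Group G] [AddCommGroup P] [Module (ZG G) P]

private theorem FIS_coeff (g y : G) (z : ZG G) : (el ℤ g * z).coeff y = z.coeff (g⁻¹ * y) := by
  have h := MonoidAlgebra.coeff_single_mul_mul z (1 : ℤ) g (g⁻¹ * y)
  rw [mul_inv_cancel_left, one_mul] at h
  exact h

private theorem FIS_coeff' (g y : G) (z : ZG G) : (z * el ℤ g).coeff y = z.coeff (y * g⁻¹) := by
  have h := MonoidAlgebra.coeff_mul_single_mul z (1 : ℤ) g (y * g⁻¹)
  rw [inv_mul_cancel_right, mul_one] at h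
  exact h

variable (G) in
/-- for every `x` only finitely many `g` have `l(g x) ≠ 0` -/
def FIS_F (l : P →+ ℤ) : Prop := ∀ x : P, {g : G | l (el ℤ g • x) ≠ 0}.Finite

private theorem FIS_F_inv {l : P →+ ℤ} (h : FIS_F G l) (x : P) :
    (Function.support fun g : G => l (el ℤ g⁻¹ • x)).Finite := by
  refine ((h x).image fun g => g⁻¹).subset ?_
  intro g hg
  exact ⟨g⁻¹, hg, inv_inv g⟩

/-- the linear map of an additive map -/
noncomputable def FIS_mk (l : P →+ ℤ) (h : FIS_F G l) : P →ₗ[ZG G] ZG G where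
  toFun x := MonoidAlgebra.ofCoeff (Finsupp.ofSupportFinite (fun g => l (el ℤ g⁻¹ • x)) (FIS_F_inv h x))
  map_add' x y := by
    apply MonoidAlgebra.ext
    apply Finsupp.ext
    intro g
    show l (el ℤ g⁻¹ • (x + y)) = l (el ℤ g⁻¹ • x) + l (el ℤ g⁻¹ • y)
    rw [smul_add, map_add]
  map_smul' a x := by
    rw [RingHom.id_apply, smul_eq_mul]
    induction a using MonoidAlgebra.induction_linear with
    | zero =>
      rw [zero_smul, zero_mul]
      apply MonoidAlgebra.ext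
      apply Finsupp.ext
      intro g
      show l (el ℤ g⁻¹ • (0 : P)) = 0
      rw [smul_zero, map_zero]
    | add a b ha hb =>
      rw [add_smul, add_mul, ← ha, ← hb]
      apply MonoidAlgebra.ext
      apply Finsupp.ext
      intro g
      show l (el ℤ g⁻¹ • (a • x + b • x)) = l (el ℤ g⁻¹ • a • x) + l (el ℤ g⁻¹ • b • x)
      rw [smul_add, map_add]
    | single h r =>
      have h1 : MonoidAlgebra.single h r = r • el ℤ h := by
        rw [el, MonoidAlgebra.of_apply, MonoidAlgebra.smul_single, smul_eq_mul, mul_one]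
      rw [h1]
      apply MonoidAlgebra.ext
      apply Finsupp.ext
      intro g
      rw [smul_mul_assoc]
      show l (el ℤ g⁻¹ • (r • el ℤ h) • x) = r • (el ℤ h * _ : ZG G).coeff g
      rw [FIS_coeff]
      show l (el ℤ g⁻¹ • (r • el ℤ h) • x) = r • l (el ℤ (h⁻¹ * g)⁻¹ • x)
      rw [smul_assoc, smul_comm, map_zsmul, ← mul_smul, ← map_mul, mul_inv_rev, inv_inv]

/-- the additive map `x ↦ f(x)_1` -/
noncomputable def FIS_ev (f : P →ₗ[ZG G] ZG G) : P →+ ℤ where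
  toFun x := (f x).coeff 1
  map_zero' := by
    rw [map_zero]
    rfl
  map_add' x y := by
    rw [map_add]
    rfl

private theorem FIS_ev_smul (f : P →ₗ[ZG G] ZG G) (g : G) (x : P) :
    FIS_ev f (el ℤ g • x) = (f x).coeff g⁻¹ := by
  show (f (el ℤ g • x)).coeff 1 = _
  rw [map_smul, smul_eq_mul, FIS_coeff, mul_one]

private theorem FIS_ev_fin (f : P →ₗ[ZG G] ZG G) : FIS_F G (FIS_ev f) := by
  intro x
  have h1 : ((f x).coeff.support : Set G).Finite := Finset.finite_toSet _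
  refine (h1.image fun g => g⁻¹).subset ?_
  intro g hg
  have hg' : FIS_ev f (el ℤ g • x) ≠ 0 := hg
  rw [FIS_ev_smul] at hg'
  exact ⟨g⁻¹, Finset.mem_coe.2 (Finsupp.mem_support_iff.2 hg'), inv_inv g⟩

private theorem FIS_ext {f f' : P →ₗ[ZG G] ZG G} (h : ∀ x, FIS_ev f x = FIS_ev f' x) : f = f' := by
  apply LinearMap.ext
  intro x
  apply MonoidAlgebra.ext
  apply Finsupp.ext
  intro g
  have h1 := h (el ℤ g⁻¹ • x)
  rw [FIS_ev_smul, FIS_ev_smul, inv_inv] at h1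
  exact h1

private theorem FIS_ev_mk (l : P →+ ℤ) (h : FIS_F G l) (x : P) : FIS_ev (FIS_mk l h) x = l x := by
  show l (el ℤ (1 : G)⁻¹ • x) = l x
  rw [inv_one, el, map_one, one_smul]

end one

section two

variable {G S : Type} [Group G] [Group S] {j : S →* G}

/-- scalars restricted along `j` -/
def FIS_C (j : S →* G) (P : Type) [AddCommGroup P] [Module (ZG G) P] [Module (ZG S) P] : Prop :=
  ∀ (a : ZG S) (m : P), a • m = MonoidAlgebra.mapDomainRingHom ℤ j a • m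

variable {P Q : Type} [AddCommGroup P] [Module (ZG G) P] [Module (ZG S) P]
  [AddCommGroup Q] [Module (ZG G) Q] [Module (ZG S) Q]

private theorem FIS_el (hc : FIS_C j P) (s : S) (x : P) : el ℤ s • x = el ℤ (j s) • x := by
  rw [hc]
  congr 1
  rw [el, el, MonoidAlgebra.of_apply, MonoidAlgebra.of_apply]
  exact MonoidAlgebra.mapDomain_single

private theorem FIS_cosets (hidx : j.range.index ≠ 0) :
    ∃ T : Finset G, ∀ g : G, ∃ τ ∈ T, ∃ s : S, g = j s * τ := by
  classical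
  have : j.range.FiniteIndex := ⟨hidx⟩
  have hfin : Finite (G ⧸ j.range) := inferInstance
  have := Fintype.ofFinite (G ⧸ j.range)
  refine ⟨Finset.univ.image fun q : G ⧸ j.range => q.out⁻¹, ?_⟩
  intro g
  refine ⟨(QuotientGroup.mk g⁻¹ : G ⧸ j.range).out⁻¹, Finset.mem_image_of_mem _ (Finset.mem_univ _), ?_⟩
  have h1 : (QuotientGroup.mk (QuotientGroup.mk g⁻¹ : G ⧸ j.range).out : G ⧸ j.range) =
      QuotientGroup.mk g⁻¹ := QuotientGroup.out_eq' _
  rw [QuotientGroup.eq] at h1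
  obtain ⟨s, hs⟩ := h1
  refine ⟨s⁻¹, ?_⟩
  rw [map_inv, hs]
  group

private theorem FIS_F_iff (hc : FIS_C j P) (hj : Function.Injective j) (hidx : j.range.index ≠ 0)
    (l : P →+ ℤ) : FIS_F S l ↔ FIS_F G l := by
  constructor
  · intro h x
    obtain ⟨T, hT⟩ := FIS_cosets hidx
    have h1 : (⋃ τ ∈ T, (fun s : S => j s * τ) '' {s : S | l (el ℤ s • el ℤ τ • x) ≠ 0}).Finite :=
      Set.Finite.biUnion (Finset.finite_toSet T) fun τ _ => (h (el ℤ τ • x)).image _
    refine h1.subset ?_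
    intro g hg
    obtain ⟨τ, hτ, s, rfl⟩ := hT g
    refine Set.mem_biUnion hτ ⟨s, ?_, rfl⟩
    have hg' : l (el ℤ (j s * τ) • x) ≠ 0 := hg
    show l (el ℤ s • el ℤ τ • x) ≠ 0
    rw [FIS_el hc, ← mul_smul, ← map_mul]
    exact hg'
  · intro h x
    refine ((h x).preimage (f := j) hj.injOn).subset ?_
    intro s hs
    have hs' : l (el ℤ s • x) ≠ 0 := hs
    show l (el ℤ (j s) • x) ≠ 0
    rw [← FIS_el hc]
    exact hs'

/-- from `S` to `G` -/
private theorem FIS_up_fin (hc : FIS_C j P) (hj : Function.Injective j) (hidx : j.range.index ≠ 0)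
    (f : P →ₗ[ZG S] ZG S) : FIS_F G (FIS_ev f) := (FIS_F_iff hc hj hidx _).1 (FIS_ev_fin f)

private theorem FIS_down_fin (hc : FIS_C j P) (hj : Function.Injective j) (hidx : j.range.index ≠ 0)
    (f : P →ₗ[ZG G] ZG G) : FIS_F S (FIS_ev f) := (FIS_F_iff hc hj hidx _).2 (FIS_ev_fin f)

/-- from `S` to `G` -/
noncomputable def FIS_up (hc : FIS_C j P) (hj : Function.Injective j) (hidx : j.range.index ≠ 0) :
    (P →ₗ[ZG S] ZG S) →+ (P →ₗ[ZG G] ZG G) where
  toFun f := FIS_mk (FIS_ev f) (FIS_up_fin hc hj hidx f)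
  map_zero' := by
    apply FIS_ext
    intro x
    rw [FIS_ev_mk]
    rfl
  map_add' f f' := by
    apply FIS_ext
    intro x
    rw [FIS_ev_mk]
    show FIS_ev f x + FIS_ev f' x =
      FIS_ev (FIS_mk (G := G) (FIS_ev f) (FIS_up_fin hc hj hidx f)) x +
        FIS_ev (FIS_mk (G := G) (FIS_ev f') (FIS_up_fin hc hj hidx f')) x
    rw [FIS_ev_mk, FIS_ev_mk]

private theorem FIS_up_ev (hc : FIS_C j P) (hj : Function.Injective j) (hidx : j.range.index ≠ 0)
    (f : P →ₗ[ZG S] ZG S) (x : P) : FIS_ev (FIS_up hc hj hidx f) x = FIS_ev f x :=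
  FIS_ev_mk (G := G) (FIS_ev f) (FIS_up_fin hc hj hidx f) x

private theorem FIS_down (hc : FIS_C j P) (hj : Function.Injective j) (hidx : j.range.index ≠ 0)
    (F : P →ₗ[ZG G] ZG G) : ∃ f : P →ₗ[ZG S] ZG S, ∀ x : P, FIS_ev f x = FIS_ev F x :=
  ⟨FIS_mk (G := S) (FIS_ev F) (FIS_down_fin hc hj hidx F), fun x =>
    FIS_ev_mk (G := S) (FIS_ev F) (FIS_down_fin hc hj hidx F) x⟩

/-- restriction of scalars -/
noncomputable def FIS_res (hP : FIS_C j P) (hQ : FIS_C j Q) (d : P →ₗ[ZG G] Q) : P →ₗ[ZG S] Q where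
  toFun := d
  map_add' := map_add d
  map_smul' a x := by
    rw [hP, LinearMap.map_smul, RingHom.id_apply, hQ]

private theorem FIS_h0 (hP : FIS_C j P) (hQ : FIS_C j Q) (hj : Function.Injective j)
    (hidx : j.range.index ≠ 0) (d : Q →ₗ[ZG G] P)
    (h : ∀ f : P →ₗ[ZG G] ZG G, f ∘ₗ d = 0 → f = 0) (f : P →ₗ[ZG S] ZG S)
    (hf : f ∘ₗ FIS_res hQ hP d = 0) : f = 0 := by
  have h1 : FIS_up hP hj hidx f ∘ₗ d = 0 := by
    apply FIS_ext
    intro x
    show FIS_ev (FIS_up hP hj hidx f) (d x) = 0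
    rw [FIS_up_ev]
    exact congrArg (fun F : Q →ₗ[ZG S] ZG S => FIS_ev F x) hf
  have h2 := h _ h1
  apply FIS_ext
  intro x
  rw [← FIS_up_ev hP hj hidx, h2]
  rfl

private theorem FIS_h1 {P' : Type} [AddCommGroup P'] [Module (ZG G) P'] [Module (ZG S) P']
    (hP : FIS_C j P) (hQ : FIS_C j Q) (hP' : FIS_C j P')
    (hj : Function.Injective j) (hidx : j.range.index ≠ 0) (d : Q →ₗ[ZG G] P) (d' : P →ₗ[ZG G] P')
    (h : ∀ f : P →ₗ[ZG G] ZG G, f ∘ₗ d = 0 → ∃ g : P' →ₗ[ZG G] ZG G, f = g ∘ₗ d')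
    (f : P →ₗ[ZG S] ZG S) (hf : f ∘ₗ FIS_res hQ hP d = 0) :
    ∃ g : P' →ₗ[ZG S] ZG S, f = g ∘ₗ FIS_res hP hP' d' := by
  have h1 : FIS_up hP hj hidx f ∘ₗ d = 0 := by
    apply FIS_ext
    intro x
    show FIS_ev (FIS_up hP hj hidx f) (d x) = 0
    rw [FIS_up_ev]
    exact congrArg (fun F : Q →ₗ[ZG S] ZG S => FIS_ev F x) hf
  obtain ⟨F, hF⟩ := h _ h1
  obtain ⟨g, hg⟩ := FIS_down hP' hj hidx F
  refine ⟨g, ?_⟩
  apply FIS_ext
  intro x
  rw [← FIS_up_ev hP hj hidx, hF]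
  exact (hg (d' x)).symm

private theorem FIS_ker (hP : FIS_C j P) (hQ : FIS_C j Q)
    (hj : Function.Injective j) (hidx : j.range.index ≠ 0) (d : P →ₗ[ZG G] Q)
    (f : P →ₗ[ZG S] ZG S) : (∃ g : Q →ₗ[ZG G] ZG G, FIS_up hP hj hidx f = g ∘ₗ d) ↔
      ∃ g : Q →ₗ[ZG S] ZG S, f = g ∘ₗ FIS_res hP hQ d := by
  constructor
  · rintro ⟨F, hF⟩
    obtain ⟨g, hg⟩ := FIS_down hQ hj hidx F
    refine ⟨g, ?_⟩
    apply FIS_ext
    intro x
    rw [← FIS_up_ev hP hj hidx, hF]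
    exact (hg (d x)).symm
  · rintro ⟨g, rfl⟩
    refine ⟨FIS_up hQ hj hidx g, ?_⟩
    apply FIS_ext
    intro x
    rw [FIS_up_ev]
    exact (FIS_up_ev hQ hj hidx g (d x)).symm

private theorem FIS_rm (hP : FIS_C j P) (hj : Function.Injective j) (hidx : j.range.index ≠ 0)
    (f : P →ₗ[ZG S] ZG S) (s : S) :
    FIS_up hP hj hidx (rm f s) = rm (FIS_up hP hj hidx f) (j s) := by
  apply FIS_ext
  intro x
  rw [FIS_up_ev]
  show (f x * el ℤ s).coeff 1 = (FIS_up hP hj hidx f x * el ℤ (j s)).coeff 1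
  rw [FIS_coeff', FIS_coeff', one_mul, one_mul, ← FIS_ev_smul, ← FIS_ev_smul, FIS_up_ev,
    FIS_el hP]

end two

theorem thm_FIS (hFG1 : St_FG1) (hFRE : St_FRE) : St_FIS := by
  intro G _ R w hw S _ j hj hidx hwj
  let m0 : Module (ZG S) R.P0 := Module.compHom R.P0 (MonoidAlgebra.mapDomainRingHom ℤ j)
  let m1 : Module (ZG S) R.P1 := Module.compHom R.P1 (MonoidAlgebra.mapDomainRingHom ℤ j)
  let m2 : Module (ZG S) R.P2 := Module.compHom R.P2 (MonoidAlgebra.mapDomainRingHom ℤ j)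
  let m3 : Module (ZG S) R.P3 := Module.compHom R.P3 (MonoidAlgebra.mapDomainRingHom ℤ j)
  have c0 : FIS_C j R.P0 := fun _ _ => rfl
  have c1 : FIS_C j R.P1 := fun _ _ => rfl
  have c2 : FIS_C j R.P2 := fun _ _ => rfl
  have c3 : FIS_C j R.P3 := fun _ _ => rfl
  let R' : Short S :=
    { P0 := R.P0
      P1 := R.P1
      P2 := R.P2
      P3 := R.P3
      a0 := R.a0
      a1 := R.a1
      a2 := R.a2
      a3 := R.a3
      m0 := m0
      m1 := m1
      m2 := m2
      m3 := m3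
      f0 := hFG1 ℤ S G j hj hidx R.P0 c0 R.f0
      f1 := hFG1 ℤ S G j hj hidx R.P1 c1 R.f1
      f2 := hFG1 ℤ S G j hj hidx R.P2 c2 R.f2
      f3 := hFG1 ℤ S G j hj hidx R.P3 c3 R.f3
      p0 := hFRE ℤ S G j hj R.P0 c0 R.p0
      p1 := hFRE ℤ S G j hj R.P1 c1 R.p1
      p2 := hFRE ℤ S G j hj R.P2 c2 R.p2
      p3 := hFRE ℤ S G j hj R.P3 c3 R.p3
      d1 := FIS_res c1 c0 R.d1
      d2 := FIS_res c2 c1 R.d2
      d3 := FIS_res c3 c2 R.d3
      e := R.e
      e_smul := fun s x => by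
        rw [FIS_el c0]
        exact R.e_smul (j s) x
      e_surj := R.e_surj
      ex0 := R.ex0
      ex1 := R.ex1
      ex2 := R.ex2
      inj3 := R.inj3
      h0 := FIS_h0 c0 c1 hj hidx R.d1 R.h0
      h1 := FIS_h1 c1 c2 c0 hj hidx R.d2 R.d1 R.h1
      h2 := FIS_h1 c2 c3 c1 hj hidx R.d3 R.d2 R.h2
      θ := R.θ.comp (FIS_up c3 hj hidx)
      θ_surj := by
        intro n
        obtain ⟨F, hF⟩ := R.θ_surj n
        obtain ⟨f, hf⟩ := FIS_down c3 hj hidx F
        refine ⟨f, ?_⟩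
        have h1 : FIS_up c3 hj hidx f = F := by
          apply FIS_ext
          intro x
          rw [FIS_up_ev, hf]
        show R.θ (FIS_up c3 hj hidx f) = n
        rw [h1, hF]
      θ_ker := fun f => (R.θ_ker _).trans (FIS_ker c3 c2 hj hidx R.d3 f) }
  refine ⟨R', ?_⟩
  intro f s
  show R.θ (FIS_up c3 hj hidx (rm f s)) = R.θ (FIS_up c3 hj hidx f)
  rw [FIS_rm, hw, hwj]
  simp

end Pool.Agent.PDT
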