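import Pool.Agent.PDT.StC

/-!
# PDT, module H2K (MP_add920_al): the second cohomology of the kernel

`h2k_C R π l n`: the cocycle `l` is the sum of `l₁` (finite above) and `l₂` (finite below), the map
`l₁ ∘ d3` is the coefficient at `1` of the linear map `f`, and `θ f = n`.
-/

set_option autoImplicit false
set_option linter.unusedVariables false

namespace Pool.Agent.PDT

open Pool.Agent.PDA Pool.Agent.PDB Pool.Agent.PDE Subgroup

section H2K

variable {S : Type} [Group S]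

private theorem h2k_hgt_mul (π : S →* Multiplicative ℤ) (g h : S) :
    hgt π (g * h) = hgt π g + hgt π h := by
  unfold hgt
  rw [map_mul, toAdd_mul]

private theorem h2k_hgt_inv (π : S →* Multiplicative ℤ) (g : S) : hgt π⁻¹ g = - hgt π g := by
  unfold hgt
  rw [MonoidHom.inv_apply, toAdd_inv]

section modules

variable {P Q : Type} [AddCommGroup P] [Module (ZG S) P] [AddCommGroup Q] [Module (ZG S) Q]

private theorem h2k_add {π : S →* Multiplicative ℤ} {l l' : P →+ ℤ} (h : Hi π l) (h' : Hi π l') :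
    Hi π (l + l') := by
  intro x c
  refine ((h x c).union (h' x c)).subset ?_
  rintro g ⟨hg, hne⟩
  by_cases h1 : l (el ℤ g • x) = 0
  · right
    refine ⟨hg, fun h2 => hne ?_⟩
    rw [AddMonoidHom.add_apply, h1, h2, add_zero]
  · exact Or.inl ⟨hg, h1⟩

private theorem h2k_zsmul {π : S →* Multiplicative ℤ} {l : P →+ ℤ} (h : Hi π l) (n : ℤ) :
    Hi π (n • l) := by
  intro x c
  refine (h x c).subset ?_
  rintro g ⟨hg, hne⟩
  refine ⟨hg, fun h1 => hne ?_⟩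
  show n • l (el ℤ g • x) = 0
  rw [h1, smul_zero]

private theorem h2k_neg {π : S →* Multiplicative ℤ} {l : P →+ ℤ} (h : Hi π l) : Hi π (- l) := by
  have h1 := h2k_zsmul h (-1)
  rwa [neg_one_zsmul] at h1

private theorem h2k_comp {π : S →* Multiplicative ℤ} {l : P →+ ℤ} (h : Hi π l) (f : Q →ₗ[ZG S] P) :
    Hi π (l.comp f.toAddMonoidHom) := by
  intro x c
  refine (h (f x) c).subset ?_
  rintro g ⟨hg, hne⟩
  refine ⟨hg, fun h1 => hne ?_⟩
  show l (f (el ℤ g • x)) = 0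
  rw [map_smul]
  exact h1

private theorem h2k_FbHi {π : S →* Multiplicative ℤ} {l : P →+ ℤ} (h : Hi π l) : Fb π l := by
  intro x c
  refine (h x c).subset ?_
  rintro g ⟨hg, hne⟩
  exact ⟨hg.ge, hne⟩

private theorem h2k_FbLo {π : S →* Multiplicative ℤ} {l : P →+ ℤ} (h : Hi π⁻¹ l) : Fb π l := by
  intro x c
  refine (h x (-c)).subset ?_
  rintro g ⟨hg, hne⟩
  refine ⟨?_, hne⟩
  rw [h2k_hgt_inv, hg]

private theorem h2k_Fb_add {π : S →* Multiplicative ℤ} {l l' : P →+ ℤ} (h : Fb π l) (h' : Fb π l') :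
    Fb π (l + l') := by
  intro x c
  refine ((h x c).union (h' x c)).subset ?_
  rintro g ⟨hg, hne⟩
  by_cases h1 : l (el ℤ g • x) = 0
  · right
    refine ⟨hg, fun h2 => hne ?_⟩
    rw [AddMonoidHom.add_apply, h1, h2, add_zero]
  · exact Or.inl ⟨hg, h1⟩

private theorem h2k_Fb_zsmul {π : S →* Multiplicative ℤ} {l : P →+ ℤ} (h : Fb π l) (n : ℤ) :
    Fb π (n • l) := by
  intro x c
  refine (h x c).subset ?_
  rintro g ⟨hg, hne⟩
  refine ⟨hg, fun h1 => hne ?_⟩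
  show n • l (el ℤ g • x) = 0
  rw [h1, smul_zero]

/-- the translate of an additive map -/
private noncomputable def h2k_tr (l : P →+ ℤ) (g : S) : P →+ ℤ where
  toFun x := l (el ℤ g • x)
  map_zero' := by rw [smul_zero, map_zero]
  map_add' x y := by rw [smul_add, map_add]

private theorem h2k_el_mul (g h : S) (x : P) : el ℤ g • el ℤ h • x = el ℤ (g * h) • x := by
  rw [smul_smul, el, el, el, ← map_mul]

private theorem h2k_Hi_tr {π : S →* Multiplicative ℤ} {l : P →+ ℤ} (h : Hi π l) (g : S) :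
    Hi π (h2k_tr l g) := by
  intro x c
  have h1 := (h x (c + hgt π g)).preimage (f := fun k => g * k) (mul_right_injective g).injOn
  refine h1.subset ?_
  rintro k ⟨hk, hne⟩
  refine ⟨?_, fun h2 => hne ?_⟩
  · rw [h2k_hgt_mul]
    omega
  · show l (el ℤ g • el ℤ k • x) = 0
    rw [h2k_el_mul]
    exact h2

private theorem h2k_Fb_tr {π : S →* Multiplicative ℤ} {l : P →+ ℤ} (h : Fb π l) (g : S) :
    Fb π (h2k_tr l g) := by
  intro x c
  have h1 := (h x (c + hgt π g)).preimage (f := fun k => g * k) (mul_right_injective g).injOn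
  refine h1.subset ?_
  rintro k ⟨hk, hne⟩
  refine ⟨?_, fun h2 => hne ?_⟩
  · rw [h2k_hgt_mul]
    omega
  · show l (el ℤ g • el ℤ k • x) = 0
    rw [h2k_el_mul]
    exact h2

/-- the coefficient at `1` of a linear map -/
private noncomputable def h2k_one (f : P →ₗ[ZG S] ZG S) : P →+ ℤ where
  toFun x := (f x).coeff 1
  map_zero' := by rw [map_zero]; rfl
  map_add' x y := by rw [map_add]; rfl

end modules

variable (R : Short S) (π : S →* Multiplicative ℤ)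

private def h2k_C (l : R.P2 →+ ℤ) (n : ℤ) : Prop :=
  ∃ (l₁ l₂ : R.P2 →+ ℤ) (f : R.P3 →ₗ[ZG S] ZG S), Hi π l₁ ∧ Hi π⁻¹ l₂ ∧ (∀ x, l x = l₁ x + l₂ x) ∧
    (∀ x, l₁ (R.d3 x) = (f x).coeff 1) ∧ R.θ f = n

variable {R π}

private theorem h2k_C_add {l l' : R.P2 →+ ℤ} {n n' : ℤ} (h : h2k_C R π l n) (h' : h2k_C R π l' n') :
    h2k_C R π (l + l') (n + n') := by
  obtain ⟨l₁, l₂, f, h1, h2, h3, h4, h5⟩ := h
  obtain ⟨l₁', l₂', f', h1', h2', h3', h4', h5'⟩ := h'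
  refine ⟨l₁ + l₁', l₂ + l₂', f + f', h2k_add h1 h1', h2k_add h2 h2', fun x => ?_, fun x => ?_, ?_⟩
  · rw [AddMonoidHom.add_apply, AddMonoidHom.add_apply, AddMonoidHom.add_apply, h3, h3']
    ring
  · rw [AddMonoidHom.add_apply, h4, h4']
    rfl
  · rw [map_add, h5, h5']

private theorem h2k_C_zsmul {l : R.P2 →+ ℤ} {n : ℤ} (h : h2k_C R π l n) (k : ℤ) :
    h2k_C R π (k • l) (k * n) := by
  obtain ⟨l₁, l₂, f, h1, h2, h3, h4, h5⟩ := h
  refine ⟨k • l₁, k • l₂, k • f, h2k_zsmul h1 k, h2k_zsmul h2 k, fun x => ?_, fun x => ?_, ?_⟩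
  · show k • l x = k • l₁ x + k • l₂ x
    rw [h3, smul_add]
  · show k • l₁ (R.d3 x) = (k • f x).coeff 1
    rw [h4]
    rfl
  · rw [map_zsmul, h5, smul_eq_mul]

private theorem h2k_C_tr (hO : Ori R) (hSPL : St_SPL) {l : R.P2 →+ ℤ} {n : ℤ} (h : h2k_C R π l n)
    (g : S) : h2k_C R π (h2k_tr l g) n := by
  obtain ⟨l₁, l₂, f, h1, h2, h3, h4, h5⟩ := h
  refine ⟨h2k_tr l₁ g, h2k_tr l₂ g, rm f g, h2k_Hi_tr h1 g, h2k_Hi_tr h2 g, fun x => h3 _,
    fun x => ?_, ?_⟩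
  · show l₁ (el ℤ g • R.d3 x) = (f x * el ℤ g).coeff 1
    rw [← map_smul, h4]
    have h6 := ((hSPL S π R.P3).2.2 f (h2k_one f) (fun _ => rfl)).2.2 x g
    have h7 : (f (el ℤ g • x)).coeff 1 = (f x).coeff g⁻¹ := h6
    rw [h7, el, MonoidAlgebra.of_apply, MonoidAlgebra.coeff_mul_single_apply, mul_one, one_mul]
  · rw [hO, h5]

private theorem h2k_C_zero (hSPL : St_SPL) {l : R.P2 →+ ℤ} {n : ℤ} (h : h2k_C R π l n)
    (hl : ∀ x, l x = 0) : n = 0 := by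
  obtain ⟨l₁, l₂, f, h1, h2, h3, h4, h5⟩ := h
  have h6 : l₁ = - l₂ := by
    ext x
    have h7 := h3 x
    rw [hl] at h7
    show l₁ x = - l₂ x
    omega
  have h7 : Hi π⁻¹ l₁ := by rw [h6]; exact h2k_neg h2
  obtain ⟨g, hg⟩ := (hSPL S π R.P2).2.1 l₁ h1 h7
  rw [← h5, R.θ_ker]
  refine ⟨g, ?_⟩
  apply LinearMap.ext
  intro x
  have h8 : ∀ k : S, (f x).coeff k = (g (R.d3 x)).coeff k := by
    intro k
    have h9 := ((hSPL S π R.P3).2.2 f (h2k_one f) (fun _ => rfl)).2.2 x k⁻¹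
    rw [inv_inv] at h9
    have h10 : (f (el ℤ k⁻¹ • x)).coeff 1 = (f x).coeff k := h9
    rw [← h10, ← h4, hg, map_smul]
  exact MonoidAlgebra.ext (Finsupp.ext h8)

private theorem h2k_C_bd (hSPL : St_SPL) {l : R.P2 →+ ℤ} {m : R.P1 →+ ℤ} (hm : Fb π m)
    (h : ∀ x, l x = m (R.d2 x)) : h2k_C R π l 0 := by
  obtain ⟨m₁, m₂, h1, h2, h3⟩ := (hSPL S π R.P1).1 inferInstance inferInstance m hm
  refine ⟨m₁.comp R.d2.toAddMonoidHom, m₂.comp R.d2.toAddMonoidHom, 0, h2k_comp h1 _,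
    h2k_comp h2 _, fun x => ?_, fun x => ?_, map_zero _⟩
  · rw [h, h3]
    rfl
  · show m₁ (R.d2 (R.d3 x)) = 0
    rw [(R.ex2 (R.d3 x)).2 ⟨x, rfl⟩, map_zero]

end H2K

theorem thm_H2K (hSPL : St_SPL) (hHL2 : St_HL2) : St_H2K := by
  intro S _ R hO π s hs hfg
  -- the hypotheses of `St_HL2`, for `π` and for `π⁻¹`
  have hgen : ∀ g : S, ∀ H : Subgroup S, s ∈ H → (π.ker : Subgroup S) ≤ H → g ∈ H := by
    intro g H hsH hKH
    have hk : g * s ^ (-(hgt π g)) ∈ π.ker := by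
      rw [MonoidHom.mem_ker, map_mul, map_zpow, hs]
      unfold hgt
      apply Multiplicative.toAdd.injective
      rw [toAdd_mul, toAdd_zpow, toAdd_ofAdd, toAdd_one]
      simp
    have h1 : g = (g * s ^ (-(hgt π g))) * s ^ (hgt π g) := by group
    rw [h1]
    exact mul_mem (hKH hk) (zpow_mem hsH _)
  have hclo : closure (insert s (π.ker : Set S)) = ⊤ := by
    rw [eq_top_iff]
    intro g _
    exact hgen g _ (subset_closure (Set.mem_insert _ _))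
      fun k hk => subset_closure (Set.mem_insert_of_mem _ hk)
  have hclo' : closure (insert s⁻¹ (π.ker : Set S)) = ⊤ := by
    rw [eq_top_iff]
    intro g _
    refine hgen g _ ?_ fun k hk => subset_closure (Set.mem_insert_of_mem _ hk)
    have h1 : s⁻¹ ∈ closure (insert s⁻¹ (π.ker : Set S)) := subset_closure (Set.mem_insert _ _)
    have h2 := inv_mem h1
    rwa [inv_inv] at h2
  have hs' : π⁻¹ s⁻¹ = Multiplicative.ofAdd 1 := by
    rw [MonoidHom.inv_apply, map_inv, inv_inv, hs]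
  have hle' : π.ker ≤ (π⁻¹).ker := by
    intro k hk
    rw [MonoidHom.mem_ker] at hk ⊢
    rw [MonoidHom.inv_apply, hk, inv_one]
  obtain ⟨hU, hU3⟩ := hHL2 S R hO π s π.ker hs le_rfl
    (fun u hu => (MonoidHom.normal_ker π).conj_mem u hu s) hfg hclo
  obtain ⟨hL, hL3⟩ := hHL2 S R hO π⁻¹ s⁻¹ π.ker hs' hle'
    (fun u hu => (MonoidHom.normal_ker π).conj_mem u hu s⁻¹) hfg hclo'
  -- (i)
  have hi : ∀ l : R.P2 →+ ℤ, Fb π l → (∀ x, l (R.d3 x) = 0) → ∃ n, h2k_C R π l n := by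
    intro l hl hl3
    obtain ⟨l₁, l₂, h1, h2, h3⟩ := (hSPL S π R.P2).1 inferInstance inferInstance l hl
    have h4 : l₁.comp R.d3.toAddMonoidHom = - (l₂.comp R.d3.toAddMonoidHom) := by
      ext x
      have h5 := h3 (R.d3 x)
      rw [hl3] at h5
      show l₁ (R.d3 x) = - l₂ (R.d3 x)
      omega
    have h5 : Hi π⁻¹ (l₁.comp R.d3.toAddMonoidHom) := by
      rw [h4]
      exact h2k_neg (h2k_comp h2 _)
    obtain ⟨f, hf⟩ := (hSPL S π R.P3).2.1 _ (h2k_comp h1 R.d3) h5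
    refine ⟨R.θ f, l₁, l₂, f, h1, h2, h3, fun x => ?_, rfl⟩
    rw [hf x 1, inv_one]
    have h6 : el ℤ (1 : S) • x = x := by rw [el, map_one, one_smul]
    rw [h6]
    rfl
  -- (iv)
  have hiv : ∀ l : R.P2 →+ ℤ, (∀ x, l (R.d3 x) = 0) → h2k_C R π l 0 →
      ∃ m : R.P1 →+ ℤ, Fb π m ∧ ∀ x, l x = m (R.d2 x) := by
    rintro l hl3 ⟨l₁, l₂, f, h1, h2, h3, h4, h5⟩
    obtain ⟨g, hg⟩ := (R.θ_ker f).1 h5
    obtain ⟨hg1, hg2, -⟩ := (hSPL S π R.P2).2.2 g (h2k_one g) (fun _ => rfl)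
    have h6 : ∀ x, h2k_one g (R.d3 x) = l₁ (R.d3 x) := by
      intro x
      rw [h4, hg]
      rfl
    obtain ⟨m₁, hm₁, hm₁', -⟩ := hU (l₁ + - h2k_one g) (h2k_add h1 (h2k_neg hg1)) (fun x => by
      show l₁ (R.d3 x) + - h2k_one g (R.d3 x) = 0
      rw [h6]
      ring)
    obtain ⟨m₂, hm₂, hm₂', -⟩ := hL (l₂ + h2k_one g) (h2k_add h2 hg2) (fun x => by
      show l₂ (R.d3 x) + h2k_one g (R.d3 x) = 0
      rw [h6, add_comm, ← h3, hl3])
    refine ⟨m₁ + m₂, h2k_Fb_add (h2k_FbHi hm₁) (h2k_FbLo hm₂), fun x => ?_⟩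
    rw [AddMonoidHom.add_apply, ← hm₁', ← hm₂', h3]
    show l₁ x + l₂ x = (l₁ x + - h2k_one g x) + (l₂ x + h2k_one g x)
    ring
  -- (v)
  obtain ⟨f0, hf0⟩ := R.θ_surj 1
  obtain ⟨ho1, ho2, -⟩ := (hSPL S π R.P3).2.2 f0 (h2k_one f0) (fun _ => rfl)
  obtain ⟨l₁, hl₁, hl₁'⟩ := hU3 (h2k_one f0) ho1
  obtain ⟨l₂, hl₂, hl₂'⟩ := hL3 (- h2k_one f0) (h2k_neg ho2)
  have hC0 : h2k_C R π (l₁ + l₂) 1 :=
    ⟨l₁, l₂, f0, hl₁, hl₂, fun x => rfl, fun x => (hl₁' x).symm, hf0⟩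
  have hF0 : Fb π (l₁ + l₂) := h2k_Fb_add (h2k_FbHi hl₁) (h2k_FbLo hl₂)
  have hZ0 : ∀ x, (l₁ + l₂) (R.d3 x) = 0 := by
    intro x
    rw [AddMonoidHom.add_apply, ← hl₁', ← hl₂']
    show h2k_one f0 x + - h2k_one f0 x = 0
    ring
  set l0 : R.P2 →+ ℤ := l₁ + l₂ with hl0
  have hd32 : ∀ x, R.d2 (R.d3 x) = 0 := fun x => (R.ex2 (R.d3 x)).2 ⟨x, rfl⟩
  refine ⟨l0, hF0, hZ0, fun l hl hl3 => ?_, fun n m hm hnm => ?_, fun g => ?_⟩
  · obtain ⟨c, hc⟩ := hi l hl hl3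
    have h1 : h2k_C R π (l + (-c) • l0) 0 := by
      have h2 := h2k_C_add hc (h2k_C_zsmul hC0 (-c))
      have h3 : c + -c * 1 = 0 := by ring
      rwa [h3] at h2
    obtain ⟨m, hm, hm'⟩ := hiv _ (fun x => by
      show l (R.d3 x) + (-c) • l0 (R.d3 x) = 0
      rw [hl3, hZ0, smul_zero, add_zero]) h1
    refine ⟨c, m, hm, fun x => ?_⟩
    rw [← hm']
    show l x - c * l0 x = l x + (-c) * l0 x
    ring
  · have h1 : h2k_C R π (n • l0) 0 := h2k_C_bd hSPL hm (fun x => by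
      rw [← hnm]
      rfl)
    have h2 : h2k_C R π (n • l0 + (-1 : ℤ) • (n • l0)) (n * 1 + -1 * 0) :=
      h2k_C_add (h2k_C_zsmul hC0 n) (h2k_C_zsmul h1 (-1))
    have h3 := h2k_C_zero hSPL h2 (fun x => by
      show n • l0 x + (-1 : ℤ) • (n • l0 x) = 0
      rw [neg_one_zsmul, add_neg_cancel])
    linarith
  · have h1 : h2k_C R π (h2k_tr l0 g + (-1 : ℤ) • l0) 0 := by
      have h2 := h2k_C_add (h2k_C_tr hO hSPL hC0 g) (h2k_C_zsmul hC0 (-1))
      have h3 : (1 : ℤ) + -1 * 1 = 0 := by ring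
      rwa [h3] at h2
    obtain ⟨m, hm, hm'⟩ := hiv _ (fun x => by
      show l0 (el ℤ g • R.d3 x) + (-1 : ℤ) • l0 (R.d3 x) = 0
      rw [← map_smul, hZ0, hZ0, smul_zero, add_zero]) h1
    refine ⟨m, hm, fun x => ?_⟩
    rw [← hm']
    show l0 (el ℤ g • x) - l0 x = l0 (el ℤ g • x) + (-1) * l0 x
    ring

end Pool.Agent.PDT
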