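import Pool.Agent.PDT.StC

/-!
# PDT: HKK, the second cohomology of the kernel
-/

set_option autoImplicit false

namespace Pool.Agent.PDT

open Pool.Agent.PDA Pool.Agent.PDB Pool.Agent.PDE Subgroup

section kmod

variable {K : Type} [Group K] {Q : Type} [AddCommGroup Q] [Module (ZG K) Q]

private lemma HKK_mul (k k' : K) (a : ZG K) : (el ℤ k * a).coeff k' = a.coeff (k⁻¹ * k') := by
  rw [el, MonoidAlgebra.of_apply, MonoidAlgebra.coeff_single_mul_apply, one_mul]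

private lemma HKK_mul' (k k' : K) (a : ZG K) : (a * el ℤ k).coeff k' = a.coeff (k' * k⁻¹) := by
  rw [el, MonoidAlgebra.of_apply, MonoidAlgebra.coeff_mul_single_apply, mul_one]

private lemma HKK_coeff (ψ : Q →ₗ[ZG K] ZG K) (x : Q) (k : K) :
    (ψ x).coeff k = (ψ (el ℤ k⁻¹ • x)).coeff 1 := by
  rw [map_smul, smul_eq_mul, HKK_mul, inv_inv, mul_one]

/-- an additive map gives a linear map -/
private lemma HKK_mk (l : Q →+ ℤ) (hl : ∀ x, {k : K | l (el ℤ k • x) ≠ 0}.Finite) :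
    ∃ ψ : Q →ₗ[ZG K] ZG K, ∀ x k, (ψ x).coeff k = l (el ℤ k⁻¹ • x) := by
  have hf : ∀ x, (Function.support fun k : K => l (el ℤ k⁻¹ • x)).Finite := by
    intro x
    have h1 := (hl x).preimage (f := fun k : K => k⁻¹) (inv_injective.injOn)
    exact h1.subset (fun k hk => hk)
  obtain ⟨F, hF⟩ : ∃ F : Q → ZG K, ∀ x k, (F x).coeff k = l (el ℤ k⁻¹ • x) :=
    ⟨fun x => MonoidAlgebra.ofCoeff (Finsupp.ofSupportFinite (fun k : K => l (el ℤ k⁻¹ • x)) (hf x)),
      fun x k => rfl⟩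
  have hadd : ∀ x y, F (x + y) = F x + F y := by
    intro x y
    apply MonoidAlgebra.ext
    ext k
    rw [hF, MonoidAlgebra.coeff_add, Finsupp.add_apply, hF, hF, smul_add, map_add]
  obtain ⟨A, hA⟩ : ∃ A : Q →+ ZG K, ∀ x, A x = F x := ⟨AddMonoidHom.mk' F hadd, fun _ => rfl⟩
  have hel : ∀ (k : K) (x : Q), A (el ℤ k • x) = el ℤ k * A x := by
    intro k x
    apply MonoidAlgebra.ext
    ext k'
    rw [hA, hF, HKK_mul, hA, hF, smul_smul, ← map_mul, mul_inv_rev, inv_inv]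
  refine ⟨{ toFun := A, map_add' := map_add A, map_smul' := fun a x => ?_ }, fun x k => ?_⟩
  · rw [RingHom.id_apply, smul_eq_mul]
    induction a using MonoidAlgebra.induction_linear with
    | zero => rw [zero_smul, map_zero, zero_mul]
    | add a b ha hb => rw [add_smul, map_add, ha, hb, add_mul]
    | single k n =>
      have h1 : (MonoidAlgebra.single k n : ZG K) = n • el ℤ k := by
        rw [el, MonoidAlgebra.of_apply, MonoidAlgebra.smul_single, smul_eq_mul, mul_one]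
      rw [h1, smul_assoc, map_zsmul, hel, smul_mul_assoc]
  · show (A x).coeff k = _
    rw [hA, hF]

end kmod

/-- a linear map gives an additive map with finite horizontal supports -/
private lemma HKK_Fb {S : Type} [Group S] (π : S →* Multiplicative ℤ) (s : S)
    (hs : π s = Multiplicative.ofAdd 1) {P : Type} [AddCommGroup P] [Module (ZG S) P] {Q : Type}
    [AddCommGroup Q] [Module (ZG π.ker) Q] (q : P →+ Q)
    (hq : ∀ (k : π.ker) (x : P), q (el ℤ (k : S) • x) = el ℤ k • q x)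
    (ψ : Q →ₗ[ZG π.ker] ZG π.ker) :
    ∃ l : P →+ ℤ, Fb π l ∧ ∀ x, l x = (ψ (q x)).coeff 1 := by
  obtain ⟨l, hl⟩ : ∃ l : P →+ ℤ, ∀ x, l x = (ψ (q x)).coeff 1 :=
    ⟨{ toFun := fun x => (ψ (q x)).coeff 1
       map_zero' := by rw [map_zero, map_zero, MonoidAlgebra.coeff_zero, Finsupp.zero_apply]
       map_add' := fun x y => by
        rw [map_add, map_add, MonoidAlgebra.coeff_add, Finsupp.add_apply] }, fun _ => rfl⟩
  refine ⟨l, ?_, hl⟩
  intro x c
  have hfin : ((ψ (q (el ℤ (s ^ c) • x))).coeff.support : Set π.ker).Finite := Finset.finite_toSet _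
  refine (hfin.image fun k : π.ker => (k : S)⁻¹ * s ^ c).subset ?_
  rintro g ⟨hg, hne⟩
  have hgk : g * (s ^ c)⁻¹ ∈ π.ker := by
    rw [MonoidHom.mem_ker, map_mul, map_inv, map_zpow, hs]
    have h1 : π g = Multiplicative.ofAdd c := by
      rw [← hg]
      rfl
    rw [h1]
    apply Multiplicative.toAdd.injective
    simp
  refine ⟨(⟨g * (s ^ c)⁻¹, hgk⟩ : π.ker)⁻¹, ?_, ?_⟩
  · rw [Finset.mem_coe, Finsupp.mem_support_iff]
    intro h0
    apply hne
    have h1 : el ℤ g • x = el ℤ ((⟨g * (s ^ c)⁻¹, hgk⟩ : π.ker) : S) • (el ℤ (s ^ c) • x) := by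
      rw [smul_smul, ← map_mul]
      show el ℤ g • x = el ℤ (g * (s ^ c)⁻¹ * s ^ c) • x
      rw [inv_mul_cancel_right]
    rw [h1, hl, hq, map_smul, smul_eq_mul, HKK_mul, mul_one]
    exact h0
  · show ((g * (s ^ c)⁻¹)⁻¹)⁻¹ * s ^ c = g
    rw [inv_inv, inv_mul_cancel_right]

theorem thm_HKK (hH2K : St_H2K) (hHM2 : St_HM2) (hFRE : St_FRE) (hBDR : St_BDR) : St_HKK := by
  intro S _ R hOri π s hs hfg d x hx
  obtain ⟨l0, hl0F, hl03, hgen, hinf, htri⟩ := hH2K S R hOri π s hs hfg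
  let j : π.ker →* S := π.ker.subtype
  have hj : Function.Injective j := π.ker.subtype_injective
  let m0 : Module (MonoidAlgebra ℤ π.ker) R.P0 :=
    Module.compHom R.P0 (MonoidAlgebra.mapDomainRingHom ℤ j)
  let m1 : Module (MonoidAlgebra ℤ π.ker) R.P1 :=
    Module.compHom R.P1 (MonoidAlgebra.mapDomainRingHom ℤ j)
  have s0 : ∀ (a : MonoidAlgebra ℤ π.ker) (y : R.P0),
      a • y = MonoidAlgebra.mapDomainRingHom ℤ j a • y := fun _ _ => rfl
  have s1 : ∀ (a : MonoidAlgebra ℤ π.ker) (y : R.P1),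
      a • y = MonoidAlgebra.mapDomainRingHom ℤ j a • y := fun _ _ => rfl
  have p0 : Module.Projective (MonoidAlgebra ℤ π.ker) R.P0 := hFRE ℤ π.ker S j hj R.P0 s0 R.p0
  have p1 : Module.Projective (MonoidAlgebra ℤ π.ker) R.P1 := hFRE ℤ π.ker S j hj R.P1 s1 R.p1
  have hjel : ∀ k : π.ker, MonoidAlgebra.mapDomainRingHom ℤ j (el ℤ k) = el ℤ (k : S) := by
    intro k
    rw [MonoidAlgebra.mapDomainRingHom_apply, el, el, MonoidAlgebra.of_apply,
      MonoidAlgebra.of_apply, MonoidAlgebra.mapDomain_single]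
    rfl
  have hsingle : ∀ (k : π.ker) (n : ℤ) (y : R.P0),
      MonoidAlgebra.mapDomainRingHom ℤ j (MonoidAlgebra.single k n) • y =
      n • (el ℤ (k : S) • y) := by
    intro k n y
    have h1 : (MonoidAlgebra.single k n : ZG π.ker) = n • el ℤ k := by
      rw [el, MonoidAlgebra.of_apply, MonoidAlgebra.smul_single, smul_eq_mul, mul_one]
    rw [h1, map_zsmul, hjel, smul_assoc]
  -- the boundary map
  obtain ⟨d1, hd1⟩ : ∃ d1 : R.P1 →ₗ[MonoidAlgebra ℤ π.ker] R.P0, ∀ y, d1 y = R.d1 y :=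
    ⟨{ toFun := fun y => R.d1 y
       map_add' := fun y z => map_add R.d1 y z
       map_smul' := fun a y => by
        rw [RingHom.id_apply, s1, s0, map_smul] }, fun _ => rfl⟩
  -- the augmentations
  obtain ⟨e, he⟩ : ∃ e : R.P0 →ₗ[MonoidAlgebra ℤ π.ker] Tr ℤ π.ker, ∀ y, e y = (R.e y : ℤ) :=
    ⟨{ toFun := fun y => (R.e y : ℤ)
       map_add' := fun y y' => map_add R.e y y'
       map_smul' := fun a y => by
        rw [RingHom.id_apply, s0]
        show (R.e (MonoidAlgebra.mapDomainRingHom ℤ j a • y) : ℤ) = aug ℤ π.ker a * R.e y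
        induction a using MonoidAlgebra.induction_linear with
        | zero => rw [map_zero, zero_smul, map_zero, map_zero, zero_mul]
        | add a b ha hb => rw [map_add, add_smul, map_add, ha, hb, map_add, add_mul]
        | single s n =>
          rw [hsingle, map_zsmul, R.e_smul, aug, MonoidAlgebra.lift_single]
          simp }, fun _ => rfl⟩
  obtain ⟨e', he'⟩ : ∃ e' : MonoidAlgebra ℤ π.ker →ₗ[MonoidAlgebra ℤ π.ker] Tr ℤ π.ker,
      ∀ y, e' y = (aug ℤ π.ker y : ℤ) :=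
    ⟨{ toFun := fun y => (aug ℤ π.ker y : ℤ)
       map_add' := fun y y' => map_add (aug ℤ π.ker) y y'
       map_smul' := fun a y => by
        rw [RingHom.id_apply, smul_eq_mul]
        exact map_mul (aug ℤ π.ker) a y }, fun _ => rfl⟩
  have hes : Function.Surjective e := by
    intro n
    obtain ⟨y, hy⟩ := R.e_surj n
    exact ⟨y, by rw [he]; exact hy⟩
  have hes' : Function.Surjective e' := by
    intro n
    refine ⟨algebraMap ℤ (MonoidAlgebra ℤ π.ker) n, ?_⟩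
    rw [he']
    exact (aug ℤ π.ker).commutes n
  have hr : LinearMap.range d1 = LinearMap.ker e := by
    ext y
    rw [LinearMap.mem_range, LinearMap.mem_ker, he]
    constructor
    · rintro ⟨w, rfl⟩
      rw [hd1]
      exact (R.ex0 _).2 ⟨w, rfl⟩
    · intro h
      obtain ⟨w, hw⟩ := (R.ex0 y).1 h
      exact ⟨w, by rw [hd1]; exact hw⟩
  have hr' : LinearMap.range (bd ℤ x) = LinearMap.ker e' := by
    refine Submodule.ext fun y => ?_
    rw [LinearMap.mem_range, LinearMap.mem_ker, he']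
    exact (hBDR ℤ π.ker d x hx y).symm
  obtain ⟨α, β, γ, γ', hα, hβ, hγ, hγ', hβα, hαβ⟩ := hHM2 (MonoidAlgebra ℤ π.ker) (Tr ℤ π.ker)
    R.P0 R.P1 (MonoidAlgebra ℤ π.ker) (Fin d → MonoidAlgebra ℤ π.ker) e d1 e' (bd ℤ x) hes hes' hr hr'
  -- the map from `P2` to the kernel
  have hd2k : ∀ y : R.P2, R.d2 y ∈ LinearMap.ker d1 := by
    intro y
    rw [LinearMap.mem_ker, hd1]
    exact (R.ex1 _).2 ⟨y, rfl⟩
  obtain ⟨q, hq⟩ : ∃ q : R.P2 →+ LinearMap.ker d1, ∀ y, (q y : R.P1) = R.d2 y :=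
    ⟨{ toFun := fun y => ⟨R.d2 y, hd2k y⟩
       map_zero' := Subtype.ext (map_zero R.d2)
       map_add' := fun y z => Subtype.ext (map_add R.d2 y z) }, fun _ => rfl⟩
  have hqs : ∀ z : LinearMap.ker d1, ∃ y, q y = z := by
    intro z
    have h1 : d1 (z : R.P1) = 0 := z.2
    rw [hd1] at h1
    obtain ⟨y, hy⟩ := (R.ex1 _).1 h1
    exact ⟨y, Subtype.ext (by rw [hq, hy])⟩
  have hqk : ∀ (k : π.ker) (y : R.P2), q (el ℤ (k : S) • y) = el ℤ k • q y := by
    intro k y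
    apply Subtype.ext
    show (q (el ℤ (k : S) • y) : R.P1) = el ℤ k • (q y : R.P1)
    rw [hq, hq, map_smul, s1, hjel]
  -- `l0` on the kernel
  have key : ∀ a b : R.P2, q a = q b → l0 a = l0 b := by
    intro a b hab
    have h1 : R.d2 (a - b) = 0 := by
      rw [map_sub, ← hq, ← hq, hab, sub_self]
    obtain ⟨w, hw⟩ := (R.ex2 _).1 h1
    have h2 := hl03 w
    rw [hw, map_sub] at h2
    exact sub_eq_zero.1 h2
  choose y hy using hqs
  obtain ⟨lb, hlb⟩ : ∃ lb : LinearMap.ker d1 →+ ℤ, ∀ a, lb (q a) = l0 a := by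
    refine ⟨AddMonoidHom.mk' (fun z => l0 (y z)) (fun z w => ?_), fun a => ?_⟩
    · rw [← map_add]
      apply key
      rw [hy, map_add, hy, hy]
    · exact key _ _ (hy _)
  have hlbf : ∀ z : LinearMap.ker d1, {k : π.ker | lb (el ℤ k • z) ≠ 0}.Finite := by
    intro z
    have h1 := (hl0F (y z) 0).preimage (f := fun k : π.ker => (k : S))
      (Subtype.val_injective.injOn)
    refine h1.subset fun k hk => ?_
    refine ⟨?_, ?_⟩
    · have h2 : π (k : S) = 1 := k.2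
      show Multiplicative.toAdd (π (k : S)) = 0
      rw [h2]
      rfl
    · have h2 : lb (el ℤ k • z) ≠ 0 := hk
      rwa [← hy z, ← hqk, hlb] at h2
  obtain ⟨ψ0, hψ0⟩ := HKK_mk lb hlbf
  have hψ01 : ∀ z, (ψ0 z).coeff 1 = lb z := by
    intro z
    have h1 : el ℤ (1 : π.ker) = 1 := map_one (MonoidAlgebra.of ℤ π.ker)
    rw [hψ0, inv_one, h1, one_smul]
  -- extension of maps on the kernel
  have hext : ∀ (ψ : LinearMap.ker d1 →ₗ[ZG π.ker] ZG π.ker) (m : R.P1 →+ ℤ), Fb π m →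
      (∀ a : R.P2, (ψ (q a)).coeff 1 = m (R.d2 a)) →
      ∃ E : R.P1 →ₗ[ZG π.ker] ZG π.ker, ∀ z : LinearMap.ker d1, ψ z = E z := by
    intro ψ m hm h
    obtain ⟨E, hE⟩ := HKK_mk (K := π.ker) m (by
      intro w
      have h1 := (hm w 0).preimage (f := fun k : π.ker => (k : S)) (Subtype.val_injective.injOn)
      refine h1.subset fun k hk => ?_
      refine ⟨?_, ?_⟩
      · have h2 : π (k : S) = 1 := k.2
        show Multiplicative.toAdd (π (k : S)) = 0
        rw [h2]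
        rfl
      · have h2 : m (el ℤ k • w) ≠ 0 := hk
        rwa [s1, hjel] at h2)
    refine ⟨E, fun z => ?_⟩
    apply MonoidAlgebra.ext
    ext k
    rw [hE, HKK_coeff ψ z k, ← hy z, ← hqk, h, map_smul, hq, s1, hjel]
  -- the class
  obtain ⟨φ, hφ⟩ : ∃ φ : Rel ℤ x →ₗ[ZG π.ker] ZG π.ker, ∀ w : Rel ℤ x,
      φ w = ψ0 ⟨α w, hα w w.2⟩ :=
    ⟨ψ0.comp (LinearMap.codRestrict (LinearMap.ker d1) (α.comp (Rel ℤ x).subtype)
      (fun w => hα w w.2)), fun _ => rfl⟩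
  -- linear maps on `ℤ[K]^d`
  have hlin : ∀ (E : (Fin d → ZG π.ker) →ₗ[ZG π.ker] ZG π.ker) (w : Fin d → ZG π.ker),
      E w = ∑ i, w i * E (Pi.single i 1) := by
    intro E w
    conv_lhs => rw [← Finset.univ_sum_single w]
    rw [map_sum]
    refine Finset.sum_congr rfl fun i _ => ?_
    rw [← smul_eq_mul, ← map_smul]
    congr 1
    funext t
    simp [Pi.single_apply]
  refine ⟨φ, ?_, ?_, ?_⟩
  · -- gen
    intro L
    obtain ⟨Lb, hLb⟩ : ∃ Lb : LinearMap.ker d1 →ₗ[ZG π.ker] ZG π.ker, ∀ z : LinearMap.ker d1,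
        Lb z = L ⟨β z, hβ z z.2⟩ :=
      ⟨L.comp (LinearMap.codRestrict (Rel ℤ x) (β.comp (LinearMap.ker d1).subtype)
        (fun z => hβ z z.2)), fun _ => rfl⟩
    obtain ⟨Lg, hLg⟩ : ∃ Lg : (Fin d → ZG π.ker) →ₗ[ZG π.ker] ZG π.ker, ∀ w,
        Lg w = L ⟨γ w, hγ w⟩ :=
      ⟨L.comp (LinearMap.codRestrict (Rel ℤ x) γ (fun z => hγ z)), fun _ => rfl⟩
    obtain ⟨l, hlF, hl⟩ := HKK_Fb π s hs q hqk Lb
    obtain ⟨c, m, hmF, hm⟩ := hgen l hlF (by
      intro w
      have h1 : q (R.d3 w) = 0 := by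
        apply Subtype.ext
        rw [hq]
        exact (R.ex2 _).2 ⟨w, rfl⟩
      rw [hl, h1, map_zero, MonoidAlgebra.coeff_zero, Finsupp.zero_apply])
    obtain ⟨E, hE⟩ := hext (Lb - c • ψ0) m hmF (by
      intro a
      rw [← hm a, hl, ← hlb a, ← hψ01, LinearMap.sub_apply, LinearMap.smul_apply,
        MonoidAlgebra.coeff_sub, Finsupp.sub_apply, MonoidAlgebra.coeff_smul_apply, smul_eq_mul])
    refine ⟨c, fun i => (E.comp α - Lg) (Pi.single i 1), fun w => ?_⟩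
    rw [← hlin]
    have hw : bd ℤ x (w : Fin d → ZG π.ker) = 0 := w.2
    have h1 := hE ⟨α w, hα w w.2⟩
    rw [LinearMap.sub_apply, LinearMap.smul_apply, ← hφ, hLb] at h1
    have h2 : L w = L ⟨β (α w), hβ _ (hα w w.2)⟩ - L ⟨γ w, hγ w⟩ := by
      rw [← map_sub]
      congr 1
      apply Subtype.ext
      exact (hβα w hw).symm
    rw [LinearMap.sub_apply, LinearMap.comp_apply, hLg]
    show L w - c • φ w = E (α w) - L ⟨γ w, hγ w⟩
    have h3 : E (α w) = L ⟨β (α w), hβ _ (hα w w.2)⟩ - c • φ w := h1.symm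
    rw [h3, h2]
    abel
  · -- inf
    rintro n ⟨v, hv⟩
    obtain ⟨E, hEd⟩ : ∃ E : (Fin d → ZG π.ker) →ₗ[ZG π.ker] ZG π.ker, ∀ w,
        E w = ∑ i, w i * v i :=
      ⟨{ toFun := fun w => ∑ i, w i * v i
         map_add' := fun w w' => by simp [add_mul, Finset.sum_add_distrib]
         map_smul' := fun a w => by simp [mul_assoc, Finset.mul_sum] }, fun _ => rfl⟩
    obtain ⟨Pg, hPg⟩ : ∃ Pg : R.P1 →ₗ[ZG π.ker] ZG π.ker, ∀ w, Pg w = ψ0 ⟨γ' w, hγ' w⟩ :=
      ⟨ψ0.comp (LinearMap.codRestrict (LinearMap.ker d1) γ' (fun z => hγ' z)), fun _ => rfl⟩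
    obtain ⟨m, hmF, hm⟩ := HKK_Fb π s hs (AddMonoidHom.id R.P1)
      (fun k w => by
        rw [AddMonoidHom.id_apply, AddMonoidHom.id_apply, s1, hjel]) (E.comp β - n • Pg)
    refine hinf n m hmF fun a => ?_
    have hz : d1 (R.d2 a) = 0 := hd2k a
    have h1 : n • ψ0 (q a) = (E.comp β - n • Pg) (R.d2 a) := by
      have h2 : q a = ⟨α (β (R.d2 a)), hα _ (hβ _ hz)⟩ - ⟨γ' (R.d2 a), hγ' _⟩ := by
        apply Subtype.ext
        rw [hq]
        exact (hαβ _ hz).symm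
      have h3 : n • φ ⟨β (R.d2 a), hβ _ hz⟩ = ∑ i, (β (R.d2 a)) i * v i :=
        hv ⟨β (R.d2 a), hβ _ hz⟩
      rw [← hEd, hφ] at h3
      rw [h2, map_sub, smul_sub, LinearMap.sub_apply, LinearMap.smul_apply, LinearMap.comp_apply,
        hPg]
      congr 1
    rw [hm, AddMonoidHom.id_apply, ← h1, MonoidAlgebra.coeff_smul_apply, hψ01, hlb, smul_eq_mul]
  · -- tri
    intro k
    obtain ⟨m, hmF, hm⟩ := htri (k : S)
    obtain ⟨ψ, hψ⟩ : ∃ ψ : LinearMap.ker d1 →ₗ[ZG π.ker] ZG π.ker, ∀ z,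
        ψ z = ψ0 z * el ℤ k - ψ0 z :=
      ⟨{ toFun := fun z => ψ0 z * el ℤ k - ψ0 z
         map_add' := fun z w => by
          rw [map_add, add_mul]
          abel
         map_smul' := fun a z => by
          rw [map_smul, RingHom.id_apply, smul_eq_mul, smul_eq_mul, mul_assoc, mul_sub] },
        fun _ => rfl⟩
    obtain ⟨E, hE⟩ := hext ψ m hmF (by
      intro a
      rw [← hm a, hψ, MonoidAlgebra.coeff_sub, Finsupp.sub_apply, HKK_mul', one_mul, HKK_coeff,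
        inv_inv, ← hqk, hψ01, hψ01, hlb, hlb])
    refine ⟨fun i => (E.comp α) (Pi.single i 1), fun w => ?_⟩
    rw [← hlin]
    have h1 := hE ⟨α w, hα w w.2⟩
    rw [hψ, ← hφ] at h1
    exact h1

end Pool.Agent.PDT
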