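import Pool.Agent.PDT.StB

/-!
# PDT: [HL1], cocycles of degree one
-/

set_option autoImplicit false
set_option linter.unusedVariables false

namespace Pool.Agent.PDT

open Pool.Agent.PDA Pool.Agent.PDB Pool.Agent.PDE Subgroup

private theorem HL1_mul {S : Type} [Group S] (g h : S) : el ℤ g * el ℤ h = el ℤ (g * h) :=
  (map_mul (MonoidAlgebra.of ℤ S) g h).symm

private theorem HL1_one {S : Type} [Group S] : el ℤ (1 : S) = 1 :=
  map_one (MonoidAlgebra.of ℤ S)

private theorem HL1_hgt_inv {S : Type} [Group S] (π : S →* Multiplicative ℤ) (g : S) :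
    hgt π g⁻¹ = -hgt π g := by
  unfold hgt
  rw [map_inv, toAdd_inv]

theorem thm_HL1 (hDFI : St_DFI) : St_HL1 := by
  intro S _ R π s B hAsc l hl hl2
  -- `l` depends only on `d1 z`
  have key : ∀ z z' : R.P1, R.d1 z = R.d1 z' → l z = l z' := by
    intro z z' h
    have h1 : R.d1 (z - z') = 0 := by rw [map_sub, h, sub_self]
    obtain ⟨y, hy⟩ := (R.ex1 _).1 h1
    have h2 := hl2 y
    rw [hy, map_sub] at h2
    exact sub_eq_zero.1 h2
  have hed1 : ∀ z : R.P1, R.e (R.d1 z) = 0 := fun z => (R.ex0 _).2 ⟨z, rfl⟩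
  obtain ⟨x₀, hx₀⟩ := R.e_surj 1
  have hex : ∀ x : R.P0, ∃ z, R.d1 z = x - R.e x • x₀ := by
    intro x
    refine (R.ex0 _).1 ?_
    rw [map_sub, map_zsmul, hx₀, smul_eq_mul, mul_one, sub_self]
  choose zz hzz using hex
  have hsm : ∀ g h : S, ∀ x : R.P0, el ℤ g • el ℤ h • x = el ℤ (g * h) • x := by
    intro g h x
    rw [← mul_smul, HL1_mul]
  have hzx : ∀ g : S, R.d1 (zz (el ℤ g • x₀)) = el ℤ g • x₀ - x₀ := by
    intro g
    rw [hzz, R.e_smul, hx₀, one_smul]
  have hDadd : ∀ g h y : S, l (el ℤ y⁻¹ • zz (el ℤ (g * h) • x₀)) =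
      l (el ℤ y⁻¹ • zz (el ℤ g • x₀)) + l (el ℤ (g⁻¹ * y)⁻¹ • zz (el ℤ h • x₀)) := by
    intro g h y
    rw [← map_add]
    apply key
    rw [map_add, map_smul, map_smul, map_smul, hzx, hzx, hzx, smul_sub, smul_sub, smul_sub,
      hsm, hsm, hsm, mul_inv_rev, inv_inv, mul_assoc]
    abel
  have hDfin : ∀ (g : S) (c : ℤ),
      {y : S | hgt π y ≤ c ∧ l (el ℤ y⁻¹ • zz (el ℤ g • x₀)) ≠ 0}.Finite := by
    intro g c
    have h1 := hl (zz (el ℤ g • x₀)) (-c)
    refine Set.Finite.of_finite_image (f := fun y : S => y⁻¹) (h1.subset ?_)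
      (inv_injective.injOn)
    rintro _ ⟨y, hy, rfl⟩
    refine ⟨?_, hy.2⟩
    rw [HL1_hgt_inv]
    exact neg_le_neg hy.1
  obtain ⟨m, -, hm1, hm2⟩ := hDFI S π s B hAsc
    (fun g y => l (el ℤ y⁻¹ • zz (el ℤ g • x₀))) hDadd
    (fun g c => (hDfin g c).subset fun y hy => ⟨hy.1.le, hy.2⟩)
  have hm3 := hm2 hDfin
  -- the cochain
  let c : R.P0 →+ ℤ :=
    { toFun := fun x => l (zz x) + R.e x * m 1
      map_zero' := by
        have h1 : l (zz 0) = 0 := by
          rw [← map_zero l]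
          apply key
          rw [hzz, map_zero, zero_smul, sub_zero, map_zero]
        rw [h1, map_zero, zero_mul, add_zero]
      map_add' := fun x y => by
        have h1 : l (zz (x + y)) = l (zz x) + l (zz y) := by
          rw [← map_add]
          apply key
          rw [map_add, hzz, hzz, hzz, map_add, add_smul]
          abel
        rw [h1, map_add, add_mul]
        ring }
  have hc : ∀ x, c x = l (zz x) + R.e x * m 1 := fun x => rfl
  have hcd : ∀ z, l z = c (R.d1 z) := by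
    intro z
    rw [hc, hed1, zero_mul, add_zero]
    apply key
    rw [hzz, hed1, zero_smul, sub_zero]
  have hcx : ∀ g : S, c (el ℤ g • x₀) = m g⁻¹ := by
    intro g
    have h1 := hm1 g 1
    simp only [inv_one, mul_one] at h1
    rw [HL1_one, one_smul] at h1
    rw [hc, h1, R.e_smul, hx₀]
    ring
  refine ⟨c, ?_, hcd⟩
  intro x a
  have hcg : ∀ g : S, c (el ℤ g • x) = l (el ℤ g • zz x) + R.e x * m g⁻¹ := by
    intro g
    have h1 : el ℤ g • x = R.d1 (el ℤ g • zz x) + R.e x • (el ℤ g • x₀) := by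
      rw [map_smul, hzz, smul_sub, smul_comm (el ℤ g) (R.e x) x₀]
      abel
    rw [h1, map_add, ← hcd, map_zsmul, hcx, smul_eq_mul]
  have f1 := hl (zz x) a
  have f2 : {g : S | a ≤ hgt π g ∧ m g⁻¹ ≠ 0}.Finite := by
    refine Set.Finite.of_finite_image (f := fun y : S => y⁻¹) ((hm3 (-a)).subset ?_)
      (inv_injective.injOn)
    rintro _ ⟨y, hy, rfl⟩
    refine ⟨?_, hy.2⟩
    rw [HL1_hgt_inv]
    exact neg_le_neg hy.1
  refine (f1.union f2).subset ?_
  rintro g ⟨hg1, hg2⟩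
  by_cases h : l (el ℤ g • zz x) = 0
  · right
    refine ⟨hg1, ?_⟩
    intro h'
    apply hg2
    rw [hcg, h, h', mul_zero, add_zero]
  · exact Or.inl ⟨hg1, h⟩

end Pool.Agent.PDT
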