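import Pool.Agent.PDT.StB

/-!
# PDT, module HL2: cocycles of degree two and three of type `Hi`
-/

set_option autoImplicit false
set_option linter.unusedVariables false

namespace Pool.Agent.PDT

open Pool.Agent.PDA Pool.Agent.PDB Pool.Agent.PDE Subgroup

private theorem HL2_comp {S : Type} [Group S] {π : S →* Multiplicative ℤ} {P Q : Type}
    [AddCommGroup P] [Module (ZG S) P] [AddCommGroup Q] [Module (ZG S) Q] (N : Q →+ ℤ)
    (hN : Hi π N) (H : P →ₗ[ZG S] Q) : Hi π (N.comp H.toAddMonoidHom) := by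
  intro x c
  refine (hN (H x) c).subset ?_
  rintro g ⟨h1, h2⟩
  refine ⟨h1, ?_⟩
  intro h3
  apply h2
  show N (H (el ℤ g • x)) = 0
  rw [map_smul]
  exact h3

theorem thm_HL2 (hDUH : St_DUH) (hSER : St_SER) : St_HL2 := by
  intro S _ R hO π s B hs hB hconj hfg hgen
  obtain ⟨H2, H1, hA3, hA2⟩ := hDUH S R hO π s B hs hB hconj hfg hgen
  have h12 : ∀ x, R.d1 (R.d2 x) = 0 := fun x => by
    rw [R.ex1]
    exact ⟨x, rfl⟩
  have h23 : ∀ x, R.d2 (R.d3 x) = 0 := fun x => by
    rw [R.ex2]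
    exact ⟨x, rfl⟩
  set A3 : R.P3 →ₗ[ZG S] R.P3 := LinearMap.id - H2 ∘ₗ R.d3 with hA3d
  set A2 : R.P2 →ₗ[ZG S] R.P2 := LinearMap.id - R.d3 ∘ₗ H2 - H1 ∘ₗ R.d2 with hA2d
  have hcomm : ∀ x, A2 (R.d3 x) = R.d3 (A3 x) := by
    intro x
    simp only [hA3d, hA2d, LinearMap.sub_apply, LinearMap.id_apply, LinearMap.comp_apply, h23,
      map_zero, sub_zero, map_sub]
  have hcommn : ∀ (n : ℕ) (x : R.P3), (A2 ^ n) (R.d3 x) = R.d3 ((A3 ^ n) x) := by
    intro n
    induction n with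
    | zero => intro x; rfl
    | succ n ih =>
      intro x
      rw [pow_succ, pow_succ, Module.End.mul_apply, Module.End.mul_apply, hcomm, ih]
  refine ⟨?_, ?_⟩
  · intro l hl hl3
    obtain ⟨N, hN, hN1, hN2, hN3⟩ := hSER S π R.P2 A2 hA2 l hl
    have hNd : ∀ x, N (R.d3 x) = 0 := by
      intro x
      apply hN2
      intro n
      rw [hcommn]
      exact hl3 _
    refine ⟨N.comp H1.toAddMonoidHom, HL2_comp N hN H1, ?_, ?_⟩
    · intro x
      have h1 := hN1 x
      have h2 : A2 x = x - R.d3 (H2 x) - H1 (R.d2 x) := by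
        simp only [hA2d, LinearMap.sub_apply, LinearMap.id_apply, LinearMap.comp_apply]
      rw [h2, map_sub, map_sub, hNd] at h1
      show l x = N (H1 (R.d2 x))
      linarith
    · intro h x
      have h1 := hN3 B hB h (H1 x)
      rw [← h1]
      refine finsum_congr fun b => ?_
      show N (H1 (el ℤ (b : S) • x)) = N (el ℤ (b : S) • H1 x)
      rw [map_smul]
  · intro l hl
    obtain ⟨N, hN, hN1, hN2, hN3⟩ := hSER S π R.P3 A3 hA3 l hl
    refine ⟨N.comp H2.toAddMonoidHom, HL2_comp N hN H2, ?_⟩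
    intro x
    have h1 := hN1 x
    have h2 : A3 x = x - H2 (R.d3 x) := by
      simp only [hA3d, LinearMap.sub_apply, LinearMap.id_apply, LinearMap.comp_apply]
    rw [h2, map_sub] at h1
    show l x = N (H2 (R.d3 x))
    linarith

end Pool.Agent.PDT
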