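import Pool.Agent.PDT.StC

/-!
# PDT, module HM2: comparison of two projective resolutions up to degree one, both directions
-/

set_option autoImplicit false
set_option linter.unusedVariables false

namespace Pool.Agent.PDT

open Pool.Agent.PDA Pool.Agent.PDB Pool.Agent.PDE Subgroup

private theorem HM2_lift {Λ P M N : Type} [Ring Λ] [AddCommGroup P] [Module Λ P] [AddCommGroup M]
    [Module Λ M] [AddCommGroup N] [Module Λ N] [Module.Projective Λ P] (f : M →ₗ[Λ] N)
    (g : P →ₗ[Λ] N) (h : ∀ x, g x ∈ LinearMap.range f) : ∃ l : P →ₗ[Λ] M, ∀ x, f (l x) = g x := by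
  obtain ⟨l, hl⟩ := Module.projective_lifting_property f.rangeRestrict
    (g.codRestrict (LinearMap.range f) h) f.surjective_rangeRestrict
  refine ⟨l, fun x => ?_⟩
  have h1 := LinearMap.congr_fun hl x
  exact congrArg Subtype.val h1

theorem thm_HM2 : St_HM2 := by
  intro Λ M F0 F1 Q0 Q1 _ _ _ _ _ _ _ _ _ _ _ _ _ _ _ e f e' f' he he' hf hf'
  have hef : ∀ x, e (f x) = 0 := fun x => by
    have : f x ∈ LinearMap.ker e := hf ▸ LinearMap.mem_range_self f x
    exact this
  have hef' : ∀ x, e' (f' x) = 0 := fun x => by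
    have : f' x ∈ LinearMap.ker e' := hf' ▸ LinearMap.mem_range_self f' x
    exact this
  obtain ⟨α0, hα0⟩ := HM2_lift e e' (fun x => he (e' x))
  obtain ⟨β0, hβ0⟩ := HM2_lift e' e (fun x => he' (e x))
  obtain ⟨α1, hα1⟩ := HM2_lift f (α0 ∘ₗ f') (fun x => by
    rw [hf, LinearMap.mem_ker, LinearMap.comp_apply, hα0, hef'])
  obtain ⟨β1, hβ1⟩ := HM2_lift f' (β0 ∘ₗ f) (fun x => by
    rw [hf', LinearMap.mem_ker, LinearMap.comp_apply, hβ0, hef])
  obtain ⟨h, hh⟩ := HM2_lift f' (β0 ∘ₗ α0 - LinearMap.id) (fun x => by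
    rw [hf', LinearMap.mem_ker, LinearMap.sub_apply, LinearMap.comp_apply, map_sub, hβ0, hα0,
      LinearMap.id_apply, sub_self])
  obtain ⟨h', hh'⟩ := HM2_lift f (α0 ∘ₗ β0 - LinearMap.id) (fun x => by
    rw [hf, LinearMap.mem_ker, LinearMap.sub_apply, LinearMap.comp_apply, map_sub, hα0, hβ0,
      LinearMap.id_apply, sub_self])
  refine ⟨α1, β1, β1 ∘ₗ α1 - LinearMap.id - h ∘ₗ f', α1 ∘ₗ β1 - LinearMap.id - h' ∘ₗ f,
    fun x hx => ?_, fun x hx => ?_, fun x => ?_, fun x => ?_, fun x hx => ?_, fun x hx => ?_⟩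
  · rw [hα1, LinearMap.comp_apply, hx, map_zero]
  · rw [hβ1, LinearMap.comp_apply, hx, map_zero]
  · rw [LinearMap.sub_apply, LinearMap.sub_apply, map_sub, map_sub, LinearMap.comp_apply,
      LinearMap.comp_apply, hβ1, hh, LinearMap.comp_apply, hα1, LinearMap.sub_apply,
      LinearMap.comp_apply, LinearMap.comp_apply, LinearMap.id_apply, LinearMap.id_apply, sub_self]
  · rw [LinearMap.sub_apply, LinearMap.sub_apply, map_sub, map_sub, LinearMap.comp_apply,
      LinearMap.comp_apply, hα1, hh', LinearMap.comp_apply, hβ1, LinearMap.sub_apply,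
      LinearMap.comp_apply, LinearMap.comp_apply, LinearMap.id_apply, LinearMap.id_apply, sub_self]
  · rw [LinearMap.sub_apply, LinearMap.sub_apply, LinearMap.comp_apply, LinearMap.comp_apply, hx,
      map_zero, sub_zero, LinearMap.id_apply, sub_sub_cancel]
  · rw [LinearMap.sub_apply, LinearMap.sub_apply, LinearMap.comp_apply, LinearMap.comp_apply, hx,
      map_zero, sub_zero, LinearMap.id_apply, sub_sub_cancel]

end Pool.Agent.PDT
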