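import Pool.Agent.PDT.StA

/-!
# PDT [HYP]: there is an element which maps the almost invariant set properly into itself
-/

set_option autoImplicit false
set_option linter.unusedVariables false

namespace Pool.Agent.PDT

open Pool.Agent.PDA Pool.Agent.PDB Pool.Agent.PDE Subgroup

theorem thm_HYP : St_HYP := by
  intro C _ A W hAI hA hAc hN
  obtain ⟨g₁, h1A, h1W⟩ := (hA.sdiff hN.fin).nonempty
  obtain ⟨g₂, h2A, h2W⟩ := (hAc.sdiff hN.fin).nonempty
  have h2A' : g₂ ∉ A := h2A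
  by_cases hi1 : g₁⁻¹ ∈ A
  swap
  · -- `g₁ ∈ A`, `g₁⁻¹ ∉ A`
    have key : ∀ x ∈ Aᶜ, g₁⁻¹ * x ∉ A :=
      hN.nest g₁ h1W Aᶜ A (Or.inr rfl) (Or.inl rfl) (fun h => h h1A) hi1
    refine ⟨g₁, ?_, ?_⟩
    · intro x hx
      by_contra hc
      exact key (g₁ * x) hc (by simpa using hx)
    · by_contra hc
      push Not at hc
      have e1 : (1 : C) ∈ A := by simpa using hc g₁ h1A
      exact hi1 (by simpa using hc 1 e1)
  by_cases hi2 : g₂⁻¹ ∈ A
  · -- `g₂ ∉ A`, `g₂⁻¹ ∈ A`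
    have key : ∀ x ∈ A, g₂⁻¹ * x ∉ Aᶜ :=
      hN.nest g₂ h2W A Aᶜ (Or.inl rfl) (Or.inr rfl) h2A' (fun h => h hi2)
    refine ⟨g₂⁻¹, ?_, ?_⟩
    · intro x hx
      by_contra hc
      exact key x hx hc
    · by_contra hc
      push Not at hc
      have e1 : (1 : C) ∈ A := by simpa using hc g₂⁻¹ hi2
      exact h2A' (by simpa using hc 1 e1)
  · -- `g₁⁻¹ ∈ A`, `g₂⁻¹ ∉ A`
    have k1 : ∀ x ∈ Aᶜ, g₁⁻¹ * x ∉ Aᶜ :=
      hN.nest g₁ h1W Aᶜ Aᶜ (Or.inr rfl) (Or.inr rfl) (fun h => h h1A) (fun h => h hi1)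
    have k2 : ∀ x ∈ A, g₂⁻¹ * x ∉ A :=
      hN.nest g₂ h2W A A (Or.inl rfl) (Or.inl rfl) h2A' hi2
    have k1' : ∀ x, x ∉ A → g₁ * x ∈ A := by
      intro x hx
      by_contra hc
      exact k1 (g₁ * x) hc (by simpa using hx)
    have k2' : ∀ x ∈ A, g₂ * x ∉ A := by
      intro x hx hc
      exact k2 (g₂ * x) hc (by simpa using hx)
    refine ⟨g₁ * g₂, ?_, ?_⟩
    · intro x hx
      rw [mul_assoc]
      exact k1' _ (k2' x hx)
    · by_contra hc
      push Not at hc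
      obtain ⟨x, hx⟩ := hN.ne g₁ h1W
      apply hx
      constructor
      · intro hxA hg
        have e := hc _ hg
        apply k2 x hxA
        have e2 : (g₁ * g₂)⁻¹ * (g₁ * x) = g₂⁻¹ * x := by group
        rwa [e2] at e
      · intro hg
        by_contra hxA
        exact hg (k1' x hxA)

end Pool.Agent.PDT
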