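import Pool.Agent.PDT.StC
import Pool.Agent.CPD.StA

/-!
# PDT, module KEY: the kernel is cyclic-by-infinite cyclic
-/

set_option autoImplicit false
set_option linter.unusedVariables false

namespace Pool.Agent.PDT

open Pool.Agent.PDA Pool.Agent.PDB Pool.Agent.PDE Subgroup

private theorem KEY_surj {H : Type} [Group H] (π : H →* Multiplicative ℤ) (s : H)
    (h : π s = Multiplicative.ofAdd 1) : Function.Surjective π := by
  intro q
  refine ⟨s ^ (Multiplicative.toAdd q), ?_⟩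
  rw [map_zpow, h, ← ofAdd_zsmul, smul_eq_mul, mul_one]
  rfl

/-- a finite torsion-free group is trivial -/
private theorem KEY_fin {B : Type} [Group B] (ht : TorFree B) [Finite B] (u : B) : u = 1 :=
  ht u (Nat.card B) Nat.card_pos (pow_card_eq_one')

theorem thm_KEY (hRPJ : St_RPJ) (hRFK : St_RFK) (hFG3 : St_FG3) (hBTI : St_BTI) (hBSC : St_BSC)
    (hKAP : Pool.Agent.CPD.St_KAP) (hB1K : St_B1K) (hSCF : St_SCF) (hTFA : St_TFA) (hEND : St_END)
    (hSPK : St_SPK) (hCAZ : St_CAZ) : St_KEY := by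
  intro G _ hG K _ j hj hidx hfg hinf hnf h2
  have htor : TorFree K := hTFA G hG K j hj
  have hIn : InPD3 K := ⟨G, inferInstance, hG, j, hj, hidx⟩
  have hproj : ∀ (d : ℕ) (x : Fin d → K), closure (Set.range x) = ⊤ →
      Module.Projective (ZG K) (Rel ℤ x) := fun d x hx => hRPJ K hIn ℤ d x hx
  have hfgR : ∀ (d : ℕ) (x : Fin d → K), closure (Set.range x) = ⊤ →
      (⊤ : Submodule (ZG K) (Rel ℤ x)).FG := by
    intro d x hx
    obtain ⟨φ, hφ⟩ := h2 d x hx
    exact hRFK K hfg d x (hproj d x hx) φ hφ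
  have hnt : Nontrivial K := inferInstance
  -- a generating family
  obtain ⟨d, x, hx⟩ : ∃ (d : ℕ) (x : Fin d → K), closure (Set.range x) = ⊤ := by
    obtain ⟨F, hF⟩ := Group.fg_iff'.1 hfg
    obtain ⟨F, hF'⟩ := hF
    refine ⟨F.card, fun i => (F.equivFin.symm i : K), ?_⟩
    rw [← hF'.2]
    congr 1
    ext k
    constructor
    · rintro ⟨i, rfl⟩
      exact (F.equivFin.symm i).2
    · intro hk
      exact ⟨F.equivFin ⟨k, hk⟩, by simp⟩
  obtain ⟨φ, hφ⟩ := h2 d x hx
  obtain ⟨π₀, hπ₀⟩ := hB1K K d x hx (hproj d x hx) (hfgR d x hx)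
    (fun q hq => ⟨hBTI K (hBSC G hG K j hj) (d + 1) q hq, fun h => hKAP K (Fin (d + 1)) q hq h⟩)
    φ hφ hnt
  obtain ⟨π, s, B, n, b, hker, hs1, hBk, hb, hcz, hsB, hasc⟩ :=
    hSCF ℚ K π₀ hπ₀ hfg hnf (fun d x hx => hFG3 ℚ K d x hx (hfgR d x hx))
  have hπ := KEY_surj π s hs1
  have htorB : TorFree B := hTFA G hG B (j.comp B.subtype) (hj.comp B.subtype_injective)
  have hBfg : Group.FG B := by
    rw [Group.fg_iff]
    exact ⟨Set.range b, hb, Set.finite_range b⟩
  have hnfB : NoF2 B := by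
    intro f hf
    exact hnf (B.subtype.comp f) (B.subtype_injective.comp hf)
  -- `B` is cyclic
  obtain ⟨y, hy⟩ : ∃ y : B, zpowers y = ⊤ := by
    rcases hEND B hBfg htorB hnfB with h1 | h1
    · by_cases hBi : Infinite B
      · exfalso
        have hA : Asc π s B := ⟨hs1, hBk, hsB, hasc, hBfg, hBi, h1⟩
        have h3 := hSPK K π s B hA d x hx φ (hφ.tri s)
        have h4 : Ext2 x (fun y => (1 : ℤ) • φ y) := by
          simpa using h3
        exact one_ne_zero (hφ.inf 1 h4)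
      · have hBf : Finite B := not_infinite_iff_finite.1 hBi
        refine ⟨1, ?_⟩
        rw [zpowers_one_eq_bot, eq_comm, eq_bot_iff]
        intro u _
        rw [Subgroup.mem_bot]
        exact KEY_fin htorB u
    · exact h1
  have hBy : ∀ u ∈ B, u ∈ zpowers (y : K) := by
    intro u hu
    have h1 : (⟨u, hu⟩ : B) ∈ zpowers y := by rw [hy]; exact Subgroup.mem_top _
    obtain ⟨i, hi⟩ := mem_zpowers_iff.1 h1
    exact mem_zpowers_iff.2 ⟨i, by rw [← Subgroup.coe_zpow, hi]⟩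
  refine ⟨π, (y : K), hπ, hCAZ G hG K j hj htor π s y hs1 ?_ ?_ ?_⟩
  · rw [zpowers_le]
    exact hBk y.2
  · exact hBy _ (hsB y y.2)
  · intro g hg
    obtain ⟨m, hm⟩ := hasc g hg
    exact ⟨m, hBy _ hm⟩

end Pool.Agent.PDT
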