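import Pool.Agent.PDT.StB

/-!
# PDT, module LIZ: coset sums
-/

set_option autoImplicit false
set_option linter.unusedVariables false

namespace Pool.Agent.PDT

open Pool.Agent.PDA Pool.Agent.PDB Pool.Agent.PDE Subgroup

section

variable {S : Type} [Group S]

private theorem LIZ_el (g : S) : el ℤ g = MonoidAlgebra.single g 1 := rfl

private theorem LIZ_l (h : S) (z : ZG S) (x : S) :
    (el ℤ h * z).coeff x = z.coeff (h⁻¹ * x) := by
  rw [LIZ_el, MonoidAlgebra.coeff_single_mul_eq_mul_coeff (h⁻¹ * x), one_mul]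
  intro m _
  exact ⟨fun e => by rw [← e, inv_mul_cancel_left], fun e => by rw [e, mul_inv_cancel_left]⟩

private theorem LIZ_r (s : S) (z : ZG S) (x : S) :
    (z * el ℤ s⁻¹).coeff x = z.coeff (x * s) := by
  rw [LIZ_el, MonoidAlgebra.coeff_mul_single_eq_coeff_mul (x * s), mul_one]
  intro m _
  exact mul_inv_eq_iff_eq_mul

private theorem LIZ_fin (B : Subgroup S) (g : S) (z : ZG S) :
    (Function.support fun b : B => z.coeff (g * (b : S))).Finite := by
  have h1 : (Function.support z.coeff).Finite := z.coeff.finite_support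
  have h2 : Set.InjOn (fun b : B => g * (b : S))
      ((fun b : B => g * (b : S)) ⁻¹' (Function.support z.coeff)) := by
    intro a _ b _ hab
    exact Subtype.ext (mul_left_cancel hab)
  exact h1.preimage h2

private theorem LIZ_add (B : Subgroup S) (g : S) (z z' : ZG S) :
    sg B g (z + z') = sg B g z + sg B g z' := by
  unfold sg
  rw [← finsum_add_distrib (LIZ_fin B g z) (LIZ_fin B g z')]
  rfl

private theorem LIZ_md (B : Subgroup S) (g : S) (z : ZG S) :
    Finsupp.mapDomain (fun x : S => (QuotientGroup.mk x : S ⧸ B)) z.coeff (QuotientGroup.mk g) =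
      sg B g z := by
  refine MonoidAlgebra.induction_linear z ?_ ?_ ?_
  · rw [MonoidAlgebra.coeff_zero, Finsupp.mapDomain_zero]
    unfold sg
    simp
  · intro x y hx hy
    rw [MonoidAlgebra.coeff_add, Finsupp.mapDomain_add, Finsupp.add_apply, hx, hy, LIZ_add]
  · intro m c
    rw [MonoidAlgebra.coeff_single, Finsupp.mapDomain_single]
    unfold sg
    by_cases h : g⁻¹ * m ∈ B
    · have h1 : (QuotientGroup.mk g : S ⧸ B) = QuotientGroup.mk m := QuotientGroup.eq.mpr h
      rw [← h1, Finsupp.single_eq_same, finsum_eq_single _ (⟨g⁻¹ * m, h⟩ : B)]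
      · rw [MonoidAlgebra.coeff_single]
        change c = (Finsupp.single m c) (g * (g⁻¹ * m))
        rw [mul_inv_cancel_left, Finsupp.single_eq_same]
      · intro b hb
        rw [MonoidAlgebra.coeff_single, Finsupp.single_eq_of_ne]
        intro h2
        apply hb
        apply Subtype.ext
        change (b : S) = g⁻¹ * m
        rw [← h2, inv_mul_cancel_left]
    · rw [Finsupp.single_eq_of_ne]
      · symm
        rw [← finsum_zero (α := B)]
        congr 1
        ext b
        rw [MonoidAlgebra.coeff_single, Finsupp.single_eq_of_ne]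
        intro h2
        apply h
        rw [← h2, inv_mul_cancel_left]
        exact b.2
      · intro h2
        exact h (QuotientGroup.eq.mp h2)

private theorem LIZ_mem (hLIQ : St_LIQ) (B : Subgroup S) (z : ZG S) :
    z ∈ LI ℤ B ↔ ∀ g, sg B g z = 0 := by
  rw [hLIQ ℤ S B z]
  constructor
  · intro h g
    rw [← LIZ_md, h]
    rfl
  · intro h
    ext q
    obtain ⟨g, rfl⟩ := QuotientGroup.mk_surjective q
    rw [LIZ_md, h g]
    rfl

private theorem LIZ_right (B : Subgroup S) (s : S) (hs : ∀ u ∈ B, s * u * s⁻¹ ∈ B) (w : ZG S)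
    (hw : w ∈ LI ℤ B) : w * el ℤ s⁻¹ ∈ LI ℤ B := by
  refine Submodule.span_induction (p := fun z _ => z * el ℤ s⁻¹ ∈ LI ℤ B) ?_ ?_ ?_ ?_ hw
  · rintro z ⟨a, ha, rfl⟩
    have e1 : ((el ℤ a - 1) * el ℤ s⁻¹ : ZG S) = el ℤ s⁻¹ * (el ℤ (s * a * s⁻¹) - 1) := by
      rw [sub_mul, mul_sub, one_mul, mul_one, ← map_mul, ← map_mul]
      congr 2
      group
    rw [e1]
    exact Ideal.mul_mem_left _ _ (Ideal.subset_span ⟨_, hs a ha, rfl⟩)
  · rw [zero_mul]
    exact Submodule.zero_mem _
  · intro x y _ _ hx hy
    rw [add_mul]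
    exact Submodule.add_mem _ hx hy
  · intro a z _ hz
    rw [smul_eq_mul, mul_assoc]
    exact Ideal.mul_mem_left _ _ hz

private theorem LIZ_hgt (π : S →* Multiplicative ℤ) (x y : S) :
    hgt π (x * y) = hgt π x + hgt π y := by
  unfold hgt
  rw [map_mul, toAdd_mul]

private theorem LIZ_hgtB (π : S →* Multiplicative ℤ) (B : Subgroup S) (hB : B ≤ π.ker) (x : S)
    (b : B) : hgt π (x * (b : S)) = hgt π x := by
  rw [LIZ_hgt]
  have h1 : hgt π (b : S) = 0 := by
    unfold hgt
    rw [MonoidHom.mem_ker.mp (hB b.2), toAdd_one]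
  rw [h1, add_zero]

end

theorem thm_LIZ (hLIQ : St_LIQ) : St_LIZ := by
  classical
  intro S _ B
  refine ⟨LIZ_mem hLIQ B, LIZ_add B, ?_, ?_⟩
  · intro g h z
    unfold sg
    congr 1
    ext b
    rw [LIZ_l, mul_assoc]
  · intro π s hs hB hsB z hz
    have h0 : ∀ g, sg B g z = sg B g (z * el ℤ s⁻¹) := by
      intro g
      have h1 : z = z * (1 - el ℤ s⁻¹) + z * el ℤ s⁻¹ := by
        rw [mul_sub, mul_one, sub_add_cancel]
      have h2 := (LIZ_mem hLIQ B _).1 hz g
      calc sg B g z = sg B g (z * (1 - el ℤ s⁻¹) + z * el ℤ s⁻¹) := by rw [← h1]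
        _ = _ := by rw [LIZ_add, h2, zero_add]
    have hs1 : hgt π s = 1 := by
      unfold hgt
      rw [hs]
      rfl
    obtain ⟨T, hT⟩ : ∃ T : ℤ, ∀ x, z.coeff x ≠ 0 → hgt π x < T := by
      obtain ⟨T, hT⟩ := (z.coeff.support.image (hgt π)).bddAbove
      refine ⟨T + 1, fun x hx => ?_⟩
      have h1 : hgt π x ≤ T := hT (by
        rw [Finset.mem_coe, Finset.mem_image]
        exact ⟨x, Finsupp.mem_support_iff.2 hx, rfl⟩)
      omega
    have key : ∀ n : ℕ, ∀ g, T - n ≤ hgt π g → sg B g z = 0 := by
      intro n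
      induction n with
      | zero =>
        intro g hg
        unfold sg
        rw [← finsum_zero (α := B)]
        congr 1
        ext b
        by_contra hne
        have h1 := hT _ hne
        rw [LIZ_hgtB π B hB] at h1
        push_cast at hg
        omega
      | succ n ih =>
        intro g hg
        have hc : ∀ x, (MonoidAlgebra.ofCoeff
            (z.coeff.filter fun x => T - n ≤ hgt π x) : ZG S).coeff x =
            if T - n ≤ hgt π x then z.coeff x else 0 := by
          intro x
          rw [MonoidAlgebra.coeff_ofCoeff, Finsupp.filter_apply]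
        have hw : (MonoidAlgebra.ofCoeff
            (z.coeff.filter fun x => T - n ≤ hgt π x) : ZG S) ∈ LI ℤ B := by
          rw [LIZ_mem hLIQ]
          intro g'
          by_cases h1 : T - n ≤ hgt π g'
          · rw [← ih g' h1]
            unfold sg
            congr 1
            ext b
            rw [hc, LIZ_hgtB π B hB, if_pos h1]
          · unfold sg
            rw [← finsum_zero (α := B)]
            congr 1
            ext b
            rw [hc, LIZ_hgtB π B hB, if_neg h1]
        have h2 := (LIZ_mem hLIQ B _).1 (LIZ_right B s hsB _ hw) g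
        rw [h0, ← h2]
        unfold sg
        congr 1
        ext b
        rw [LIZ_r, LIZ_r, hc, if_pos]
        rw [LIZ_hgt, LIZ_hgtB π B hB, hs1]
        push_cast at hg
        omega
    rw [LIZ_mem hLIQ]
    intro g
    refine key (T - hgt π g).toNat g ?_
    have := Int.self_le_toNat (T - hgt π g)
    omega

end Pool.Agent.PDT
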