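import Pool.Agent.PDT.StB

/-!
# PDT, module NB: the base of the ascending HNN extension is normal
-/

set_option autoImplicit false
set_option linter.unusedVariables false

namespace Pool.Agent.PDT

open Pool.Agent.PDA Pool.Agent.PDB Pool.Agent.PDE Subgroup

section heights

variable {S : Type} [Group S]

private lemma NB_hmul (π : S →* Multiplicative ℤ) (g h : S) :
    hgt π (g * h) = hgt π g + hgt π h := by
  unfold hgt
  rw [map_mul, toAdd_mul]

private lemma NB_hinv (π : S →* Multiplicative ℤ) (g : S) : hgt π g⁻¹ = - hgt π g := by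
  unfold hgt
  rw [map_inv, toAdd_inv]

private lemma NB_hB (π : S →* Multiplicative ℤ) (B : Subgroup S) (hB : B ≤ π.ker) (b : S)
    (hb : b ∈ B) : hgt π b = 0 := by
  have h1 : π b = 1 := MonoidHom.mem_ker.1 (hB hb)
  unfold hgt
  rw [h1, toAdd_one]

private lemma NB_hs (π : S →* Multiplicative ℤ) (s : S) (h : π s = Multiplicative.ofAdd 1) :
    hgt π s = 1 := by
  unfold hgt
  rw [h, toAdd_ofAdd]

private lemma NB_gen (π : S →* Multiplicative ℤ) (s : S) (B : Subgroup S) (h : Asc π s B) :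
    closure (insert s (B : Set S)) = ⊤ := by
  rw [eq_top_iff]
  intro g _
  have hs : s ∈ closure (insert s (B : Set S)) := subset_closure (Set.mem_insert _ _)
  have hB : ∀ b ∈ B, b ∈ closure (insert s (B : Set S)) :=
    fun b hb => subset_closure (Set.mem_insert_of_mem _ hb)
  have hk : g * s ^ (-(hgt π g)) ∈ π.ker := by
    rw [MonoidHom.mem_ker, map_mul, map_zpow, h.pis]
    apply Multiplicative.toAdd.injective
    rw [toAdd_mul, toAdd_zpow, toAdd_ofAdd, toAdd_one]
    simp [hgt]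
  obtain ⟨m, hm⟩ := h.asc _ hk
  have h1 : g = (s ^ m)⁻¹ * (s ^ m * (g * s ^ (-(hgt π g))) * (s ^ m)⁻¹) * s ^ m *
      s ^ (hgt π g) := by group
  rw [h1]
  exact mul_mem (mul_mem (mul_mem (inv_mem (pow_mem hs m)) (hB _ hm)) (pow_mem hs m))
    (zpow_mem hs _)

private lemma NB_sg0 (π : S →* Multiplicative ℤ) (B : Subgroup S) (hB : B ≤ π.ker) (g : S)
    (z : ZG S) (h : ∀ x, hgt π x = hgt π g → z.coeff x = 0) : sg B g z = 0 := by
  unfold sg
  refine finsum_eq_zero_of_forall_eq_zero fun b => h _ ?_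
  rw [NB_hmul, NB_hB π B hB b b.2, add_zero]

private lemma NB_el (s x : S) : (el ℤ s : ZG S).coeff x = 0 ∨ x = s := by
  classical
  by_cases h : x = s
  · right
    exact h
  · left
    show (MonoidAlgebra.single s (1 : ℤ)).coeff x = 0
    rw [MonoidAlgebra.coeff_single, Finsupp.single_apply, if_neg (fun hc => h hc.symm)]

private lemma NB_el1 (s : S) : (el ℤ s : ZG S).coeff s = 1 := by
  classical
  show (MonoidAlgebra.single s (1 : ℤ)).coeff s = 1
  rw [MonoidAlgebra.coeff_single, Finsupp.single_apply, if_pos rfl]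

private lemma NB_sg1 (B : Subgroup S) (s : S) : sg B s (el ℤ s) = 1 := by
  unfold sg
  rw [finsum_eq_single _ (1 : B)]
  · rw [OneMemClass.coe_one, mul_one]
    exact NB_el1 s
  · intro b hb
    rcases NB_el s (s * (b : S)) with h | h
    · exact h
    · exfalso
      apply hb
      have h1 : (b : S) = 1 := by
        have h2 : s * (b : S) = s * 1 := by rw [h, mul_one]
        exact mul_left_cancel h2
      exact Subtype.ext h1

private lemma NB_bound (π : S →* Multiplicative ℤ) (t : ZG S) :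
    ∃ C : ℤ, ∀ x, hgt π x ≤ -C → t.coeff x = 0 := by
  refine ⟨∑ x ∈ t.coeff.support, |hgt π x| + 1, fun x hx => ?_⟩
  by_contra hne
  have h1 : |hgt π x| ≤ ∑ x ∈ t.coeff.support, |hgt π x| :=
    Finset.single_le_sum (f := fun x => |hgt π x|) (fun _ _ => abs_nonneg _)
      (Finsupp.mem_support_iff.2 hne)
  have h2 := neg_abs_le (hgt π x)
  linarith

end heights

theorem thm_NB (hTRL : St_TRL) (hTRF : St_TRF) (hLIZ : St_LIZ) : St_NB := by
  intro S _ R hOri π s B hAsc u hu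
  obtain ⟨z1, z2, z3, z4⟩ := hLIZ S B
  have z4 := z4 π s hAsc.pis hAsc.le hAsc.conj
  obtain ⟨κ₀, κ₁, x₀, t, he, hA, hBt, hC⟩ :=
    hTRL S R π s B hAsc.pis hAsc.le hAsc.conj (NB_gen π s B hAsc)
  obtain ⟨L, L1, -, L3⟩ := hTRF S R hOri π s B hAsc κ₁ hC
  have hss : el ℤ s * el ℤ s⁻¹ = (1 : ZG S) := by
    rw [← map_mul, mul_inv_cancel, map_one]
  -- the elements `y_h`
  have hy : ∀ h : S, ∃ y : R.P1, R.d1 y = el ℤ h • x₀ - x₀ := by
    intro h
    refine (R.ex0 _).1 ?_
    rw [map_sub, R.e_smul, sub_self]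
  have hM : ∀ (h : S) (y : R.P1), R.d1 y = el ℤ h • x₀ - x₀ → ∀ g : S,
      L (el ℤ (h⁻¹ * g)⁻¹ • x₀) - L (el ℤ g⁻¹ • x₀) = sg B g (κ₁ y) := by
    intro h y hy g
    have h1 : el ℤ (h⁻¹ * g)⁻¹ • x₀ - el ℤ g⁻¹ • x₀ = R.d1 (el ℤ g⁻¹ • y) := by
      rw [map_smul, hy, smul_sub, smul_smul, ← map_mul]
      have h2 : (h⁻¹ * g)⁻¹ = g⁻¹ * h := by group
      rw [h2]
    rw [← map_sub, h1, L1, map_smul, smul_eq_mul, z3, inv_inv, mul_one]
  have hκ : ∀ (h : S) (y : R.P1), R.d1 y = el ℤ h • x₀ - x₀ →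
      (κ₁ y - (el ℤ h - 1) * t) * (1 - el ℤ s⁻¹) - (el ℤ h - 1) ∈ LI ℤ B := by
    intro h y hy
    have h1 : (κ₁ y - (el ℤ h - 1) * t) * (1 - el ℤ s⁻¹) - (el ℤ h - 1) =
        (el ℤ h - 1) * (κ₀ x₀ - 1 - t * (1 - el ℤ s⁻¹)) -
          (κ₀ (R.d1 y) - κ₁ y * (1 - el ℤ s⁻¹)) := by
      rw [hy, map_sub, map_smul, smul_eq_mul]
      noncomm_ring
    rw [h1]
    exact sub_mem (Ideal.mul_mem_left _ _ hBt) (hA y)
  have hsgt : ∀ g h : S, sg B g ((el ℤ h - 1) * t) = sg B (h⁻¹ * g) t - sg B g t := by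
    intro g h
    have h1 := z2 g ((el ℤ h - 1) * t) t
    have h2 : (el ℤ h - 1) * t + t = el ℤ h * t := by noncomm_ring
    rw [h2, z3] at h1
    linarith
  -- the function `M'`
  set M : S → ℤ := fun g => L (el ℤ g⁻¹ • x₀) - sg B g t with hMdef
  have hb : ∀ b ∈ B, ∀ g, M (b⁻¹ * g) = M g := by
    intro b hb g
    obtain ⟨y, hyb⟩ := hy b
    have h1 := hM b y hyb g
    have h2 : (κ₁ y - (el ℤ b - 1) * t) * (1 - el ℤ s⁻¹) ∈ LI ℤ B := by
      have h3 := add_mem (hκ b y hyb) (Ideal.subset_span ⟨b, hb, rfl⟩ : el ℤ b - 1 ∈ LI ℤ B)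
      rwa [sub_add_cancel] at h3
    have h3 := (z1 _).1 (z4 _ h2) g
    have h4 := z2 g (κ₁ y - (el ℤ b - 1) * t) ((el ℤ b - 1) * t)
    rw [sub_add_cancel, h3, hsgt] at h4
    simp only [hMdef]
    linarith
  have hs : ∀ g, M (s⁻¹ * g) = M g + sg B g (el ℤ s) := by
    intro g
    obtain ⟨y, hys⟩ := hy s
    have h1 := hM s y hys g
    have h2 : (κ₁ y - (el ℤ s - 1) * t - el ℤ s) * (1 - el ℤ s⁻¹) ∈ LI ℤ B := by
      have h3 := hκ s y hys
      have h4 : (κ₁ y - (el ℤ s - 1) * t - el ℤ s) * (1 - el ℤ s⁻¹) =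
          (κ₁ y - (el ℤ s - 1) * t) * (1 - el ℤ s⁻¹) - (el ℤ s - 1) := by
        rw [sub_mul, mul_sub (el ℤ s), hss, mul_one]
      rw [h4]
      exact h3
    have h3 := (z1 _).1 (z4 _ h2) g
    have h4 := z2 g (κ₁ y - (el ℤ s - 1) * t - el ℤ s) (el ℤ s)
    have h5 := z2 g (κ₁ y - (el ℤ s - 1) * t) ((el ℤ s - 1) * t)
    rw [sub_add_cancel, h3] at h4
    rw [sub_add_cancel, hsgt, h4] at h5
    simp only [hMdef]
    linarith
  -- vanishing on low levels
  obtain ⟨C, hC0⟩ := L3 x₀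
  obtain ⟨C₁, hC1⟩ := NB_bound π t
  have hlow : ∀ g, hgt π g ≤ -(max C C₁) → M g = 0 := by
    intro g hg
    have h1 : L (el ℤ g⁻¹ • x₀) = 0 := by
      apply hC0
      rw [NB_hinv]
      have := le_max_left C C₁
      linarith
    have h2 : sg B g t = 0 := by
      refine NB_sg0 π B hAsc.le g t fun x hx => hC1 x ?_
      have := le_max_right C C₁
      linarith
    simp only [hMdef]
    rw [h1, h2, sub_zero]
  have hsg0 : ∀ g, hgt π g ≤ 0 → sg B g (el ℤ s) = 0 := by
    intro g hg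
    refine NB_sg0 π B hAsc.le g _ fun x hx => ?_
    rcases NB_el s x with h | h
    · exact h
    · exfalso
      rw [h, NB_hs π s hAsc.pis] at hx
      linarith
  have hstep : ∀ n : ℕ, ∀ g, hgt π g ≤ -(max C C₁) + n → hgt π g ≤ 0 → M g = 0 := by
    intro n
    induction n with
    | zero =>
      intro g hg _
      exact hlow g (by simpa using hg)
    | succ n ih =>
      intro g hg hg0
      have h1 := hs g
      rw [hsg0 g hg0, add_zero] at h1
      rw [← h1]
      have h2 : hgt π (s⁻¹ * g) = hgt π g - 1 := by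
        rw [NB_hmul, NB_hinv, NB_hs π s hAsc.pis]
        ring
      refine ih _ ?_ ?_
      · rw [h2]
        push_cast at hg
        linarith
      · rw [h2]
        linarith
  have hneg : ∀ g, hgt π g ≤ 0 → M g = 0 := by
    intro g hg
    refine hstep (hgt π g + max C C₁).toNat g ?_ hg
    have := Int.self_le_toNat (hgt π g + max C C₁)
    linarith
  have hone : ∀ g, hgt π g = 1 → M g = - sg B g (el ℤ s) := by
    intro g hg
    have h1 := hs g
    have h2 : M (s⁻¹ * g) = 0 := by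
      apply hneg
      rw [NB_hmul, NB_hinv, NB_hs π s hAsc.pis, hg]
      norm_num
    linarith
  -- conclusion
  have h1 : M s = -1 := by
    rw [hone s (NB_hs π s hAsc.pis), NB_sg1]
  have h2 : M (u * s) = -1 := by
    have h3 := hb u⁻¹ (inv_mem hu) s
    rw [inv_inv, h1] at h3
    exact h3
  have h3 : hgt π (u * s) = 1 := by
    rw [NB_hmul, NB_hB π B hAsc.le u hu, NB_hs π s hAsc.pis, zero_add]
  have h4 : sg B (u * s) (el ℤ s) = 1 := by
    have := hone _ h3
    linarith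
  have h5 : ∃ b : B, u * s * (b : S) = s := by
    by_contra hcon
    have h6 : sg B (u * s) (el ℤ s) = 0 := by
      unfold sg
      refine finsum_eq_zero_of_forall_eq_zero fun b => ?_
      rcases NB_el s (u * s * (b : S)) with h | h
      · exact h
      · exact absurd ⟨b, h⟩ hcon
    rw [h6] at h4
    exact absurd h4 (by norm_num)
  obtain ⟨b, hb'⟩ := h5
  have h6 : s⁻¹ * u * s = (b : S)⁻¹ := by
    have h7 : s⁻¹ * u * s * (b : S) = 1 := by
      have h8 : s⁻¹ * u * s * (b : S) = s⁻¹ * (u * s * (b : S)) := by group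
      rw [h8, hb', inv_mul_cancel]
    exact eq_inv_of_mul_eq_one_left h7
  rw [h6]
  exact inv_mem b.2

end Pool.Agent.PDT
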