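import Pool.Agent.PDT.StA

/-!
# PDT: one power works for all elements of a finitely generated group
-/

set_option autoImplicit false

namespace Pool.Agent.PDT

open Pool.Agent.PDA Pool.Agent.PDB Pool.Agent.PDE Subgroup

private lemma NRM_mul {C : Type} [Group C] (z x y : C) (hx : x * z * x⁻¹ = z ∨ x * z * x⁻¹ = z⁻¹)
    (hy : y * z * y⁻¹ = z ∨ y * z * y⁻¹ = z⁻¹) :
    x * y * z * (x * y)⁻¹ = z ∨ x * y * z * (x * y)⁻¹ = z⁻¹ := by
  have h1 : x * y * z * (x * y)⁻¹ = x * (y * z * y⁻¹) * x⁻¹ := by group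
  rw [h1]
  rcases hy with hy | hy
  · rw [hy]
    exact hx
  · rw [hy]
    have h2 : x * z⁻¹ * x⁻¹ = (x * z * x⁻¹)⁻¹ := by group
    rw [h2]
    rcases hx with hx | hx
    · right
      rw [hx]
    · left
      rw [hx, inv_inv]

private lemma NRM_inv {C : Type} [Group C] (z x : C) (hx : x * z * x⁻¹ = z ∨ x * z * x⁻¹ = z⁻¹) :
    x⁻¹ * z * x⁻¹⁻¹ = z ∨ x⁻¹ * z * x⁻¹⁻¹ = z⁻¹ := by
  rcases hx with hx | hx
  · left
    have h1 : z = x⁻¹ * (x * z * x⁻¹) * x⁻¹⁻¹ := by group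
    rw [hx] at h1
    exact h1.symm
  · right
    have h1 : z⁻¹ = x⁻¹ * (x * z * x⁻¹)⁻¹ * x⁻¹⁻¹ := by group
    rw [hx, inv_inv] at h1
    exact h1.symm

theorem thm_NRM : St_NRM := by
  intro C _ g hfg hh
  obtain ⟨S, hS⟩ := Group.fg_def.1 hfg
  choose a ha0 ha using hh
  refine ⟨∏ h ∈ S, a h, Finset.prod_pos fun h _ => ha0 h, ?_⟩
  intro h
  have hmem : h ∈ Subgroup.closure (S : Set C) := by
    rw [hS]
    exact Subgroup.mem_top h
  induction hmem using Subgroup.closure_induction with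
  | mem x hx =>
    obtain ⟨b, hb⟩ := Finset.dvd_prod_of_mem a (Finset.mem_coe.1 hx)
    rw [hb, pow_mul, ← conj_pow]
    rcases ha x with h1 | h1
    · left
      rw [h1]
    · right
      rw [h1, inv_pow]
  | one =>
    left
    group
  | mul x y _ _ hx hy => exact NRM_mul _ x y hx hy
  | inv x _ hx => exact NRM_inv _ x hx

end Pool.Agent.PDT
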