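import Pool.Agent.PDT.StA

/-!
# PDT, NST: nesting of the translates of an almost invariant set
-/

set_option autoImplicit false
set_option linter.unusedVariables false

namespace Pool.Agent.PDT

open Pool.Agent.PDA Pool.Agent.PDB Pool.Agent.PDE Subgroup

variable {C : Type} [Group C]

/-- the balls -/
private def NST_F (E : Set C) : ℕ → Set C
  | 0 => {1}
  | n + 1 => Set.image2 (fun y s => y * s) (NST_F E n) E

private theorem NST_fin (E : Set C) (hE : E.Finite) (n : ℕ) : (NST_F E n).Finite := by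
  induction n with
  | zero => exact Set.finite_singleton 1
  | succ n ih => exact Set.Finite.image2 _ ih hE

private theorem NST_one (E : Set C) (h1 : (1 : C) ∈ E) (n : ℕ) : (1 : C) ∈ NST_F E n := by
  induction n with
  | zero => exact Set.mem_singleton 1
  | succ n ih => exact ⟨1, ih, 1, h1, mul_one 1⟩

private theorem NST_mono (E : Set C) (h1 : (1 : C) ∈ E) (m n : ℕ) (h : m ≤ n) :
    NST_F E m ⊆ NST_F E n := by
  induction h with
  | refl => exact subset_rfl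
  | step _ ih => exact ih.trans fun x hx => ⟨x, hx, 1, h1, mul_one x⟩

private theorem NST_gen (E : Set C) (hE : closure E = ⊤) (hs : ∀ s ∈ E, s⁻¹ ∈ E) (X : Set C)
    (h1 : (1 : C) ∈ X) (hX : ∀ x ∈ X, ∀ s ∈ E, x * s ∈ X) (c : C) : c ∈ X := by
  have hc : c ∈ closure E := by
    rw [hE]
    exact mem_top c
  induction hc using closure_induction_right with
  | one => exact h1
  | mul_right x hx y hy ih => exact hX x ih y hy
  | mul_inv_cancel x hx y hy ih => exact hX x ih _ (hs y hy)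

private theorem NST_conn (E : Set C) (h1 : (1 : C) ∈ E) (n : ℕ) (X : Set C)
    (hX : ∀ x ∈ NST_F E n, ∀ s ∈ E, (x ∈ X ↔ x * s ∈ X)) :
    ∀ x ∈ NST_F E n, (x ∈ X ↔ (1 : C) ∈ X) := by
  have key : ∀ m ≤ n, ∀ x ∈ NST_F E m, (x ∈ X ↔ (1 : C) ∈ X) := by
    intro m
    induction m with
    | zero =>
      intro _ x hx
      rw [Set.mem_singleton_iff.1 hx]
    | succ m ih =>
      rintro hm _ ⟨y, hy, s, hs, rfl⟩
      show (y * s ∈ X ↔ (1 : C) ∈ X)
      rw [← hX y (NST_mono E h1 m n (by omega) hy) s hs]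
      exact ih (by omega) y hy
  exact key n le_rfl

theorem thm_NST : St_NST := by
  intro C _ A hfg hA hne hne'
  obtain ⟨S, hS, hSf⟩ := Group.fg_iff.1 hfg
  -- a symmetric generating set
  obtain ⟨E, hE1, hEs, hEf, hEc⟩ : ∃ E : Set C, (1 : C) ∈ E ∧ (∀ s ∈ E, s⁻¹ ∈ E) ∧ E.Finite ∧
      closure E = ⊤ := by
    refine ⟨insert 1 (S ∪ (fun x => x⁻¹) '' S), Set.mem_insert _ _, ?_, ?_, ?_⟩
    · intro s hs
      rcases hs with rfl | hs | ⟨t, ht, rfl⟩
      · left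
        exact inv_one
      · right; right
        exact ⟨s, hs, rfl⟩
      · right; left
        show t⁻¹⁻¹ ∈ S
        rw [inv_inv]
        exact ht
    · exact (hSf.union (hSf.image _)).insert 1
    · rw [eq_top_iff, ← hS]
      exact closure_mono fun s hs => Or.inr (Or.inl hs)
  -- the exceptional set
  obtain ⟨D, hD⟩ : ∃ D : Set C, D = {g : C | ∃ s ∈ E, ¬ (g ∈ A ↔ g * s ∈ A)} := ⟨_, rfl⟩
  have hDf : D.Finite := by
    have h1 : D = ⋃ s ∈ E, {g : C | ¬ (g ∈ A ↔ g * s ∈ A)} := by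
      rw [hD]
      ext g
      simp
    rw [h1]
    exact hEf.biUnion fun s _ => hA s
  obtain ⟨a, ha⟩ := hne
  obtain ⟨a', ha'⟩ := hne'
  -- the ball
  have hall : ∀ c : C, ∃ n, c ∈ NST_F E n := by
    intro c
    have h1 := NST_gen E hEc hEs (⋃ n, NST_F E n) (Set.mem_iUnion.2 ⟨0, NST_one E hE1 0⟩)
      (by
        intro x hx s hs
        obtain ⟨n, hn⟩ := Set.mem_iUnion.1 hx
        exact Set.mem_iUnion.2 ⟨n + 1, x, hn, s, hs, rfl⟩) c
    exact Set.mem_iUnion.1 h1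
  have hfinsub : ∀ X : Set C, X.Finite → ∃ n, X ⊆ NST_F E n := by
    intro X hX
    induction X, hX using Set.Finite.induction_on with
    | empty => exact ⟨0, Set.empty_subset _⟩
    | insert _ _ ih =>
      rename_i x X _ _
      obtain ⟨n, hn⟩ := ih
      obtain ⟨m, hm⟩ := hall x
      refine ⟨max m n, Set.insert_subset (NST_mono E hE1 _ _ (le_max_left _ _) hm)
        (hn.trans (NST_mono E hE1 _ _ (le_max_right _ _)))⟩
  obtain ⟨n, hn⟩ := hfinsub (insert a (insert a' D)) ((hDf.insert a').insert a)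
  have haF : a ∈ NST_F E n := hn (Or.inl rfl)
  have haF' : a' ∈ NST_F E n := hn (Or.inr (Or.inl rfl))
  have hDF : ∀ x, x ∉ NST_F E n → x ∉ D := fun x hx hxD => hx (hn (Or.inr (Or.inr hxD)))
  have h1F : (1 : C) ∈ NST_F E n := NST_one E hE1 n
  have hFf := NST_fin E hEf n
  have hconn := NST_conn E hE1 n
  have hside : ∀ A₁ : Set C, Side A A₁ → ∀ g, g ∉ D → ∀ s ∈ E, (g ∈ A₁ ↔ g * s ∈ A₁) := by
    intro A₁ h g hg s hs
    have h1 : g ∈ A ↔ g * s ∈ A := by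
      by_contra h2
      apply hg
      rw [hD]
      exact ⟨s, hs, h2⟩
    rcases h with rfl | rfl
    · exact h1
    · exact not_congr h1
  refine ⟨Set.image2 (fun f' f => f' * f⁻¹) (NST_F E n) (NST_F E n), ?_⟩
  have hW1 : ∀ u, u ∉ Set.image2 (fun f' f => f' * f⁻¹) (NST_F E n) (NST_F E n) →
      ∀ x ∈ NST_F E n, u⁻¹ * x ∉ NST_F E n := by
    intro u hu x hx h
    apply hu
    refine ⟨x, hx, u⁻¹ * x, h, ?_⟩
    show x * (u⁻¹ * x)⁻¹ = u
    group
  have hW2 : ∀ u, u ∉ Set.image2 (fun f' f => f' * f⁻¹) (NST_F E n) (NST_F E n) →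
      ∀ x ∈ NST_F E n, u * x ∉ NST_F E n := by
    intro u hu x hx h
    apply hu
    refine ⟨u * x, h, x, hx, ?_⟩
    show u * x * x⁻¹ = u
    group
  have hA1 : ∀ u, u ∉ Set.image2 (fun f' f => f' * f⁻¹) (NST_F E n) (NST_F E n) →
      ∀ A₁, Side A A₁ → ∀ x ∈ NST_F E n, (u⁻¹ * x ∈ A₁ ↔ u⁻¹ ∈ A₁) := by
    intro u hu A₁ hA₁ x hx
    have h2 := hconn {x | u⁻¹ * x ∈ A₁} (by
      intro y hy s hs
      show (u⁻¹ * y ∈ A₁ ↔ u⁻¹ * (y * s) ∈ A₁)
      rw [← mul_assoc]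
      exact hside A₁ hA₁ _ (hDF _ (hW1 u hu y hy)) s hs) x hx
    have h3 : (u⁻¹ * x ∈ A₁ ↔ u⁻¹ * 1 ∈ A₁) := h2
    rwa [mul_one] at h3
  have hA2 : ∀ u, u ∉ Set.image2 (fun f' f => f' * f⁻¹) (NST_F E n) (NST_F E n) →
      ∀ A₁, Side A A₁ → ∀ x ∈ NST_F E n, (u * x ∈ A₁ ↔ u ∈ A₁) := by
    intro u hu A₁ hA₁ x hx
    have h2 := hconn {x | u * x ∈ A₁} (by
      intro y hy s hs
      show (u * y ∈ A₁ ↔ u * (y * s) ∈ A₁)
      rw [← mul_assoc]
      exact hside A₁ hA₁ _ (hDF _ (hW2 u hu y hy)) s hs) x hx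
    have h3 : (u * x ∈ A₁ ↔ u * 1 ∈ A₁) := h2
    rwa [mul_one] at h3
  refine ⟨Set.Finite.image2 _ hFf hFf, ?_, ?_⟩
  · intro u hu A₁ A₂ hA₁ hA₂ hu1 hu2 x hx hx2
    -- the set `Y`
    have hY : ∀ y, (y ∈ A₁ ∧ u⁻¹ * y ∈ A₂) → ∀ s ∈ E, (y * s ∈ A₁ ∧ u⁻¹ * (y * s) ∈ A₂) := by
      rintro y ⟨h1, h2⟩ s hs
      have h3 : y ∉ NST_F E n := by
        intro h
        exact hu2 ((hA1 u hu A₂ hA₂ y h).1 h2)
      have h4 : u⁻¹ * y ∉ NST_F E n := by
        intro h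
        have h5 := (hA2 u hu A₁ hA₁ _ h)
        rw [mul_inv_cancel_left] at h5
        exact hu1 (h5.1 h1)
      refine ⟨(hside A₁ hA₁ y (hDF _ h3) s hs).1 h1, ?_⟩
      rw [← mul_assoc]
      exact (hside A₂ hA₂ _ (hDF _ h4) s hs).1 h2
    have h1 := NST_gen E hEc hEs {c | x * c ∈ A₁ ∧ u⁻¹ * (x * c) ∈ A₂}
      (by
        show x * 1 ∈ A₁ ∧ u⁻¹ * (x * 1) ∈ A₂
        rw [mul_one]
        exact ⟨hx, hx2⟩)
      (by
        intro c hc s hs
        have h2 := hY (x * c) hc s hs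
        show x * (c * s) ∈ A₁ ∧ u⁻¹ * (x * (c * s)) ∈ A₂
        rw [← mul_assoc x c s]
        exact h2) x⁻¹
    have h2 : x * x⁻¹ ∈ A₁ ∧ u⁻¹ * (x * x⁻¹) ∈ A₂ := h1
    rw [mul_inv_cancel, mul_one] at h2
    exact hu2 h2.2
  · intro u hu
    by_contra hno
    have h1 : ∀ x, (x ∈ A ↔ u * x ∉ A) := by
      intro x
      by_contra h2
      exact hno ⟨x, h2⟩
    have h2 := hA1 u hu A (Or.inl rfl) a haF
    have h3 := hA1 u hu A (Or.inl rfl) a' haF'
    have h4 := h1 (u⁻¹ * a)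
    have h5 := h1 (u⁻¹ * a')
    rw [mul_inv_cancel_left] at h4 h5
    have h6 : u⁻¹ * a ∉ A := fun h => (h4.1 h) ha
    have h7 : u⁻¹ * a' ∈ A := h5.2 ha'
    exact h6 (h2.2 (h3.1 h7))

end Pool.Agent.PDT
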