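import Pool.Agent.PDT.StB

/-!
# PDT, ODI: derivations of a one-ended group into finitely supported functions are inner (helper30)
-/

set_option autoImplicit false
set_option linter.unusedVariables false

namespace Pool.Agent.PDT

open Pool.Agent.PDA Pool.Agent.PDB Pool.Agent.PDE Subgroup

/-- an almost invariant integer function on a one-ended infinite group is almost constant -/
private theorem odi_const {C : Type} [Group C] [Infinite C] (h1 : OneEnd C) (ψ : C → ℤ)
    (hψ : ∀ b : C, {u : C | ψ (u * b) ≠ ψ u}.Finite) : ∃ c : ℤ, {u : C | ψ u ≠ c}.Finite := by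
  have hAI : ∀ Z : Set ℤ, ({u : C | ψ u ∈ Z}).Finite ∨ ({u : C | ψ u ∈ Z})ᶜ.Finite := by
    intro Z
    refine h1 _ fun s => (hψ s).subset ?_
    intro g hg
    simp only [Set.mem_ofPred_eq] at hg ⊢
    intro h
    exact hg (by rw [h])
  by_contra hcon
  push Not at hcon
  have hfib : ∀ c : ℤ, ({u : C | ψ u = c}).Finite := by
    intro c
    rcases hAI {c} with h | h
    · exact h.subset fun u hu => hu
    · exfalso
      exact hcon c (h.subset fun u hu => hu)
  have hr : (Set.range ψ).Infinite := by
    intro hfin
    have h2 : (⋃ c ∈ Set.range ψ, {u : C | ψ u = c}).Finite := hfin.biUnion fun c _ => hfib c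
    have h3 : (Set.univ : Set C).Finite := h2.subset fun u _ =>
      Set.mem_biUnion (Set.mem_range_self u) rfl
    exact Set.infinite_univ h3
  have := hr.to_subtype
  let f : ℕ ↪ Set.range ψ := Infinite.natEmbedding (Set.range ψ)
  have hex : ∀ n : ℕ, ∃ u : C, ψ u = ((f n : Set.range ψ) : ℤ) := fun n => (f n).2
  choose u hu using hex
  have hinj : Function.Injective u := by
    intro a b hab
    have h2 : ((f a : Set.range ψ) : ℤ) = ((f b : Set.range ψ) : ℤ) := by
      rw [← hu a, ← hu b, hab]
    exact f.injective (Subtype.ext h2)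
  rcases hAI {z | ∃ n : ℕ, z = ((f (2 * n) : Set.range ψ) : ℤ)} with h | h
  · refine (Set.infinite_of_injective_forall_mem (f := fun n : ℕ => u (2 * n)) ?_ ?_) h
    · intro a b hab
      have := hinj hab
      omega
    · intro n
      exact ⟨n, hu _⟩
  · refine (Set.infinite_of_injective_forall_mem (f := fun n : ℕ => u (2 * n + 1)) ?_ ?_) h
    · intro a b hab
      have := hinj hab
      omega
    · rintro n ⟨k, hk⟩
      rw [hu] at hk
      have := f.injective (Subtype.ext hk)
      omega

theorem thm_ODI : St_ODI := by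
  intro S _ B hfg hinf hone δ hδ hfin
  have hrel : ∀ (y0 : S) (b u : B), δ b ((u : S) * y0) =
      (-δ (b⁻¹ * u) (((b⁻¹ * u : B) : S) * y0)) - (-δ u ((u : S) * y0)) := by
    intro y0 b u
    have h := hδ b (b⁻¹ * u) ((u : S) * y0)
    rw [mul_inv_cancel_left] at h
    have e : ((b : S))⁻¹ * ((u : S) * y0) = ((b⁻¹ * u : B) : S) * y0 := by
      push_cast
      rw [mul_assoc]
    rw [e] at h
    linarith
  have hc : ∀ y0 : S, ∃ c : ℤ, {u : B | -δ u ((u : S) * y0) ≠ c}.Finite := by
    intro y0
    obtain ⟨c, hc⟩ := odi_const hone (fun u : B => -δ u⁻¹ (((u⁻¹ : B) : S) * y0)) (by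
      intro b
      refine ((hfin b).preimage (f := fun u : B => ((u⁻¹ : B) : S) * y0) ?_).subset ?_
      · intro u _ v _ huv
        simpa using huv
      · intro u hu
        simp only [Set.mem_ofPred_eq, Set.mem_preimage] at hu ⊢
        intro h0
        have h := hrel y0 b u⁻¹
        rw [h0] at h
        apply hu
        rw [mul_inv_rev]
        linarith)
    refine ⟨c, (hc.preimage (f := fun u : B => u⁻¹) inv_injective.injOn).subset ?_⟩
    intro u hu
    simp only [Set.mem_ofPred_eq, Set.mem_preimage, inv_inv] at hu ⊢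
    exact hu
  choose c hc using hc
  -- representatives of the cosets `B y`
  have hrep : ∃ rep : S → S, (∀ y, y * (rep y)⁻¹ ∈ B) ∧ ∀ (b : B) (y : S),
      rep ((b : S) * y) = rep y := by
    refine ⟨fun y => (Quotient.mk (QuotientGroup.rightRel B) y).out, fun y => ?_, fun b y => ?_⟩
    · have h := Quotient.mk_out (s := QuotientGroup.rightRel B) y
      exact QuotientGroup.rightRel_apply.1 h
    · have h : Quotient.mk (QuotientGroup.rightRel B) ((b : S) * y) =
          Quotient.mk (QuotientGroup.rightRel B) y := by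
        refine Quotient.sound (s := QuotientGroup.rightRel B) ?_
        refine QuotientGroup.rightRel_apply.2 ?_
        rw [mul_inv_rev, mul_inv_cancel_left]
        exact B.inv_mem b.2
      show (Quotient.mk (QuotientGroup.rightRel B) ((b : S) * y)).out =
        (Quotient.mk (QuotientGroup.rightRel B) y).out
      rw [h]
  obtain ⟨rep, hmem, hinv⟩ := hrep
  set ub : S → B := fun y => ⟨y * (rep y)⁻¹, hmem y⟩ with hub
  have hubr : ∀ y, (ub y : S) * rep y = y := by
    intro y
    simp [hub]
  -- the generators
  obtain ⟨G, hG, hGf⟩ := Group.fg_iff.1 hfg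
  set T : Set S := ⋃ b ∈ G, {y | δ b y ≠ 0} with hT
  have hTf : T.Finite := hGf.biUnion fun b _ => hfin b
  have h1 : ∀ y, δ 1 y = 0 := by
    intro y
    have h := hδ 1 1 y
    simp only [mul_one, OneMemClass.coe_one, inv_one, one_mul] at h
    linarith
  have hzero : ∀ y : S, (∀ u : B, (u : S) * y ∉ T) → ∀ b u : B, δ b ((u : S) * y) = 0 := by
    intro y hy b
    have hb : b ∈ Subgroup.closure G := by
      rw [hG]
      exact Subgroup.mem_top b
    induction hb using Subgroup.closure_induction with
    | mem x hx =>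
      intro u
      by_contra hne
      exact hy u (Set.mem_biUnion hx hne)
    | one => intro u; exact h1 _
    | mul x z _ _ hx hz =>
      intro u
      rw [hδ, hx u]
      have e : ((x : S))⁻¹ * ((u : S) * y) = ((x⁻¹ * u : B) : S) * y := by
        push_cast
        rw [mul_assoc]
      rw [e, hz]
      ring
    | inv x _ hx =>
      intro u
      have h := hδ x⁻¹ x ((u : S) * y)
      rw [inv_mul_cancel, h1] at h
      have e : (((x⁻¹ : B) : S))⁻¹ * ((u : S) * y) = ((x * u : B) : S) * y := by
        push_cast
        rw [inv_inv, mul_assoc]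
      rw [e, hx] at h
      linarith
  have huniq : ∀ m m' : S → ℤ, {y : S | m y ≠ 0}.Finite → {y : S | m' y ≠ 0}.Finite →
      (∀ (b : B) (y : S), δ b y = m ((b : S)⁻¹ * y) - m y) →
      (∀ (b : B) (y : S), δ b y = m' ((b : S)⁻¹ * y) - m' y) → m' = m := by
    intro m m' hf hf' hm hm'
    funext y
    by_contra hne
    have hall : ∀ b : B, m' ((b : S)⁻¹ * y) - m ((b : S)⁻¹ * y) = m' y - m y := by
      intro b
      have h2 := hm b y
      have h3 := hm' b y
      linarith
    refine (Set.infinite_of_injective_forall_mem (f := fun b : B => (b : S)⁻¹ * y) ?_ ?_)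
      (hf.union hf')
    · intro a b hab
      simpa using hab
    · intro b
      by_contra hno
      simp only [Set.mem_union, Set.mem_ofPred_eq, not_or, not_not] at hno
      have h2 := hall b
      rw [hno.1, hno.2] at h2
      apply hne
      linarith
  suffices hex : ∃ m : S → ℤ, {y : S | m y ≠ 0}.Finite ∧
      ∀ (b : B) (y : S), δ b y = m ((b : S)⁻¹ * y) - m y by
    obtain ⟨m, hm1, hm2⟩ := hex
    exact ⟨m, ⟨hm1, hm2⟩, fun m' hm' => huniq m m' hm1 hm'.1 hm2 hm'.2⟩
  refine ⟨fun y => -δ (ub y) y - c (rep y), ?_, ?_⟩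
  · -- finite support
    have hU : (⋃ t ∈ T, (fun u : B => (u : S) * rep t) ''
        {u : B | -δ u ((u : S) * rep t) ≠ c (rep t)}).Finite :=
      hTf.biUnion fun t _ => (hc (rep t)).image _
    refine hU.subset ?_
    intro y hy
    simp only [Set.mem_ofPred_eq] at hy
    have hmeet : ∃ u : B, (u : S) * y ∈ T := by
      by_contra hno
      push Not at hno
      have hz := hzero y hno
      have hr : rep y = (((ub y)⁻¹ : B) : S) * y := by
        push_cast
        exact eq_inv_mul_of_mul_eq (hubr y)
      have hz2 : ∀ u : B, δ u ((u : S) * rep y) = 0 := by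
        intro u
        have h := hz u (u * (ub y)⁻¹)
        have e : ((u * (ub y)⁻¹ : B) : S) * y = (u : S) * rep y := by
          conv_rhs => rw [hr]
          push_cast
          rw [mul_assoc]
        rw [e] at h
        exact h
      have hc0 : c (rep y) = 0 := by
        by_contra hne
        have h := hc (rep y)
        have h2 : {u : B | -δ u ((u : S) * rep y) ≠ c (rep y)} = Set.univ := by
          ext u
          simp only [Set.mem_ofPred_eq, Set.mem_univ, iff_true]
          rw [hz2 u]
          intro h3
          apply hne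
          linarith
        rw [h2] at h
        exact Set.infinite_univ h
      apply hy
      have h := hz2 (ub y)
      rw [hubr] at h
      rw [h, hc0]
      ring
    obtain ⟨u, hu⟩ := hmeet
    refine Set.mem_biUnion hu ⟨ub y, ?_, ?_⟩
    · simp only [Set.mem_ofPred_eq]
      rw [hinv u y, hubr]
      intro h
      apply hy
      rw [h]
      ring
    · show (ub y : S) * rep ((u : S) * y) = y
      rw [hinv u y, hubr]
  · intro b y
    have e1 : rep ((b : S)⁻¹ * y) = rep y := by
      have h := hinv b⁻¹ y
      push_cast at h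
      exact h
    have e2 : ub ((b : S)⁻¹ * y) = b⁻¹ * ub y := by
      apply Subtype.ext
      show (b : S)⁻¹ * y * (rep ((b : S)⁻¹ * y))⁻¹ = ((b⁻¹ * ub y : B) : S)
      rw [e1]
      push_cast
      show (b : S)⁻¹ * y * (rep y)⁻¹ = (b : S)⁻¹ * (y * (rep y)⁻¹)
      rw [mul_assoc]
    have h := hrel (rep y) b (ub y)
    rw [hubr] at h
    have e3 : ((b⁻¹ * ub y : B) : S) * rep y = (b : S)⁻¹ * y := by
      push_cast
      rw [mul_assoc, hubr]
    rw [e3] at h
    show δ b y = (-δ (ub ((b : S)⁻¹ * y)) ((b : S)⁻¹ * y) - c (rep ((b : S)⁻¹ * y))) -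
      (-δ (ub y) y - c (rep y))
    rw [e1, e2, h]
    ring

end Pool.Agent.PDT
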