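import Pool.Agent.PDT.StA

/-!
# PDT: proof of `St_PNG` (ping-pong)
-/

set_option autoImplicit false
set_option linter.unusedVariables false

namespace Pool.Agent.PDT

open Pool.Agent.PDA Pool.Agent.PDB Pool.Agent.PDE Subgroup

/-- Powers of `g` map the half into itself. -/
theorem png_pow {C : Type} [Group C] {A : Set C} {g : C} (hg : Hyp g A) (n : ℕ) :
    ∀ x ∈ A, g ^ n * x ∈ A := by
  induction n with
  | zero => intro x hx; simpa using hx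
  | succ n ih =>
    intro x hx
    have h1 := hg.1 _ (ih x hx)
    have : g ^ (n + 1) * x = g * (g ^ n * x) := by rw [pow_succ', mul_assoc]
    rw [this]; exact h1

/-- The sets `h g^N A` decrease. -/
theorem png_decr {C : Type} [Group C] {A : Set C} {g : C} (hg : Hyp g A) (h : C) {N M : ℕ}
    (hNM : N ≤ M) (x : C) (hx : (h * g ^ M)⁻¹ * x ∈ A) : (h * g ^ N)⁻¹ * x ∈ A := by
  obtain ⟨k, rfl⟩ := Nat.exists_eq_add_of_le hNM
  have h1 := png_pow hg k _ hx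
  have : g ^ k * ((h * g ^ (N + k))⁻¹ * x) = (h * g ^ N)⁻¹ * x := by
    rw [pow_add]; group
  rwa [this] at h1

/-- One case of the failure of `St_CNJ`, in a form with a common bound. -/
theorem png_sep {C : Type} [Group C] {A₁ A₂ : Set C} {g₁ g₂ h : C} (h₁ : Hyp g₁ A₁)
    (h₂ : Hyp g₂ A₂) (hn : ¬ ∀ N : ℕ, ∃ x : C, (g₁ ^ N)⁻¹ * x ∈ A₁ ∧ (h * g₂ ^ N)⁻¹ * x ∈ A₂) :
    ∃ N : ℕ, ∀ M, N ≤ M → ∀ x : C, (1 * g₁ ^ M)⁻¹ * x ∈ A₁ → (h * g₂ ^ M)⁻¹ * x ∈ A₂ → False := by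
  obtain ⟨N, hN⟩ := not_forall.mp hn
  refine ⟨N, fun M hM x hx hy => hN ⟨x, ?_, png_decr h₂ h hM x hy⟩⟩
  have := png_decr h₁ 1 hM x hx
  rwa [one_mul] at this

theorem thm_PNG (hSPF : St_SPF) (hCNJ : St_CNJ) : St_PNG := by
  intro C _ A W hF hA hW g hg h
  obtain ⟨hAc, -, hs⟩ := hSPF C A hA
  have hg' : Hyp g⁻¹ Aᶜ := (hs g hg).1
  by_contra hcon
  have s1 : Side A A := Or.inl rfl
  have s2 : Side A Aᶜ := Or.inr rfl
  obtain ⟨N1, hN1⟩ := png_sep (h := h) hg hg (fun hh => by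
    obtain ⟨a, b, ha, hab⟩ := hCNJ C A W hA hW A A s1 s1 g g h hg hg hh
    exact hcon ⟨a, b, ha, hab⟩)
  obtain ⟨N2, hN2⟩ := png_sep (h := h) hg' hg' (fun hh => by
    obtain ⟨a, b, ha, hab⟩ := hCNJ C A W hA hW Aᶜ Aᶜ s2 s2 g⁻¹ g⁻¹ h hg' hg' hh
    refine hcon ⟨a, b, ha, ?_⟩
    have := congrArg (fun t => t⁻¹) hab
    rw [inv_zpow, inv_inv, inv_pow] at this
    rw [← this]; group)
  obtain ⟨N3, hN3⟩ := png_sep (h := h) hg hg' (fun hh => by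
    obtain ⟨a, b, ha, hab⟩ := hCNJ C A W hA hW A Aᶜ s1 s2 g g⁻¹ h hg hg' hh
    refine hcon ⟨a, -b, ha, ?_⟩
    rw [zpow_neg, ← hab, inv_pow]; group)
  obtain ⟨N4, hN4⟩ := png_sep (h := h) hg' hg (fun hh => by
    obtain ⟨a, b, ha, hab⟩ := hCNJ C A W hA hW Aᶜ A s2 s1 g⁻¹ g h hg' hg hh
    refine hcon ⟨a, -b, ha, ?_⟩
    rw [hab, inv_zpow, zpow_neg])
  obtain ⟨N, hNdef⟩ : ∃ N, N = N1 + N2 + N3 + N4 := ⟨_, rfl⟩
  have e1 := hN1 N (by omega)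
  have e2 := hN2 N (by omega)
  have e3 := hN3 N (by omega)
  have e4 := hN4 N (by omega)
  let H : Fin 2 → C := ![1, h]
  let X : Fin 2 → Set C := fun i => {x | (H i * g ^ N)⁻¹ * x ∈ A}
  let Y : Fin 2 → Set C := fun i => {x | (H i * g⁻¹ ^ N)⁻¹ * x ∈ Aᶜ}
  let a : Fin 2 → C := fun i => H i * g ^ (2 * N) * (H i)⁻¹
  refine hF (FreeGroup.lift a) (FreeGroup.injective_lift_of_ping_pong (α := C) a X Y ?_ ?_ ?_ ?_ ?_ ?_)
  · intro i
    obtain ⟨x, hx, -⟩ := hg.2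
    refine ⟨(H i * g ^ N) * x, ?_⟩
    change (H i * g ^ N)⁻¹ * ((H i * g ^ N) * x) ∈ A
    rwa [inv_mul_cancel_left]
  · intro i j hij
    refine Set.disjoint_left.mpr ?_
    intro x hx hy
    change (H i * g ^ N)⁻¹ * x ∈ A at hx
    change (H j * g ^ N)⁻¹ * x ∈ A at hy
    fin_cases i <;> fin_cases j
    · exact hij rfl
    · exact e1 x hx hy
    · exact e1 x hy hx
    · exact hij rfl
  · intro i j hij
    refine Set.disjoint_left.mpr ?_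
    intro x hx hy
    change (H i * g⁻¹ ^ N)⁻¹ * x ∈ Aᶜ at hx
    change (H j * g⁻¹ ^ N)⁻¹ * x ∈ Aᶜ at hy
    fin_cases i <;> fin_cases j
    · exact hij rfl
    · exact e2 x hx hy
    · exact e2 x hy hx
    · exact hij rfl
  · intro i j
    refine Set.disjoint_left.mpr ?_
    intro x hx hy
    change (H i * g ^ N)⁻¹ * x ∈ A at hx
    change (H j * g⁻¹ ^ N)⁻¹ * x ∈ Aᶜ at hy
    have key : ∀ k : Fin 2, (H k * g ^ N)⁻¹ * x ∈ A → (H k * g⁻¹ ^ N)⁻¹ * x ∈ Aᶜ → False := by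
      intro k h1 h2
      have h3 := png_decr hg (H k) (Nat.zero_le N) x h1
      have h4 := png_decr hg' (H k) (Nat.zero_le N) x h2
      rw [pow_zero] at h3 h4
      exact h4 h3
    fin_cases i <;> fin_cases j
    · exact key 0 hx hy
    · exact e3 x hx hy
    · exact e4 x hy hx
    · exact key 1 hx hy
  · intro i
    rintro _ ⟨y, hy, rfl⟩
    have hy' : (H i * g⁻¹ ^ N)⁻¹ * y ∈ A := by
      by_contra hc
      exact hy hc
    change (H i * g ^ N)⁻¹ * ((H i * g ^ (2 * N) * (H i)⁻¹) * y) ∈ A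
    have : (H i * g ^ N)⁻¹ * ((H i * g ^ (2 * N) * (H i)⁻¹) * y) = (H i * g⁻¹ ^ N)⁻¹ * y := by
      rw [two_mul, pow_add, inv_pow]
      generalize g ^ N = p
      group
    rwa [this]
  · intro i
    rintro _ ⟨y, hy, rfl⟩
    have hy' : (H i * g ^ N)⁻¹ * y ∈ Aᶜ := hy
    change (H i * g⁻¹ ^ N)⁻¹ * ((H i * g ^ (2 * N) * (H i)⁻¹)⁻¹ * y) ∈ Aᶜ
    have : (H i * g⁻¹ ^ N)⁻¹ * ((H i * g ^ (2 * N) * (H i)⁻¹)⁻¹ * y) = (H i * g ^ N)⁻¹ * y := by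
      rw [two_mul, pow_add, inv_pow]
      generalize g ^ N = p
      group
    rwa [this]

end Pool.Agent.PDT
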