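import Pool.Agent.PDT.StC

/-!
# PDT, module RFK: the relation module is finitely generated
-/

set_option autoImplicit false
set_option linter.unusedVariables false

namespace Pool.Agent.PDT

open Pool.Agent.PDA Pool.Agent.PDB Pool.Agent.PDE Subgroup

private theorem RFK_count (K : Type) [Group K] (h : Group.FG K) : Countable K := by
  obtain ⟨F, hF, hF'⟩ := Group.fg_iff.1 h
  have : Countable (FreeGroup F) := by
    have := hF'.countable
    have h1 : Countable F := this.to_subtype
    exact (Quot.mk_surjective (r := FreeGroup.Red.Step (α := F))).countable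
  have hs : Function.Surjective (FreeGroup.lift (fun a : F => (a : K))) := by
    rw [← MonoidHom.range_eq_top, FreeGroup.range_lift_eq_closure, Subtype.range_coe]
    exact hF
  exact hs.countable

theorem thm_RFK (hCNT : St_CNT) : St_RFK := by
  classical
  intro K _ hK d x hP φ hφ
  have h1 : Countable K := RFK_count K hK
  have h2 : Countable (ZG K) :=
    (MonoidAlgebra.coeff_injective (R := ℤ) (M := K)).countable
  have h3 : ∀ L : Rel ℤ x →ₗ[ZG K] ZG K, ∃ cv : ℤ × (Fin d → ZG K), ∀ y : Rel ℤ x,
      L y = cv.1 • φ y + ∑ i, (y : Fin d → ZG K) i * cv.2 i := by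
    intro L
    obtain ⟨c, v, hv⟩ := hφ.gen L
    refine ⟨(c, v), fun y => ?_⟩
    rw [← hv y]
    exact (add_sub_cancel (c • φ y) (L y)).symm
  choose f hf using h3
  have h4 : Function.Injective f := by
    intro L L' h
    ext1 y
    rw [hf L y, hf L' y, h]
  have h5 : Countable (Rel ℤ x →ₗ[ZG K] ZG K) := h4.countable
  have h6 : Module.Finite (ZG K) (Rel ℤ x) := hCNT (ZG K) (Rel ℤ x) hP h5
  exact h6.fg_top

end Pool.Agent.PDT
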