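import Pool.Agent.PDT.StB

/-! PDT, module SER: the geometric series of a map which raises the height. -/

set_option autoImplicit false

namespace Pool.Agent.PDT

open Pool.Agent.PDA Pool.Agent.PDB Pool.Agent.PDE Subgroup

section SER

variable {S : Type} [Group S] {P : Type} [AddCommGroup P] [Module (ZG S) P]

/-- the elements of the support of `r` have height at least `m` -/
private def SER_sup (π : S →* Multiplicative ℤ) (m : ℤ) (r : ZG S) : Prop :=
  ∀ g, r.coeff g ≠ 0 → m ≤ hgt π g

private lemma SER_hgt_mul (π : S →* Multiplicative ℤ) (g h : S) :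
    hgt π (g * h) = hgt π g + hgt π h := by
  unfold hgt
  rw [map_mul, toAdd_mul]

private lemma SER_hgt_one (π : S →* Multiplicative ℤ) : hgt π 1 = 0 := by
  unfold hgt
  rw [map_one, toAdd_one]

private lemma SER_sup_mono {π : S →* Multiplicative ℤ} {m m' : ℤ} {r : ZG S}
    (h : SER_sup π m r) (hm : m' ≤ m) : SER_sup π m' r :=
  fun g hg => hm.trans (h g hg)

private lemma SER_sup_mul {π : S →* Multiplicative ℤ} {m m' : ℤ} {r r' : ZG S}
    (h : SER_sup π m r) (h' : SER_sup π m' r') : SER_sup π (m + m') (r * r') := by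
  classical
  intro g hg
  have h1 : g ∈ (r * r').coeff.support := Finsupp.mem_support_iff.2 hg
  obtain ⟨a, ha, b, hb, hab⟩ := Finset.mem_mul.1 (MonoidAlgebra.support_coeff_mul_subset r r' h1)
  rw [← hab, SER_hgt_mul]
  exact add_le_add (h a (Finsupp.mem_support_iff.1 ha)) (h' b (Finsupp.mem_support_iff.1 hb))

private lemma SER_sup_sum {π : S →* Multiplicative ℤ} {m : ℤ} {ι : Type} (s : Finset ι)
    (f : ι → ZG S) (h : ∀ i ∈ s, SER_sup π m (f i)) : SER_sup π m (∑ i ∈ s, f i) := by
  intro g hg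
  rw [MonoidAlgebra.coeff_sum, Finsupp.finsetSum_apply] at hg
  obtain ⟨i, hi, h1⟩ := Finset.exists_ne_zero_of_sum_ne_zero hg
  exact h i hi g h1

private lemma SER_sup_el (π : S →* Multiplicative ℤ) (g : S) :
    SER_sup π (hgt π g) (el ℤ g) := by
  classical
  intro h hh
  by_cases he : g = h
  · rw [he]
  · exfalso
    apply hh
    rw [el, MonoidAlgebra.of_apply, MonoidAlgebra.coeff_single, Finsupp.single_apply, if_neg he]

private lemma SER_sup_ex (π : S →* Multiplicative ℤ) (r : ZG S) : ∃ m, SER_sup π m r := by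
  classical
  obtain ⟨M, hM⟩ := Finset.exists_le (r.coeff.support.image fun g => - hgt π g)
  refine ⟨- M, fun g hg => ?_⟩
  have := hM _ (Finset.mem_image_of_mem _ (Finsupp.mem_support_iff.2 hg))
  omega

private lemma SER_single_smul (l : P →+ ℤ) (g : S) (c : ℤ) (x : P) :
    l (MonoidAlgebra.single g c • x) = c * l (el ℤ g • x) := by
  have h1 : (MonoidAlgebra.single g c : ZG S) = c • el ℤ g := by
    rw [el, MonoidAlgebra.of_apply, MonoidAlgebra.smul_single, smul_eq_mul, mul_one]
  rw [h1, smul_assoc, map_zsmul, smul_eq_mul]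

/-- `l` vanishes far up -/
private lemma SER_tail {π : S →* Multiplicative ℤ} {l : P →+ ℤ} (hl : Hi π l) (x : P) :
    ∃ T : ℤ, ∀ r : ZG S, SER_sup π T r → l (r • x) = 0 := by
  classical
  obtain ⟨M, hM⟩ := Finset.exists_le ((hl x 0).toFinset.image fun g => hgt π g)
  refine ⟨max 0 (M + 1), fun r hr => ?_⟩
  conv_lhs => rw [← MonoidAlgebra.sum_coeff_single r]
  rw [Finsupp.sum, Finset.sum_smul, map_sum]
  refine Finset.sum_eq_zero fun g hg => ?_
  rw [SER_single_smul]
  have h1 := hr g (Finsupp.mem_support_iff.1 hg)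
  have h2 : l (el ℤ g • x) = 0 := by
    by_contra hcon
    have h3 : g ∈ (hl x 0).toFinset := by
      rw [Set.Finite.mem_toFinset]
      exact ⟨(le_max_left _ _).trans h1, hcon⟩
    have h4 := hM _ (Finset.mem_image_of_mem _ h3)
    have h5 := (le_max_right _ _).trans h1
    omega
  rw [h2, mul_zero]

private lemma SER_key {π : S →* Multiplicative ℤ} {A : P →ₗ[ZG S] P} (hA : Rai π A)
    {l : P →+ ℤ} (hl : Hi π l) (x : P) (c : ℤ) :
    ∃ n₀ : ℕ, ∀ n, n₀ ≤ n → ∀ g, c ≤ hgt π g → l (el ℤ g • (A ^ n) x) = 0 := by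
  classical
  obtain ⟨N, u, a, hgen, hAu, ha⟩ := hA
  choose T hT using fun k => SER_tail hl (u k)
  obtain ⟨T₀, hT₀⟩ := Finset.exists_le (Finset.univ.image T)
  have hT' : ∀ k, T k ≤ T₀ := fun k => hT₀ _ (Finset.mem_image_of_mem _ (Finset.mem_univ k))
  obtain ⟨r₀, hr₀⟩ := hgen x
  choose m hm using fun k => SER_sup_ex π (r₀ k)
  obtain ⟨m₁, hm₁⟩ := Finset.exists_le (Finset.univ.image fun k => - m k)
  set m₀ : ℤ := - m₁ with hm₀
  have hfil : ∀ n : ℕ, ∃ r : Fin N → ZG S, (∀ k, SER_sup π (m₀ + n) (r k)) ∧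
      (A ^ n) x = ∑ k, r k • u k := by
    intro n
    induction n with
    | zero =>
      refine ⟨r₀, fun k => SER_sup_mono (hm k) ?_, ?_⟩
      · have := hm₁ _ (Finset.mem_image_of_mem _ (Finset.mem_univ k))
        push_cast
        omega
      · rw [pow_zero]
        exact hr₀
    | succ n ih =>
      obtain ⟨r, h1, h2⟩ := ih
      refine ⟨fun j => ∑ k, r k * a k j, fun j => SER_sup_sum _ _ fun k _ => ?_, ?_⟩
      · have h3 := SER_sup_mul (h1 k) (ha k j)
        refine SER_sup_mono h3 ?_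
        push_cast
        omega
      · rw [pow_succ', Module.End.mul_apply, h2, map_sum]
        have h4 : ∀ k, A (r k • u k) = ∑ j, (r k * a k j) • u j := by
          intro k
          rw [map_smul, hAu, Finset.smul_sum]
          exact Finset.sum_congr rfl fun j _ => by rw [mul_smul]
        rw [Finset.sum_congr rfl fun k _ => h4 k, Finset.sum_comm]
        exact Finset.sum_congr rfl fun j _ => by rw [Finset.sum_smul]
  refine ⟨(T₀ - c - m₀).toNat, fun n hn g hg => ?_⟩
  obtain ⟨r, h1, h2⟩ := hfil n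
  rw [h2, Finset.smul_sum, map_sum]
  refine Finset.sum_eq_zero fun k _ => ?_
  rw [← mul_smul]
  refine hT k _ (SER_sup_mono (SER_sup_mul (SER_sup_el π g) (h1 k)) ?_)
  have h3 := hT' k
  have h4 := Int.self_le_toNat (T₀ - c - m₀)
  have h5 : ((T₀ - c - m₀).toNat : ℤ) ≤ n := by exact_mod_cast hn
  omega

end SER

theorem thm_SER : St_SER := by
  classical
  intro S _ π P _ _ A hA l hl
  have hcomm : ∀ (n : ℕ) (g : S) (x : P), (A ^ n) (el ℤ g • x) = el ℤ g • (A ^ n) x :=
    fun n g x => map_smul _ _ _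
  have hel : ∀ x : P, el ℤ (1 : S) • x = x := fun x => by
    rw [el, map_one, one_smul]
  choose n₀ hn₀ using fun x : P => SER_key hA hl x 0
  have hz : ∀ (x : P) (n : ℕ), n₀ x ≤ n → l ((A ^ n) x) = 0 := by
    intro x n hn
    have := hn₀ x n hn 1 (le_of_eq (SER_hgt_one π).symm)
    rwa [hel] at this
  -- the sum may be taken over any long interval
  have hN : ∀ (x : P) (M M' : ℕ), (∀ n, M ≤ n → l ((A ^ n) x) = 0) →
      (∀ n, M' ≤ n → l ((A ^ n) x) = 0) →
      ∑ n ∈ Finset.range M, l ((A ^ n) x) = ∑ n ∈ Finset.range M', l ((A ^ n) x) := by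
    have aux : ∀ (x : P) (M M' : ℕ), (∀ n, M ≤ n → l ((A ^ n) x) = 0) → M ≤ M' →
        ∑ n ∈ Finset.range M, l ((A ^ n) x) = ∑ n ∈ Finset.range M', l ((A ^ n) x) := by
      intro x M M' h hle
      refine Finset.sum_subset (Finset.range_mono hle) fun n _ hn => h n ?_
      rw [Finset.mem_range] at hn
      omega
    intro x M M' h h'
    rcases le_total M M' with hle | hle
    · exact aux x M M' h hle
    · exact (aux x M' M h' hle).symm
  let N : P →+ ℤ :=
    { toFun := fun x => ∑ n ∈ Finset.range (n₀ x), l ((A ^ n) x)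
      map_zero' := by
        refine Finset.sum_eq_zero fun n _ => ?_
        rw [map_zero, map_zero]
      map_add' := by
        intro x y
        have h1 := hN x (n₀ x) (max (max (n₀ x) (n₀ y)) (n₀ (x + y))) (hz x)
          fun n hn => hz x n (by omega)
        have h2 := hN y (n₀ y) (max (max (n₀ x) (n₀ y)) (n₀ (x + y))) (hz y)
          fun n hn => hz y n (by omega)
        have h3 := hN (x + y) (n₀ (x + y)) (max (max (n₀ x) (n₀ y)) (n₀ (x + y))) (hz (x + y))
          fun n hn => hz (x + y) n (by omega)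
        show ∑ n ∈ Finset.range (n₀ (x + y)), l ((A ^ n) (x + y)) =
          ∑ n ∈ Finset.range (n₀ x), l ((A ^ n) x) + ∑ n ∈ Finset.range (n₀ y), l ((A ^ n) y)
        rw [h1, h2, h3, ← Finset.sum_add_distrib]
        exact Finset.sum_congr rfl fun n _ => by rw [map_add, map_add] }
  have hNd : ∀ (x : P) (M : ℕ), (∀ n, M ≤ n → l ((A ^ n) x) = 0) →
      N x = ∑ n ∈ Finset.range M, l ((A ^ n) x) := fun x M h => hN x _ _ (hz x) h
  refine ⟨N, ?_, ?_, ?_, ?_⟩
  · intro x c
    obtain ⟨M, hM⟩ := SER_key hA hl x c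
    have hfin : (⋃ n ∈ Finset.range M, {g : S | c ≤ hgt π g ∧ l (el ℤ g • (A ^ n) x) ≠ 0}).Finite :=
      Set.Finite.biUnion (Finset.finite_toSet _) fun n _ => hl _ c
    refine hfin.subset ?_
    rintro g ⟨hg, hne⟩
    have h1 : N (el ℤ g • x) = ∑ n ∈ Finset.range M, l ((A ^ n) (el ℤ g • x)) := by
      refine hNd _ M fun n hn => ?_
      rw [hcomm]
      exact hM n hn g hg
    rw [h1] at hne
    obtain ⟨n, hn, h2⟩ := Finset.exists_ne_zero_of_sum_ne_zero hne
    rw [hcomm] at h2
    simp only [Set.mem_iUnion, exists_prop]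
    exact ⟨n, hn, hg, h2⟩
  · intro x
    have hsh : ∀ n : ℕ, (A ^ (n + 1)) x = (A ^ n) (A x) := fun n => by
      rw [pow_succ, Module.End.mul_apply]
    set M := max (n₀ x) (n₀ (A x)) with hM
    rw [hNd x (M + 1) fun n hn => hz x n (by omega), hNd (A x) M fun n hn => hz (A x) n (by omega),
      Finset.sum_range_succ', Finset.sum_congr rfl fun n _ => by rw [hsh n], pow_zero]
    rw [Module.End.one_apply]
    ring
  · intro x hx
    rw [hNd x (n₀ x) (hz x)]
    exact Finset.sum_eq_zero fun n _ => hx n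
  · intro B hB hsum x
    have hB0 : ∀ b : B, hgt π (b : S) = 0 := fun b => by
      have h1 := MonoidHom.mem_ker.1 (hB b.2)
      unfold hgt
      rw [h1, toAdd_one]
    have h1 : ∀ b : B, N (el ℤ (b : S) • x) =
        ∑ n ∈ Finset.range (n₀ x), l (el ℤ (b : S) • (A ^ n) x) := by
      intro b
      rw [hNd (el ℤ (b : S) • x) (n₀ x) fun n hn => by
        rw [hcomm]; exact hn₀ x n hn b (le_of_eq (hB0 b).symm)]
      exact Finset.sum_congr rfl fun n _ => by rw [hcomm]
    rw [finsum_congr h1, finsum_sum_comm]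
    · exact Finset.sum_eq_zero fun n _ => hsum _
    · intro n _
      refine Set.Finite.subset ((hl ((A ^ n) x) 0).preimage
        (f := fun b : B => (b : S)) (fun b _ b' _ h => Subtype.ext h)) ?_
      intro b hb
      exact ⟨le_of_eq (hB0 b).symm, hb⟩

end Pool.Agent.PDT
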