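import Pool.Agent.PDT.StA

/-! # PDT: basic facts on almost invariant sets -/

set_option autoImplicit false

namespace Pool.Agent.PDT

open Pool.Agent.PDA Pool.Agent.PDB Pool.Agent.PDE Subgroup

private lemma spf_pow {C : Type} [Group C] {A : Set C} {g : C} (h : ∀ x ∈ A, g * x ∈ A) (n : ℕ) :
    ∀ x ∈ A, g ^ n * x ∈ A := by
  induction n with
  | zero => intro x hx; simpa using hx
  | succ n ih =>
    intro x hx
    have e : g ^ (n + 1) * x = g * (g ^ n * x) := by rw [pow_succ']; group
    rw [e]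
    exact h _ (ih x hx)

theorem thm_SPF : St_SPF := by
  intro C _ A hA
  refine ⟨?_, ?_, ?_⟩
  · intro s
    have h := hA s
    have e : {g : C | ¬ (g ∈ Aᶜ ↔ g * s ∈ Aᶜ)} = {g : C | ¬ (g ∈ A ↔ g * s ∈ A)} := by
      ext g
      simp only [Set.mem_ofPred_eq, Set.mem_compl_iff]
      tauto
    rw [e]
    exact h
  · intro p q
    have h := hA (p⁻¹ * q)
    have h2 : Set.InjOn (fun v : C => v⁻¹ * p) ((fun v : C => v⁻¹ * p) ⁻¹'
        {g : C | ¬ (g ∈ A ↔ g * (p⁻¹ * q) ∈ A)}) := by
      intro v _ w _ hvw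
      simpa using hvw
    refine (h.preimage h2).subset ?_
    intro v hv
    simp only [Set.mem_ofPred_eq, Set.mem_preimage] at hv ⊢
    have e : v⁻¹ * p * (p⁻¹ * q) = v⁻¹ * q := by group
    rw [e]
    exact hv
  · intro g hg
    obtain ⟨h1, x0, hx0, hx1⟩ := hg
    have key := spf_pow h1
    have h4 : ∀ a b : ℤ, a < b → g ^ a ≠ g ^ b := by
      intro a b hab he
      obtain ⟨n, hn⟩ : ∃ n : ℕ, b = a + (n + 1 : ℕ) := ⟨(b - a - 1).toNat, by omega⟩
      have h5 : g ^ (n + 1) = 1 := by
        rw [hn, zpow_add, zpow_natCast] at he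
        exact (mul_eq_left.1 he.symm)
      have h6 : g⁻¹ = g ^ n := by
        rw [pow_succ] at h5
        exact (eq_inv_of_mul_eq_one_left h5).symm
      rw [h6] at hx1
      exact hx1 (key n x0 hx0)
    have h4' : ∀ a b : ℤ, g ^ a = g ^ b → a = b := by
      intro a b he
      rcases lt_trichotomy a b with h | h | h
      · exact absurd he (h4 a b h)
      · exact h
      · exact absurd he.symm (h4 b a h)
    have h7 : ∀ (n : ℕ) (y : C), y ∉ A → (g ^ n)⁻¹ * y ∉ A := by
      intro n y hy hc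
      apply hy
      have := key n _ hc
      simpa using this
    refine ⟨⟨?_, ?_⟩, h4', ?_, ?_⟩
    · intro x hx hc
      apply hx
      have := h1 _ hc
      simpa using this
    · refine ⟨g⁻¹ * x0, hx1, ?_⟩
      intro hc
      apply hc
      simpa using hx0
    · intro a ha
      refine ⟨key a, x0, hx0, ?_⟩
      obtain ⟨m, rfl⟩ : ∃ m, a = m + 1 := ⟨a - 1, by omega⟩
      have e : (g ^ (m + 1))⁻¹ * x0 = (g ^ m)⁻¹ * (g⁻¹ * x0) := by
        rw [pow_succ']; group
      rw [e]
      exact h7 m _ hx1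
    · intro x
      by_contra hc
      push Not at hc
      have hfin := hA (x⁻¹ * (g⁻¹ * x0))
      have hinj : Function.Injective (fun n : ℕ => (g ^ n)⁻¹ * x) := by
        intro n m hnm
        have e : g ^ n = g ^ m := by simpa using hnm
        have := h4' n m (by rw [zpow_natCast, zpow_natCast]; exact e)
        exact_mod_cast this
      refine Set.infinite_of_injective_forall_mem hinj (fun n => ?_) hfin
      simp only [Set.mem_ofPred_eq]
      have e : (g ^ n)⁻¹ * x * (x⁻¹ * (g⁻¹ * x0)) = (g ^ n)⁻¹ * (g⁻¹ * x0) := by group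
      rw [e]
      intro hiff
      exact h7 n _ hx1 (hiff.1 (hc n))

end Pool.Agent.PDT
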