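import Pool.Agent.PDT.StC

/-!
# PDT, module SPK: splitting by the completions at both ends
-/

set_option autoImplicit false
set_option linter.unusedVariables false

namespace Pool.Agent.PDT

open Pool.Agent.PDA Pool.Agent.PDB Pool.Agent.PDE Subgroup

section SPKaux

variable {S : Type} [Group S]

/-- the action of the group ring on functions -/
private noncomputable def SPK_cv (a : ZG S) (F : S → ℤ) (z : S) : ℤ :=
  a.coeff.sum fun h c => c * F (h⁻¹ * z)

private theorem SPK_cv_zero (F : S → ℤ) (z : S) : SPK_cv (0 : ZG S) F z = 0 := by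
  unfold SPK_cv
  rw [MonoidAlgebra.coeff_zero, Finsupp.sum_zero_index]

private theorem SPK_cv_add (a b : ZG S) (F : S → ℤ) (z : S) :
    SPK_cv (a + b) F z = SPK_cv a F z + SPK_cv b F z := by
  unfold SPK_cv
  rw [MonoidAlgebra.coeff_add]
  exact Finsupp.sum_add_index' (fun h => by simp) (fun h c c' => by ring)

private theorem SPK_cv_single (g : S) (r : ℤ) (F : S → ℤ) (z : S) :
    SPK_cv (MonoidAlgebra.single g r) F z = r * F (g⁻¹ * z) := by
  unfold SPK_cv
  rw [MonoidAlgebra.coeff_single, Finsupp.sum_single_index]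
  simp

private theorem SPK_cv_sum {ι : Type} (t : Finset ι) (a : ι → ZG S) (F : S → ℤ) (z : S) :
    SPK_cv (∑ i ∈ t, a i) F z = ∑ i ∈ t, SPK_cv (a i) F z := by
  classical
  induction t using Finset.induction_on with
  | empty => simp [SPK_cv_zero]
  | insert i t hi ih => rw [Finset.sum_insert hi, Finset.sum_insert hi, SPK_cv_add, ih]

private theorem SPK_cv_mul_el (a : ZG S) (g : S) (F : S → ℤ) (z : S) :
    SPK_cv (a * el ℤ g) F z = SPK_cv a (fun w => F (g⁻¹ * w)) z := by
  induction a using MonoidAlgebra.induction_linear with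
  | zero => rw [zero_mul, SPK_cv_zero, SPK_cv_zero]
  | add a b ha hb => rw [add_mul, SPK_cv_add, SPK_cv_add, ha, hb]
  | single h r =>
    have e : (MonoidAlgebra.single h r : ZG S) * el ℤ g = MonoidAlgebra.single (h * g) r := by
      show (MonoidAlgebra.single h r : ZG S) * MonoidAlgebra.single g 1 = _
      rw [MonoidAlgebra.single_mul_single, mul_one]
    rw [e, SPK_cv_single, SPK_cv_single, mul_inv_rev, mul_assoc]

private theorem SPK_cv_coeff (a b : ZG S) (z : S) :
    SPK_cv a (fun w => b.coeff w) z = (a * b).coeff z := by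
  rw [MonoidAlgebra.coeff_mul_apply_left]
  rfl

private theorem SPK_cv_fadd (a : ZG S) (F G : S → ℤ) (z : S) :
    SPK_cv a (fun w => F w + G w) z = SPK_cv a F z + SPK_cv a G z := by
  unfold SPK_cv
  rw [← Finsupp.sum_add]
  exact Finsupp.sum_congr fun h _ => by ring

private theorem SPK_cv_fneg (a : ZG S) (F : S → ℤ) (z : S) :
    SPK_cv a (fun w => - F w) z = - SPK_cv a F z := by
  unfold SPK_cv
  rw [← Finsupp.sum_neg]
  exact Finsupp.sum_congr fun h _ => by ring

/-- sums along the powers of `s` -/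
private noncomputable def SPK_W (s : S) (k : ℕ → ℤ) (b : ZG S) (z : S) : ℤ :=
  ∑ᶠ n : ℕ, b.coeff (z * s ^ (k n))

private theorem SPK_hgt_mul (π : S →* Multiplicative ℤ) (g h : S) :
    hgt π (g * h) = hgt π g + hgt π h := by
  unfold hgt; rw [map_mul]; rfl

private theorem SPK_hgt_inv (π : S →* Multiplicative ℤ) (g : S) : hgt π g⁻¹ = - hgt π g := by
  unfold hgt; rw [map_inv]; rfl

private theorem SPK_hgt_zpow {π : S →* Multiplicative ℤ} {s : S}
    (hs : π s = Multiplicative.ofAdd 1) (k : ℤ) : hgt π (s ^ k) = k := by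
  unfold hgt
  rw [map_zpow, hs, toAdd_zpow, toAdd_ofAdd, smul_eq_mul, mul_one]

private theorem SPK_W_fin {π : S →* Multiplicative ℤ} {s : S}
    (hs : π s = Multiplicative.ofAdd 1) {k : ℕ → ℤ} (hk : Function.Injective k) (b : ZG S) (z : S) :
    (Function.support fun n : ℕ => b.coeff (z * s ^ (k n))).Finite := by
  have h1 : Function.Injective fun n : ℕ => z * s ^ (k n) := by
    intro n m hnm
    have h2 : s ^ (k n) = s ^ (k m) := mul_left_cancel hnm
    have h3 := congrArg (hgt π) h2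
    rw [SPK_hgt_zpow hs, SPK_hgt_zpow hs] at h3
    exact hk h3
  have h2 : ((b.coeff.support : Set S)).Finite := Finset.finite_toSet _
  refine (h2.preimage h1.injOn).subset fun n hn => ?_
  exact Finset.mem_coe.2 (Finsupp.mem_support_iff.2 hn)

private theorem SPK_W_zero (s : S) (k : ℕ → ℤ) (z : S) : SPK_W s k (0 : ZG S) z = 0 := by
  unfold SPK_W
  simp

private theorem SPK_W_add {π : S →* Multiplicative ℤ} {s : S}
    (hs : π s = Multiplicative.ofAdd 1) {k : ℕ → ℤ} (hk : Function.Injective k) (a b : ZG S) (z : S) :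
    SPK_W s k (a + b) z = SPK_W s k a z + SPK_W s k b z := by
  unfold SPK_W
  rw [← finsum_add_distrib (SPK_W_fin hs hk a z) (SPK_W_fin hs hk b z)]
  refine finsum_congr fun n => ?_
  rw [MonoidAlgebra.coeff_add, Finsupp.add_apply]

private theorem SPK_W_single {π : S →* Multiplicative ℤ} {s : S}
    (hs : π s = Multiplicative.ofAdd 1) {k : ℕ → ℤ} (hk : Function.Injective k) (h : S) (r : ℤ)
    (b : ZG S) (z : S) :
    SPK_W s k (MonoidAlgebra.single h r * b) z = r * SPK_W s k b (h⁻¹ * z) := by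
  unfold SPK_W
  rw [mul_finsum]
  refine finsum_congr fun n => ?_
  rw [MonoidAlgebra.coeff_single_mul_apply, mul_assoc]

private theorem SPK_cv_W {π : S →* Multiplicative ℤ} {s : S}
    (hs : π s = Multiplicative.ofAdd 1) {k : ℕ → ℤ} (hk : Function.Injective k) (a b : ZG S) (z : S) :
    SPK_cv a (SPK_W s k b) z = SPK_W s k (a * b) z := by
  induction a using MonoidAlgebra.induction_linear with
  | zero => rw [zero_mul, SPK_cv_zero, SPK_W_zero]
  | add a a' ha ha' => rw [add_mul, SPK_cv_add, SPK_W_add hs hk, ha, ha']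
  | single h r => rw [SPK_cv_single, SPK_W_single hs hk]

private theorem SPK_W_sum {π : S →* Multiplicative ℤ} {s : S}
    (hs : π s = Multiplicative.ofAdd 1) {k : ℕ → ℤ} (hk : Function.Injective k) {ι : Type}
    (t : Finset ι) (a : ι → ZG S) (z : S) :
    SPK_W s k (∑ i ∈ t, a i) z = ∑ i ∈ t, SPK_W s k (a i) z := by
  classical
  induction t using Finset.induction_on with
  | empty => simp [SPK_W_zero]
  | insert i t hi ih => rw [Finset.sum_insert hi, Finset.sum_insert hi, SPK_W_add hs hk, ih]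

private theorem SPK_W_fib {π : S →* Multiplicative ℤ} {s : S}
    (hs : π s = Multiplicative.ofAdd 1) (k : ℕ → ℤ) (b : ZG S) (c : ℤ) :
    {z : S | hgt π z = c ∧ SPK_W s k b z ≠ 0}.Finite := by
  have h1 : ((fun u : S => u * s ^ (c - hgt π u)) '' (b.coeff.support : Set S)).Finite :=
    (Finset.finite_toSet _).image _
  refine h1.subset ?_
  rintro z ⟨hz, hW⟩
  have hex : ∃ n : ℕ, b.coeff (z * s ^ (k n)) ≠ 0 := by
    by_contra hno
    push Not at hno
    apply hW
    unfold SPK_W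
    rw [← finsum_zero (α := ℕ) (M := ℤ)]
    exact finsum_congr hno
  obtain ⟨n, hn⟩ := hex
  refine ⟨z * s ^ (k n), Finset.mem_coe.2 (Finsupp.mem_support_iff.2 hn), ?_⟩
  show z * s ^ (k n) * s ^ (c - hgt π (z * s ^ (k n))) = z
  rw [SPK_hgt_mul, SPK_hgt_zpow hs, hz, mul_assoc, ← zpow_add]
  have : k n + (c - (c + k n)) = 0 := by ring
  rw [this, zpow_zero, mul_one]

private theorem SPK_bound (π : S →* Multiplicative ℤ) (b : ZG S) :
    ∃ C : ℤ, ∀ u : S, b.coeff u ≠ 0 → |hgt π u| ≤ C := by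
  have h1 : ((fun u : S => |hgt π u|) '' (b.coeff.support : Set S)).Finite :=
    (Finset.finite_toSet _).image _
  obtain ⟨C, hC⟩ := h1.bddAbove
  exact ⟨C, fun u hu => hC ⟨u, Finset.mem_coe.2 (Finsupp.mem_support_iff.2 hu), rfl⟩⟩

private theorem SPK_tel {f : ℕ → ℤ} (hf : (Function.support f).Finite) :
    ∑ᶠ n : ℕ, (f (n + 1) - f n) = - f 0 := by
  obtain ⟨N, hN⟩ := hf.bddAbove
  have h1 : ∀ n, N + 1 ≤ n → f n = 0 := by
    intro n hn
    by_contra h
    have := hN (Function.mem_support.2 h)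
    omega
  have h2 : (Function.support fun n : ℕ => f (n + 1) - f n) ⊆ (Finset.range (N + 1) : Set ℕ) := by
    intro n hn
    by_contra h
    have h3 : N + 1 ≤ n := by
      by_contra h4
      exact h (Finset.mem_coe.2 (Finset.mem_range.2 (by omega)))
    apply hn
    show f (n + 1) - f n = 0
    rw [h1 _ h3, h1 _ (by omega), sub_zero]
  rw [finsum_eq_sum_of_support_subset _ h2, Finset.sum_range_sub, h1 _ le_rfl, zero_sub]

private theorem SPK_mulel (b : ZG S) (g w : S) : (b * el ℤ g).coeff w = b.coeff (w * g⁻¹) := by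
  show (b * MonoidAlgebra.single g 1).coeff w = _
  rw [MonoidAlgebra.coeff_mul_single_apply, mul_one]

private theorem SPK_inj1 : Function.Injective fun n : ℕ => (-(n : ℤ)) := by
  intro a b h
  have h' : (-(a : ℤ)) = -(b : ℤ) := h
  omega

private theorem SPK_inj2 : Function.Injective fun n : ℕ => ((n : ℤ) + 1) := by
  intro a b h
  have h' : ((a : ℤ) + 1) = (b : ℤ) + 1 := h
  omega

private theorem SPK_W1 {π : S →* Multiplicative ℤ} {s : S}
    (hs : π s = Multiplicative.ofAdd 1) (b : ZG S) (z : S) :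
    SPK_W s (fun n : ℕ => (-(n : ℤ))) (b * el ℤ s - b) z = - b.coeff z := by
  have h1 := SPK_tel (SPK_W_fin hs SPK_inj1 b z)
  have h2 : SPK_W s (fun n : ℕ => (-(n : ℤ))) (b * el ℤ s - b) z =
      ∑ᶠ n : ℕ, (b.coeff (z * s ^ (-((n + 1 : ℕ) : ℤ))) - b.coeff (z * s ^ (-(n : ℤ)))) := by
    unfold SPK_W
    refine finsum_congr fun n => ?_
    rw [MonoidAlgebra.coeff_sub, Finsupp.sub_apply, SPK_mulel, mul_assoc, ← zpow_sub_one]
    have : (-(n : ℤ)) - 1 = -((n + 1 : ℕ) : ℤ) := by push_cast; ring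
    rw [this]
  rw [h2, h1]
  simp

private theorem SPK_W2 {π : S →* Multiplicative ℤ} {s : S}
    (hs : π s = Multiplicative.ofAdd 1) (b : ZG S) (z : S) :
    SPK_W s (fun n : ℕ => ((n : ℤ) + 1)) (b * el ℤ s - b) z = b.coeff z := by
  have hinj : Function.Injective fun n : ℕ => (n : ℤ) := fun a b h => Int.ofNat.inj h
  have h1 := SPK_tel (SPK_W_fin hs hinj b z)
  have h2 : SPK_W s (fun n : ℕ => ((n : ℤ) + 1)) (b * el ℤ s - b) z =
      - ∑ᶠ n : ℕ, (b.coeff (z * s ^ ((n + 1 : ℕ) : ℤ)) - b.coeff (z * s ^ (n : ℤ))) := by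
    unfold SPK_W
    rw [← finsum_neg_distrib]
    refine finsum_congr fun n => ?_
    rw [MonoidAlgebra.coeff_sub, Finsupp.sub_apply, SPK_mulel, mul_assoc, ← zpow_sub_one]
    have e1 : ((n : ℤ) + 1) - 1 = (n : ℤ) := by ring
    have e2 : ((n + 1 : ℕ) : ℤ) = (n : ℤ) + 1 := by push_cast; ring
    rw [e1, e2]
    ring
  rw [h2, h1]
  simp

end SPKaux

theorem thm_SPK (hDFI : St_DFI) (hBDR : St_BDR) : St_SPK := by
  intro S _ π s B hA d x hx φ hφ
  classical
  obtain ⟨v, hv⟩ := hφ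
  have hs : π s = Multiplicative.ofAdd 1 := hA.pis
  set k1 : ℕ → ℤ := fun n : ℕ => (-(n : ℤ)) with hk1
  set k2 : ℕ → ℤ := fun n : ℕ => ((n : ℤ) + 1) with hk2
  have i1 : Function.Injective k1 := SPK_inj1
  have i2 : Function.Injective k2 := SPK_inj2
  -- the linear map `V`
  let V : (Fin d → ZG S) → ZG S := fun y => ∑ i, y i * v i
  have hVadd : ∀ y y', V (y + y') = V y + V y' := by
    intro y y'
    show ∑ i, (y + y') i * v i = _
    rw [← Finset.sum_add_distrib]
    exact Finset.sum_congr rfl fun i _ => by rw [Pi.add_apply, add_mul]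
  have hVsmul : ∀ (a : ZG S) y, V (a • y) = a * V y := by
    intro a y
    show ∑ i, (a • y) i * v i = a * ∑ i, y i * v i
    rw [Finset.mul_sum]
    exact Finset.sum_congr rfl fun i _ => by rw [Pi.smul_apply, smul_eq_mul, mul_assoc]
  have hVrel : ∀ y : Rel ℤ x, V (y : Fin d → ZG S) = φ y * el ℤ s - φ y := fun y => (hv y).symm
  -- `Δ y z = - W1 - W2`
  let Δ : (Fin d → ZG S) → S → ℤ := fun y z => - SPK_W s k1 (V y) z - SPK_W s k2 (V y) z
  have hΔadd : ∀ y y' z, Δ (y + y') z = Δ y z + Δ y' z := by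
    intro y y' z
    show - SPK_W s k1 (V (y + y')) z - SPK_W s k2 (V (y + y')) z = _
    rw [hVadd, SPK_W_add hs i1, SPK_W_add hs i2]
    show _ = (- SPK_W s k1 (V y) z - SPK_W s k2 (V y) z) + (- SPK_W s k1 (V y') z - SPK_W s k2 (V y') z)
    ring
  have hΔsm : ∀ (g : S) y z, Δ (el ℤ g • y) z = Δ y (g⁻¹ * z) := by
    intro g y z
    show - SPK_W s k1 (V (el ℤ g • y)) z - SPK_W s k2 (V (el ℤ g • y)) z =
      - SPK_W s k1 (V y) (g⁻¹ * z) - SPK_W s k2 (V y) (g⁻¹ * z)
    rw [hVsmul]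
    have e1 := SPK_W_single hs i1 g 1 (V y) z
    have e2 := SPK_W_single hs i2 g 1 (V y) z
    rw [one_mul] at e1 e2
    rw [← e1, ← e2]
    rfl
  have hΔrel : ∀ y : Rel ℤ x, ∀ z, Δ (y : Fin d → ZG S) z = 0 := by
    intro y z
    show - SPK_W s k1 (V (y : Fin d → ZG S)) z - SPK_W s k2 (V (y : Fin d → ZG S)) z = 0
    rw [hVrel, SPK_W1 hs, SPK_W2 hs]
    ring
  have hΔeq : ∀ y y' : Fin d → ZG S, bd ℤ x y = bd ℤ x y' → ∀ z, Δ y z = Δ y' z := by
    intro y y' h z
    have h1 : y - y' ∈ Rel ℤ x := by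
      show y - y' ∈ LinearMap.ker (bd ℤ x)
      rw [LinearMap.mem_ker, map_sub, h, sub_self]
    have h2 := hΔrel ⟨y - y', h1⟩ z
    have h3 := hΔadd (y - y') y' z
    rw [sub_add_cancel] at h3
    rw [h3]
    show Δ (y - y') z + Δ y' z = Δ y' z
    have h4 : Δ (y - y') z = 0 := h2
    rw [h4, zero_add]
  -- the elements `y_g`
  have hY : ∀ g : S, ∃ y : Fin d → ZG S, bd ℤ x y = el ℤ g - 1 := by
    intro g
    refine (hBDR ℤ S d x hx (el ℤ g - 1)).1 ?_
    rw [map_sub, map_one]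
    show aug ℤ S (MonoidAlgebra.of ℤ S g) - 1 = 0
    unfold aug
    rw [MonoidAlgebra.lift_of]
    simp
  choose Y hYb using hY
  let D : S → S → ℤ := fun g => Δ (Y g)
  have hD : ∀ g h y : S, D (g * h) y = D g y + D h (g⁻¹ * y) := by
    intro g h y
    have h1 : bd ℤ x (Y (g * h)) = bd ℤ x (Y g + el ℤ g • Y h) := by
      rw [map_add, map_smul, hYb, hYb, hYb, smul_eq_mul, mul_sub, mul_one]
      have : el ℤ (g * h) = el ℤ g * el ℤ h := map_mul _ _ _
      rw [this]
      abel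
    show Δ (Y (g * h)) y = Δ (Y g) y + Δ (Y h) (g⁻¹ * y)
    rw [hΔeq _ _ h1, hΔadd, hΔsm]
  have hDf : ∀ (g : S) (c : ℤ), {y : S | hgt π y = c ∧ D g y ≠ 0}.Finite := by
    intro g c
    refine ((SPK_W_fib hs k1 (V (Y g)) c).union (SPK_W_fib hs k2 (V (Y g)) c)).subset ?_
    rintro y ⟨hy, hne⟩
    by_contra h
    rw [Set.mem_union, not_or] at h
    apply hne
    show - SPK_W s k1 (V (Y g)) y - SPK_W s k2 (V (Y g)) y = 0
    have h1 : SPK_W s k1 (V (Y g)) y = 0 := by
      by_contra h'; exact h.1 ⟨hy, h'⟩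
    have h2 : SPK_W s k2 (V (Y g)) y = 0 := by
      by_contra h'; exact h.2 ⟨hy, h'⟩
    rw [h1, h2]; ring
  obtain ⟨m, hmf, hm, -⟩ := hDFI S π s B hA D hD hDf
  let mp : S → ℤ := fun z => if 0 ≤ hgt π z then m z else 0
  let mn : S → ℤ := fun z => if 0 ≤ hgt π z then 0 else m z
  have hmpn : ∀ z, m z = mp z + mn z := by
    intro z
    show m z = (if 0 ≤ hgt π z then m z else 0) + (if 0 ≤ hgt π z then 0 else m z)
    by_cases h : 0 ≤ hgt π z
    · rw [if_pos h, if_pos h, add_zero]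
    · rw [if_neg h, if_neg h, zero_add]
  -- the basis elements
  let E : Fin d → (Fin d → ZG S) := fun i => Pi.single i 1
  have hE : ∀ i, bd ℤ x (E i) = el ℤ (x i) - 1 := by
    intro i
    show ∑ j, (Pi.single i (1 : ZG S) : Fin d → ZG S) j * (el ℤ (x j) - 1) = _
    rw [Finset.sum_eq_single i]
    · rw [Pi.single_eq_same, one_mul]
    · intro j _ hj
      rw [Pi.single_eq_of_ne hj, zero_mul]
    · intro h; exact absurd (Finset.mem_univ i) h
  have hVE : ∀ i, V (E i) = v i := by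
    intro i
    show ∑ j, (Pi.single i (1 : ZG S) : Fin d → ZG S) j * v j = _
    rw [Finset.sum_eq_single i]
    · rw [Pi.single_eq_same, one_mul]
    · intro j _ hj
      rw [Pi.single_eq_of_ne hj, zero_mul]
    · intro h; exact absurd (Finset.mem_univ i) h
  have hΔE : ∀ i z, - SPK_W s k1 (v i) z - SPK_W s k2 (v i) z = m ((x i)⁻¹ * z) - m z := by
    intro i z
    have h1 : Δ (Y (x i)) z = Δ (E i) z := hΔeq _ _ (by rw [hYb, hE]) z
    have h2 : Δ (E i) z = - SPK_W s k1 (v i) z - SPK_W s k2 (v i) z := by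
      show - SPK_W s k1 (V (E i)) z - SPK_W s k2 (V (E i)) z = _
      rw [hVE]
    rw [← h2, ← h1]
    exact hm (x i) z
  -- the finitely supported functions
  let w : Fin d → S → ℤ := fun i z => - SPK_W s k1 (v i) z - (mp ((x i)⁻¹ * z) - mp z)
  have hw2 : ∀ i z, w i z = SPK_W s k2 (v i) z + (mn ((x i)⁻¹ * z) - mn z) := by
    intro i z
    have h1 := hΔE i z
    rw [hmpn ((x i)⁻¹ * z), hmpn z] at h1
    show - SPK_W s k1 (v i) z - (mp ((x i)⁻¹ * z) - mp z) = _
    linarith
  have hwfib : ∀ i (c : ℤ), {z : S | hgt π z = c ∧ w i z ≠ 0}.Finite := by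
    intro i c
    have f1 := SPK_W_fib hs k1 (v i) c
    have f2 := hmf c
    have f3 : ((fun z : S => (x i) * z) '' {y : S | hgt π y = c - hgt π (x i) ∧ m y ≠ 0}).Finite :=
      (hmf (c - hgt π (x i))).image _
    refine ((f1.union f2).union f3).subset ?_
    rintro z ⟨hz, hne⟩
    by_contra h
    rw [Set.mem_union, Set.mem_union, not_or, not_or] at h
    obtain ⟨⟨h1, h2⟩, h3⟩ := h
    apply hne
    have e1 : SPK_W s k1 (v i) z = 0 := by
      by_contra h'; exact h1 ⟨hz, h'⟩
    have e2 : m z = 0 := by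
      by_contra h'; exact h2 ⟨hz, h'⟩
    have e3 : m ((x i)⁻¹ * z) = 0 := by
      by_contra h'
      refine h3 ⟨(x i)⁻¹ * z, ⟨?_, h'⟩, ?_⟩
      · rw [SPK_hgt_mul, SPK_hgt_inv, hz]; ring
      · show x i * ((x i)⁻¹ * z) = z
        rw [mul_inv_cancel_left]
    show - SPK_W s k1 (v i) z - (mp ((x i)⁻¹ * z) - mp z) = 0
    have e4 : mp z = 0 := by
      show (if 0 ≤ hgt π z then m z else 0) = 0
      rw [e2]; simp
    have e5 : mp ((x i)⁻¹ * z) = 0 := by
      show (if 0 ≤ hgt π ((x i)⁻¹ * z) then m ((x i)⁻¹ * z) else 0) = 0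
      rw [e3]; simp
    rw [e1, e4, e5]; ring
  have hwfin : ∀ i, (Function.support (w i)).Finite := by
    intro i
    obtain ⟨C, hC⟩ := SPK_bound π (v i)
    have hC' : ∀ u : S, (v i).coeff u ≠ 0 → -C ≤ hgt π u ∧ hgt π u ≤ C := fun u hu =>
      abs_le.1 (hC u hu)
    set C' : ℤ := |C| + |hgt π (x i)| + 1 with hC'def
    have a1 : C ≤ |C| := le_abs_self C
    have a2 : hgt π (x i) ≤ |hgt π (x i)| := le_abs_self _
    have a3 : -|hgt π (x i)| ≤ hgt π (x i) := neg_abs_le _
    have a4 : 0 ≤ |C| := abs_nonneg _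
    have a5 : 0 ≤ |hgt π (x i)| := abs_nonneg _
    -- small heights
    have low : ∀ z, hgt π z < -C' → w i z = 0 := by
      intro z hz
      have e1 : SPK_W s k1 (v i) z = 0 := by
        unfold SPK_W
        rw [← finsum_zero (α := ℕ) (M := ℤ)]
        refine finsum_congr fun n => ?_
        by_contra h
        have h1 := (hC' _ h).1
        rw [SPK_hgt_mul, SPK_hgt_zpow hs] at h1
        have h2 : k1 n = -(n : ℤ) := rfl
        rw [h2] at h1
        have h3 : (0 : ℤ) ≤ (n : ℤ) := Int.natCast_nonneg n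
        linarith
      have e4 : mp z = 0 := by
        show (if 0 ≤ hgt π z then m z else 0) = 0
        rw [if_neg (by linarith)]
      have e5 : mp ((x i)⁻¹ * z) = 0 := by
        show (if 0 ≤ hgt π ((x i)⁻¹ * z) then m ((x i)⁻¹ * z) else 0) = 0
        rw [if_neg]
        rw [SPK_hgt_mul, SPK_hgt_inv]
        linarith
      show - SPK_W s k1 (v i) z - (mp ((x i)⁻¹ * z) - mp z) = 0
      rw [e1, e4, e5]; ring
    have high : ∀ z, C' < hgt π z → w i z = 0 := by
      intro z hz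
      have e1 : SPK_W s k2 (v i) z = 0 := by
        unfold SPK_W
        rw [← finsum_zero (α := ℕ) (M := ℤ)]
        refine finsum_congr fun n => ?_
        by_contra h
        have h1 := (hC' _ h).2
        rw [SPK_hgt_mul, SPK_hgt_zpow hs] at h1
        have h2 : k2 n = (n : ℤ) + 1 := rfl
        rw [h2] at h1
        have h3 : (0 : ℤ) ≤ (n : ℤ) := Int.natCast_nonneg n
        linarith
      have e4 : mn z = 0 := by
        show (if 0 ≤ hgt π z then 0 else m z) = 0
        rw [if_pos (by linarith)]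
      have e5 : mn ((x i)⁻¹ * z) = 0 := by
        show (if 0 ≤ hgt π ((x i)⁻¹ * z) then 0 else m ((x i)⁻¹ * z)) = 0
        rw [if_pos]
        rw [SPK_hgt_mul, SPK_hgt_inv]
        linarith
      rw [hw2, e1, e4, e5]; ring
    have hU : (⋃ c ∈ Finset.Icc (-C') C', {z : S | hgt π z = c ∧ w i z ≠ 0}).Finite :=
      Set.Finite.biUnion (Finset.finite_toSet _) fun c _ => hwfib i c
    refine hU.subset fun z hz => ?_
    have h1 : -C' ≤ hgt π z := by
      by_contra h'; exact hz (low z (not_le.1 h'))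
    have h2 : hgt π z ≤ C' := by
      by_contra h'; exact hz (high z (not_le.1 h'))
    exact Set.mem_biUnion (Finset.mem_coe.2 (Finset.mem_Icc.2 ⟨h1, h2⟩)) ⟨rfl, hz⟩
  -- the elements of the group ring
  let u : Fin d → ZG S := fun i => MonoidAlgebra.ofCoeff (Finsupp.ofSupportFinite (w i) (hwfin i))
  have hu : ∀ i z, (u i).coeff z = w i z := fun i z => rfl
  refine ⟨u, fun y => ?_⟩
  show φ y = ∑ i, (y : Fin d → ZG S) i * u i
  apply MonoidAlgebra.coeff_injective
  ext z
  have hybd : ∑ i, (y : Fin d → ZG S) i * (el ℤ (x i) - 1) = 0 := by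
    have := y.2
    have h1 : bd ℤ x (y : Fin d → ZG S) = 0 := LinearMap.mem_ker.1 this
    exact h1
  have hsum : (∑ i, (y : Fin d → ZG S) i * u i).coeff z =
      ∑ i, ((y : Fin d → ZG S) i * u i).coeff z := by
    rw [MonoidAlgebra.coeff_sum, Finsupp.finsetSum_apply]
  rw [hsum]
  have hterm : ∀ i, ((y : Fin d → ZG S) i * u i).coeff z =
      - SPK_W s k1 ((y : Fin d → ZG S) i * v i) z -
        SPK_cv ((y : Fin d → ZG S) i * (el ℤ (x i) - 1)) mp z := by
    intro i
    rw [← SPK_cv_coeff]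
    have e1 : (fun w' => (u i).coeff w') =
        fun w' => (- SPK_W s k1 (v i) w') + (- ((fun z' => mp ((x i)⁻¹ * z')) w' + - mp w')) := by
      funext z'
      rw [hu]
      show - SPK_W s k1 (v i) z' - (mp ((x i)⁻¹ * z') - mp z') = _
      ring
    rw [e1, SPK_cv_fadd, SPK_cv_fneg, SPK_cv_W hs i1, SPK_cv_fneg, SPK_cv_fadd, SPK_cv_fneg,
      ← SPK_cv_mul_el]
    have e2 : (y : Fin d → ZG S) i * (el ℤ (x i) - 1) + (y : Fin d → ZG S) i =
        (y : Fin d → ZG S) i * el ℤ (x i) := by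
      rw [mul_sub, mul_one, sub_add_cancel]
    have e3 := SPK_cv_add ((y : Fin d → ZG S) i * (el ℤ (x i) - 1)) ((y : Fin d → ZG S) i) mp z
    rw [e2] at e3
    rw [e3]
    ring
  rw [Finset.sum_congr rfl fun i _ => hterm i, Finset.sum_sub_distrib, Finset.sum_neg_distrib,
    ← SPK_cv_sum, hybd, SPK_cv_zero, sub_zero, ← SPK_W_sum hs i1]
  have h1 : ∑ i, (y : Fin d → ZG S) i * v i = φ y * el ℤ s - φ y := hVrel y
  rw [h1, SPK_W1 hs, neg_neg]

end Pool.Agent.PDT
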