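import Pool.Agent.PDT.StC

/-!
# PDT, SPL: splitting of fibrewise finite functions, additive maps and linear maps (helper30)
-/

set_option autoImplicit false
set_option linter.unusedVariables false

namespace Pool.Agent.PDT

open Pool.Agent.PDA Pool.Agent.PDB Pool.Agent.PDE Subgroup

private theorem SPL_coeff {S : Type} [Group S] (g y : S) (z : ZG S) :
    (el ℤ g * z).coeff y = z.coeff (g⁻¹ * y) := by
  have h := MonoidAlgebra.coeff_single_mul_mul z (1 : ℤ) g (g⁻¹ * y)
  rw [mul_inv_cancel_left, one_mul] at h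
  exact h

private theorem SPL_hgt_mul {S : Type} [Group S] (π : S →* Multiplicative ℤ) (g h : S) :
    hgt π (g * h) = hgt π g + hgt π h := by
  unfold hgt
  rw [map_mul, toAdd_mul]

private theorem SPL_hgt_inv {S : Type} [Group S] (π : S →* Multiplicative ℤ) (g : S) :
    hgt π⁻¹ g = -hgt π g := by
  unfold hgt
  rw [MonoidHom.inv_apply, toAdd_inv]

private theorem SPL_band {S P : Type} [Group S] [AddCommGroup P] [Module (ZG S) P]
    {π : S →* Multiplicative ℤ} {l : P →+ ℤ} (hl : Fb π l) (x : P) (a b : ℤ) :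
    {h : S | a ≤ hgt π h ∧ hgt π h ≤ b ∧ l (el ℤ h • x) ≠ 0}.Finite := by
  refine ((Set.finite_Icc a b).biUnion (t := fun t => {g : S | hgt π g = t ∧ l (el ℤ g • x) ≠ 0})
    fun t _ => hl x t).subset ?_
  rintro h ⟨h1, h2, h3⟩
  exact Set.mem_biUnion (Set.mem_Icc.2 ⟨h1, h2⟩) ⟨rfl, h3⟩

open Classical in
/-- the part of `l(a u)` which belongs to the elements of `A` -/
private noncomputable def SPL_phi {S P : Type} [Group S] [AddCommGroup P] [Module (ZG S) P]
    (l : P →+ ℤ) (A : S → Prop) (u : P) : ZG S →+ ℤ :=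
  (Finsupp.liftAddHom (fun g : S => if A g then AddMonoidHom.mulRight (l (el ℤ g • u))
    else (0 : ℤ →+ ℤ))).comp (MonoidAlgebra.coeffAddEquiv (R := ℤ) (M := S)).toAddMonoidHom

open Classical in
private theorem SPL_phi_apply {S P : Type} [Group S] [AddCommGroup P] [Module (ZG S) P]
    (l : P →+ ℤ) (A : S → Prop) (u : P) (a : ZG S) :
    SPL_phi l A u a = a.coeff.sum fun g n => (if A g then AddMonoidHom.mulRight (l (el ℤ g • u))
      else (0 : ℤ →+ ℤ)) n := rfl

private theorem SPL_phi_ne {S P : Type} [Group S] [AddCommGroup P] [Module (ZG S) P]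
    (l : P →+ ℤ) (A : S → Prop) (u : P) (a : ZG S) (h : SPL_phi l A u a ≠ 0) :
    ∃ y, a.coeff y ≠ 0 ∧ A y ∧ l (el ℤ y • u) ≠ 0 := by
  rw [SPL_phi_apply, Finsupp.sum] at h
  obtain ⟨y, hy, hne⟩ := Finset.exists_ne_zero_of_sum_ne_zero h
  refine ⟨y, Finsupp.mem_support_iff.1 hy, ?_⟩
  by_cases hA : A y
  · rw [if_pos hA] at hne
    refine ⟨hA, fun h0 => hne ?_⟩
    rw [AddMonoidHom.coe_mulRight, h0]
    exact mul_zero _
  · rw [if_neg hA] at hne
    exact absurd rfl hne

private theorem SPL_single {S : Type} [Group S] (g : S) (n : ℤ) :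
    (MonoidAlgebra.single g n : ZG S) = n • el ℤ g := by
  rw [el, MonoidAlgebra.of_apply, MonoidAlgebra.smul_single, smul_eq_mul, mul_one]

private theorem SPL_l_single {S P : Type} [Group S] [AddCommGroup P] [Module (ZG S) P]
    (l : P →+ ℤ) (u : P) (g : S) (n : ℤ) :
    l ((MonoidAlgebra.single g n : ZG S) • u) = n * l (el ℤ g • u) := by
  rw [SPL_single, smul_assoc, map_zsmul, smul_eq_mul]

open Classical in
private theorem SPL_phi_single {S P : Type} [Group S] [AddCommGroup P] [Module (ZG S) P]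
    (l : P →+ ℤ) (A : S → Prop) (u : P) (g : S) (n : ℤ) :
    SPL_phi l A u (MonoidAlgebra.single g n) = if A g then n * l (el ℤ g • u) else 0 := by
  rw [SPL_phi_apply, MonoidAlgebra.coeff_single]
  refine (Finsupp.sum_single_index ?_).trans ?_
  · exact map_zero (if A g then AddMonoidHom.mulRight (l (el ℤ g • u)) else (0 : ℤ →+ ℤ))
  by_cases hA : A g
  · rw [if_pos hA, if_pos hA]
    rfl
  · rw [if_neg hA, if_neg hA]
    rfl

private theorem SPL_phi_add {S P : Type} [Group S] [AddCommGroup P] [Module (ZG S) P]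
    (l : P →+ ℤ) (A : S → Prop) (u : P) (a : ZG S) :
    SPL_phi l A u a + SPL_phi l (fun g => ¬ A g) u a = l (a • u) := by
  induction a using MonoidAlgebra.induction_linear with
  | zero => rw [map_zero, map_zero, zero_smul, map_zero, add_zero]
  | add x y hx hy =>
    rw [map_add, map_add, add_smul, map_add, ← hx, ← hy]
    ring
  | single g n =>
    rw [SPL_l_single, SPL_phi_single, SPL_phi_single]
    by_cases hA : A g
    · rw [if_pos hA, if_neg (not_not.2 hA), add_zero]
    · rw [if_neg hA, if_pos hA, zero_add]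

/-- the part of `l` which belongs to the elements of `A` -/
private noncomputable def SPL_part {S P : Type} [Group S] [AddCommGroup P] [Module (ZG S) P]
    {n : ℕ} (u : Fin n → P) (F : Fin n → (P →ₗ[ZG S] ZG S)) (l : P →+ ℤ) (A : S → Prop) :
    P →+ ℤ := ∑ k, (SPL_phi l A (u k)).comp (F k).toAddMonoidHom

private theorem SPL_part_apply {S P : Type} [Group S] [AddCommGroup P] [Module (ZG S) P]
    {n : ℕ} (u : Fin n → P) (F : Fin n → (P →ₗ[ZG S] ZG S)) (l : P →+ ℤ) (A : S → Prop) (x : P) :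
    SPL_part u F l A x = ∑ k, SPL_phi l A (u k) (F k x) := by
  unfold SPL_part
  rw [AddMonoidHom.finsetSum_apply]
  rfl

private theorem SPL_part_ne {S P : Type} [Group S] [AddCommGroup P] [Module (ZG S) P]
    {n : ℕ} (u : Fin n → P) (F : Fin n → (P →ₗ[ZG S] ZG S)) (l : P →+ ℤ) (A : S → Prop) (x : P)
    (h : S) (hne : SPL_part u F l A (el ℤ h • x) ≠ 0) :
    ∃ k, ∃ g ∈ (F k x).coeff.support, A (h * g) ∧ l (el ℤ h • (el ℤ g • u k)) ≠ 0 := by
  rw [SPL_part_apply] at hne
  obtain ⟨k, _, hk⟩ := Finset.exists_ne_zero_of_sum_ne_zero hne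
  obtain ⟨y, h1, h2, h3⟩ := SPL_phi_ne l A (u k) _ hk
  rw [map_smul, smul_eq_mul, SPL_coeff] at h1
  refine ⟨k, h⁻¹ * y, Finsupp.mem_support_iff.2 h1, ?_, ?_⟩
  · rw [mul_inv_cancel_left]
    exact h2
  · rw [← mul_smul, ← map_mul, mul_inv_cancel_left]
    exact h3

theorem thm_SPL (hFDB : St_FDB) : St_SPL := by
  intro S _ π P _ _
  refine ⟨?_, ?_, ?_⟩
  · intro hfin hproj l hl
    obtain ⟨n, u, F, hF⟩ := hFDB.1 S P hfin hproj
    refine ⟨SPL_part u F l (fun g => ¬ 0 ≤ hgt π g), SPL_part u F l (fun g => 0 ≤ hgt π g),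
      ?_, ?_, ?_⟩
    · intro x c
      have hU : (⋃ k : Fin n, ⋃ g ∈ (F k x).coeff.support,
          {h : S | c ≤ hgt π h ∧ hgt π h ≤ -hgt π g ∧ l (el ℤ h • (el ℤ g • u k)) ≠ 0}).Finite :=
        Set.finite_iUnion fun k => (Finset.finite_toSet _).biUnion fun g _ => SPL_band hl _ _ _
      refine hU.subset ?_
      rintro h ⟨h1, h2⟩
      obtain ⟨k, g, hg, h3, h4⟩ := SPL_part_ne u F l _ x h h2
      rw [SPL_hgt_mul] at h3
      exact Set.mem_iUnion.2 ⟨k, Set.mem_biUnion hg ⟨h1, by omega, h4⟩⟩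
    · intro x c
      have hU : (⋃ k : Fin n, ⋃ g ∈ (F k x).coeff.support,
          {h : S | -hgt π g ≤ hgt π h ∧ hgt π h ≤ -c ∧
            l (el ℤ h • (el ℤ g • u k)) ≠ 0}).Finite :=
        Set.finite_iUnion fun k => (Finset.finite_toSet _).biUnion fun g _ => SPL_band hl _ _ _
      refine hU.subset ?_
      rintro h ⟨h1, h2⟩
      obtain ⟨k, g, hg, h3, h4⟩ := SPL_part_ne u F l _ x h h2
      rw [SPL_hgt_mul] at h3
      rw [SPL_hgt_inv] at h1
      exact Set.mem_iUnion.2 ⟨k, Set.mem_biUnion hg ⟨by omega, by omega, h4⟩⟩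
    · intro x
      rw [SPL_part_apply, SPL_part_apply, ← Finset.sum_add_distrib]
      conv_lhs => rw [hF x, map_sum]
      refine Finset.sum_congr rfl fun k _ => ?_
      rw [add_comm, SPL_phi_add]
  · intro l h1 h2
    have hfin : ∀ x : P, (Function.support fun g : S => l (el ℤ g⁻¹ • x)).Finite := by
      intro x
      refine (((h1 x 0).union (h2 x 0)).preimage (f := fun g : S => g⁻¹)
        inv_injective.injOn).subset ?_
      intro g hg
      rw [Function.mem_support] at hg
      rcases le_total 0 (hgt π g⁻¹) with h | h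
      · exact Or.inl ⟨h, hg⟩
      · refine Or.inr ⟨?_, hg⟩
        show 0 ≤ hgt π⁻¹ g⁻¹
        rw [SPL_hgt_inv]
        omega
    have hadd : ∀ x y : P, (MonoidAlgebra.ofCoeff (Finsupp.ofSupportFinite _ (hfin (x + y))) :
        ZG S) = MonoidAlgebra.ofCoeff (Finsupp.ofSupportFinite _ (hfin x)) +
          MonoidAlgebra.ofCoeff (Finsupp.ofSupportFinite _ (hfin y)) := by
      intro x y
      apply MonoidAlgebra.ext
      ext g
      show l (el ℤ g⁻¹ • (x + y)) = l (el ℤ g⁻¹ • x) + l (el ℤ g⁻¹ • y)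
      rw [smul_add, map_add]
    refine ⟨{ toFun := fun x => MonoidAlgebra.ofCoeff (Finsupp.ofSupportFinite _ (hfin x))
              map_add' := hadd
              map_smul' := ?_ }, ?_⟩
    · intro a x
      rw [RingHom.id_apply, smul_eq_mul]
      induction a using MonoidAlgebra.induction_linear with
      | zero =>
        rw [zero_mul]
        apply MonoidAlgebra.ext
        ext g
        show l (el ℤ g⁻¹ • ((0 : ZG S) • x)) = 0
        rw [zero_smul, smul_zero, map_zero]
      | add a b ha hb =>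
        rw [add_mul, ← ha, ← hb, ← hadd]
        congr 2
        rw [add_smul]
      | single g n =>
        apply MonoidAlgebra.ext
        ext y
        have e1 := MonoidAlgebra.coeff_single_mul_mul
          (MonoidAlgebra.ofCoeff (Finsupp.ofSupportFinite _ (hfin x)) : ZG S) n g (g⁻¹ * y)
        rw [mul_inv_cancel_left] at e1
        rw [e1]
        show l (el ℤ y⁻¹ • ((MonoidAlgebra.single g n : ZG S) • x)) =
          n * l (el ℤ (g⁻¹ * y)⁻¹ • x)
        have e2 : el ℤ y⁻¹ • ((MonoidAlgebra.single g n : ZG S) • x) =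
            (MonoidAlgebra.single (y⁻¹ * g) n : ZG S) • x := by
          rw [← mul_smul]
          congr 1
          rw [el, MonoidAlgebra.of_apply, MonoidAlgebra.single_mul_single, one_mul]
        rw [e2, SPL_l_single, mul_inv_rev, inv_inv]
    · intro x g
      rfl
  · intro f l hfl
    have hl : ∀ (x : P) (g : S), l (el ℤ g • x) = (f x).coeff g⁻¹ := by
      intro x g
      rw [hfl, map_smul, smul_eq_mul, SPL_coeff, mul_one]
    have hfin : ∀ x : P, {g : S | l (el ℤ g • x) ≠ 0}.Finite := by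
      intro x
      have h1 : ((f x).coeff.support : Set S).Finite := Finset.finite_toSet _
      refine (h1.image fun g => g⁻¹).subset ?_
      intro g hg
      have hg' : l (el ℤ g • x) ≠ 0 := hg
      rw [hl] at hg'
      exact ⟨g⁻¹, Finset.mem_coe.2 (Finsupp.mem_support_iff.2 hg'), inv_inv g⟩
    exact ⟨fun x c => (hfin x).subset fun g hg => hg.2,
      fun x c => (hfin x).subset fun g hg => hg.2, hl⟩

end Pool.Agent.PDT
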