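import Pool.Agent.PDT.StC

/-!
# PDT: TFA, `PD_3`-groups are torsion-free
-/

set_option autoImplicit false
set_option linter.unusedVariables false

namespace Pool.Agent.PDT

open Pool.Agent.PDA Pool.Agent.PDB Pool.Agent.PDE Subgroup

private lemma TFA_single {G : Type} [Group G] (g : G) (n : ℤ) :
    (MonoidAlgebra.single g n : ZG G) = n • el ℤ g := by
  rw [el, MonoidAlgebra.of_apply, MonoidAlgebra.smul_single, smul_eq_mul, mul_one]

/-- a `PD_3`-group is infinite -/
private lemma TFA_inf {G : Type} [Group G] (R : Short G) : Infinite G := by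
  by_contra hinf
  rw [not_infinite_iff_finite] at hinf
  have hfin : Fintype G := Fintype.ofFinite G
  obtain ⟨N, hN⟩ : ∃ N : ZG G, N = ∑ g : G, el ℤ g := ⟨_, rfl⟩
  have hmul : ∀ g : G, el ℤ g * N = N := by
    intro g
    rw [hN, Finset.mul_sum]
    have h1 : ∀ h : G, el ℤ g * el ℤ h = el ℤ (g * h) := by
      intro h
      rw [el, el, el, ← map_mul]
    simp only [h1]
    exact Fintype.sum_equiv (Equiv.mulLeft g) _ _ (fun h => rfl)
  have hlin : ∀ (a : ZG G) (x : R.P0), R.e (a • x) • N = a * (R.e x • N) := by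
    intro a x
    induction a using MonoidAlgebra.induction_linear with
    | zero => rw [zero_smul, map_zero, zero_smul, zero_mul]
    | add a b ha hb => rw [add_smul, map_add, add_smul, ha, hb, add_mul]
    | single g n =>
      rw [TFA_single, smul_assoc, map_zsmul, R.e_smul, smul_mul_assoc, mul_smul_comm, hmul,
        smul_assoc]
  let f : R.P0 →ₗ[ZG G] ZG G :=
    { toFun := fun x => R.e x • N
      map_add' := fun x y => by rw [map_add, add_smul]
      map_smul' := fun a x => by rw [RingHom.id_apply, smul_eq_mul, hlin] }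
  have hf : f ∘ₗ R.d1 = 0 := by
    refine LinearMap.ext fun y => ?_
    have h1 : R.e (R.d1 y) = 0 := (R.ex0 _).2 ⟨y, rfl⟩
    show R.e (R.d1 y) • N = 0
    rw [h1, zero_smul]
  have hf0 := R.h0 f hf
  obtain ⟨x, hx⟩ := R.e_surj 1
  have hN0 : N = 0 := by
    have h1 : f x = 0 := by rw [hf0]; rfl
    have h2 : f x = R.e x • N := rfl
    rw [h2, hx, one_smul] at h1
    exact h1
  -- the augmentation of `N` is the order of the group
  have haug : aug ℤ G N = (Fintype.card G : ℤ) := by
    rw [hN, map_sum]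
    have h1 : ∀ g : G, aug ℤ G (el ℤ g) = 1 := by
      intro g
      rw [el, MonoidAlgebra.of_apply, aug, MonoidAlgebra.lift_single]
      simp
    simp only [h1]
    simp
  rw [hN0, map_zero] at haug
  have hpos : 0 < Fintype.card G := Fintype.card_pos
  omega

theorem thm_TFA (hTOP : St_TOP) (hRLZ : St_RLZ) (hBAS : St_BAS) (hTF0 : St_TF0) : St_TFA := by
  intro G _ hG K _ j hj c n hn hc
  obtain ⟨R⟩ := hTOP G hG
  have hinf := TFA_inf R
  by_contra hne
  -- an element of prime order
  have hpos : 0 < orderOf c := orderOf_pos_iff.2 (isOfFinOrder_iff_pow_eq_one.2 ⟨n, hn, hc⟩)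
  have hne1 : orderOf c ≠ 1 := fun h => hne (orderOf_eq_one_iff.1 h)
  obtain ⟨q, hq, hqd⟩ := Nat.exists_prime_and_dvd hne1
  obtain ⟨m, hm⟩ := hqd
  have hm0 : m ≠ 0 := by
    rintro rfl
    omega
  have h1 : (c ^ m) ^ q = 1 := by
    rw [← pow_mul, mul_comm, ← hm, pow_orderOf_eq_one]
  have h2 : c ^ m ≠ 1 := by
    intro h
    have h3 := orderOf_dvd_of_pow_eq_one h
    have h4 := Nat.le_of_dvd (Nat.pos_of_ne_zero hm0) h3
    have h5 := hq.two_le
    nlinarith [Nat.pos_of_ne_zero hm0]
  have hfact : Fact q.Prime := ⟨hq⟩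
  obtain ⟨u, hu⟩ : ∃ u : G, u = j (c ^ m) := ⟨_, rfl⟩
  have hu1 : u ^ q = 1 := by rw [hu, ← map_pow, h1, map_one]
  have hu2 : u ≠ 1 := by
    intro h
    apply h2
    apply hj
    rw [map_one, ← hu, h]
  have hC : (zpowers u : Set G).Finite := by
    have h3 : IsOfFinOrder u := isOfFinOrder_iff_pow_eq_one.2 ⟨q, hq.pos, hu1⟩
    exact h3.finite_zpowers
  have hidx : (zpowers u).subtype.range.index = 0 := by
    rw [Subgroup.range_subtype]
    by_contra hi
    have h3 : Nat.card G ≠ 0 := by
      rw [← Subgroup.card_mul_index (zpowers u)]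
      refine Nat.mul_ne_zero ?_ hi
      have h4 : Finite (zpowers u) := hC
      exact Nat.card_pos.ne'
    exact h3 Nat.card_eq_zero_of_infinite
  let x : Fin 1 → zpowers u := fun _ => ⟨u, mem_zpowers u⟩
  have hx : Subgroup.closure (Set.range x) = ⊤ := by
    rw [eq_top_iff]
    rintro ⟨y, hy⟩ -
    obtain ⟨k, rfl⟩ := mem_zpowers_iff.1 hy
    have h3 : (⟨u ^ k, hy⟩ : zpowers u) = (x 0) ^ k := by
      apply Subtype.ext
      rw [Subgroup.coe_zpow]
    rw [h3]
    have h4 : x 0 ∈ Subgroup.closure (Set.range x) :=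
      Subgroup.subset_closure (Set.mem_range_self 0)
    exact Subgroup.zpow_mem _ h4 k
  have hp1 := hRLZ G R (zpowers u) (zpowers u).subtype (Subgroup.subtype_injective _) hidx 1 x hx
  have hp2 := hBAS (ZMod q) (zpowers u) 1 x hx hp1
  have h3 := hTF0 (zpowers u) q 1 x hx hp2 (x 0) (by
    apply Subtype.ext
    rw [Subgroup.coe_pow, Subgroup.coe_one]
    exact hu1)
  exact hu2 (congrArg Subtype.val h3)

end Pool.Agent.PDT
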