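import Pool.Agent.PDT.StB

/-!
# PDT: [TRF], the transfer of a cocycle
-/

set_option autoImplicit false
set_option linter.unusedVariables false

namespace Pool.Agent.PDT

open Pool.Agent.PDA Pool.Agent.PDB Pool.Agent.PDE Subgroup

private theorem TRF_coeff {S : Type} [Group S] (g y : S) (z : ZG S) :
    (el ℤ g * z).coeff y = z.coeff (g⁻¹ * y) := by
  have h := MonoidAlgebra.coeff_single_mul_mul z (1 : ℤ) g (g⁻¹ * y)
  rw [mul_inv_cancel_left, one_mul] at h
  exact h

private theorem TRF_hgt_mul {S : Type} [Group S] (π : S →* Multiplicative ℤ) (g h : S) :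
    hgt π (g * h) = hgt π g + hgt π h := by
  unfold hgt
  rw [map_mul, toAdd_mul]

private theorem TRF_hgt_ker {S : Type} [Group S] (π : S →* Multiplicative ℤ) (g : S)
    (h : g ∈ π.ker) : hgt π g = 0 := by
  unfold hgt
  rw [MonoidHom.mem_ker.1 h]
  rfl

private theorem TRF_gen {S : Type} [Group S] {π : S →* Multiplicative ℤ} {s : S} {B : Subgroup S}
    (h : Asc π s B) : closure (insert s (B : Set S)) = ⊤ := by
  rw [eq_top_iff]
  intro g _
  have hs : s ∈ closure (insert s (B : Set S)) := subset_closure (Set.mem_insert _ _)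
  have hB : ∀ b ∈ B, b ∈ closure (insert s (B : Set S)) := fun b hb =>
    subset_closure (Set.mem_insert_of_mem _ hb)
  have hk : g * s ^ (-(hgt π g)) ∈ π.ker := by
    rw [MonoidHom.mem_ker, map_mul, map_zpow, h.pis]
    unfold hgt
    apply Multiplicative.toAdd.injective
    rw [toAdd_mul, toAdd_zpow, toAdd_ofAdd, toAdd_one]
    simp
  obtain ⟨m, hm⟩ := h.asc _ hk
  have h1 : g = (s ^ m)⁻¹ * (s ^ m * (g * s ^ (-(hgt π g))) * (s ^ m)⁻¹) * s ^ m *
      s ^ (hgt π g) := by
    group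
  rw [h1]
  exact mul_mem (mul_mem (mul_mem (inv_mem (pow_mem hs m)) (hB _ hm)) (pow_mem hs m))
    (zpow_mem hs _)

/-- the restriction of a function with finitely many nonzero values to the subgroup `B` -/
private theorem TRF_fin {S P : Type} [Group S] [AddCommGroup P] [Module (ZG S) P]
    {π : S →* Multiplicative ℤ} {B : Subgroup S} (hB : B ≤ π.ker) {l : P →+ ℤ} (hl : Hi π l)
    (x : P) : (Function.support fun b : B => l (el ℤ (b : S) • x)).Finite := by
  have h1 := hl x 0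
  refine Set.Finite.of_finite_image (f := fun b : B => (b : S)) (h1.subset ?_)
    (Subtype.val_injective.injOn)
  rintro _ ⟨b, hb, rfl⟩
  exact ⟨(TRF_hgt_ker π _ (hB b.2)).ge, hb⟩

theorem thm_TRF (hHL1 : St_HL1) (hHL2 : St_HL2) (hLIZ : St_LIZ) : St_TRF := by
  intro S _ R hOri π s B hAsc lam hlam
  have hgen := TRF_gen hAsc
  -- the function `l₀`
  let l₀ : R.P1 →+ ℤ :=
    { toFun := fun x => (lam x).coeff 1
      map_zero' := by
        rw [map_zero]
        rfl
      map_add' := fun x y => by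
        rw [map_add]
        rfl }
  have hl₀ : ∀ (g : S) (x : R.P1), l₀ (el ℤ g • x) = (lam x).coeff g⁻¹ := by
    intro g x
    show (lam (el ℤ g • x)).coeff 1 = _
    rw [map_smul, smul_eq_mul, TRF_coeff, mul_one]
  have hHi0 : Hi π l₀ := by
    intro x c
    have h1 : ((lam x).coeff.support : Set S).Finite := Finset.finite_toSet _
    refine (h1.image fun g => g⁻¹).subset ?_
    rintro g ⟨-, hg⟩
    rw [hl₀] at hg
    exact ⟨g⁻¹, Finset.mem_coe.2 (Finsupp.mem_support_iff.2 hg), inv_inv g⟩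
  have hd23 : ∀ x, R.d2 (R.d3 x) = 0 := fun x => (R.ex2 _).2 ⟨x, rfl⟩
  have hd12 : ∀ x, R.d1 (R.d2 x) = 0 := fun x => (R.ex1 _).2 ⟨x, rfl⟩
  -- the sums over `B`
  have hsum0 : ∀ x : R.P1, ∑ᶠ b : B, l₀ (el ℤ (b : S) • x) = sg B 1 (lam x) := by
    intro x
    unfold sg
    rw [← finsum_comp_equiv (Equiv.inv B)]
    apply finsum_congr
    intro b
    rw [hl₀, one_mul, Equiv.inv_apply, Subgroup.coe_inv, inv_inv]
  -- degree two
  let l : R.P2 →+ ℤ := l₀.comp R.d2.toAddMonoidHom
  have hl : ∀ x, l x = l₀ (R.d2 x) := fun _ => rfl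
  have hlHi : Hi π l := by
    intro x c
    refine (hHi0 (R.d2 x) c).subset ?_
    rintro g ⟨h1, h2⟩
    refine ⟨h1, ?_⟩
    rw [hl, map_smul] at h2
    exact h2
  obtain ⟨m, hmHi, hm, hmsum⟩ := (hHL2 S R hOri π s B hAsc.pis hAsc.le hAsc.conj hAsc.fg hgen).1 l
    hlHi (fun x => by rw [hl, hd23, map_zero])
  have hmsum' := hmsum (fun x => by
    have h1 : ∀ b : B, l (el ℤ (b : S) • x) = l₀ (el ℤ (b : S) • R.d2 x) := by
      intro b
      rw [hl, map_smul]
    rw [finsum_congr h1, hsum0]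
    exact ((hLIZ S B).1 _).1 (hlam x) 1)
  -- degree one
  let l₁ : R.P1 →+ ℤ := l₀ - m
  have hl₁ : ∀ x, l₁ x = l₀ x - m x := fun _ => rfl
  have hl₁Hi : Hi π l₁ := by
    intro x c
    refine ((hHi0 x c).union (hmHi x c)).subset ?_
    rintro g ⟨h1, h2⟩
    rw [hl₁] at h2
    by_cases h3 : l₀ (el ℤ g • x) = 0
    · right
      refine ⟨h1, fun h4 => h2 ?_⟩
      rw [h3, h4, sub_zero]
    · exact Or.inl ⟨h1, h3⟩
  obtain ⟨c, hcHi, hc⟩ := hHL1 S R π s B hAsc l₁ hl₁Hi (fun x => by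
    rw [hl₁, ← hm x, hl, sub_self])
  -- the transfer
  let L : R.P0 →+ ℤ :=
    { toFun := fun x => ∑ᶠ b : B, c (el ℤ (b : S) • x)
      map_zero' := by
        have h1 : ∀ b : B, c (el ℤ (b : S) • (0 : R.P0)) = 0 := fun b => by
          rw [smul_zero, map_zero]
        rw [finsum_congr h1, finsum_zero]
      map_add' := fun x y => by
        rw [← finsum_add_distrib (TRF_fin hAsc.le hcHi x) (TRF_fin hAsc.le hcHi y)]
        apply finsum_congr
        intro b
        rw [smul_add, map_add] }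
  have hL : ∀ x, L x = ∑ᶠ b : B, c (el ℤ (b : S) • x) := fun _ => rfl
  refine ⟨L, ?_, ?_, ?_⟩
  · intro x
    have h1 : ∀ b : B, c (el ℤ (b : S) • R.d1 x) =
        l₀ (el ℤ (b : S) • x) - m (el ℤ (b : S) • x) := by
      intro b
      rw [← hl₁, hc, LinearMap.map_smul]
    rw [hL, finsum_congr h1, finsum_sub_distrib (TRF_fin hAsc.le hHi0 x)
      (TRF_fin hAsc.le hmHi x), hmsum' x, sub_zero, hsum0]
  · intro b₀ hb₀ x
    rw [hL, hL, ← finsum_comp_equiv (Equiv.mulRight (⟨b₀, hb₀⟩ : B))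
      (f := fun b : B => c (el ℤ (b : S) • x))]
    apply finsum_congr
    intro b
    rw [← mul_smul]
    congr 2
    show el ℤ (b : S) * el ℤ b₀ = el ℤ ((b : S) * b₀)
    rw [el, el, el, map_mul]
  · intro x
    have h1 := hcHi x 0
    obtain ⟨M, hM⟩ := (h1.image (hgt π)).bddAbove
    refine ⟨max (M + 1) 0, ?_⟩
    intro g hg
    have h0 : ∀ b : B, c (el ℤ (b : S) • el ℤ g • x) = 0 := by
      intro b
      by_contra hne
      rw [← mul_smul] at hne
      have h2 : el ℤ (b : S) * el ℤ g = el ℤ ((b : S) * g) := by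
        rw [el, el, el, map_mul]
      rw [h2] at hne
      have h3 : hgt π ((b : S) * g) = hgt π g := by
        rw [TRF_hgt_mul, TRF_hgt_ker π _ (hAsc.le b.2), zero_add]
      have h4 : (0 : ℤ) ≤ hgt π g := le_trans (le_max_right _ _) hg
      have h5 : hgt π ((b : S) * g) ≤ M := by
        apply hM
        exact ⟨(b : S) * g, ⟨by rw [h3]; exact h4, hne⟩, rfl⟩
      have h6 : M + 1 ≤ hgt π g := le_trans (le_max_left _ _) hg
      rw [h3] at h5
      omega
    rw [hL, finsum_congr h0, finsum_zero]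

end Pool.Agent.PDT
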