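import Pool.Agent.PDT.StB
import Pool.Agent.PDA.GFG

/-!
# PDT: [TRL] comparison with the left ideals `LI ℤ B` and `ℤ[S] (1 - s⁻¹)`
-/

set_option autoImplicit false
set_option linter.unusedVariables false

namespace Pool.Agent.PDT

open Pool.Agent.PDA Pool.Agent.PDB Pool.Agent.PDE Subgroup

section TRL

variable {S : Type} [Group S]

private theorem TRL_top (v : ZG S) (hv : aug ℤ S v = 0) : v ∈ LI ℤ (⊤ : Subgroup S) := by
  have h : ∀ v : ZG S, v - algebraMap ℤ (ZG S) (aug ℤ S v) ∈ LI ℤ (⊤ : Subgroup S) := by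
    intro v
    induction v using MonoidAlgebra.induction_linear with
    | zero => simp
    | add v w hv hw =>
      have h1 := add_mem hv hw
      rw [map_add, map_add]
      have e : v + w - (algebraMap ℤ (ZG S) (aug ℤ S v) + algebraMap ℤ (ZG S) (aug ℤ S w)) =
          v - algebraMap ℤ (ZG S) (aug ℤ S v) + (w - algebraMap ℤ (ZG S) (aug ℤ S w)) := by abel
      rw [e]
      exact h1
    | single g c =>
      rw [gfg_aug_single]
      have h1 : el ℤ g - 1 ∈ LI ℤ (⊤ : Subgroup S) := Ideal.subset_span ⟨g, Subgroup.mem_top g, rfl⟩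
      have h2 := (LI ℤ (⊤ : Subgroup S)).mul_mem_left (algebraMap ℤ (ZG S) c) h1
      rw [mul_sub, mul_one, ← Algebra.smul_def] at h2
      have e : c • el ℤ g = MonoidAlgebra.single g c := by
        rw [el, MonoidAlgebra.of_apply, MonoidAlgebra.smul_single, smul_eq_mul, mul_one]
      rwa [e] at h2
  have h1 := h v
  rwa [hv, map_zero, sub_zero] at h1

private theorem TRL_dec (hLIS : St_LIS) (s : S) (B : Subgroup S)
    (hgen : closure (insert s (B : Set S)) = ⊤) (v : ZG S) (hv : aug ℤ S v = 0) :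
    ∃ a : ZG S, v - a * (1 - el ℤ s⁻¹) ∈ LI ℤ B := by
  have h1 := TRL_top v hv
  rw [← hgen, (hLIS ℤ S).1] at h1
  refine Submodule.span_induction (p := fun v _ => ∃ a : ZG S, v - a * (1 - el ℤ s⁻¹) ∈ LI ℤ B)
    ?_ ?_ ?_ ?_ h1
  · rintro z ⟨x, hx, rfl⟩
    rcases hx with rfl | hx
    · refine ⟨el ℤ x, ?_⟩
      have e : el ℤ x - 1 - el ℤ x * (1 - el ℤ x⁻¹) = 0 := by
        rw [mul_sub, mul_one]
        have e2 : el ℤ x * el ℤ x⁻¹ = 1 := by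
          rw [el, el, ← map_mul, mul_inv_cancel, map_one]
        rw [e2, sub_self]
      rw [e]
      exact zero_mem _
    · refine ⟨0, ?_⟩
      rw [zero_mul, sub_zero]
      exact Ideal.subset_span ⟨x, hx, rfl⟩
  · exact ⟨0, by rw [zero_mul, sub_zero]; exact zero_mem _⟩
  · rintro v w _ _ ⟨a, ha⟩ ⟨b, hb⟩
    refine ⟨a + b, ?_⟩
    have e : v + w - (a + b) * (1 - el ℤ s⁻¹) =
        v - a * (1 - el ℤ s⁻¹) + (w - b * (1 - el ℤ s⁻¹)) := by
      rw [add_mul]; abel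
    rw [e]
    exact add_mem ha hb
  · rintro c v _ ⟨a, ha⟩
    refine ⟨c * a, ?_⟩
    have e : c • v - c * a * (1 - el ℤ s⁻¹) = c * (v - a * (1 - el ℤ s⁻¹)) := by
      rw [smul_eq_mul, mul_sub c v, mul_assoc]
    rw [e]
    exact (LI ℤ B).mul_mem_left c ha

end TRL

theorem thm_TRL (hLIS : St_LIS) (hLIZ : St_LIZ) : St_TRL := by
  intro S _ R π s B hs hB hconj hgen
  obtain ⟨x₀, hx₀⟩ := R.e_surj 1
  obtain ⟨κ₀, h0⟩ := gfg_beta R
  -- the map to the quotient by the left ideal of `B`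
  let c : ZG S := 1 - el ℤ s⁻¹
  let ψ : ZG S →ₗ[ZG S] (ZG S ⧸ (LI ℤ B : Submodule (ZG S) (ZG S))) :=
    (LI ℤ B : Submodule (ZG S) (ZG S)).mkQ ∘ₗ LinearMap.toSpanSingleton (ZG S) (ZG S) c
  have hψ : ∀ a : ZG S, ψ a = (LI ℤ B : Submodule (ZG S) (ZG S)).mkQ (a * c) := fun a => rfl
  let χ : R.P1 →ₗ[ZG S] (ZG S ⧸ (LI ℤ B : Submodule (ZG S) (ZG S))) :=
    (LI ℤ B : Submodule (ZG S) (ZG S)).mkQ ∘ₗ κ₀ ∘ₗ R.d1
  have hχ : ∀ z, χ z = (LI ℤ B : Submodule (ZG S) (ZG S)).mkQ (κ₀ (R.d1 z)) := fun z => rfl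
  have hmk : ∀ a b : ZG S, (LI ℤ B : Submodule (ZG S) (ZG S)).mkQ a =
      (LI ℤ B : Submodule (ZG S) (ZG S)).mkQ b ↔ a - b ∈ LI ℤ B := fun a b =>
    Submodule.Quotient.eq _
  have hr : ∀ z, χ z ∈ LinearMap.range ψ := by
    intro z
    have h1 : aug ℤ S (κ₀ (R.d1 z)) = 0 := by
      rw [h0]
      exact (R.ex0 _).2 ⟨z, rfl⟩
    obtain ⟨a, ha⟩ := TRL_dec hLIS s B hgen _ h1
    refine ⟨a, ?_⟩
    rw [hψ, hχ]
    exact ((hmk _ _).2 ha).symm
  obtain ⟨κ₁, hκ₁⟩ := Module.projective_lifting_property ψ.rangeRestrict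
    (χ.codRestrict (LinearMap.range ψ) hr) ψ.surjective_rangeRestrict
  have h1 : ∀ z, κ₀ (R.d1 z) - κ₁ z * (1 - el ℤ s⁻¹) ∈ LI ℤ B := by
    intro z
    have h2 := congrArg Subtype.val (LinearMap.congr_fun hκ₁ z)
    have h3 : ψ (κ₁ z) = χ z := h2
    rw [hψ, hχ] at h3
    exact (hmk _ _).1 h3.symm
  obtain ⟨t, ht⟩ := TRL_dec hLIS s B hgen (κ₀ x₀ - 1) (by
    rw [map_sub, h0, hx₀, map_one, sub_self])
  refine ⟨κ₀, κ₁, x₀, t, hx₀, h1, ht, fun y => ?_⟩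
  have h2 := h1 (R.d2 y)
  have h3 : R.d1 (R.d2 y) = 0 := (R.ex1 _).2 ⟨y, rfl⟩
  rw [h3, map_zero, zero_sub] at h2
  exact (hLIZ S B).2.2.2 π s hs hB hconj _ (neg_mem_iff.1 h2)

end Pool.Agent.PDT
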