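import Pool.Agent.PDE.All
import Pool.Agent.CPD.KA1
import Pool.Agent.CPD.KAP
import Pool.Agent.PDT.SPF
import Pool.Agent.PDT.NST
import Pool.Agent.PDT.HYP
import Pool.Agent.PDT.CNJ
import Pool.Agent.PDT.PNG
import Pool.Agent.PDT.EQL
import Pool.Agent.PDT.NRM
import Pool.Agent.PDT.CFI
import Pool.Agent.PDT.CYC
import Pool.Agent.PDT.END
import Pool.Agent.PDT.ODI
import Pool.Agent.PDT.DFI
import Pool.Agent.PDT.HL1
import Pool.Agent.PDT.FDB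
import Pool.Agent.PDT.DUH
import Pool.Agent.PDT.SER
import Pool.Agent.PDT.HL2
import Pool.Agent.PDT.LIZ
import Pool.Agent.PDT.TRL
import Pool.Agent.PDT.TRF
import Pool.Agent.PDT.NB
import Pool.Agent.PDT.SPL
import Pool.Agent.PDT.H2K
import Pool.Agent.PDT.HM2
import Pool.Agent.PDT.HKK
import Pool.Agent.PDT.CNT
import Pool.Agent.PDT.RFK
import Pool.Agent.PDT.BTR
import Pool.Agent.PDT.BTI
import Pool.Agent.PDT.TFA
import Pool.Agent.PDT.BSC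
import Pool.Agent.PDT.B1K
import Pool.Agent.PDT.SPK
import Pool.Agent.PDT.CAZ
import Pool.Agent.PDT.KEY
import Pool.Agent.PDT.FIS
import Pool.Agent.PDT.FNT
import Pool.Agent.PDT.FIB
import Pool.Agent.PDT.MDT

/-!
# PDT: the assembly of all modules
-/

set_option autoImplicit false

namespace Pool.Agent.PDT

open Pool.Agent.PDA Pool.Agent.PDB Pool.Agent.PDE

theorem pf_END : St_END :=
  thm_END thm_SPF thm_NST thm_HYP (thm_PNG thm_SPF (thm_CNJ thm_SPF)) (thm_EQL thm_SPF) thm_NRM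
    (thm_CFI thm_SPF) thm_CYC

theorem pf_DFI : St_DFI := thm_DFI thm_ODI

theorem pf_HL2 : St_HL2 := thm_HL2 (thm_DUH thm_FDB) thm_SER

theorem pf_LIZ : St_LIZ := thm_LIZ thm_LIQ

theorem pf_NB : St_NB :=
  thm_NB (thm_TRL thm_LIS pf_LIZ) (thm_TRF (thm_HL1 pf_DFI) pf_HL2 pf_LIZ) pf_LIZ

theorem pf_HKK : St_HKK :=
  thm_HKK (thm_H2K (thm_SPL thm_FDB) pf_HL2) thm_HM2 thm_FRE thm_BDR

theorem pf_TFA : St_TFA :=
  thm_TFA thm_TOP (thm_RLZ pf_STR thm_FRE thm_SCH thm_BDR) (thm_BAS thm_BDR) (thm_TF0 thm_BDR)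

theorem pf_KEY : St_KEY :=
  thm_KEY pf_RPJ (thm_RFK thm_CNT) (thm_FG3 thm_BDR) (thm_BTI thm_BTR) (thm_BSC pf_TFA pf_BSX)
    (Pool.Agent.CPD.KAP Pool.Agent.CPD.KA1) (thm_B1K thm_BDR) pf_SCF pf_TFA pf_END (thm_SPK pf_DFI thm_BDR)
    (thm_CAZ pf_BSX)

theorem pf_FIB : St_FIB :=
  thm_FIB thm_TOP thm_GFG (thm_FG2 thm_FG1 thm_FRE thm_HOM thm_BDR) (thm_FG3 thm_BDR) pf_SCF
    pf_TFA pf_END pf_NB pf_HKK pf_KEY
    (thm_FNT thm_TOP pf_BSX pf_ABK pf_KLE thm_PZ3 thm_PZF thm_PZV)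

theorem pf_MDT : St_MDT := thm_MDT thm_TOP thm_WCH (thm_FIS thm_FG1 thm_FRE) pf_FIB thm_VPF

end Pool.Agent.PDT
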