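import Pool.Agent.PDT.StC

/-! PDT, module BSC: no relation `g u g⁻¹ = u^N`, `N ≥ 2`, in a `PD_3`-group. -/

set_option autoImplicit false

namespace Pool.Agent.PDT

open Pool.Agent.PDA Pool.Agent.PDB Pool.Agent.PDE Subgroup

section BSC

variable {K : Type} [Group K]

/-- `h u^(N^a) h⁻¹ = u^(N^b)` -/
private def BSC_Q (u : K) (N : ℕ) (h : K) (a b : ℕ) : Prop :=
  h * u ^ (N ^ a) * h⁻¹ = u ^ (N ^ b)

private lemma BSC_Q_mul {u : K} {N : ℕ} {h h' : K} {a b a' b' : ℕ} (H : BSC_Q u N h a b)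
    (H' : BSC_Q u N h' a' b') : BSC_Q u N (h * h') (a + a') (b + b') := by
  unfold BSC_Q at *
  have e1 : h * h' * u ^ N ^ (a + a') * (h * h')⁻¹ =
      h * (h' * u ^ N ^ a' * h'⁻¹) ^ N ^ a * h⁻¹ := by
    rw [conj_pow, ← pow_mul, ← pow_add, add_comm a' a]
    group
  have e2 : h * (u ^ N ^ b') ^ N ^ a * h⁻¹ = (h * u ^ N ^ a * h⁻¹) ^ N ^ b' := by
    rw [conj_pow, ← pow_mul, ← pow_mul, mul_comm]
  rw [e1, H', e2, H, ← pow_mul, ← pow_add]

private lemma BSC_Q_inv {u : K} {N : ℕ} {h : K} {a b : ℕ} (H : BSC_Q u N h a b) :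
    BSC_Q u N h⁻¹ b a := by
  unfold BSC_Q at *
  rw [← H]
  group

private lemma BSC_Q_uni {u : K} {N : ℕ} (hN : 2 ≤ N) (hu : ∀ m n : ℕ, u ^ m = u ^ n → m = n)
    {h : K} {a b a' b' : ℕ} (H : BSC_Q u N h a b) (H' : BSC_Q u N h a' b') :
    b + a' = b' + a := by
  unfold BSC_Q at *
  have e1 : h * u ^ N ^ (a + a') * h⁻¹ = u ^ N ^ (b + a') := by
    rw [pow_add N a a', pow_mul, ← conj_pow, H, ← pow_mul, ← pow_add]
  have e2 : h * u ^ N ^ (a + a') * h⁻¹ = u ^ N ^ (b' + a) := by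
    rw [add_comm a a', pow_add N a' a, pow_mul, ← conj_pow, H', ← pow_mul, ← pow_add]
  exact Nat.pow_right_injective hN (hu _ _ (e1.symm.trans e2))

private lemma BSC_rel {g u : K} {N : ℕ} (hr : g * u * g⁻¹ = u ^ N) (k : ℕ) (i : ℤ) :
    g ^ k * u ^ i * (g ^ k)⁻¹ = u ^ (i * (N : ℤ) ^ k) := by
  induction k with
  | zero => simp
  | succ k ih =>
    have e1 : g ^ (k + 1) * u ^ i * (g ^ (k + 1))⁻¹ = g * (g ^ k * u ^ i * (g ^ k)⁻¹) * g⁻¹ := by
      rw [pow_succ']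
      group
    rw [e1, ih, ← conj_zpow, hr, ← zpow_natCast, ← zpow_mul, pow_succ]
    congr 1
    ring

private lemma BSC_rel' {g u : K} {N : ℕ} (hr : g * u * g⁻¹ = u ^ N) (k : ℕ) (i : ℤ) :
    g ^ k * u ^ i = u ^ (i * (N : ℤ) ^ k) * g ^ k := by
  rw [← BSC_rel hr k i]
  group

private lemma BSC_form {g u : K} {N : ℕ} (hr : g * u * g⁻¹ = u ^ N) {h : K}
    (hh : h ∈ closure ({g, u} : Set K)) :
    ∃ (n m : ℕ) (i : ℤ), h = (g ^ n)⁻¹ * u ^ i * g ^ m := by
  induction hh using Subgroup.closure_induction with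
  | mem x hx =>
    rcases hx with rfl | hx
    · exact ⟨0, 1, 0, by simp⟩
    · rw [Set.mem_singleton_iff] at hx
      exact ⟨0, 0, 1, by simp [hx]⟩
  | one => exact ⟨0, 0, 0, by simp⟩
  | inv x _ hx =>
    obtain ⟨n, m, i, rfl⟩ := hx
    exact ⟨m, n, -i, by group⟩
  | mul x y _ _ hx hy =>
    obtain ⟨n, m, i, rfl⟩ := hx
    obtain ⟨n', m', i', rfl⟩ := hy
    rcases le_total n' m with hle | hle
    · obtain ⟨k, rfl⟩ := Nat.exists_eq_add_of_le hle
      refine ⟨n, k + m', i + i' * (N : ℤ) ^ k, ?_⟩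
      have e1 : (g ^ n)⁻¹ * u ^ i * g ^ (n' + k) * ((g ^ n')⁻¹ * u ^ i' * g ^ m') =
          (g ^ n)⁻¹ * u ^ i * (g ^ k * u ^ i') * g ^ m' := by
        rw [pow_add, ← pow_mul_comm g k n']
        group
      rw [e1, BSC_rel' hr, zpow_add, pow_add]
      group
    · obtain ⟨k, rfl⟩ := Nat.exists_eq_add_of_le hle
      refine ⟨n + k, m', i * (N : ℤ) ^ k + i', ?_⟩
      have e1 : (g ^ n)⁻¹ * u ^ i * g ^ m * ((g ^ (m + k))⁻¹ * u ^ i' * g ^ m') =
          (g ^ n)⁻¹ * (g ^ k)⁻¹ * (g ^ k * u ^ i) * (g ^ k)⁻¹ * u ^ i' * g ^ m' := by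
        rw [pow_add]
        group
      rw [e1, BSC_rel' hr, zpow_add, pow_add g n k, ← pow_mul_comm g k n, mul_inv_rev]
      group

end BSC

theorem thm_BSC (hTFA : St_TFA) (hBSX : St_BSX) : St_BSC := by
  intro G _ hG K _ j hj g u N hN hr
  by_contra hne
  have htf : TorFree K := hTFA G hG K j hj
  have hinf : ∀ n : ℕ, 0 < n → u ^ n ≠ 1 := fun n hn h => hne (htf u n hn h)
  have hu : ∀ m n : ℕ, u ^ m = u ^ n → m = n := by
    have aux : ∀ m n : ℕ, m ≤ n → u ^ m = u ^ n → m = n := by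
      intro m n hle h
      obtain ⟨k, rfl⟩ := Nat.exists_eq_add_of_le hle
      rw [pow_add, left_eq_mul] at h
      by_contra hcon
      exact hinf k (by omega) h
    intro m n h
    rcases le_total m n with hle | hle
    · exact aux m n hle h
    · exact (aux n m hle h.symm).symm
  have hQg : BSC_Q u N g 0 1 := by
    unfold BSC_Q
    rw [pow_zero, pow_one, pow_one, hr]
  have hQu : BSC_Q u N u 0 0 := by
    unfold BSC_Q
    rw [pow_zero, pow_one]
    group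
  have hQ1 : BSC_Q u N 1 0 0 := by
    unfold BSC_Q
    rw [pow_zero, pow_one]
    group
  have hQgn : ∀ n : ℕ, BSC_Q u N (g ^ n) 0 n := by
    intro n
    induction n with
    | zero => rw [pow_zero]; exact hQ1
    | succ n ih =>
      rw [pow_succ]
      exact BSC_Q_mul ih hQg
  have hQun : ∀ i : ℤ, BSC_Q u N (u ^ i) 0 0 := by
    intro i
    unfold BSC_Q
    rw [pow_zero, pow_one]
    group
  have hQf : ∀ (n m : ℕ) (i : ℤ), BSC_Q u N ((g ^ n)⁻¹ * u ^ i * g ^ m) n m := by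
    intro n m i
    have h1 := BSC_Q_mul (BSC_Q_mul (BSC_Q_inv (hQgn n)) (hQun i)) (hQgn m)
    have e1 : n + 0 + 0 = n := by omega
    have e2 : 0 + 0 + m = m := by omega
    rw [e1, e2] at h1
    exact h1
  set H : Subgroup K := closure ({g, u} : Set K) with hH
  have hex : ∀ h : H, ∃ ab : ℕ × ℕ, BSC_Q u N (h : K) ab.1 ab.2 := by
    intro h
    obtain ⟨n, m, i, e⟩ := BSC_form hr h.2
    exact ⟨(n, m), by rw [e]; exact hQf n m i⟩
  choose ab hab using hex
  have huni : ∀ (h : H) (a b : ℕ), BSC_Q u N (h : K) a b →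
      ((ab h).2 : ℤ) - (ab h).1 = (b : ℤ) - a := by
    intro h a b hh
    have := BSC_Q_uni hN hu (hab h) hh
    omega
  let π : H →* Multiplicative ℤ :=
    { toFun := fun h => Multiplicative.ofAdd (((ab h).2 : ℤ) - (ab h).1)
      map_one' := by
        rw [huni 1 0 0 hQ1]
        rfl
      map_mul' := by
        intro x y
        rw [huni (x * y) _ _ (BSC_Q_mul (hab x) (hab y)), ← ofAdd_add]
        congr 1
        push_cast
        ring }
  have hπ : ∀ h : H, π h = Multiplicative.ofAdd (((ab h).2 : ℤ) - (ab h).1) := fun _ => rfl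
  have hgH : g ∈ H := subset_closure (by simp)
  have huH : u ∈ H := subset_closure (by simp)
  have hBS : BSData H π ⟨u, huH⟩ ⟨g, hgH⟩ (N : ℤ) := by
    refine ⟨?_, ?_, ?_, ?_, ?_⟩
    · rw [hπ, huni ⟨g, hgH⟩ 0 1 hQg]
      rfl
    · rw [hπ, huni ⟨u, huH⟩ 0 0 hQu]
      rfl
    · intro h hh
      obtain ⟨n, m, i, e⟩ := BSC_form hr h.2
      have h1 := huni h n m (by rw [e]; exact hQf n m i)
      rw [hπ, h1] at hh
      have h2 : (m : ℤ) - n = 0 := by
        have := congrArg Multiplicative.toAdd hh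
        rwa [toAdd_ofAdd, toAdd_one] at this
      have h3 : m = n := by omega
      refine ⟨n, i, Subtype.ext ?_⟩
      show g ^ n * (h : K) * (g ^ n)⁻¹ = u ^ i
      rw [e, h3]
      group
    · intro n hn h
      exact hinf n hn (congrArg Subtype.val h)
    · refine Subtype.ext ?_
      show g * u * g⁻¹ = u ^ (N : ℤ)
      rw [hr, zpow_natCast]
  have h1 := hBSX G hG H (j.comp H.subtype) (hj.comp Subtype.val_injective) π ⟨u, huH⟩ ⟨g, hgH⟩
    (N : ℤ) hBS
  rw [Nat.abs_cast] at h1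
  omega

end Pool.Agent.PDT
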