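import Pool.Agent.PDE.StG
import Pool.Agent.PDB.St2

/-!
# PDT: `PD_3`-groups without nonabelian free subgroups and with a homomorphism onto `ℤ` (MP_add920_al)

Architect helper93.  THEOREM: a subgroup `H` of finite index in a `PD_3`-group which has no nonabelian
free subgroup and a subgroup of finite index with a nontrivial homomorphism to `ℤ` is virtually
poly-`ℤ`.  Definitions; the modules are in `StA.lean` (ends of groups), `StB.lean` (the base of the
ascending HNN extension is normal), `StC.lean` (the normal base, assembly).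

CONVENTIONS. Left modules. `S` is a group, `π : S → ℤ` a homomorphism, `hgt π g ∈ ℤ` the height of `g`.
A linear map `f : P → ℤ[S]` is the same thing as an additive map `l : P → ℤ` such that for every `x`
only finitely many `g` have `l(g x) ≠ 0`: `l(x) = f(x)_1` and `f(x)_g = l(g⁻¹ x)`. Then
`l(g x) = f(x)_{g⁻¹}`, and `rm f k` (`x ↦ f(x) k`) corresponds to `x ↦ l(k x)`.
-/

set_option autoImplicit false
set_option linter.unusedVariables false

namespace Pool.Agent.PDT

open Pool.Agent.PDA Pool.Agent.PDB Pool.Agent.PDE Subgroup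

/-! ## ends -/

section ends

variable {C : Type} [Group C]

/-- `A` is almost invariant: it differs from every right translate in a finite set only -/
def AI (A : Set C) : Prop := ∀ s : C, {g : C | ¬ (g ∈ A ↔ g * s ∈ A)}.Finite

variable (C) in
/-- almost invariant sets are finite or have finite complement (at most one end) -/
def OneEnd : Prop := ∀ A : Set C, AI A → A.Finite ∨ Aᶜ.Finite

/-- `A₁` is `A` or the complement of `A` -/
def Side (A A₁ : Set C) : Prop := A₁ = A ∨ A₁ = Aᶜ

/-- the nesting property: for `u ∉ W` and `A₁`, `A₂` each one of `A`, `Aᶜ`, with `u ∉ A₁`, `u⁻¹ ∉ A₂`: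
`A₁ ∩ u A₂ = ∅`; and `u A ≠ Aᶜ` for `u ∉ W` -/
structure Nst (A W : Set C) : Prop where
  fin : W.Finite
  nest : ∀ u ∉ W, ∀ A₁ A₂ : Set C, Side A A₁ → Side A A₂ → u ∉ A₁ → u⁻¹ ∉ A₂ →
    ∀ x ∈ A₁, u⁻¹ * x ∉ A₂
  ne : ∀ u ∉ W, ∃ x, ¬ (x ∈ A ↔ u * x ∉ A)

/-- `g A` is properly contained in `A` -/
def Hyp (g : C) (A : Set C) : Prop := (∀ x ∈ A, g * x ∈ A) ∧ ∃ x ∈ A, g⁻¹ * x ∉ A

end ends

/-! ## heights -/

section heights

variable {S : Type} [Group S]

/-- the height -/
def hgt (π : S →* Multiplicative ℤ) (g : S) : ℤ := Multiplicative.toAdd (π g)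

/-- an ascending HNN extension with stable letter `s`, `π s = 1`, and finitely generated infinite base
`B` with one end, `s B s⁻¹ ≤ B`; every element of `ker π` is conjugated into `B` by a power of `s` -/
structure Asc (π : S →* Multiplicative ℤ) (s : S) (B : Subgroup S) : Prop where
  pis : π s = Multiplicative.ofAdd 1
  le : B ≤ π.ker
  conj : ∀ u ∈ B, s * u * s⁻¹ ∈ B
  asc : ∀ g ∈ π.ker, ∃ m : ℕ, s ^ m * g * (s ^ m)⁻¹ ∈ B
  fg : Group.FG B
  inf : Infinite B
  one : OneEnd B

variable {P : Type} [AddCommGroup P] [Module (ZG S) P]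

/-- for all `x`, `c` only finitely many `g` of height `≥ c` have `l(g x) ≠ 0` -/
def Hi (π : S →* Multiplicative ℤ) (l : P →+ ℤ) : Prop :=
  ∀ (x : P) (c : ℤ), {g : S | c ≤ hgt π g ∧ l (el ℤ g • x) ≠ 0}.Finite

/-- for all `x`, `c` only finitely many `g` of height `c` have `l(g x) ≠ 0` -/
def Fb (π : S →* Multiplicative ℤ) (l : P →+ ℤ) : Prop :=
  ∀ (x : P) (c : ℤ), {g : S | hgt π g = c ∧ l (el ℤ g • x) ≠ 0}.Finite

/-- `A` raises the height: `A u_k = ∑_l a_kl u_l` for a finite generating family `u`, and all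
elements of the supports of the `a_kl` have height `≥ 1` -/
def Rai (π : S →* Multiplicative ℤ) (A : P →ₗ[ZG S] P) : Prop :=
  ∃ (n : ℕ) (u : Fin n → P) (a : Fin n → Fin n → ZG S),
    (∀ x : P, ∃ r : Fin n → ZG S, x = ∑ k, r k • u k) ∧
    (∀ k, A (u k) = ∑ l, a k l • u l) ∧ ∀ k l g, (a k l).coeff g ≠ 0 → 1 ≤ hgt π g

/-- the orientation character is trivial -/
def Ori (R : Short S) : Prop := ∀ (f : R.P3 →ₗ[ZG S] ZG S) (g : S), R.θ (rm f g) = R.θ f

/-- the sum of the coefficients of `z` over the left coset `g B` -/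
noncomputable def sg (B : Subgroup S) (g : S) (z : ZG S) : ℤ := ∑ᶠ b : B, z.coeff (g * (b : S))

end heights

/-! ## the second cohomology of a group with coefficients in its group ring -/

section twod

variable {K : Type} [Group K] {d : ℕ}

/-- the map `φ` from the relation module extends to a linear map `ℤ[K]^d → ℤ[K]` -/
def Ext2 (x : Fin d → K) (φ : Rel ℤ x → ZG K) : Prop :=
  ∃ v : Fin d → ZG K, ∀ y : Rel ℤ x, φ y = ∑ i, (y : Fin d → ZG K) i * v i

/-- `H^2(K; ℤ[K]) = ℤ`, generated by the class of `φ`, with the trivial right action of `K` -/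
structure TwoD (x : Fin d → K) (φ : Rel ℤ x →ₗ[ZG K] ZG K) : Prop where
  gen : ∀ L : Rel ℤ x →ₗ[ZG K] ZG K, ∃ c : ℤ, Ext2 x (fun y => L y - c • φ y)
  inf : ∀ n : ℤ, Ext2 x (fun y => n • φ y) → n = 0
  tri : ∀ k : K, Ext2 x (fun y => φ y * el ℤ k - φ y)

end twod

/-! ## finite index -/

/-- the hypothesis of [FIN] on `B`: trivial, or cyclic-by-infinite cyclic -/
def CbC (B : Type) [Group B] : Prop :=
  Subsingleton B ∨ ∃ (π : B →* Multiplicative ℤ) (x : B), Function.Surjective π ∧ π.ker = zpowers x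

end Pool.Agent.PDT
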