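import Pool.Agent.PDT.StB

/-!
# PDT, module FDB: finite dual bases
-/

set_option autoImplicit false
set_option linter.unusedVariables false

namespace Pool.Agent.PDT

open Pool.Agent.PDA Pool.Agent.PDB Pool.Agent.PDE Subgroup

private theorem fdb_basis (S : Type) [Group S] (P : Type) [AddCommGroup P] [Module (ZG S) P]
    (hF : Module.Finite (ZG S) P) (hP : Module.Projective (ZG S) P) :
    ∃ (n : ℕ) (u : Fin n → P) (f : Fin n → (P →ₗ[ZG S] ZG S)), ∀ x : P, x = ∑ j, f j x • u j := by
  classical
  obtain ⟨n, pp, ii, _, _, hpi⟩ := Module.Finite.exists_comp_eq_id_of_projective (ZG S) P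
  refine ⟨n, fun j => pp (Pi.single j 1), fun j => (LinearMap.proj j) ∘ₗ ii, fun x => ?_⟩
  have h1 : pp (ii x) = x := LinearMap.congr_fun hpi x
  conv_lhs => rw [← h1]
  have h2 : ii x = ∑ j, (ii x j) • (Pi.single j (1 : ZG S) : Fin n → ZG S) := by
    funext k
    rw [Finset.sum_apply, Finset.sum_eq_single k]
    · rw [Pi.smul_apply, Pi.single_eq_same, smul_eq_mul, mul_one]
    · intro b _ hb
      rw [Pi.smul_apply, Pi.single_eq_of_ne (Ne.symm hb), smul_zero]
    · intro h; exact absurd (Finset.mem_univ _) h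
  conv_lhs => rw [h2]
  rw [map_sum]
  refine Finset.sum_congr rfl fun j _ => ?_
  rw [map_smul]
  rfl

/-- right multiplication with an element of the group ring -/
private noncomputable def fdb_rm {S M : Type} [Group S] [AddCommGroup M] [Module (ZG S) M]
    (f : M →ₗ[ZG S] ZG S) (a : ZG S) : M →ₗ[ZG S] ZG S where
  toFun x := f x * a
  map_add' x y := by rw [map_add, add_mul]
  map_smul' c x := by rw [map_smul, smul_eq_mul, mul_assoc, RingHom.id_apply, smul_eq_mul]

private theorem fdb_theta {S : Type} [Group S] (R : Short S) (hO : Ori R)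
    (f : R.P3 →ₗ[ZG S] ZG S) (a : ZG S) : R.θ (fdb_rm f a) = aug ℤ S a * R.θ f := by
  induction a using MonoidAlgebra.induction_linear with
  | zero =>
    have h : fdb_rm f 0 = 0 := by
      apply LinearMap.ext
      intro x
      show (f x * 0 : ZG S) = 0
      rw [mul_zero]
    rw [h, map_zero, map_zero, zero_mul]
  | add x y hx hy =>
    have h : fdb_rm f (x + y) = fdb_rm f x + fdb_rm f y := by
      apply LinearMap.ext
      intro z
      show (f z * (x + y) : ZG S) = f z * x + f z * y
      rw [mul_add]
    rw [h, map_add, map_add, hx, hy, add_mul]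
  | single g n =>
    have h : fdb_rm f (MonoidAlgebra.single g n) = n • rm f g := by
      apply LinearMap.ext
      intro z
      show (f z * MonoidAlgebra.single g n : ZG S) = n • (f z * el ℤ g)
      have h1 : (MonoidAlgebra.single g n : ZG S) = n • el ℤ g := by
        rw [el, MonoidAlgebra.of_apply, MonoidAlgebra.smul_single, smul_eq_mul, mul_one]
      rw [h1, mul_smul_comm]
    rw [h, map_zsmul, hO, smul_eq_mul]
    congr 1
    rw [aug, MonoidAlgebra.lift_single]
    simp

theorem thm_FDB : St_FDB := by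
  refine ⟨fun S _ P _ _ hF hP => fdb_basis S P hF hP, fun S _ R hO => ?_⟩
  obtain ⟨n, u, f, huf⟩ := fdb_basis S R.P3 inferInstance inferInstance
  refine ⟨∑ j, R.θ (f j) • u j, fun F => ?_⟩
  have h1 : F = ∑ j, fdb_rm (f j) (F (u j)) := by
    apply LinearMap.ext
    intro x
    rw [LinearMap.sum_apply]
    conv_lhs => rw [huf x, map_sum]
    refine Finset.sum_congr rfl fun j _ => ?_
    rw [map_smul]
    rfl
  conv_lhs => rw [h1]
  rw [map_sum, map_sum, map_sum]
  refine Finset.sum_congr rfl fun j _ => ?_
  rw [fdb_theta R hO, map_zsmul, map_zsmul, smul_eq_mul, mul_comm]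

end Pool.Agent.PDT
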