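import Pool.Agent.PDT.StA

/-!
# PDT: statements B, the base of the HNN extension is normal

Every `def St_X : Prop` is a module; its docstring is the proof. Prove it in a file
`Pool/Agent/PDT/X.lean` as `theorem thm_X : St_X` (namespace `Pool.Agent.PDT`); modules it uses are
hypotheses `(h : St_Y)`.

THEOREM [NB]: let `S` have a `Short S` with trivial orientation character. If `Asc π s B` (the base `B`
is infinite with one end) then `s⁻¹ B s ≤ B`.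

`Hi π l`: for all `x`, `c` only finitely many `g` with `hgt π g ≥ c` have `l(g x) ≠ 0`.
Levels of elements of `ℤ[S]` are the heights of the elements of the support.
-/

set_option autoImplicit false
set_option linter.unusedVariables false

namespace Pool.Agent.PDT

open Pool.Agent.PDA Pool.Agent.PDB Pool.Agent.PDE Subgroup

/-! ## derivations -/

/-- [ODI] Derivations of a one-ended group with values in finitely supported functions are inner.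
PROOF. Uniqueness: the difference `m` of two solutions satisfies `m(b⁻¹ y) = m(y)`, is finitely supported,
and `B` is infinite, so `m = 0`. Existence: Let `b₁, …, b_r` generate `B`; let `T ⊆ S` be the finite set of the
`y` with some `δ(b_i)(y) ≠ 0`. If `B y` does not meet `T` then `δ(b)(y') = 0` for all `b ∈ B`, `y' ∈ B y`
(the set of the `b` with `δ(b) = 0` on `B y` is a subgroup). So only finitely many cosets `B y` matter; put
`m = 0` on the others. On a coset `B y₀` (a fixed representative `y₀`) let `φ(u) = - δ(u)(u y₀)`, `u ∈ B`.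
`δ(u)(u y₀) = δ(b)(u y₀) + δ(b⁻¹ u)(b⁻¹ u y₀)`, so `δ(b)(u y₀) = φ(b⁻¹ u) - φ(u)`. Let `ψ(u) = φ(u⁻¹)`: for every
`b` `{u | ψ(u b) ≠ ψ(u)}` is finite. So for every value `c` the set `A_c = {u | ψ(u) = c}` is `AI`, hence
finite or with finite complement. `ψ` has finitely many values: let `D` be the finite set of the `u` with
`ψ(u b_i^(±1)) ≠ ψ(u)` for some `i`; a nonempty `A_c` disjoint from `D` is stable under the `b_i^(±1)`, so it is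
everything. Since `B` is infinite some `A_c` is infinite, so `ψ = c` off a finite set, and
`m(u y₀) = φ(u) - c` is finitely supported with `δ(b)(y) = m(b⁻¹ y) - m(y)` on `B y₀`. -/
def St_ODI : Prop := ∀ (S : Type) [Group S] (B : Subgroup S), Group.FG B → Infinite B → OneEnd B →
  ∀ δ : B → S → ℤ, (∀ (b c : B) (y : S), δ (b * c) y = δ b y + δ c ((b : S)⁻¹ * y)) →
  (∀ b, {y : S | δ b y ≠ 0}.Finite) →
  ∃! m : S → ℤ, {y : S | m y ≠ 0}.Finite ∧ ∀ (b : B) (y : S), δ b y = m ((b : S)⁻¹ * y) - m y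

/-- [DFI] Derivations with fibrewise finite values are inner.
PROOF (from `St_ODI`). `S` is generated by `s` and `B` (`π g = n`: `g s^(-n) ∈ ker π`, `Asc.asc`). Write
`(g f)(y) = f(g⁻¹ y)`; `D(g h) = D(g) + g D(h)`. The heights are invariant under left multiplication with
`B`, so `St_ODI`, applied to `D` restricted to `B` and to every level `{y | hgt π y = n}`, gives a unique
fibrewise finite `m : S → ℤ` with `D(b) = b m - m` for all `b ∈ B`. For `k ∈ B` let `b = s k s⁻¹ ∈ B`: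
`D(s) + s D(k) = D(s k) = D(b s) = D(b) + b D(s)`, so `s D(k) = b (m + D(s)) - (m + D(s))`, and, with
`m' = s⁻¹ (m + D(s))` (fibrewise finite), `D(k) = s⁻¹ b s m' - m' = k m' - m'`. By uniqueness `m' = m`, i.e.
`D(s) = s m - m`. The set of the `g` with `D(g) = g m - m` is a subgroup, so it is `S`. Last claim: let
`b₁, …, b_r` generate `B` and suppose that all `D(b_i)` vanish on the levels `≤ c`, which holds for some `c`.
On a level `n ≤ c` `m` is invariant under the `b_i`, hence under `B`, and finitely supported; `B` is infinite,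
so `m = 0` on the levels `≤ c`. -/
def St_DFI : Prop := ∀ (S : Type) [Group S] (π : S →* Multiplicative ℤ) (s : S) (B : Subgroup S),
  Asc π s B → ∀ D : S → S → ℤ, (∀ g h y : S, D (g * h) y = D g y + D h (g⁻¹ * y)) →
  (∀ (g : S) (c : ℤ), {y : S | hgt π y = c ∧ D g y ≠ 0}.Finite) →
  ∃ m : S → ℤ, (∀ c : ℤ, {y : S | hgt π y = c ∧ m y ≠ 0}.Finite) ∧
    (∀ g y : S, D g y = m (g⁻¹ * y) - m y) ∧
    ((∀ (g : S) (c : ℤ), {y : S | hgt π y ≤ c ∧ D g y ≠ 0}.Finite) →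
      ∀ c : ℤ, {y : S | hgt π y ≤ c ∧ m y ≠ 0}.Finite)

/-- [HL1] Cocycles of degree one.
PROOF (from `St_DFI`). `l` kills `ker d1 = range d2`, so `l = l' ∘ d1` with `l' : ker e → ℤ` additive. Let
`e x_0 = 1` and `D(g)(y) = l'(y⁻¹ (g - 1) x_0)`. `D(g h)(y) = l'(y⁻¹ (g - 1) x_0) + l'(y⁻¹ g (h - 1) x_0) =
D(g)(y) + D(h)(g⁻¹ y)`. Choose `y_g` with `d1 y_g = (g - 1) x_0`; `D(g)(y) = l(y⁻¹ y_g)`, so
`{y | hgt y ≤ c ∧ D g y ≠ 0}` is finite for all `c` (`hgt y⁻¹ ≥ -c`). `St_DFI`: `m`. Define `c : P0 → ℤ` by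
`c(v + n x_0) = l'(v) + n m(1)`, `v ∈ ker e`, `n ∈ ℤ` (`P0 = ker e ⊕ ℤ x_0`). `l = c ∘ d1`, and
`c(g x_0) = D(g)(1) + m(1) = m(g⁻¹)`. For `x ∈ P0` write `x = d1 z + e(x) x_0`: `c(g x) = l(g z) + e(x) m(g⁻¹)`,
so `Hi π c`. -/
def St_HL1 : Prop := ∀ (S : Type) [Group S] (R : Short S) (π : S →* Multiplicative ℤ) (s : S)
  (B : Subgroup S), Asc π s B → ∀ l : R.P1 →+ ℤ, Hi π l → (∀ x, l (R.d2 x) = 0) →
  ∃ c : R.P0 →+ ℤ, Hi π c ∧ ∀ x, l x = c (R.d1 x)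

/-! ## duality: contracting in high degrees -/

/-- [FDB] Finite dual bases, and the element `q`.
PROOF. (1) `P` finitely generated and projective: a surjection `ℤ[S]^n → P` splits (compare
`Pool/Agent/PDA/STR.lean`). (2) Let `x = ∑_j f_j(x) u_j` be a dual basis of `P3` and `q = ∑_j θ(f_j) u_j`. For
`f : P3 → ℤ[S]`: `f(x) = ∑_j f_j(x) f(u_j)`, i.e. `f = ∑_j ∑_g f(u_j)_g rm f_j g`, so
`θ(f) = ∑_j aug(f(u_j)) θ(f_j) = aug(f(q))`. -/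
def St_FDB : Prop := (∀ (S : Type) [Group S] (P : Type) [AddCommGroup P] [Module (ZG S) P],
    Module.Finite (ZG S) P → Module.Projective (ZG S) P → ∃ (n : ℕ) (u : Fin n → P)
      (f : Fin n → (P →ₗ[ZG S] ZG S)), ∀ x : P, x = ∑ j, f j x • u j) ∧
  ∀ (S : Type) [Group S] (R : Short S), Ori R → ∃ q : R.P3, ∀ f : R.P3 →ₗ[ZG S] ZG S,
    R.θ f = aug ℤ S (f q)

/-- [DUH] Homotopies which raise the height.
PROOF (from `St_FDB`, `St_BDR`, `St_LIS` if useful). Dual bases `x = ∑ f_j(x) u_j` of `P3`,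
`x = ∑ F_k(x) v_k` of `P2`. `q` from `St_FDB`, `θ(f_0) = 1`. Let `b₁, …, b_r` generate `B`; `s` and the
`b_i` generate `S`. (i) For every `x ∈ S` there is `y_x : P2 → ℤ[S]` with `f_0(x') (x - 1) = y_x(d3 x')`,
since `θ(rm f_0 x - f_0) = 0`. (ii) `aug(F_k(d3 q)) = θ(F_k ∘ d3) = 0`, so `F_k(d3 q)` is in the augmentation
ideal, which is the right ideal generated by `s - 1` and the `b_i - 1`; so
`d3 q = (s - 1) w + ∑_i (b_i - 1) w_i` with `w, w_i ∈ P2`. (iii) For `c ≥ 0` `s^c (s - 1) = (s - 1) s^c` and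
`s^c (b_i - 1) = (s^c b_i s^(-c) - 1) s^c = ∑_j (b_j - 1) r_ji s^c` with `r_ji ∈ ℤ[B]` (depending on `c`, but
of height `0`). So with `y = y_s`, `y_j = y_(b_j)` and
`A2(z) = y(z) s^c w + ∑_(i,j) y_j(z) r_ji s^c w_i`, a linear map `P2 → P2`, `A3(x) = f_0(x) s^c q`,
a linear map `P3 → P3`, `A2(d3 x) = f_0(x) s^c d3 q = d3(A3 x)`. (iv) The coefficients of
`A2 v_k = ∑_l F_l(A2 v_k) v_l`, namely `y(v_k) s^c F_l(w) + ∑ y_j(v_k) r_ji s^c F_l(w_i)`, and of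
`A3 u_k`, namely `f_0(u_k) s^c f_l(q)`, have supports in heights `≥ c - C` with `C` independent of `c`.
Choose `c > C`: `Rai π A2`, `Rai π A3`. (v) `θ(f_j ∘ (1 - A3)) = θ(f_j) - θ(x ↦ f_0(x) s^c f_j(q)) =
θ(f_j) - aug(f_j(q)) θ(f_0) = 0` (`θ(x ↦ f_0(x) a) = aug(a) θ(f_0)` by `Ori`), so `f_j ∘ (1 - A3) = g_j ∘ d3`;
`H2 = ∑ g_j(·) u_j`, `1 - A3 = H2 ∘ d3`. (vi) `(1 - d3 H2 - A2) d3 = d3 - d3 (1 - A3) - d3 A3 = 0`, so
`F_k ∘ (1 - d3 H2 - A2) = h_k ∘ d2` (`Short.h2`) and `H1 = ∑ h_k(·) v_k`, `A2 = 1 - d3 H2 - H1 d2`. -/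
def St_DUH : Prop := ∀ (S : Type) [Group S] (R : Short S), Ori R → ∀ (π : S →* Multiplicative ℤ)
  (s : S) (B : Subgroup S), π s = Multiplicative.ofAdd 1 → B ≤ π.ker → (∀ u ∈ B, s * u * s⁻¹ ∈ B) →
  Group.FG B → closure (insert s (B : Set S)) = ⊤ →
  ∃ (H2 : R.P2 →ₗ[ZG S] R.P3) (H1 : R.P1 →ₗ[ZG S] R.P2), Rai π (LinearMap.id - H2 ∘ₗ R.d3) ∧
    Rai π (LinearMap.id - R.d3 ∘ₗ H2 - H1 ∘ₗ R.d2)

/-- [SER] The geometric series of a map which raises the height.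
PROOF. `u_k`, `a_kl` from `Rai`. For `x = ∑ r_k u_k`: `A^n x = ∑_k α_(n,k) u_k` with `α_n = r a^n`
(row vector times matrix power), whose supports have heights `≥ n - C` if those of the `r_k` have heights
`≥ -C`. (1) For fixed `x` and `c` there are only finitely many pairs `(n, g)` with `hgt g ≥ c` and
`l(g A^n x) ≠ 0`: `l(g A^n x) = ∑_k ∑_h α_(n,k)(h) l(g h u_k)` and `hgt(g h) ≥ c + n - C ≥ c - C`. By `Hi`
the set `Φ` of the `g'` with `hgt g' ≥ c - C` and `l(g' u_k) ≠ 0` for some `k` is finite; `hgt g' < T` on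
`Φ`. So `n < T - c + C`: finitely many `n`; for every such `n` `g ∈ Φ h⁻¹` with `h` in the finite support of
the `α_(n,k)`. (2) `N(x) = ∑_n l(A^n x)` (a finite sum by (1), `g = 1`) is additive (`finsum_add_distrib`),
`Hi π N` by (1), `N(x) = l(x) + N(A x)`. (3) `∑_(b ∈ B) N(b x) = ∑_b ∑_n l(b A^n x) = ∑_n ∑_b l(b A^n x) = 0`
(finitely many pairs `(n, b)` by (1) with `c = 0`). -/
def St_SER : Prop := ∀ (S : Type) [Group S] (π : S →* Multiplicative ℤ) (P : Type) [AddCommGroup P]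
  [Module (ZG S) P] (A : P →ₗ[ZG S] P), Rai π A → ∀ l : P →+ ℤ, Hi π l →
  ∃ N : P →+ ℤ, Hi π N ∧ (∀ x, N x - N (A x) = l x) ∧
    (∀ x, (∀ n : ℕ, l ((A ^ n) x) = 0) → N x = 0) ∧
    ∀ B : Subgroup S, B ≤ π.ker → (∀ x, ∑ᶠ b : B, l (el ℤ (b : S) • x) = 0) →
      ∀ x, ∑ᶠ b : B, N (el ℤ (b : S) • x) = 0

/-- [HL2] Cocycles of degree two and three with values in the functions of type `Hi` are coboundaries.
PROOF (from `St_DUH`, `St_SER`). `H2`, `H1`, `A3 = 1 - H2 d3`, `A2 = 1 - d3 H2 - H1 d2`; `A2 d3 = d3 A3`. (1) `l`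
on `P2`, `l ∘ d3 = 0`: `N` from `St_SER` (`A2`, `l`). `l(A2^n d3 x) = l(d3 A3^n x) = 0`, so `N ∘ d3 = 0`, and
`l = N - N A2 = N (d3 H2 + H1 d2) = m ∘ d2` with `m = N ∘ H1`. `Hi π m` (`H1` is linear). The last claim:
`∑_b N(H1(b x)) = ∑_b N(b H1(x)) = 0`. (2) `l` on `P3`: `N` from `St_SER` (`A3`, `l`),
`l = N - N A3 = N H2 d3`, `m = N ∘ H2`. -/
def St_HL2 : Prop := ∀ (S : Type) [Group S] (R : Short S), Ori R → ∀ (π : S →* Multiplicative ℤ)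
  (s : S) (B : Subgroup S), π s = Multiplicative.ofAdd 1 → B ≤ π.ker → (∀ u ∈ B, s * u * s⁻¹ ∈ B) →
  Group.FG B → closure (insert s (B : Set S)) = ⊤ →
  (∀ l : R.P2 →+ ℤ, Hi π l → (∀ x, l (R.d3 x) = 0) → ∃ m : R.P1 →+ ℤ, Hi π m ∧
    (∀ x, l x = m (R.d2 x)) ∧ ((∀ x, ∑ᶠ b : B, l (el ℤ (b : S) • x) = 0) →
      ∀ x, ∑ᶠ b : B, m (el ℤ (b : S) • x) = 0)) ∧
  ∀ l : R.P3 →+ ℤ, Hi π l → ∃ m : R.P2 →+ ℤ, Hi π m ∧ ∀ x, l x = m (R.d3 x)

/-! ## the base is normal -/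

/-- [LIZ] Coset sums. `sg B g z = ∑_(b ∈ B) z_(g b)`.
PROOF (from `St_LIQ`). (1) `mapDomain` to `S ⧸ B` at the coset of `g` is `sg B g z`. (2) Sums of finitely
supported functions. (3) Clear. (4) Let `σ(g) = sg B g z`, right invariant under `B`, zero on the levels
`> T` for some `T`. `sg B g (z s⁻¹) = ∑_(b ∈ B) z_(g b s) = ∑ z_x` over `x ∈ g B s = g s (s⁻¹ B s)`, a union of
left cosets `g' B` (`B ≤ s⁻¹ B s`), all of height `hgt g + 1`. The hypothesis says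
`σ(g) = sg B g (z s⁻¹)` for all `g`, which is a finite sum of values `σ(g')`, `hgt g' = hgt g + 1`. So
`σ = 0` by downward induction over the height (or use `St_ASL` over `ℚ`, or its proof over `ℤ`, for
`z s⁻¹`: `(z s⁻¹)(s - 1) = z (1 - s⁻¹)`). -/
def St_LIZ : Prop := ∀ (S : Type) [Group S] (B : Subgroup S),
  (∀ z : ZG S, z ∈ LI ℤ B ↔ ∀ g, sg B g z = 0) ∧
  (∀ (g : S) (z z' : ZG S), sg B g (z + z') = sg B g z + sg B g z') ∧
  (∀ (g h : S) (z : ZG S), sg B g (el ℤ h * z) = sg B (h⁻¹ * g) z) ∧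
  ∀ (π : S →* Multiplicative ℤ) (s : S), π s = Multiplicative.ofAdd 1 → B ≤ π.ker →
    (∀ u ∈ B, s * u * s⁻¹ ∈ B) → ∀ z : ZG S, z * (1 - el ℤ s⁻¹) ∈ LI ℤ B → z ∈ LI ℤ B

/-- [TRL] Comparison with the left ideals `LI ℤ B` and `ℤ[S] (1 - s⁻¹)`.
PROOF (from `St_LIS`, `St_LIZ`). `e x_0 = 1`. `aug : ℤ[S] → Tr ℤ S` is onto and `e : P0 → Tr ℤ S` is linear,
`P0` is projective: `κ₀ : P0 → ℤ[S]` linear with `aug(κ₀ x) = e x`. The augmentation ideal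
`I = LI ℤ ⊤` is `ℤ[S] (1 - s⁻¹) + LI ℤ B` (`St_LIS` 1 for `X = insert s B`; `s - 1 = s (1 - s⁻¹)`).
`aug(κ₀(d1 z)) = 0`, so `κ₀ ∘ d1` has values in `I`; `P1` is projective and
`ℤ[S] × LI ℤ B → I`, `(a, v) ↦ a (1 - s⁻¹) + v` is onto: lift; `κ₁` is the first coordinate. `t`: the element
`κ₀ x_0 - 1` is in `I`. The last claim: `κ₁(d2 y) (1 - s⁻¹) ∈ LI ℤ B` since `d1 (d2 y) = 0`; `St_LIZ` 4. -/
def St_TRL : Prop := ∀ (S : Type) [Group S] (R : Short S) (π : S →* Multiplicative ℤ) (s : S)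
  (B : Subgroup S), π s = Multiplicative.ofAdd 1 → B ≤ π.ker → (∀ u ∈ B, s * u * s⁻¹ ∈ B) →
  closure (insert s (B : Set S)) = ⊤ →
  ∃ (κ₀ : R.P0 →ₗ[ZG S] ZG S) (κ₁ : R.P1 →ₗ[ZG S] ZG S) (x₀ : R.P0) (t : ZG S), R.e x₀ = 1 ∧
    (∀ z, κ₀ (R.d1 z) - κ₁ z * (1 - el ℤ s⁻¹) ∈ LI ℤ B) ∧
    κ₀ x₀ - 1 - t * (1 - el ℤ s⁻¹) ∈ LI ℤ B ∧ ∀ y, κ₁ (R.d2 y) ∈ LI ℤ B

/-- [TRF] The transfer of a cocycle.
PROOF (from `St_HL1`, `St_HL2`, `St_LIZ`). `S` is generated by `s` and `B` (`Asc.asc`). Let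
`l₀(x) = λ(x)_1`, `l₀(g x) = λ(x)_(g⁻¹)`, finitely many `g`, so `Hi π l₀`. `l = l₀ ∘ d2` is `Hi`, `l ∘ d3 = 0`,
`∑_(b ∈ B) l(b v) = ∑_b λ(d2 v)_(b⁻¹) = sg B 1 (λ(d2 v)) = 0`. `St_HL2`: `l = m ∘ d2`, `Hi π m`,
`∑_b m(b x) = 0`. `(l₀ - m) ∘ d2 = 0`; `St_HL1`: `l₀ - m = c ∘ d1`, `Hi π c`. Put `L(x) = ∑_(b ∈ B) c(b x)`,
a finite sum by `Hi π c` (heights `≥ 0`). `L(d1 x) = ∑_b (l₀ - m)(b x) = ∑_b λ(x)_(b⁻¹) = sg B 1 (λ x)`.
`L(b x) = L(x)`. If `C` is a bound for the heights of the `g` with `hgt g ≥ 0` and `c(g x) ≠ 0`, then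
`L(g x) = ∑_b c(b g x) = 0` for `hgt g > C`, `hgt g ≥ 0`. -/
def St_TRF : Prop := ∀ (S : Type) [Group S] (R : Short S), Ori R → ∀ (π : S →* Multiplicative ℤ)
  (s : S) (B : Subgroup S), Asc π s B → ∀ lam : R.P1 →ₗ[ZG S] ZG S,
  (∀ y, lam (R.d2 y) ∈ LI ℤ B) →
  ∃ L : R.P0 →+ ℤ, (∀ x, L (R.d1 x) = sg B 1 (lam x)) ∧ (∀ b ∈ B, ∀ x, L (el ℤ b • x) = L x) ∧
    ∀ x, ∃ C : ℤ, ∀ g : S, C ≤ hgt π g → L (el ℤ g • x) = 0

/-- [NB] The base is normal.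
PROOF (from `St_TRL`, `St_TRF`, `St_LIZ`). `κ₀, κ₁, x_0, t`, and `L` for `κ₁`. `M(g) = L(g⁻¹ x_0)`; choose
`y_h` with `d1 y_h = (h - 1) x_0`. `M(h⁻¹ g) - M(g) = L(g⁻¹ (h - 1) x_0) = L(d1(g⁻¹ y_h)) =
sg B 1 (g⁻¹ κ₁(y_h)) = sg B g (κ₁ y_h)`. Modulo `LI ℤ B`: `κ₁(y_h) (1 - s⁻¹) ≡ (h - 1) κ₀(x_0) ≡
(h - 1) + (h - 1) t (1 - s⁻¹)` (`LI` is a left ideal). For `h = b ∈ B`: `(κ₁(y_b) - (b - 1) t)(1 - s⁻¹) ∈ LI`,
so `κ₁(y_b) - (b - 1) t ∈ LI` (`St_LIZ` 4), and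
`sg B g (κ₁ y_b) = sg B (b⁻¹ g) t - sg B g t`. For `h = s` (`s - 1 = s (1 - s⁻¹)`):
`κ₁(y_s) - (s - 1) t - s ∈ LI`, `sg B g (κ₁ y_s) = sg B (s⁻¹ g) t - sg B g t + [g ∈ s B]`
(`sg B g (el s) = 1` if `g⁻¹ s ∈ B`, else `0`). Let `M'(g) = M(g) - sg B g t`. So
`M'(b⁻¹ g) = M'(g)` and `M'(s⁻¹ g) = M'(g) + [g ∈ s B]`. `M'(g b) = M'(g)` is not needed. There is `C`
with `M'(g) = 0` for `hgt g ≤ -C` (`L(g⁻¹ x_0) = 0` for `hgt g⁻¹` large, `t` has finite support). Iterating,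
`M'(g) = - #{i < N : s^(-i) g ∈ s B}` for large `N`. If `hgt g = 1` only `i = 0` counts: `M'(g) = -[g ∈ s B]`.
So `M'(s) = -1`, `M'(b s) = M'(s) = -1` for `b ∈ B`, hence `b s ∈ s B`, `s⁻¹ b s ∈ B`. -/
def St_NB : Prop := ∀ (S : Type) [Group S] (R : Short S), Ori R → ∀ (π : S →* Multiplicative ℤ)
  (s : S) (B : Subgroup S), Asc π s B → ∀ u ∈ B, s⁻¹ * u * s ∈ B

end Pool.Agent.PDT
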