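import Pool.Agent.PDT.StB

/-!
# PDT: statements C, the normal base, assembly

Every `def St_X : Prop` is a module; its docstring is the proof. Prove it in a file
`Pool/Agent/PDT/X.lean` as `theorem thm_X : St_X` (namespace `Pool.Agent.PDT`); modules it uses are
hypotheses `(h : St_Y)`.

`Ext2 x φ`: the map `φ : Rel ℤ x → ℤ[K]` extends to a linear map on `ℤ[K]^d`, i.e.
`φ(y) = ∑ y_i v_i`. `TwoD x φ`: `H^2(K; ℤ[K]) = ℤ` is generated by the class of `φ`, with the trivial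
right action.
-/

set_option autoImplicit false
set_option linter.unusedVariables false

namespace Pool.Agent.PDT

open Pool.Agent.PDA Pool.Agent.PDB Pool.Agent.PDE Subgroup

/-! ## the second cohomology of the kernel -/

/-- [SPL] Splitting of functions, and linear maps.
PROOF. (1) Dual basis `z = ∑_k F_k(z) u_k` (`St_FDB` 1). `l(z) = ∑_k ∑_g F_k(z)_g l(g u_k)`. Let `l₂(z)` be the part
of this sum with `hgt g ≥ 0` and `l₁(z)` the part with `hgt g < 0`; both are additive.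
`l₂(h z) = ∑_k ∑_(g', hgt (h g') ≥ 0) F_k(z)_g' l(h g' u_k)`. If it is not zero there are `k` and `g'` in the
finite support of `F_k(z)` with `hgt h + hgt g' ≥ 0` and `l(h g' u_k) ≠ 0`. So `hgt h ≥ -C`, and if also
`hgt h ≤ -c`, then `h` has one of finitely many heights and, by `Fb`, is one of finitely many elements:
`Hi π⁻¹ l₂`. In the same way `Hi π l₁` (`hgt h < C`, `hgt h ≥ c`). (2) For `x` and all `g` but finitely many
`l(g x) = 0` (heights `≥ 0` and `≤ 0`). `f(x) = ∑_g l(g⁻¹ x) g`. (3) `l(g x) = (g f(x))_1 = f(x)_(g⁻¹)`. -/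
def St_SPL : Prop := ∀ (S : Type) [Group S] (π : S →* Multiplicative ℤ) (P : Type) [AddCommGroup P]
  [Module (ZG S) P], (Module.Finite (ZG S) P → Module.Projective (ZG S) P → ∀ l : P →+ ℤ, Fb π l →
    ∃ l₁ l₂ : P →+ ℤ, Hi π l₁ ∧ Hi π⁻¹ l₂ ∧ ∀ x, l x = l₁ x + l₂ x) ∧
  (∀ l : P →+ ℤ, Hi π l → Hi π⁻¹ l → ∃ f : P →ₗ[ZG S] ZG S,
    ∀ (x : P) (g : S), (f x).coeff g = l (el ℤ g⁻¹ • x)) ∧
  ∀ (f : P →ₗ[ZG S] ZG S) (l : P →+ ℤ), (∀ x, l x = (f x).coeff 1) →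
    Hi π l ∧ Hi π⁻¹ l ∧ ∀ (x : P) (g : S), l (el ℤ g • x) = (f x).coeff g⁻¹

/-- [H2K] The cohomology of the kernel.
PROOF (from `St_SPL`, `St_HL2`). `K = π.ker`. `St_HL2` applies to `(π, s, K)` and to `(π⁻¹, s⁻¹, K)` (write `Lo`
for `Hi π⁻¹`). `Hi` and `Lo` imply `Fb`; `Fb` is closed under sums. Let `Z` be the set of the `l : P2 → ℤ`
with `Fb π l`, `l ∘ d3 = 0`. For `l ∈ Z` and `n ∈ ℤ` say `C(l) = n` if there are `l₁` `Hi`, `l₂` `Lo` and
`f : P3 → ℤ[S]` linear with `l = l₁ + l₂`, `l₁(d3 x) = f(x)_1` for all `x`, `θ(f) = n`. (i) For every `l ∈ Z`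
there is such an `n`: `St_SPL` 1; `l₁ ∘ d3 = - l₂ ∘ d3` is `Hi` and `Lo`, `St_SPL` 2. (ii) `n` is unique: for
`l₁', l₂', f'` the map `l₁ - l₁' = l₂' - l₂` is `Hi` and `Lo`, so it is `g(·)_1`, and `f - f' = g ∘ d3`
(compare the coefficients at `1` for `h x`), so `θ f = θ f'`. `C` is additive. (iii) If `l = m ∘ d2`, `m` `Fb`,
then `C(l) = 0`: `m = m₁ + m₂`, `l_i = m_i ∘ d2`, `f = 0`. (iv) If `C(l) = 0`, then `f = g ∘ d3`,
`g : P2 → ℤ[S]`; `l₁' = l₁ - g(·)_1`, `l₂' = l₂ + g(·)_1` satisfy `l_i' ∘ d3 = 0`, so by `St_HL2` 1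
`l₁' = m₁ ∘ d2`, `l₂' = m₂ ∘ d2`, `m₁` `Hi`, `m₂` `Lo`, and `l = (m₁ + m₂) ∘ d2`. (v) Let `θ(f_0) = 1`. By
`St_HL2` 2 `f_0(·)_1 = l₁ ∘ d3`, `- f_0(·)_1 = l₂ ∘ d3` with `l₁` `Hi`, `l₂` `Lo`; `l0 = l₁ + l₂ ∈ Z`,
`C(l0) = 1`. (vi) For `g ∈ S` let `l^g(x) = l(g x)`. `l₁^g` is `Hi`, `l₂^g` is `Lo`, and
`l₁(g (d3 x)) = f(g x)_1 = f(x)_(g⁻¹) = (f(x) g)_1`; so `C(l^g) = θ(rm f g) = θ(f) = C(l)` (`Ori`). The claims
follow: `C(l - C(l) l0) = 0`; `C(n l0) = n`; `C(l0^g - l0) = 0`. -/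
def St_H2K : Prop := ∀ (S : Type) [Group S] (R : Short S), Ori R → ∀ (π : S →* Multiplicative ℤ)
  (s : S), π s = Multiplicative.ofAdd 1 → Group.FG π.ker →
  ∃ l0 : R.P2 →+ ℤ, Fb π l0 ∧ (∀ x, l0 (R.d3 x) = 0) ∧
    (∀ l : R.P2 →+ ℤ, Fb π l → (∀ x, l (R.d3 x) = 0) →
      ∃ (c : ℤ) (m : R.P1 →+ ℤ), Fb π m ∧ ∀ x, l x - c * l0 x = m (R.d2 x)) ∧
    (∀ (n : ℤ) (m : R.P1 →+ ℤ), Fb π m → (∀ x, n * l0 x = m (R.d2 x)) → n = 0) ∧
    ∀ g : S, ∃ m : R.P1 →+ ℤ, Fb π m ∧ ∀ x, l0 (el ℤ g • x) - l0 x = m (R.d2 x)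

/-- [HM2] Comparison of two projective resolutions up to degree one, both directions.
PROOF. As `Pool/Agent/PDA/HOM.lean`. `α₀ : Q0 → F0`, `α₁ : Q1 → F1`, `β₀`, `β₁` are lifts of the identity.
`β₀ α₀ - 1 = f' h`, `γ = β₁ α₁ - 1 - h f'`; symmetrically `α₀ β₀ - 1 = f h'`,
`γ' = α₁ β₁ - 1 - h' f : F1 → F1`. -/
def St_HM2 : Prop := ∀ (Λ M F0 F1 Q0 Q1 : Type) [Ring Λ] [AddCommGroup M] [Module Λ M]
  [AddCommGroup F0] [Module Λ F0] [AddCommGroup F1] [Module Λ F1]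
  [AddCommGroup Q0] [Module Λ Q0] [AddCommGroup Q1] [Module Λ Q1]
  [Module.Projective Λ F0] [Module.Projective Λ F1] [Module.Projective Λ Q0]
  [Module.Projective Λ Q1] (e : F0 →ₗ[Λ] M) (f : F1 →ₗ[Λ] F0) (e' : Q0 →ₗ[Λ] M)
  (f' : Q1 →ₗ[Λ] Q0), Function.Surjective e → Function.Surjective e' →
  LinearMap.range f = LinearMap.ker e → LinearMap.range f' = LinearMap.ker e' →
  ∃ (α : Q1 →ₗ[Λ] F1) (β : F1 →ₗ[Λ] Q1) (γ : Q1 →ₗ[Λ] Q1) (γ' : F1 →ₗ[Λ] F1),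
    (∀ x, f' x = 0 → f (α x) = 0) ∧ (∀ x, f x = 0 → f' (β x) = 0) ∧ (∀ x, f' (γ x) = 0) ∧
    (∀ x, f (γ' x) = 0) ∧ (∀ x, f' x = 0 → β (α x) - γ x = x) ∧ ∀ x, f x = 0 → α (β x) - γ' x = x

/-- [HKK] `H^2(K; ℤ[K]) = ℤ` for `K = π.ker`.
PROOF (from `St_H2K`, `St_HM2`, `St_FRE`, `St_BDR`; compare `Pool/Agent/PDA/FG2.lean`, `STK.lean`). Make
`P0, P1` (and `P2`) into `ℤ[K]`-modules along `res ℤ K`; they are projective (`St_FRE`). (i) `ℤ[K]`-linear maps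
`ψ : P → ℤ[K]` are the same as additive maps `l : P → ℤ` with `Fb π l` (`P = P1`): `l(x) = ψ(x)_1`,
`ψ(x) = ∑_(k ∈ K) l(k⁻¹ x) k`; `{g | hgt g = c ∧ l(g x) ≠ 0}` is in bijection with
`{k ∈ K | l(k (s^c x)) ≠ 0}`. (ii) `ℤ[K]`-linear maps `ψ : ker d1 → ℤ[K]` are the same as additive
`l : P2 → ℤ` with `Fb π l` and `l ∘ d3 = 0` (`l(x) = ψ(d2 x)_1`; `ker d1 = range d2`, `ker d2 = range d3`), and
`ψ` extends to `P1` iff `l = m ∘ d2` with `Fb π m`. (iii) `St_HM2` with `M = Tr ℤ K`, `F1 = P1 → F0 = P0 → M`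
and `Q1 = ℤ[K]^d → Q0 = ℤ[K] → M` (`bd ℤ x`, `aug`; `St_BDR`): `α, β, γ, γ'`. Let `ψ0 : ker d1 → ℤ[K]` belong to
`l0` of `St_H2K` and `φ = ψ0 ∘ α` on `Rel ℤ x = ker bd`. gen: let `L : Rel ℤ x → ℤ[K]` be linear and
`ψ = L ∘ β` on `ker d1`. `ψ - c ψ0 = E` on `ker d1`, `E : P1 → ℤ[K]`. For `y ∈ Rel ℤ x`:
`L y = L(β(α y)) - L(γ y) = c φ(y) + E(α y) - L(γ y)`, and `E ∘ α - L ∘ γ` is defined on `ℤ[K]^d`. inf: if
`n φ = E` on `Rel ℤ x`, `E : ℤ[K]^d → ℤ[K]`, then for `z ∈ ker d1`: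
`n ψ0(z) = n ψ0(α(β z)) - n ψ0(γ' z) = E(β z) - n ψ0(γ' z)`, and the right side is defined on `P1`; so `n = 0`.
tri: `ψ0(z) k - ψ0(z)` belongs to `l0(k x) - l0(x)` (`(ψ0(z) k)_1 = ψ0(z)_(k⁻¹) = ψ0(k z)_1`), so it extends to
`E : P1 → ℤ[K]`, and `φ(y) k - φ(y) = E(α y)`. -/
def St_HKK : Prop := ∀ (S : Type) [Group S] (R : Short S), Ori R → ∀ (π : S →* Multiplicative ℤ)
  (s : S), π s = Multiplicative.ofAdd 1 → Group.FG π.ker → ∀ (d : ℕ) (x : Fin d → π.ker),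
  closure (Set.range x) = ⊤ → ∃ φ : Rel ℤ x →ₗ[ZG π.ker] ZG π.ker, TwoD x φ

/-! ## finiteness of the relation module -/

/-- [CNT] A projective module with countable dual is finitely generated.
PROOF. `σ : P → (X →₀ Λ)` linear, `p : (X →₀ Λ) → P` with `p σ = id` (`X = P`). If `σ_ξ ≠ 0` only for `ξ` in a
finite set, `P` is generated by the `p(e_ξ)` for these `ξ`. Otherwise choose recursively `ξ_n ∈ X` and `y_n ∈ P`
with `σ_(ξ_n)(y_n) ≠ 0` and `ξ_n` not in the supports of `σ(y_0), …, σ(y_(n-1))`. For `A ⊆ ℕ` let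
`h_A(y) = ∑_(n ∈ A) σ_(ξ_n)(y)` (finite sum: the `ξ_n` are different, as `ξ_m` is in the support of `σ(y_m)`),
a linear map `P → Λ`. If `A ≠ A'`, let `n` be the least element in which they differ:
`h_A(y_n) - h_(A')(y_n) = ± σ_(ξ_n)(y_n) ≠ 0`. So `A ↦ h_A` is injective, but `Set ℕ` is uncountable. -/
def St_CNT : Prop := ∀ (Λ P : Type) [Ring Λ] [AddCommGroup P] [Module Λ P],
  Module.Projective Λ P → Countable (P →ₗ[Λ] Λ) → Module.Finite Λ P

/-- [RFK] PROOF (from `St_CNT`). `K` and `ℤ[K]` are countable. By `TwoD.gen` every linear `L : Rel ℤ x → ℤ[K]`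
is `y ↦ c φ(y) + ∑ y_i v_i`, so it is determined by `(c, v) ∈ ℤ × ℤ[K]^d`. -/
def St_RFK : Prop := ∀ (K : Type) [Group K], Group.FG K → ∀ (d : ℕ) (x : Fin d → K),
  Module.Projective (ZG K) (Rel ℤ x) → ∀ φ : Rel ℤ x →ₗ[ZG K] ZG K, TwoD x φ →
  (⊤ : Submodule (ZG K) (Rel ℤ x)).FG

/-! ## traces of idempotents -/

/-- the trace belonging to a function on the group -/
noncomputable def trf {k K : Type} [CommRing k] [Group K] {n : ℕ} (f : K → k)
    (A : Matrix (Fin n) (Fin n) (MonoidAlgebra k K)) : k :=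
  ∑ i, (A i i).coeff.sum fun g a => a * f g

/-- [BTR] The trace of the `p`-th power.
PROOF. `T = trf f` is additive and `T(X Y) = T(Y X)`. (i) LEMMA: in a ring `Λ`, if `T : Λ → 𝔽_p` is additive with
`T(X Y) = T(Y X)` then `T((X + Y)^p) = T(X^p) + T(Y^p)`. `(X + Y)^p` is the sum of the products
`w(0) w(1) … w(p-1)` over all `w : Fin p → {X, Y}`, i.e. over `w : ZMod p → Bool`. The value of `T` on the product
is invariant under the cyclic shift `w ↦ w(· + 1)`. The group `ℤ/p` acts on the words, and the fixed points are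
the two constant words. For every `c ∈ 𝔽_p` the number of the words with value `c` is congruent modulo `p` to the
number of the constant words with value `c` (`Equiv.Perm.card_fixedPoints_modEq` or
`IsPGroup.card_modEq_card_fixedPoints`); sum over `c`. (ii) Both sides of the claim are additive in `A`, by (i) for
the left side, so it suffices to take `A` with one entry `a g` in position `(i, j)`. If `i ≠ j`, `A^p = 0` and
both sides are `0`. If `i = j`, `A^p` has the entry `a^p g^p = a g^p` and both sides are `a f(g^p)`. -/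
def St_BTR : Prop := ∀ (p : ℕ) [Fact p.Prime] (K : Type) [Group K] (n : ℕ)
  (A : Matrix (Fin n) (Fin n) (MonoidAlgebra (ZMod p) K)) (f : K → ZMod p),
  (∀ g h, f (g * h) = f (h * g)) → trf f (A ^ p) = trf (fun g => f (g ^ p)) A

/-- [BTI] (Bass) Traces of idempotents.
PROOF (from `St_BTR`). For a conjugacy class `C` let `t(C) = ∑_i ∑_(g ∈ C) E_ii(g) ∈ ℤ`; `X = {C | t(C) ≠ 0}` is
finite. Let `p` be a prime larger than all `|t(C)|`. Reduce modulo `p` (`Ē^p = Ē`) and apply `St_BTR` to the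
characteristic function `f` of `C` (`g h` and `h g` are conjugate): `t(C) ≡ ∑ E_ii(g)` over `i` and the `g` with
`g^p ∈ C`, which is `∑ t(D)` over the classes `D` with `D^p = C` (`D^p` = the class of `u^p`, `u ∈ D`). So if
`C ∈ X` there is `D ∈ X` with `D^p = C` (otherwise `t(C) ≡ 0`). Choose `ρ : X → X` with `ρ(C)^p = C`. `ρ` is
injective, `X` is finite, so `ρ^m = id` for some `m > 0`, and `C^(p^m) = C` for `C ∈ X`: for `u ∈ C` there is `g`
with `g u g⁻¹ = u^(p^m)`, so `u = 1`. So `X ⊆ {{1}}` and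
`∑_i aug(E_ii) = ∑_C t(C) = t({1}) = ∑_i E_ii(1)`. -/
def St_BTI : Prop := ∀ (K : Type) [Group K],
  (∀ (g u : K) (N : ℕ), 2 ≤ N → g * u * g⁻¹ = u ^ N → u = 1) → ∀ (n : ℕ)
  (E : Matrix (Fin n) (Fin n) (ZG K)), E * E = E →
  ∑ i, aug ℤ K (E i i) = ∑ i, (E i i).coeff 1

/-- [TFA] `PD_3`-groups are torsion-free.
PROOF (from `St_TOP`, `St_RLZ`, `St_BAS`, `St_TF0`). `R : Short G`. `G` is infinite: otherwise let
`N = ∑_g g ∈ ℤ[G]`; `f(x) = e(x) N` is a linear map `P0 → ℤ[G]`, `f ∘ d1 = 0`, so `f = 0` (`Short.h0`), but `e` is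
onto. Suppose that `K` has torsion; then there are a prime `p` and `c ∈ K`, `c ≠ 1`, `c^p = 1`. Let
`C = zpowers (j c) ≤ G`, finite, of infinite index (`C.index = 0`). `St_RLZ` for `C`, `C.subtype`, `d = 1`, the
generator `x`: `Rel ℤ x` is projective; `St_BAS`: `Rel (ZMod p) x` is projective; `St_TF0`: `x = 1`,
contradiction. -/
def St_TFA : Prop := ∀ (G : Type) [Group G], IsPD3 G → ∀ (K : Type) [Group K] (j : K →* G),
  Function.Injective j → TorFree K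

/-- [BSC] No `g u g⁻¹ = u^N`.
PROOF (from `St_TFA`, `St_BSX`). Suppose `g u g⁻¹ = u^N`, `N ≥ 2`, `u ≠ 1`; `u` has infinite order. Let `H` be the
subgroup generated by `g`, `u`. (i) For every `h ∈ H` there are `a, b : ℕ` with
`h u^(N^a) h⁻¹ = u^(N^b)`: `(0,1)` for `g`, `(1,0)` for `g⁻¹`, `(0,0)` for `u^(± 1)`; if `(a,b)` works for `h` and
`(a',b')` for `h'` then `(a + a', b + b')` works for `h h'`. (ii) `b - a` depends only on `h`: if also `(a',b')`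
works for `h` then `h u^(N^(a+a')) h⁻¹ = u^(N^(b+a')) = u^(N^(b'+a))`, so `b + a' = b' + a` (`u` has infinite
order, `N ≥ 2`). So `π(h) = b - a` is a homomorphism `H → ℤ`, `π(g) = 1`, `π(u) = 0`. (iii) Every `h ∈ H` is
`g^(-n) u^i g^m` with `n, m : ℕ`, `i : ℤ`: the set of these elements is stable under right multiplication with
`g`, with `g⁻¹` (if `m = 0`: `g^(-n) u^i g⁻¹ = g^(-n-1) u^(N i)`) and with `u^(± 1)` (`g^m u = u^(N^m) g^m`).
`π(h) = m - n`. If `π(h) = 0` then `g^n h g^(-n) = u^i`. So `BSData H π u g N`, and `St_BSX` gives `N ≤ 1`. -/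
def St_BSC : Prop := ∀ (G : Type) [Group G], IsPD3 G → ∀ (K : Type) [Group K] (j : K →* G),
  Function.Injective j → ∀ (g u : K) (N : ℕ), 2 ≤ N → g * u * g⁻¹ = u ^ N → u = 1

/-- [B1K] A homomorphism onto `ℤ`.
PROOF (from `St_BDR`). `Λ = ℤ[K]`, `P = Rel ℤ x`. Finite dual basis `y = ∑_(j < m) ρ_j(y) r_j` of `P`. Let
`ε_0 = φ`, `ε_i = y_(i-1)` (`1 ≤ i ≤ d`), linear maps `P → Λ`. By `TwoD.gen` `ρ_j = ∑_b ε_b(·) v_(b,j)`
(`v_(0,j) ∈ ℤ`). Let `V = (v_(b,j))`, `W = (ε_a(r_j))_(j,a)`, `E = 1 - V W`, of size `d + 1`. (i)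
`∑_b ε_b(y) (V W)_(b,a) = ∑_j ρ_j(y) ε_a(r_j) = ε_a(y)`. So `∑_b ε_b(y) E_(b,a) = 0` for `y ∈ P`; with `y = r_j`:
`W E = 0`, and `E E = E - V W E = E`. (ii) Suppose that there is no homomorphism onto `ℤ`. CLAIM: if
`z ∈ Λ^(d+1)` and `∑_b ε_b(y) z_b = 0` for all `y ∈ P`, then `aug(z_b) = 0` for all `b`. Let `n = aug(z_0)`;
`z_0 - n = ∑_k z_0(k) (k - 1)`, so `y ↦ φ(y) (z_0 - n)` is `Ext2` (`TwoD.tri`), and
`n φ(y) = - φ(y)(z_0 - n) - ∑_i y_i z_(i+1)` is `Ext2`, so `n = 0` (`TwoD.inf`). Let `n_i = aug(z_(i+1))`. The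
augmentation of the relation gives `∑ n_i aug(y_i) = 0` for `y ∈ P`. As in `Pool/Agent/PDE/INQ.lean`:
`y ↦ ∑ n_i aug(y_i)` on `Λ^d` factors through `bd`, which gives a homomorphism `χ : K → ℤ` with `χ(x_i) = n_i`; if
some `n_i ≠ 0`, its image is `m ℤ`, `m ≠ 0`, and division by `m` gives a homomorphism onto `ℤ`. So `n_i = 0`. (iii)
The claim for the columns of `E`: `aug(E_(b,a)) = 0`, so `∑ (E_ii)_1 = ∑ aug(E_ii) = 0` and `E = 0` by the
hypothesis. So if `z` is as in the claim, `z = V W z = 0` (`(W z)_j = ∑_a ε_a(r_j) z_a = 0`). `z = (0, x_0 - 1, …)`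
is of this kind (`∑ y_i (x_i - 1) = bd y = 0`). So `x_i = 1` for all `i` and `K` is trivial, contradiction. -/
def St_B1K : Prop := ∀ (K : Type) [Group K] (d : ℕ) (x : Fin d → K), closure (Set.range x) = ⊤ →
  Module.Projective (ZG K) (Rel ℤ x) → (⊤ : Submodule (ZG K) (Rel ℤ x)).FG →
  (∀ q : Matrix (Fin (d + 1)) (Fin (d + 1)) (ZG K), q * q = q →
    (∑ i, aug ℤ K (q i i) = ∑ i, (q i i).coeff 1) ∧ (∑ i, (q i i).coeff 1 = 0 → q = 0)) →
  ∀ φ : Rel ℤ x →ₗ[ZG K] ZG K, TwoD x φ → Nontrivial K →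
  ∃ π : K →* Multiplicative ℤ, Function.Surjective π

/-! ## the base of the kernel -/

/-- [SPK] Splitting by the completions at both ends.
PROOF (from `St_DFI`, `St_BDR`). Let `φ(y) s - φ(y) = V(y)` for `y ∈ Rel ℤ x`, `V(y) = ∑ y_i v_i` for all
`y ∈ ℤ[S]^d`. Functions `S → ℤ`, `(g F)(z) = F(g⁻¹ z)`. For `y ∈ ℤ[S]^d` let
`Ψ₊(y)(z) = - ∑_(n ≥ 0) V(y)_(z s^(-n))`, `Ψ₋(y)(z) = ∑_(n ≥ 1) V(y)_(z s^n)` (finite sums, since the heights of the
support of `V(y)` are bounded). `Ψ₊(y)` is zero on small heights, `Ψ₋(y)` on large heights, and both are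
fibrewise finite; both are linear (`Ψ(g y) = g Ψ(y)`, additive). For `y ∈ Rel ℤ x`
`V(y)_z = φ(y)_(z s⁻¹) - φ(y)_z` and the sums telescope: `Ψ₊(y)(z) = φ(y)_z = Ψ₋(y)(z)`. So `Δ = Ψ₊ - Ψ₋` is zero on
`Rel ℤ x`. Let `bd y_g = g - 1` (`St_BDR`), `D(g) = Δ(y_g)`: `y_(g h) - y_g - g y_h ∈ Rel ℤ x`, so
`D(g h) = D(g) + g D(h)`, fibrewise finite. `St_DFI`: `D(g) = g m - m` with `m` fibrewise finite. For `a ∈ ℤ[S]` let
`(a * m)(z) = ∑_h a_h m(h⁻¹ z)`. `Δ(y) = bd(y) * m` for all `y`: for `y = g e_i` `Δ(g e_i) = g Δ(e_i) = g D(x_i) =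
g x_i m - g m`. Let `m₊ = m` on the heights `≥ 0` and `0` elsewhere, `m₋ = m - m₊`. Then
`Ψ(y) := Ψ₊(y) - bd(y) * m₊ = Ψ₋(y) + bd(y) * m₋` is fibrewise finite, zero on small heights (first form) and on
large heights (second form), so it is finitely supported; it is linear in `y`, so `Ψ(y) = ∑ y_i v'_i` with
`v'_i = Ψ(e_i) ∈ ℤ[S]`. For `y ∈ Rel ℤ x` `Ψ(y) = Ψ₊(y) = φ(y)`. -/
def St_SPK : Prop := ∀ (S : Type) [Group S] (π : S →* Multiplicative ℤ) (s : S) (B : Subgroup S),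
  Asc π s B → ∀ (d : ℕ) (x : Fin d → S), closure (Set.range x) = ⊤ →
  ∀ φ : Rel ℤ x →ₗ[ZG S] ZG S, Ext2 x (fun y => φ y * el ℤ s - φ y) → Ext2 x (fun y => φ y)

/-- [CAZ] Ascending over a cyclic group.
PROOF (from `St_BSX`). As in `Pool/Agent/PDA/FND.lean`. If `y = 1`, `B` is trivial and `ker π` is trivial
(`s^m g s^(-m) = 1` implies `g = 1`). Otherwise `s y s⁻¹ = y^m`, `BSData K π y s m` (`y` has infinite order), so
`|m| ≤ 1`, `m ≠ 0`, `m = ± 1`, `s⁻¹ y s = y^m`, and `ker π = zpowers y`. -/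
def St_CAZ : Prop := ∀ (G : Type) [Group G], IsPD3 G → ∀ (K : Type) [Group K] (j : K →* G),
  Function.Injective j → TorFree K → ∀ (π : K →* Multiplicative ℤ) (s y : K),
  π s = Multiplicative.ofAdd 1 → zpowers y ≤ π.ker → s * y * s⁻¹ ∈ zpowers y →
  (∀ g ∈ π.ker, ∃ m : ℕ, s ^ m * g * (s ^ m)⁻¹ ∈ zpowers y) → π.ker = zpowers y

/-- [KEY] The kernel is cyclic-by-infinite cyclic.
PROOF (from `St_RPJ`, `St_RFK`, `St_FG3`, `St_BTI`, `St_BSC`, `St_B1K`, `St_SCF`, `St_TFA`, `St_END`, `St_SPK`,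
`St_CAZ`; `Pool.Agent.CPD.St_KAP` is the hypothesis `hKAP`). `InPD3 K`, so `RelProj K`. By `St_RFK` all `Rel ℤ x`
(`x` generating) are finitely generated, and all `Rel ℚ x` (`St_FG3`). `K` is infinite, so `Nontrivial K`;
`St_B1K` (traces: `St_BTI` with `St_BSC`, and `hKAP`) gives `π₀ : K → ℤ` onto. `St_SCF` for `ℚ`: `π, s, B, b`. `B` is
finitely generated, torsion-free (`St_TFA` for `K`), `NoF2 B` (restrict). `St_END`: if `OneEnd B` and `B` is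
infinite then `Asc π s B`; choose a generating `x` and `φ` with `TwoD x φ`; `TwoD.tri` for `k = s` and `St_SPK` say
that `φ` is `Ext2`, against `TwoD.inf` for `n = 1`. If `B` is finite it is trivial (torsion-free). So
`B = zpowers y` in all cases, and `St_CAZ` gives `π.ker = zpowers y`. -/
def St_KEY : Prop := ∀ (G : Type) [Group G], IsPD3 G → ∀ (K : Type) [Group K] (j : K →* G),
  Function.Injective j → j.range.index = 0 → Group.FG K → Infinite K → NoF2 K →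
  (∀ (d : ℕ) (x : Fin d → K), closure (Set.range x) = ⊤ →
    ∃ φ : Rel ℤ x →ₗ[ZG K] ZG K, TwoD x φ) →
  ∃ (π : K →* Multiplicative ℤ) (y : K), Function.Surjective π ∧ π.ker = zpowers y

/-! ## finite index -/

/-- [FIS] Subgroups of finite index.
PROOF (from `St_FG1`, `St_FRE`). Same `P_i`, `d_i`, `e`, with the `ℤ[S]`-module structure along
`mapDomainRingHom ℤ j` (`Module.compHom`); finitely generated (`St_FG1`) and projective (`St_FRE`). Let `T ∋ 1` be a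
finite set with `G` the disjoint union of the `j(S) τ`, `τ ∈ T`. For `f : P → ℤ[S]` linear over `ℤ[S]` let
`f~(x) = ∑_τ τ⁻¹ j(f(τ x))`, linear over `ℤ[G]` (`τ g = j(s_τ) τ'`, `τ ↦ τ'` a permutation of `T`, so
`τ⁻¹ j(f(τ g x)) = τ⁻¹ j(s_τ) j(f(τ' x)) = g τ'⁻¹ j(f(τ' x))`). For `F : P → ℤ[G]` linear let `F_S(x)` be the part of
`F(x)` supported on `j(S)`, as an element of `ℤ[S]`; `F_S` is linear over `ℤ[S]`. `(f~)_S = f` (only `τ = 1`
contributes) and `(F_S)~ = F` (`τ⁻¹ j(F_S(τ x))` is the part of `F(x)` supported on `τ⁻¹ j(S)`, and `G` is the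
disjoint union of the `τ⁻¹ j(S)`). Both are additive and commute with composition with `d_i`. So `h0`, `h1`, `h2` for
`S` follow from those for `G`, and `θ_S(f) = θ(f~)` has the required properties. `(rm f s)~ = rm f~ (j s)`, so
`θ_S(rm f s) = w(j s) θ_S(f) = θ_S(f)`. -/
def St_FIS : Prop := ∀ (G : Type) [Group G] (R : Short G) (w : G →* ℤˣ),
  (∀ (f : R.P3 →ₗ[ZG G] ZG G) (g : G), R.θ (rm f g) = (w g : ℤ) * R.θ f) →
  ∀ (S : Type) [Group S] (j : S →* G), Function.Injective j → j.range.index ≠ 0 →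
  (∀ s, w (j s) = 1) → ∃ R' : Short S, Ori R'

/-- [FNT] The last step.
PROOF (from `St_TOP`, `St_BSX`, `St_ABK`, `St_KLE`, `St_PZ3`, `St_PZF`, `St_PZV`). Copy of
`Pool/Agent/PDE/FNE.lean`, from the line `rcases hSTE B hCB hBfg with hB | hB` on. -/
def St_FNT : Prop := ∀ (G : Type) [Group G], IsPD3 G → ∀ (S : Type) [Group S] (j : S →* G),
  Function.Injective j → TorFree S → ∀ (π : S →* Multiplicative ℤ) (s : S) (B : Subgroup S) (n : ℕ)
  (b : Fin n → B), π s = Multiplicative.ofAdd 1 → B ≤ π.ker → closure (Set.range b) = ⊤ →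
  closure (Set.range (cz s b)) = ⊤ → (∀ u ∈ B, s * u * s⁻¹ ∈ B) →
  (∀ g ∈ π.ker, ∃ m : ℕ, s ^ m * g * (s ^ m)⁻¹ ∈ B) → CbC B → VPolyZ S

/-- [FIB] Subgroups of finite index with trivial orientation character.
PROOF (from `St_TOP`, `St_FG2`, `St_FG3`, `St_SCF`, `St_TFA`, `St_END`, `St_NB`, `St_HKK`, `St_KEY`, `St_FNT`). `R₀` from
`St_TOP`. `S` is finitely generated (`St_GFG`). `Rel ℚ x` is finitely generated for all generating `x` (`St_FG2`,
`St_FG3`). `St_SCF`: `π', s, B, b`. `S` and `B` are torsion-free (`St_TFA`), `NoF2 B`. By `St_FNT` it suffices to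
show `CbC B`. `St_END`: (i) `B = zpowers y`: if `y = 1`, `B` is trivial; otherwise `B` is infinite cyclic, `π_B` the
inverse of `n ↦ y^n`, kernel `⊥ = zpowers 1`. (ii) `OneEnd B`: if `B` is finite it is trivial. Otherwise
`Asc π' s B`, `St_NB`: `s⁻¹ B s ≤ B`, so `B = K = π'.ker` (`s^m g s^(-m) ∈ B` implies `g ∈ B`). `St_HKK` for `K`; `K → G`
is injective with image of infinite index (`Subgroup.index_ker`); `St_KEY` for `K`. -/
def St_FIB : Prop := ∀ (G : Type) [Group G], IsPD3 G → ∀ (S : Type) [Group S] (j : S →* G),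
  Function.Injective j → j.range.index ≠ 0 → ∀ R : Short S, Ori R → NoF2 S →
  ∀ π : S →* Multiplicative ℤ, Function.Surjective π → VPolyZ S

/-- [MDT] The main theorem.
PROOF (from `St_TOP`, `St_WCH`, `St_FIS`, `St_FIB`, `St_VPF`; compare `Pool/Agent/PDE/MDE.lean`). `R : Short G`, `w` from
`St_WCH`. Let `H2 ≤ H` be the intersection of `H1` with the kernel of `w` on `H` (index at most 2); `H2` has finite
index in `H`, and `H2 → H → G` is injective with image of finite index. `χ` is not trivial on `H2` (if `χ h ≠ 1` then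
`h^n ∈ H2` for some `n > 0` and `χ(h^n) ≠ 1`); its image is `m ℤ`, `m ≠ 0`; divide by `m`: `π : H2 → ℤ` onto. `St_FIS`,
`St_FIB`, `St_VPF`. -/
def St_MDT : Prop := ∀ (G : Type) [Group G], IsPD3 G → ∀ H : Subgroup G, H.index ≠ 0 → NoF2 H →
  (∃ H1 : Subgroup H, H1.index ≠ 0 ∧ ∃ χ : H1 →* Multiplicative ℤ, χ ≠ 1) → VPolyZ H

end Pool.Agent.PDT
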